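import Pool.Agent.Lib.MP_4a8162_co.FB.StmA

set_option autoImplicit false

/-!
# MP_4a8162_co, FB, piece AEX: the coefficient functionals exist
-/

namespace Pool.Agent.Lib.MP_4a8162_co.FB

open Finset
open scoped Classical

section

variable {V E : Type} [Fintype V] [Fintype E]

/-- the approximations of the functionals -/
private noncomputable def AEX_B (p : E → V × V) (x : ℝ) (D : Finset E) (θ : Setoid V) (v h : V) :
    ℕ → Setoid V → ((Setoid V → ℝ) →ₗ[ℝ] ℝ)
  | 0, _ => 0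
  | n + 1, π => LinearMap.proj π -
      ∑ ρ ∈ (FL p D θ v h).filter (fun ρ => π < ρ),
        ((1 / x) ^ (cs π - cs (wi p D v h π ρ ρ))) •
          (AEX_B p x D θ v h n ρ).comp (LinearMap.funLeft ℝ ℝ (wi p D v h π ρ))

private theorem AEX_lt {π ρ : Setoid V} (h : π < ρ) : cs ρ < cs π := by
  refine lt_of_le_of_ne (cs_anti h.le) fun h1 => ?_
  exact h.ne (eq_of_cs_le h.le h1.ge)

private theorem AEX_pos (v : V) (π : Setoid V) : 0 < cs π := by
  unfold cs
  haveI : Nonempty (Quotient π) := ⟨Quotient.mk'' v⟩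
  exact Nat.card_pos

private theorem AEX_stable (p : E → V × V) (x : ℝ) (D : Finset E) (θ : Setoid V) (v h : V) :
    ∀ (n m : ℕ) (π : Setoid V), cs π ≤ n → cs π ≤ m →
      AEX_B p x D θ v h n π = AEX_B p x D θ v h m π := by
  intro n
  induction n with
  | zero =>
    intro m π h1 _
    have := AEX_pos v π
    omega
  | succ n ih =>
    intro m π h1 h2
    have h3 := AEX_pos v π
    obtain ⟨m, rfl⟩ : ∃ k, m = k + 1 := ⟨m - 1, by omega⟩
    simp only [AEX_B]
    congr 1
    refine Finset.sum_congr rfl fun ρ hρ => ?_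
    have h4 := AEX_lt (Finset.mem_filter.1 hρ).2
    rw [ih m ρ (by omega) (by omega)]

private noncomputable def AEX_A (p : E → V × V) (x : ℝ) (D : Finset E) (θ : Setoid V) (v h : V)
    (π : Setoid V) : (Setoid V → ℝ) →ₗ[ℝ] ℝ := AEX_B p x D θ v h (cs π) π

private theorem AEX_eq (p : E → V × V) (x : ℝ) (D : Finset E) (θ : Setoid V) (v h : V)
    (π : Setoid V) (g : Setoid V → ℝ) :
    AEX_A p x D θ v h π g = g π -
      ∑ ρ ∈ (FL p D θ v h).filter (fun ρ => π < ρ),
        (1 / x) ^ (cs π - cs (wi p D v h π ρ ρ)) *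
          AEX_A p x D θ v h ρ (fun σ => g (wi p D v h π ρ σ)) := by
  have h3 := AEX_pos v π
  obtain ⟨m, hm⟩ : ∃ k, cs π = k + 1 := ⟨cs π - 1, by omega⟩
  unfold AEX_A
  rw [AEX_stable p x D θ v h (cs π) (m + 1) π le_rfl hm.le]
  simp only [AEX_B, LinearMap.sub_apply, LinearMap.proj_apply, LinearMap.sum_apply,
    LinearMap.smul_apply, smul_eq_mul, LinearMap.comp_apply]
  congr 1
  refine Finset.sum_congr rfl fun ρ hρ => ?_
  have h4 := AEX_lt (Finset.mem_filter.1 hρ).2
  rw [AEX_stable p x D θ v h m (cs ρ) ρ (by omega) le_rfl]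
  rfl

private theorem AEX_le_full {p : E → V × V} {D : Finset E} {θ : Setoid V} {v h : V}
    {π ρ σ : Setoid V} (hπ : Fl p D θ π) (hσ : σ ≤ gen p D ⊔ θ) :
    wi p D v h π ρ σ ≤ gen p D ⊔ θ := by
  unfold wi
  refine sup_le hπ.le_full ?_
  rw [wire_le_iff]
  intro a _ b _ hab
  exact hσ hab

private theorem AEX_supp (p : E → V × V) (x : ℝ) (D : Finset E) (θ : Setoid V) (v h : V) :
    ∀ (n : ℕ) (π : Setoid V), cs π ≤ n → π ∈ FL p D θ v h → ∀ g g' : Setoid V → ℝ,
      (∀ σ, π ≤ σ → σ ≤ gen p D ⊔ θ → g σ = g' σ) →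
      AEX_A p x D θ v h π g = AEX_A p x D θ v h π g' := by
  intro n
  induction n with
  | zero =>
    intro π h1
    have := AEX_pos v π
    omega
  | succ n ih =>
    intro π h1 hπ g g' hg
    have hf : Fl p D θ π := (mem_FL.1 hπ).1
    rw [AEX_eq, AEX_eq, hg π le_rfl hf.le_full]
    congr 1
    refine Finset.sum_congr rfl fun ρ hρ => ?_
    rw [Finset.mem_filter] at hρ
    have h4 := AEX_lt hρ.2
    congr 1
    refine ih ρ (by omega) hρ.1 _ _ fun σ _ hσ => ?_
    refine hg _ ?_ (AEX_le_full hf hσ)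
    unfold wi
    exact le_sup_left

private theorem AEX_claim {p : E → V × V} {D : Finset E} {θ : Setoid V} {v h : V}
    {π : Setoid V} (hπ : Fl p D θ π) {a b : V} (hab : (gen p D ⊔ θ) a b) (hn : ¬ π a b) :
    ∃ a' ∈ Rv p D v h π, π a a' := by
  by_contra hc
  push Not at hc
  let t : Setoid V :=
    { r := fun x y => (π x a ↔ π y a)
      iseqv := ⟨fun _ => Iff.rfl, fun h => h.symm, fun h h' => h.trans h'⟩ }
  have h1 : gen p D ⊔ θ ≤ t := by
    refine sup_le ?_ ?_
    · rw [gen_le_iff]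
      intro e he
      show π (p e).1 a ↔ π (p e).2 a
      by_cases h2 : π (p e).1 (p e).2
      · exact ⟨fun h3 => π.trans (π.symm h2) h3, fun h3 => π.trans h2 h3⟩
      · have hcut : e ∈ cutE p D π := mem_cutE.2 ⟨he, h2⟩
        have h3 : ¬ π a (p e).1 := hc _ (Or.inr (Or.inr ⟨e, hcut, Or.inl rfl⟩))
        have h4 : ¬ π a (p e).2 := hc _ (Or.inr (Or.inr ⟨e, hcut, Or.inr rfl⟩))
        exact ⟨fun h5 => absurd (π.symm h5) h3, fun h5 => absurd (π.symm h5) h4⟩
    · intro c d hcd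
      have h2 : π c d := hπ.le hcd
      exact ⟨fun h3 => π.trans (π.symm h2) h3, fun h3 => π.trans h2 h3⟩
  have h2 : π a a ↔ π b a := h1 hab
  exact hn (π.symm (h2.1 (π.refl a)))

private theorem AEX_wi {p : E → V × V} {D : Finset E} {θ : Setoid V} {v h : V}
    {π σ : Setoid V} (hπ : Fl p D θ π) (h1 : π ≤ σ) (h2 : σ ≤ gen p D ⊔ θ) :
    wi p D v h π π σ = σ := by
  unfold wi
  apply le_antisymm
  · refine sup_le h1 ?_
    rw [wire_le_iff]
    intro a _ b _ hab
    exact hab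
  · intro a b hab
    by_cases hn : π a b
    · exact (le_sup_left : π ≤ π ⊔ wire (Rv p D v h π) σ) hn
    · rw [sup_wire_rel h1]
      obtain ⟨a', ha', h3⟩ := AEX_claim (v := v) (h := h) hπ (h2 hab) hn
      obtain ⟨b', hb', h4⟩ := AEX_claim (v := v) (h := h) hπ (h2 (σ.symm hab))
        (fun h5 => hn (π.symm h5))
      exact Or.inr ⟨a', ha', b', hb', h3, σ.trans (σ.symm (h1 h3)) (σ.trans hab (h1 h4)),
        π.symm h4⟩

end

theorem p_AEX : S_AEX := by
  intro V E _ _ p x D θ v h _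
  refine ⟨AEX_A p x D θ v h, ?_, ?_⟩
  · intro π hπ g g' hg
    exact AEX_supp p x D θ v h (cs π) π le_rfl hπ g g' hg
  · intro π hπ g
    have hf : Fl p D θ π := (mem_FL.1 hπ).1
    have hins : (FL p D θ v h).filter (fun ρ => π ≤ ρ) =
        insert π ((FL p D θ v h).filter (fun ρ => π < ρ)) := by
      ext ρ
      simp only [Finset.mem_filter, Finset.mem_insert]
      constructor
      · rintro ⟨h1, h2⟩
        rcases h2.eq_or_lt with h3 | h3
        · exact Or.inl h3.symm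
        · exact Or.inr ⟨h1, h3⟩
      · rintro (rfl | ⟨h1, h2⟩)
        · exact ⟨hπ, le_rfl⟩
        · exact ⟨h1, h2.le⟩
    rw [hins, Finset.sum_insert (by simp), AEX_wi hf le_rfl hf.le_full, Nat.sub_self, pow_zero,
      one_mul, AEX_supp p x D θ v h (cs π) π le_rfl hπ (fun σ => g (wi p D v h π π σ)) g
        (fun σ h1 h2 => by rw [AEX_wi hf h1 h2]), AEX_eq]
    ring

end Pool.Agent.Lib.MP_4a8162_co.FB
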