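import Pool.Agent.Lib.MP_4a8162_co.FB.StmA

set_option autoImplicit false

namespace Pool.Agent.Lib.MP_4a8162_co.FB

open Finset
open scoped Classical

section

variable {V E : Type} [Fintype V] [Fintype E]

private lemma bnd_gl_rel {l : List (V × V)} {e : V × V} (he : e ∈ l) : gl l e.1 e.2 := by
  induction l with
  | nil => simp at he
  | cons f l ih =>
    rcases List.mem_cons.1 he with rfl | he
    · exact (le_sup_left : jn e.1 e.2 ≤ jn e.1 e.2 ⊔ gl l) (jn_rel _ _)
    · exact (le_sup_right : gl l ≤ jn f.1 f.2 ⊔ gl l) (ih he)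

private lemma bnd_m {p : E → V × V} {D : Finset E} {θ π : Setoid V} (hπ : Fl p D θ π) :
    cs π ≤ cs (gen p D ⊔ θ) + (cutE p D π).card := by
  have h1 := cs_le_gl ((cutE p D π).toList.map p) π
  rw [List.length_map, Finset.length_toList] at h1
  have h2 : gen p D ⊔ θ ≤ π ⊔ gl ((cutE p D π).toList.map p) := by
    refine sup_le ?_ (hπ.le.trans le_sup_left)
    rw [gen_le_iff]
    intro e he
    by_cases h3 : π (p e).1 (p e).2
    · exact (le_sup_left : π ≤ π ⊔ _) h3
    · refine (le_sup_right : gl ((cutE p D π).toList.map p) ≤ π ⊔ gl _)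
        (bnd_gl_rel (e := p e) ?_)
      exact List.mem_map.2 ⟨e, Finset.mem_toList.2 (mem_cutE.2 ⟨he, h3⟩), rfl⟩
  exact h1.trans (Nat.add_le_add_right (cs_anti h2) _)

private lemma bnd_cls {π : Setoid V} {a b : V} : b ∈ cls π a ↔ π a b := by
  simp [cls]

private lemma bnd_uc {p : E → V × V} {D : Finset E} {θ : Setoid V} {v h : V} {π : Setoid V}
    (hπ : Fl p D θ π) (hW : Wh p D θ v π) :
    (uc p D v h π).card + cs (gen p D ⊔ θ) ≤ cs π := by
  have hle : π ≤ gen p D ⊔ θ := hπ.le_full
  have huc : ∀ X : {X // X ∈ uc p D v h π}, ∃ a : V, X.1 = cls π a ∧ (gen p D ⊔ θ) a v ∧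
      ¬ π v a := by
    rintro ⟨X, hX⟩
    simp only [uc, mem_filter, mem_image, mem_univ, true_and] at hX
    obtain ⟨⟨a, rfl⟩, hv, -, e, he, h1⟩ := hX
    rw [mem_cutE] at he
    have hr : (gen p D ⊔ θ) (p e).1 (p e).2 :=
      (le_sup_left : gen p D ≤ gen p D ⊔ θ) (gen_rel he.1)
    refine ⟨a, rfl, ?_, fun h2 => hv (bnd_cls.2 (π.symm h2))⟩
    by_contra hav
    rw [bnd_cls, bnd_cls] at h1
    rcases h1 with h2 | h2
    · have h3 : π a (p e).2 := hW a _ ((gen p D ⊔ θ).trans (hle h2) hr) hav
      exact he.2 (π.trans (π.symm h2) h3)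
    · have h3 : π a (p e).1 :=
        hW a _ ((gen p D ⊔ θ).trans (hle h2) ((gen p D ⊔ θ).symm hr)) hav
      exact he.2 (π.trans (π.symm h3) h2)
  choose a ha1 ha2 ha3 using huc
  obtain ⟨rep, hrep, hrv⟩ : ∃ rep : Quotient (gen p D ⊔ θ) → V,
      (∀ P, (Quotient.mk'' (rep P) : Quotient (gen p D ⊔ θ)) = P) ∧
      ∀ P, (gen p D ⊔ θ) (rep P) v → rep P = v := by
    refine ⟨fun P => if P = Quotient.mk'' v then v else P.out, ?_, ?_⟩
    · intro P
      by_cases hP : P = Quotient.mk'' v
      · simp [hP]
      · simp [hP]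
    · intro P h1
      by_cases hP : P = Quotient.mk'' v
      · simp [hP]
      · simp only [if_neg hP] at h1
        exfalso
        apply hP
        have h2 : (Quotient.mk'' P.out : Quotient (gen p D ⊔ θ)) = Quotient.mk'' v :=
          Quotient.sound' h1
        rw [← h2]
        exact (Quotient.out_eq' P).symm
  have hf : Function.Injective
      (Sum.elim (fun X => Quotient.mk'' (a X)) (fun P => Quotient.mk'' (rep P)) :
        {X // X ∈ uc p D v h π} ⊕ Quotient (gen p D ⊔ θ) → Quotient π) := by
    rintro (X | P) (Y | Q) h1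
    · have h2 : π (a X) (a Y) := Quotient.exact' h1
      congr 1
      apply Subtype.ext
      rw [ha1, ha1]
      ext b
      rw [bnd_cls, bnd_cls]
      exact ⟨fun h3 => π.trans (π.symm h2) h3, fun h3 => π.trans h2 h3⟩
    · exfalso
      have h2 : π (a X) (rep Q) := Quotient.exact' h1
      have h3 := hrv Q ((gen p D ⊔ θ).trans ((gen p D ⊔ θ).symm (hle h2)) (ha2 X))
      rw [h3] at h2
      exact ha3 X (π.symm h2)
    · exfalso
      have h2 : π (rep P) (a Y) := Quotient.exact' h1
      have h3 := hrv P ((gen p D ⊔ θ).trans (hle h2) (ha2 Y))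
      rw [h3] at h2
      exact ha3 Y h2
    · have h2 : π (rep P) (rep Q) := Quotient.exact' h1
      congr 1
      rw [← hrep P, ← hrep Q]
      exact Quotient.sound' (hle h2)
  have h1 := Nat.card_le_card_of_injective _ hf
  rw [Nat.card_sum] at h1
  have h2 : Nat.card {X // X ∈ uc p D v h π} = (uc p D v h π).card := by
    rw [Nat.card_eq_fintype_card, Fintype.card_coe]
  rw [h2] at h1
  exact h1

end

theorem p_BND : S_BT → S_BND := by
  intro hBT V E _ _ p x D θ v h A hx hA hfull π hπ hW g M hM
  have hπ' := mem_FL.1 hπ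
  obtain ⟨L, hL⟩ : ∃ L : List (Cd V), L = (cutE p D π).toList.map
      (fun e => (⟨{(p e).1, (p e).2}, none⟩ : Cd V)) := ⟨_, rfl⟩
  have hlen : L.length = (cutE p D π).card := by
    rw [hL, List.length_map, Finset.length_toList]
  have hmem : ∀ c ∈ L, ∃ e ∈ cutE p D π, c = ⟨{(p e).1, (p e).2}, none⟩ := by
    intro c hc
    rw [hL] at hc
    obtain ⟨e, he, rfl⟩ := List.mem_map.1 hc
    exact ⟨e, Finset.mem_toList.1 he, rfl⟩
  have hsat : ∀ c ∈ L, ¬ Sat π c.S := by
    intro c hc hs
    obtain ⟨e, he, rfl⟩ := hmem c hc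
    exact (mem_cutE.1 he).2 (hs _ (by simp) _ (by simp))
  have hnone : ∀ c ∈ L, c.X = none := by
    intro c hc
    obtain ⟨e, he, rfl⟩ := hmem c hc
    rfl
  have hcd : cd p D π (uc p D v h π \ uc p D v h π) ++ L = L := by
    simp [cd]
  have hTT : TT p x D θ v h A π L g = A π g := by
    unfold TT
    rw [Finset.sum_eq_single π]
    · have hw : wt x π L = 1 := by
        unfold wt
        apply List.prod_eq_one
        intro y hy
        obtain ⟨c, hc, rfl⟩ := List.mem_map.1 hy
        rw [if_neg (hsat c hc)]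
      rw [hw, Nat.sub_self, pow_zero, one_mul, one_mul]
      have hs : ∀ σ, sp π L σ = σ := by
        intro σ
        ext a b
        constructor
        · intro h1
          exact h1.1
        · intro h1
          exact ⟨h1, fun c hc hs => absurd hs (hsat c hc)⟩
      simp only [hs]
    · intro ρ hρ hne
      rw [mem_filter, mem_FL] at hρ
      obtain ⟨⟨hρ1, -⟩, hρ2⟩ := hρ
      have hw : wt x ρ L = 0 := by
        have hex : ∃ e ∈ cutE p D π, ρ (p e).1 (p e).2 := by
          by_contra hno
          push Not at hno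
          apply hne
          apply le_antisymm _ hρ2
          have h1 : ρ = gen p (Din p D ρ) ⊔ θ := hρ1
          rw [h1]
          refine sup_le ?_ hπ'.1.le
          rw [gen_le_iff]
          intro e he
          by_contra hc
          exact hno e (mem_cutE.2 ⟨(mem_Din.1 he).1, hc⟩) (mem_Din.1 he).2
        obtain ⟨e, he, hre⟩ := hex
        unfold wt
        apply List.prod_eq_zero
        refine List.mem_map.2 ⟨⟨{(p e).1, (p e).2}, none⟩, ?_, ?_⟩
        · rw [hL]
          exact List.mem_map.2 ⟨e, Finset.mem_toList.2 he, rfl⟩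
        · rw [if_pos]
          · simp
          · intro a ha b hb
            rcases ha with rfl | ha <;> rcases hb with rfl | hb
            · exact ρ.refl _
            · cases hb
              exact hre
            · cases ha
              exact ρ.symm hre
            · cases ha
              cases hb
              exact ρ.refl _
      rw [hw, mul_zero, zero_mul]
    · intro hn
      exact absurd (mem_filter.2 ⟨hπ, le_refl π⟩) hn
  have hM0 : 0 ≤ M := (abs_nonneg _).trans (hM π le_rfl hπ'.1.le_full)
  have key := hBT V E p x D θ v h A hx hA hfull π π hπ le_rfl hW (uc p D v h π) (subset_refl _)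
    L g M 0 ?_ ?_ ?_ hM
  · rw [hcd, hTT, pow_zero, mul_one, hlen] at key
    refine key.trans ?_
    apply mul_le_mul_of_nonneg_right _ hM0
    have h1 := bnd_m hπ'.1
    have h2 := bnd_uc (h := h) hπ'.1 hW
    have h3 : cs π - cs (gen p D ⊔ θ) ≤ (cutE p D π).card := by omega
    have h4 : (uc p D v h π).card + (cutE p D π).card ≤ 2 * (cutE p D π).card := by omega
    calc (16 : ℝ) ^ (cs π - cs (gen p D ⊔ θ)) * 2 ^ ((uc p D v h π).card + (cutE p D π).card)
        ≤ 16 ^ (cutE p D π).card * 2 ^ (2 * (cutE p D π).card) := by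
          apply mul_le_mul
          · exact pow_le_pow_right₀ (by norm_num) h3
          · exact pow_le_pow_right₀ (by norm_num) h4
          · positivity
          · positivity
      _ = 64 ^ (cutE p D π).card := by
          rw [pow_mul, ← mul_pow]
          norm_num
  · intro c hc
    obtain ⟨e, he, rfl⟩ := hmem c hc
    exact hπ'.1.sup_jn (mem_cutE.1 he).1
  · intro c hc X hX
    rw [hnone c hc] at hX
    cases hX
  · intro ρ hρ hle
    rw [hcd]
    have h1 : ns ρ L = 0 := by
      unfold ns
      rw [List.length_eq_zero_iff, List.filter_eq_nil_iff]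
      intro c hc
      rw [decide_eq_true_eq, hnone c hc]
      simp
    rw [h1]
    have := cs_anti hle
    omega

end Pool.Agent.Lib.MP_4a8162_co.FB
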