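import Pool.Agent.Lib.MP_4a8162_co.FB.StmF

set_option autoImplicit false

namespace Pool.Agent.Lib.MP_4a8162_co.FB

open Finset
open scoped Classical

theorem p_BRZ : S_PDI → S_BRZ := by
  intro hP V E _ _ p x D θ e he hbr
  have h1 := hP V E p x (D.erase e) θ e (Finset.notMem_erase e D)
  rw [Finset.insert_erase he] at h1
  rw [h1, sub_eq_zero]
  unfold PolD
  rw [Finset.mul_sum]
  apply Finset.sum_congr rfl
  intro B hB
  have hB' := Finset.mem_powerset.1 hB
  have h2 : ¬ (gen p B ⊔ θ) (p e).1 (p e).2 := fun h3 =>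
    hbr ((sup_le_sup_right (gen_mono hB') θ) h3)
  have h3 := cs_jn h2
  rw [← sup_assoc, ← h3, pow_succ]
  ring

end Pool.Agent.Lib.MP_4a8162_co.FB
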