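import Pool.Agent.Lib.MP_4a8162_co.FB.StmA

set_option autoImplicit false
set_option linter.unusedSectionVars false

/-!
# MP_4a8162_co, REAL FLOW ROOTS ARE BOUNDED: piece BT, the bound for the sums with conditions
-/

namespace Pool.Agent.Lib.MP_4a8162_co.FB

open Finset
open scoped Classical

section BT

variable {V E : Type} [Fintype V] [Fintype E]

private theorem BT_mem_cls {π : Setoid V} {a b : V} : b ∈ cls π a ↔ π a b := by simp [cls]

private theorem BT_uc_cls {p : E → V × V} {D : Finset E} {v h : V} {π : Setoid V} {X : Finset V}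
    (hX : X ∈ uc p D v h π) : ∃ a, X = cls π a := by
  simp only [uc, mem_filter, mem_image, mem_univ, true_and] at hX
  obtain ⟨⟨a, ha⟩, _⟩ := hX
  exact ⟨a, ha.symm⟩

private theorem BT_ns_append (ρ : Setoid V) (l l' : List (Cd V)) :
    ns ρ (l ++ l') = ns ρ l + ns ρ l' := by
  simp [ns, List.filter_append]

private theorem BT_ns_perm {ρ : Setoid V} {l l' : List (Cd V)} (h : l.Perm l') :
    ns ρ l = ns ρ l' := (h.filter _).length_eq

private theorem BT_ns_some {ρ : Setoid V} {c : Cd V} {l : List (Cd V)} (h1 : Sat ρ c.S)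
    (h2 : c.X.isSome = true) : ns ρ (c :: l) = ns ρ l + 1 := by
  unfold ns
  rw [List.filter_cons_of_pos (by simp [h1, h2]), List.length_cons]

private theorem BT_ns_le {ρ : Setoid V} {c : Cd V} {l : List (Cd V)} :
    ns ρ l ≤ ns ρ (c :: l) := by
  unfold ns
  rw [List.filter_cons]
  split_ifs
  · simp
  · exact le_rfl

private theorem BT_ns_congr {p : E → V × V} {D : Finset E} {ρ π π' : Setoid V}
    {K : Finset (Finset V)}
    (h : ∀ X ∈ K, (Sat ρ (nbh p D π X : Set V) ↔ Sat ρ (nbh p D π' X : Set V))) :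
    ns ρ (cd p D π K) = ns ρ (cd p D π' K) := by
  unfold ns cd
  rw [List.filter_map, List.filter_map, List.length_map, List.length_map]
  congr 1
  refine List.filter_congr fun X hX => ?_
  have h1 := h X (Finset.mem_toList.1 hX)
  simp only [Function.comp_apply, h1]

private theorem BT_TT_zero {p : E → V × V} {x : ℝ} {D : Finset E} {θ : Setoid V} {v h : V}
    {A : Setoid V → (Setoid V → ℝ) →ₗ[ℝ] ℝ} {π : Setoid V} (hvh : π v h) (L : List (Cd V))
    (g : Setoid V → ℝ) : TT p x D θ v h A π L g = 0 := by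
  unfold TT
  rw [Finset.filter_eq_empty_iff.2, Finset.sum_empty]
  intro ρ hρ hle
  exact (mem_FL.1 hρ).2 (hle hvh)

private theorem BT_cd_split (p : E → V × V) (D : Finset E) (π : Setoid V)
    (K : Finset (Finset V)) (P : Finset V → Prop) [DecidablePred P] :
    (cd p D π K).Perm (cd p D π (K.filter P) ++ cd p D π (K.filter fun X => ¬ P X)) := by
  unfold cd
  rw [← List.map_append]
  apply List.Perm.map
  rw [← Multiset.coe_eq_coe, ← Multiset.coe_add, Finset.coe_toList, Finset.coe_toList,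
    Finset.coe_toList]
  exact (Multiset.filter_add_not P K.val).symm

private theorem BT_cd_insert (p : E → V × V) (D : Finset E) (π : Setoid V)
    (K : Finset (Finset V)) {X : Finset V} (hX : X ∉ K) :
    (cd p D π (insert X K)).Perm
      ((⟨(nbh p D π X : Set V), some (X : Set V)⟩ : Cd V) :: cd p D π K) := by
  unfold cd
  have h1 := (Finset.toList_insert hX).map
    fun X : Finset V => (⟨(nbh p D π X : Set V), some (X : Set V)⟩ : Cd V)
  rwa [List.map_cons] at h1

private theorem BT_mem_cd {p : E → V × V} {D : Finset E} {π : Setoid V}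
    {K : Finset (Finset V)} {c : Cd V} (hc : c ∈ cd p D π K) :
    ∃ X ∈ K, c = ⟨(nbh p D π X : Set V), some (X : Set V)⟩ := by
  unfold cd at hc
  obtain ⟨X, hX, rfl⟩ := List.mem_map.1 hc
  exact ⟨X, Finset.mem_toList.1 hX, rfl⟩

/-- the claim at a partition -/
private def BTat (p : E → V × V) (x : ℝ) (D : Finset E) (θ : Setoid V) (v h : V)
    (A : Setoid V → (Setoid V → ℝ) →ₗ[ℝ] ℝ) (π₀ π : Setoid V) : Prop :=
  ∀ K' ⊆ uc p D v h π, ∀ (L : List (Cd V)) (g : Setoid V → ℝ) (M : ℝ) (e : ℕ),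
  (∀ c ∈ L, Fl p D θ (π ⊔ wire c.S ⊤)) →
  (∀ c ∈ L, ∀ X, c.X = some X → ∀ a b, π₀ a b → (a ∈ X ↔ b ∈ X)) →
  (∀ ρ ∈ FL p D θ v h, π ≤ ρ →
    ns ρ (cd p D π (uc p D v h π \ K') ++ L) + cs ρ ≤ cs π + e) →
  (∀ σ, π₀ ≤ σ → σ ≤ gen p D ⊔ θ → |g σ| ≤ M) →
  |TT p x D θ v h A π (cd p D π (uc p D v h π \ K') ++ L) g| ≤
    16 ^ (cs π - cs (gen p D ⊔ θ)) * 2 ^ (K'.card + L.length) * x ^ e * M

private theorem BT_Mnonneg {p : E → V × V} {D : Finset E} {θ : Setoid V} {v h : V}
    {π₀ π : Setoid V} (hπ : π ∈ FL p D θ v h) (h0 : π₀ ≤ π) {g : Setoid V → ℝ} {M : ℝ}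
    (hg : ∀ σ, π₀ ≤ σ → σ ≤ gen p D ⊔ θ → |g σ| ≤ M) : 0 ≤ M :=
  (abs_nonneg _).trans (hg _ h0 (mem_FL.1 hπ).1.le_full)

/-- the step to a coarser partition -/
private theorem BT_jump (TPM : S_TPM) (UCC : S_UCC) (TEQ : S_TEQ) (FLN : S_FLN)
    {p : E → V × V} {x : ℝ} {D : Finset E} {θ : Setoid V} {v h : V}
    {A : Setoid V → (Setoid V → ℝ) →ₗ[ℝ] ℝ} (hx : 1 ≤ x) {π₀ π : Setoid V}
    (hπ : π ∈ FL p D θ v h) (h0 : π₀ ≤ π) (hW : Wh p D θ v π)
    (OIH : ∀ π' ∈ FL p D θ v h, π₀ ≤ π' → Wh p D θ v π' → cs π' < cs π →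
      BTat p x D θ v h A π₀ π')
    {S : Set V} {a₀ : V} (ha₀ : a₀ ∈ S) (hfl : Fl p D θ (π ⊔ wire S ⊤))
    (hcs : cs (π ⊔ wire S ⊤) < cs π) (hvh : ¬ (π ⊔ wire S ⊤) v h)
    {K' : Finset (Finset V)} (hK' : K' ⊆ uc p D v h π) {L₁ : List (Cd V)}
    (hL1 : ∀ c ∈ L₁, Fl p D θ (π ⊔ wire c.S ⊤))
    (hL2 : ∀ c ∈ L₁, ∀ X, c.X = some X → ∀ a b, π₀ a b → (a ∈ X ↔ b ∈ X))
    {g : Setoid V → ℝ} {M : ℝ} {e' : ℕ}
    (hns : ∀ ρ ∈ FL p D θ v h, π ⊔ wire S ⊤ ≤ ρ →
      ns ρ (cd p D π (uc p D v h π \ K') ++ L₁) + cs ρ ≤ cs (π ⊔ wire S ⊤) + e')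
    (hg : ∀ σ, π₀ ≤ σ → σ ≤ gen p D ⊔ θ → |g σ| ≤ M) :
    |TT p x D θ v h A (π ⊔ wire S ⊤) (cd p D π (uc p D v h π \ K') ++ L₁) g| ≤
      16 ^ (cs (π ⊔ wire S ⊤) - cs (gen p D ⊔ θ)) *
        2 ^ ((K'.filter fun X => Disjoint X (cls (π ⊔ wire S ⊤) a₀)).card + 1 +
          ((uc p D v h π \ K').filter fun X => ¬ Disjoint X (cls (π ⊔ wire S ⊤) a₀)).card +
          L₁.length) * x ^ e' * M := by
  obtain ⟨u1, u2, -, -⟩ := UCC V E p D v h π S a₀ ha₀
  set π' := π ⊔ wire S ⊤ with hπ'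
  have hle : π ≤ π' := le_sup_left
  set M₀ := cls π' a₀ with hM₀
  set K := uc p D v h π \ K' with hK
  set K₁ := K.filter fun X => Disjoint X M₀ with hK₁
  set K₂ := K.filter fun X => ¬ Disjoint X M₀ with hK₂
  have hKuc : ∀ X ∈ K, X ∈ uc p D v h π := fun X hX => (mem_sdiff.1 hX).1
  have hK₁uc : K₁ ⊆ uc p D v h π' := by
    intro X hX
    rw [hK₁, mem_filter] at hX
    have h1 : X ∈ (uc p D v h π).filter (fun X => Disjoint X M₀) :=
      mem_filter.2 ⟨hKuc X hX.1, hX.2⟩
    rw [← u2] at h1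
    exact (mem_erase.1 h1).2
  have hK₁' : uc p D v h π' \ (uc p D v h π' \ K₁) = K₁ := by
    rw [sdiff_sdiff_right_self]
    exact inf_eq_right.2 hK₁uc
  have hsatK : ∀ X ∈ K₁, ∀ ρ : Setoid V, π' ≤ ρ →
      (Sat ρ (nbh p D π X : Set V) ↔ Sat ρ (nbh p D π' X : Set V)) := by
    intro X hX ρ hρ
    rw [hK₁, mem_filter] at hX
    exact u1 X (BT_uc_cls (hKuc X hX.1)) hX.2 ρ hρ
  have hperm : (cd p D π K ++ L₁).Perm (cd p D π K₁ ++ (cd p D π K₂ ++ L₁)) := by
    rw [← List.append_assoc]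
    exact (BT_cd_split p D π K fun X => Disjoint X M₀).append_right L₁
  rw [TPM V E p x D θ v h A π' _ _ g hperm, TEQ V E p x D θ v h A π π' K₁ _ g hsatK]
  have hπ'FL : π' ∈ FL p D θ v h := mem_FL.2 ⟨hfl, hvh⟩
  have hb := OIH π' hπ'FL (h0.trans hle) (fun a b h1 h2 => hle (hW a b h1 h2)) hcs
    (uc p D v h π' \ K₁) sdiff_subset (cd p D π K₂ ++ L₁) g M e' ?_ ?_ ?_ hg
  · rw [hK₁'] at hb
    refine hb.trans ?_
    have hM : 0 ≤ M := BT_Mnonneg hπ h0 hg
    have hc : (uc p D v h π' \ K₁).card + (cd p D π K₂ ++ L₁).length ≤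
        (K'.filter fun X => Disjoint X M₀).card + 1 + K₂.card + L₁.length := by
      have h1 : uc p D v h π' \ K₁ ⊆ insert M₀ (K'.filter fun X => Disjoint X M₀) := by
        intro X hX
        rw [mem_sdiff] at hX
        rw [mem_insert]
        by_cases hXM : X = M₀
        · exact Or.inl hXM
        · right
          have h2 : X ∈ (uc p D v h π').erase M₀ := mem_erase.2 ⟨hXM, hX.1⟩
          rw [u2, mem_filter] at h2
          rw [mem_filter]
          refine ⟨?_, h2.2⟩
          by_contra hno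
          exact hX.2 (mem_filter.2 ⟨mem_sdiff.2 ⟨h2.1, hno⟩, h2.2⟩)
      have h3 := (card_le_card h1).trans (card_insert_le _ _)
      have h4 : (cd p D π K₂ ++ L₁).length = K₂.card + L₁.length := by
        simp [cd]
      rw [h4]
      omega
    have h5 : (2 : ℝ) ^ ((uc p D v h π' \ K₁).card + (cd p D π K₂ ++ L₁).length) ≤
        2 ^ ((K'.filter fun X => Disjoint X M₀).card + 1 + K₂.card + L₁.length) :=
      pow_le_pow_right₀ (by norm_num) hc
    have hx0 : (0 : ℝ) ≤ x ^ e' := pow_nonneg (by linarith) _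
    refine mul_le_mul_of_nonneg_right ?_ hM
    refine mul_le_mul_of_nonneg_right ?_ hx0
    exact mul_le_mul_of_nonneg_left h5 (by positivity)
  · intro c hc
    rcases List.mem_append.1 hc with hc | hc
    · obtain ⟨X, hX, rfl⟩ := BT_mem_cd hc
      have h1 := (FLN V E p D θ v h π (mem_FL.1 hπ).1 X (hKuc X (mem_filter.1 hX).1)).1
      have h2 := hfl.sup h1
      have h3 : π' ⊔ (π ⊔ wire (nbh p D π X : Set V) ⊤) =
          π' ⊔ wire (nbh p D π X : Set V) ⊤ := by
        rw [← sup_assoc, sup_eq_left.2 hle]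
      rwa [h3] at h2
    · have h2 := hfl.sup (hL1 c hc)
      have h3 : π' ⊔ (π ⊔ wire c.S ⊤) = π' ⊔ wire c.S ⊤ := by
        rw [← sup_assoc, sup_eq_left.2 hle]
      rwa [h3] at h2
  · intro c hc
    rcases List.mem_append.1 hc with hc | hc
    · obtain ⟨X, hX, rfl⟩ := BT_mem_cd hc
      intro Y hY a b hab
      obtain ⟨u, hu⟩ := BT_uc_cls (hKuc X (mem_filter.1 hX).1)
      have h1 : (X : Set V) = Y := Option.some.inj hY
      rw [← h1, mem_coe, mem_coe, hu, BT_mem_cls, BT_mem_cls]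
      exact ⟨fun h2 => π.trans h2 (h0 hab), fun h2 => π.trans h2 (π.symm (h0 hab))⟩
    · exact hL2 c hc
  · intro ρ hρ hρ'
    have h1 := hns ρ hρ hρ'
    rw [BT_ns_perm hperm, BT_ns_append, BT_ns_congr (fun X hX => hsatK X hX ρ hρ')] at h1
    rw [hK₁', BT_ns_append]
    exact h1

private theorem BT_arith1 {x M : ℝ} (hx : 1 ≤ x) (hM : 0 ≤ M) {m m' Δ k k' : ℕ}
    (hm : m = m' + Δ) (hΔ : 1 ≤ Δ) (hk : k' ≤ k + Δ) {T T1 T2 : ℝ}
    (hT : |T| ≤ 16 ^ m * 2 ^ (k - 1) * M) (hk1 : 1 ≤ k)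
    (h1 : |T1| ≤ 16 ^ m' * 2 ^ k' * x ^ (Δ - 1) * M)
    (h2 : |T2| ≤ 16 ^ m' * 2 ^ k' * x ^ (Δ - 1) * M) :
    |T - (1 / x) ^ Δ * (x * T1 - T2)| ≤ 16 ^ m * 2 ^ k * M := by
  have hx0 : 0 < x := by linarith
  obtain ⟨d, rfl⟩ : ∃ d, Δ = d + 1 := ⟨Δ - 1, by omega⟩
  obtain ⟨j, rfl⟩ : ∃ j, k = j + 1 := ⟨k - 1, by omega⟩
  simp only [Nat.add_sub_cancel] at h1 h2 hT
  set Q : ℝ := 16 ^ m' * 2 ^ k' * x ^ d * M with hQ
  have hQ0 : 0 ≤ Q := by positivity
  have h3 : |x * T1 - T2| ≤ (x + 1) * Q := by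
    calc |x * T1 - T2| ≤ |x * T1| + |T2| := abs_sub _ _
      _ = x * |T1| + |T2| := by rw [abs_mul, abs_of_pos hx0]
      _ ≤ x * Q + Q := by
        have := mul_le_mul_of_nonneg_left h1 hx0.le
        linarith
      _ = (x + 1) * Q := by ring
  have h4 : |(1 / x) ^ (d + 1) * (x * T1 - T2)| ≤ 16 ^ m * 2 ^ (j + 1) * M / 4 := by
    rw [abs_mul, abs_of_pos (by positivity)]
    have h5 : (1 / x) ^ (d + 1) * |x * T1 - T2| ≤ (1 / x) ^ (d + 1) * ((x + 1) * Q) :=
      mul_le_mul_of_nonneg_left h3 (by positivity)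
    refine h5.trans ?_
    have h6 : (1 / x) ^ (d + 1) * ((x + 1) * Q) = ((x + 1) / x) * (16 ^ m' * 2 ^ k' * M) := by
      rw [hQ, one_div, inv_pow, pow_succ]
      field_simp
    rw [h6]
    have h7 : (x + 1) / x ≤ 2 := by
      rw [div_le_iff₀ hx0]
      linarith
    have h8 : (2 : ℝ) ^ k' ≤ 2 ^ (j + 1 + (d + 1)) := pow_le_pow_right₀ (by norm_num) hk
    have h9 : (16 : ℝ) ^ m = 16 ^ m' * 16 ^ (d + 1) := by rw [hm, pow_add]
    have h10 : (8 : ℝ) ≤ 8 ^ (d + 1) := by
      have := one_le_pow₀ (show (1 : ℝ) ≤ 8 by norm_num) (n := d)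
      rw [pow_succ]
      linarith
    have h11 : (16 : ℝ) ^ (d + 1) = 8 ^ (d + 1) * 2 ^ (d + 1) := by
      rw [← mul_pow]
      norm_num
    calc (x + 1) / x * (16 ^ m' * 2 ^ k' * M) ≤ 2 * (16 ^ m' * 2 ^ k' * M) :=
          mul_le_mul_of_nonneg_right h7 (by positivity)
      _ ≤ 2 * (16 ^ m' * 2 ^ (j + 1 + (d + 1)) * M) := by
          have := mul_le_mul_of_nonneg_left h8 (show (0 : ℝ) ≤ 16 ^ m' by positivity)
          have := mul_le_mul_of_nonneg_right this hM
          linarith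
      _ = 8 * (16 ^ m' * 2 ^ (j + 1) * 2 ^ (d + 1) * M) / 4 := by
          rw [pow_add (2 : ℝ) (j + 1) (d + 1)]
          ring
      _ ≤ 8 ^ (d + 1) * (16 ^ m' * 2 ^ (j + 1) * 2 ^ (d + 1) * M) / 4 := by
          have := mul_le_mul_of_nonneg_right h10
            (show (0 : ℝ) ≤ 16 ^ m' * 2 ^ (j + 1) * 2 ^ (d + 1) * M by positivity)
          linarith
      _ = 16 ^ m * 2 ^ (j + 1) * M / 4 := by
          rw [h9, h11]
          ring
  have h12 := abs_sub T ((1 / x) ^ (d + 1) * (x * T1 - T2))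
  have h13 : (16 : ℝ) ^ m * 2 ^ (j + 1) * M = 2 * (16 ^ m * 2 ^ j * M) := by
    rw [pow_succ]
    ring
  have h14 : (0 : ℝ) ≤ 16 ^ m * 2 ^ j * M := by positivity
  linarith

/-- the case without additional conditions -/
private theorem BT_base (TID : S_TID) (TST : S_TST) (TPM : S_TPM) (UCC : S_UCC) (TEQ : S_TEQ)
    (EXC : S_EXC) (FLN : S_FLN)
    {p : E → V × V} {x : ℝ} {D : Finset E} {θ : Setoid V} {v h : V}
    {A : Setoid V → (Setoid V → ℝ) →ₗ[ℝ] ℝ} (hx : 1 ≤ x) (hA : IsA p x D θ v h A)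
    (hfull : (gen p D ⊔ θ) v h) {π₀ π : Setoid V}
    (hπ : π ∈ FL p D θ v h) (h0 : π₀ ≤ π) (hW : Wh p D θ v π)
    (OIH : ∀ π' ∈ FL p D θ v h, π₀ ≤ π' → Wh p D θ v π' → cs π' < cs π →
      BTat p x D θ v h A π₀ π')
    {g : Setoid V → ℝ} {M : ℝ} (hg : ∀ σ, π₀ ≤ σ → σ ≤ gen p D ⊔ θ → |g σ| ≤ M) (n : ℕ) :
    ∀ K' ⊆ uc p D v h π, K'.card = n →
      |TT p x D θ v h A π (cd p D π (uc p D v h π \ K')) g| ≤
        16 ^ (cs π - cs (gen p D ⊔ θ)) * 2 ^ K'.card * M := by
  have hM : 0 ≤ M := BT_Mnonneg hπ h0 hg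
  have hfl := (mem_FL.1 hπ).1
  induction n with
  | zero =>
    intro K' _ hc
    rw [card_eq_zero.1 hc, sdiff_empty, TID V E p x D θ v h A (by linarith) hA hfull π hπ hW g,
      card_empty, pow_zero, mul_one]
    have h1 := hg π h0 hfl.le_full
    have h2 : (1 : ℝ) ≤ 16 ^ (cs π - cs (gen p D ⊔ θ)) := one_le_pow₀ (by norm_num)
    have h3 := mul_le_mul_of_nonneg_right h2 hM
    linarith
  | succ n ih =>
    intro K' hK' hc
    obtain ⟨X, hX⟩ := card_pos.1 (by omega : 0 < K'.card)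
    have hXuc := hK' hX
    have hXK : X ∉ uc p D v h π \ K' := fun hc => (mem_sdiff.1 hc).2 hX
    have hins : uc p D v h π \ (K'.erase X) = insert X (uc p D v h π \ K') := by
      ext Y
      simp only [mem_sdiff, mem_erase, mem_insert, not_and]
      by_cases hYX : Y = X
      · subst hYX
        simp [hXuc]
      · simp [hYX]
    have hce : (K'.erase X).card = n := by
      rw [card_erase_of_mem hX]
      omega
    have h1 := ih (K'.erase X) ((erase_subset _ _).trans hK') hce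
    have hp := BT_cd_insert p D π (uc p D v h π \ K') hXK
    rw [hins, TPM V E p x D θ v h A π _ _ g hp, TST V E p x D θ v h A π _ _ g] at h1
    have hFLN := FLN V E p D θ v h π hfl X hXuc
    simp only at h1
    obtain ⟨a₀, ha₀⟩ := BT_uc_cls hXuc
    have ha₀X : a₀ ∈ X := by
      rw [ha₀, BT_mem_cls]
    have ha₀' : a₀ ∈ (nbh p D π X : Set V) := by
      simp only [nbh, coe_filter, mem_univ, true_and]
      exact Or.inl ha₀X
    have hΔ : cs (π ⊔ wire (nbh p D π X : Set V) ⊤) < cs π := hFLN.2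
    have hcfull : cs (gen p D ⊔ θ) ≤ cs (π ⊔ wire (nbh p D π X : Set V) ⊤) :=
      cs_anti hFLN.1.le_full
    have hXπ₀ : ∀ a b, π₀ a b → (a ∈ (X : Set V) ↔ b ∈ (X : Set V)) := by
      intro a b hab
      rw [mem_coe, mem_coe, ha₀, BT_mem_cls, BT_mem_cls]
      exact ⟨fun h2 => π.trans h2 (h0 hab), fun h2 => π.trans h2 (π.symm (h0 hab))⟩
    have hgse : ∀ σ, π₀ ≤ σ → σ ≤ gen p D ⊔ θ → |g (se (X : Set V) σ)| ≤ M := by
      intro σ h2 h3
      apply hg
      · intro a b hab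
        exact ⟨h2 hab, hXπ₀ a b hab⟩
      · intro a b hab
        exact h3 hab.1
    -- the bound for the two sums at the coarser partition
    have hbound : ∀ g' : Setoid V → ℝ, (∀ σ, π₀ ≤ σ → σ ≤ gen p D ⊔ θ → |g' σ| ≤ M) →
        |TT p x D θ v h A (π ⊔ wire (nbh p D π X : Set V) ⊤)
          (cd p D π (uc p D v h π \ K')) g'| ≤
        16 ^ (cs (π ⊔ wire (nbh p D π X : Set V) ⊤) - cs (gen p D ⊔ θ)) *
          2 ^ (K'.card + (cs π - cs (π ⊔ wire (nbh p D π X : Set V) ⊤))) *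
          x ^ (cs π - cs (π ⊔ wire (nbh p D π X : Set V) ⊤) - 1) * M := by
      intro g' hg'
      by_cases hvh : (π ⊔ wire (nbh p D π X : Set V) ⊤) v h
      · rw [BT_TT_zero hvh, abs_zero]
        have : (0 : ℝ) ≤ x ^ (cs π - cs (π ⊔ wire (nbh p D π X : Set V) ⊤) - 1) :=
          pow_nonneg (by linarith) _
        positivity
      · have h5 := BT_jump TPM UCC TEQ FLN hx hπ h0 hW OIH ha₀' hFLN.1 hΔ hvh hK' (L₁ := [])
          (by simp) (by simp) (g := g') (M := M)
          (e' := cs π - cs (π ⊔ wire (nbh p D π X : Set V) ⊤) - 1) (fun ρ hρ hle => by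
            rw [List.append_nil]
            have h6 := EXC V E p D θ v h hfull π hπ hW ρ hρ (le_sup_left.trans hle)
              (uc p D v h π \ (K'.erase X)) sdiff_subset
            rw [hins, BT_ns_perm hp, BT_ns_some
              (wire_le_iff.1 (le_sup_right.trans hle) · · · · trivial) rfl] at h6
            omega) hg'
        rw [List.append_nil] at h5
        refine h5.trans ?_
        obtain ⟨-, -, u3, u4⟩ := UCC V E p D v h π (nbh p D π X : Set V) a₀ ha₀'
        -- `X` meets the new class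
        have hXM : ¬ Disjoint X (cls (π ⊔ wire (nbh p D π X : Set V) ⊤) a₀) := by
          rw [Finset.not_disjoint_iff]
          exact ⟨a₀, ha₀X, BT_mem_cls.2 (Setoid.refl' _ _)⟩
        have hc1 : (K'.filter fun Y => Disjoint Y
            (cls (π ⊔ wire (nbh p D π X : Set V) ⊤) a₀)).card + 1 ≤ K'.card := by
          have h7 : (K'.filter fun Y => Disjoint Y
              (cls (π ⊔ wire (nbh p D π X : Set V) ⊤) a₀)) ⊆ K'.erase X := by
            intro Y hY
            rw [mem_filter] at hY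
            refine mem_erase.2 ⟨?_, hY.1⟩
            rintro rfl
            exact hXM hY.2
          have h8 := card_le_card h7
          rw [hce] at h8
          omega
        have hc2 : ((uc p D v h π \ K').filter fun Y => ¬ Disjoint Y
            (cls (π ⊔ wire (nbh p D π X : Set V) ⊤) a₀)).card + 1 ≤
            cs π - cs (π ⊔ wire (nbh p D π X : Set V) ⊤) + 1 := by
          refine le_trans ?_ u3
          rw [← card_insert_of_notMem (a := X) (fun hc => hXK (mem_filter.1 hc).1)]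
          refine card_le_card ?_
          intro Y hY
          rw [mem_insert] at hY
          rw [mem_filter]
          rcases hY with rfl | hY
          · refine ⟨mem_image.2 ⟨a₀, mem_univ _, ha₀.symm⟩, hXM⟩
          · rw [mem_filter, mem_sdiff] at hY
            obtain ⟨b, hb⟩ := BT_uc_cls hY.1.1
            exact ⟨mem_image.2 ⟨b, mem_univ _, hb.symm⟩, hY.2⟩
        have h9 : (2 : ℝ) ^ ((K'.filter fun X_1 => Disjoint X_1
            (cls (π ⊔ wire (nbh p D π X : Set V) ⊤) a₀)).card + 1 +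
            ((uc p D v h π \ K').filter fun X_1 => ¬ Disjoint X_1
              (cls (π ⊔ wire (nbh p D π X : Set V) ⊤) a₀)).card +
            ([] : List (Cd V)).length) ≤
            2 ^ (K'.card + (cs π - cs (π ⊔ wire (nbh p D π X : Set V) ⊤))) := by
          refine pow_le_pow_right₀ (by norm_num) ?_
          rw [List.length_nil]
          omega
        refine mul_le_mul_of_nonneg_right ?_ hM
        refine mul_le_mul_of_nonneg_right ?_ (pow_nonneg (by linarith) _)
        exact mul_le_mul_of_nonneg_left h9 (by positivity)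
    have hT1 := hbound (fun σ => g (se (X : Set V) σ)) hgse
    have hT2 := hbound g hg
    have h15 := BT_arith1 hx hM (m := cs π - cs (gen p D ⊔ θ))
      (m' := cs (π ⊔ wire (nbh p D π X : Set V) ⊤) - cs (gen p D ⊔ θ))
      (Δ := cs π - cs (π ⊔ wire (nbh p D π X : Set V) ⊤)) (k := K'.card)
      (k' := K'.card + (cs π - cs (π ⊔ wire (nbh p D π X : Set V) ⊤)))
      (by omega) (by omega) le_rfl (by
        have h16 : K'.card - 1 = (K'.erase X).card := by omega
        rw [h16]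
        exact h1) (by omega) hT1 hT2
    refine le_trans (le_of_eq ?_) h15
    congr 1
    ring

private theorem BT_arith2 {x M : ℝ} (hx : 1 ≤ x) (hM : 0 ≤ M) {m m' Δ k j k' e : ℕ}
    (hm : m = m' + Δ) (hΔ : 1 ≤ Δ) (hk : k' ≤ k + 1 + (Δ + 1) + j) {T R : ℝ}
    (hT : |T| ≤ 16 ^ m * 2 ^ (k + j) * x ^ e * M)
    (hR : |R| ≤ 2 * x ^ e * (16 ^ m' * 2 ^ k' * M)) :
    |T + R| ≤ 16 ^ m * 2 ^ (k + (j + 1)) * x ^ e * M := by
  obtain ⟨d, rfl⟩ : ∃ d, Δ = d + 1 := ⟨Δ - 1, by omega⟩
  have hx0 : 0 < x := by linarith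
  have h8 : (2 : ℝ) ^ k' ≤ 2 ^ (k + 1 + (d + 1 + 1) + j) := pow_le_pow_right₀ (by norm_num) hk
  have h9 : (16 : ℝ) ^ m = 16 ^ m' * 16 ^ (d + 1) := by rw [hm, pow_add]
  have h10 : (8 : ℝ) ≤ 8 ^ (d + 1) := by
    have := one_le_pow₀ (show (1 : ℝ) ≤ 8 by norm_num) (n := d)
    rw [pow_succ]
    linarith
  have h11 : (16 : ℝ) ^ (d + 1) = 8 ^ (d + 1) * 2 ^ (d + 1) := by
    rw [← mul_pow]
    norm_num
  have h12 : 2 * x ^ e * (16 ^ m' * 2 ^ k' * M) ≤ 16 ^ m * 2 ^ (k + j) * x ^ e * M := by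
    calc 2 * x ^ e * (16 ^ m' * 2 ^ k' * M)
        ≤ 2 * x ^ e * (16 ^ m' * 2 ^ (k + 1 + (d + 1 + 1) + j) * M) := by
          refine mul_le_mul_of_nonneg_left ?_ (by positivity)
          refine mul_le_mul_of_nonneg_right ?_ hM
          exact mul_le_mul_of_nonneg_left h8 (by positivity)
      _ = 8 * (16 ^ m' * 2 ^ (k + j) * 2 ^ (d + 1) * x ^ e * M) := by
          have : (2 : ℝ) ^ (k + 1 + (d + 1 + 1) + j) = 2 ^ (k + j) * 2 ^ (d + 1) * 4 := by
            rw [show k + 1 + (d + 1 + 1) + j = (k + j) + (d + 1) + 2 by ring, pow_add, pow_add]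
            norm_num
          rw [this]
          ring
      _ ≤ 8 ^ (d + 1) * (16 ^ m' * 2 ^ (k + j) * 2 ^ (d + 1) * x ^ e * M) :=
          mul_le_mul_of_nonneg_right h10 (by positivity)
      _ = 16 ^ m * 2 ^ (k + j) * x ^ e * M := by
          rw [h9, h11]
          ring
  have h13 : (16 : ℝ) ^ m * 2 ^ (k + (j + 1)) * x ^ e * M =
      2 * (16 ^ m * 2 ^ (k + j) * x ^ e * M) := by
    rw [← add_assoc, pow_succ]
    ring
  have h14 := abs_add_le T R
  linarith

/-- the induction step for the list of conditions -/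
private theorem BT_list (TID : S_TID) (TST : S_TST) (TPM : S_TPM) (UCC : S_UCC) (TEQ : S_TEQ)
    (EXC : S_EXC) (FLN : S_FLN)
    {p : E → V × V} {x : ℝ} {D : Finset E} {θ : Setoid V} {v h : V}
    {A : Setoid V → (Setoid V → ℝ) →ₗ[ℝ] ℝ} (hx : 1 ≤ x) (hA : IsA p x D θ v h A)
    (hfull : (gen p D ⊔ θ) v h) {π₀ π : Setoid V}
    (hπ : π ∈ FL p D θ v h) (h0 : π₀ ≤ π) (hW : Wh p D θ v π)
    (OIH : ∀ π' ∈ FL p D θ v h, π₀ ≤ π' → Wh p D θ v π' → cs π' < cs π →
      BTat p x D θ v h A π₀ π') : BTat p x D θ v h A π₀ π := by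
  intro K' hK' L
  induction L with
  | nil =>
    intro g M e _ _ _ hg
    have hM : 0 ≤ M := BT_Mnonneg hπ h0 hg
    rw [List.append_nil, List.length_nil, add_zero]
    refine (BT_base TID TST TPM UCC TEQ EXC FLN hx hA hfull hπ h0 hW OIH hg K'.card K' hK'
      rfl).trans ?_
    refine mul_le_mul_of_nonneg_right ?_ hM
    exact le_mul_of_one_le_right (by positivity) (one_le_pow₀ hx)
  | cons c L₁ ih =>
    intro g M e hc1 hc2 hns hg
    have hM : 0 ≤ M := BT_Mnonneg hπ h0 hg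
    have hx0 : 0 < x := by linarith
    have hperm : (cd p D π (uc p D v h π \ K') ++ c :: L₁).Perm
        (c :: (cd p D π (uc p D v h π \ K') ++ L₁)) := List.perm_middle
    rw [TPM V E p x D θ v h A π _ _ g hperm, TST V E p x D θ v h A π _ _ g]
    have hc1' : ∀ c ∈ L₁, Fl p D θ (π ⊔ wire c.S ⊤) := fun c hc =>
      hc1 c (List.mem_cons_of_mem _ hc)
    have hc2' : ∀ c ∈ L₁, ∀ X, c.X = some X → ∀ a b, π₀ a b → (a ∈ X ↔ b ∈ X) := fun c hc =>
      hc2 c (List.mem_cons_of_mem _ hc)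
    have hns' : ∀ ρ ∈ FL p D θ v h, π ≤ ρ →
        ns ρ (c :: (cd p D π (uc p D v h π \ K') ++ L₁)) + cs ρ ≤ cs π + e := by
      intro ρ hρ hle
      rw [← BT_ns_perm hperm]
      exact hns ρ hρ hle
    have hns1 : ∀ ρ ∈ FL p D θ v h, π ≤ ρ →
        ns ρ (cd p D π (uc p D v h π \ K') ++ L₁) + cs ρ ≤ cs π + e := by
      intro ρ hρ hle
      exact (Nat.add_le_add_right BT_ns_le _).trans (hns' ρ hρ hle)
    have hfl := hc1 c (List.mem_cons_self)
    have hle : π ≤ π ⊔ wire c.S ⊤ := le_sup_left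
    have hanti := cs_anti hle
    have hcfull : cs (gen p D ⊔ θ) ≤ cs (π ⊔ wire c.S ⊤) := cs_anti hfl.le_full
    have hsat : ∀ ρ : Setoid V, π ⊔ wire c.S ⊤ ≤ ρ → Sat ρ c.S := fun ρ hρ =>
      (wire_le_iff.1 (le_sup_right.trans hρ) · · · · trivial)
    have hgse : ∀ X, c.X = some X → ∀ σ, π₀ ≤ σ → σ ≤ gen p D ⊔ θ → |g (se X σ)| ≤ M := by
      intro X hX σ h2 h3
      apply hg
      · intro a b hab
        exact ⟨h2 hab, hc2 c (List.mem_cons_self) X hX a b hab⟩
      · intro a b hab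
        exact h3 hab.1
    have hlen : (c :: L₁).length = L₁.length + 1 := rfl
    by_cases hΔ : cs (π ⊔ wire c.S ⊤) < cs π
    · -- the partition changes
      have hT := ih g M e hc1' hc2' hns1 hg
      have hne : ∃ a₀, a₀ ∈ c.S := by
        by_contra hno
        push Not at hno
        have h1 : π ⊔ wire c.S ⊤ = π := by
          rw [sup_eq_left, wire_le_iff]
          intro a ha
          exact absurd ha (hno a)
        rw [h1] at hΔ
        exact lt_irrefl _ hΔ
      obtain ⟨a₀, ha₀⟩ := hne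
      by_cases hvh : (π ⊔ wire c.S ⊤) v h
      · rw [hlen]
        refine BT_arith2 hx hM (m' := cs (π ⊔ wire c.S ⊤) - cs (gen p D ⊔ θ))
          (Δ := cs π - cs (π ⊔ wire c.S ⊤)) (k' := 0) (by omega) (by omega) (by omega) hT ?_
        cases c.X with
        | none =>
          simp only [BT_TT_zero hvh, sub_zero, mul_zero, abs_zero]
          positivity
        | some X =>
          simp only [BT_TT_zero hvh, sub_zero, mul_zero, abs_zero]
          positivity
      · obtain ⟨-, -, u3, -⟩ := UCC V E p D v h π c.S a₀ ha₀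
        -- the bound for the sums at the coarser partition
        have hbound : ∀ (g' : Setoid V → ℝ) (e' : ℕ),
            (∀ ρ ∈ FL p D θ v h, π ⊔ wire c.S ⊤ ≤ ρ →
              ns ρ (cd p D π (uc p D v h π \ K') ++ L₁) + cs ρ ≤ cs (π ⊔ wire c.S ⊤) + e') →
            (∀ σ, π₀ ≤ σ → σ ≤ gen p D ⊔ θ → |g' σ| ≤ M) →
            |TT p x D θ v h A (π ⊔ wire c.S ⊤)
              (cd p D π (uc p D v h π \ K') ++ L₁) g'| ≤
            16 ^ (cs (π ⊔ wire c.S ⊤) - cs (gen p D ⊔ θ)) *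
              2 ^ (K'.card + 1 + (cs π - cs (π ⊔ wire c.S ⊤) + 1) + L₁.length) *
              x ^ e' * M := by
          intro g' e' hn' hg'
          have h5 := BT_jump TPM UCC TEQ FLN hx hπ h0 hW OIH ha₀ hfl hΔ hvh hK' hc1' hc2'
            hn' hg'
          refine h5.trans ?_
          have hc3 : (K'.filter fun Y => Disjoint Y (cls (π ⊔ wire c.S ⊤) a₀)).card ≤ K'.card :=
            card_le_card (filter_subset _ _)
          have hc4 : ((uc p D v h π \ K').filter fun Y => ¬ Disjoint Y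
              (cls (π ⊔ wire c.S ⊤) a₀)).card ≤ cs π - cs (π ⊔ wire c.S ⊤) + 1 := by
            refine le_trans (card_le_card ?_) u3
            intro Y hY
            rw [mem_filter, mem_sdiff] at hY
            obtain ⟨b, hb⟩ := BT_uc_cls hY.1.1
            rw [mem_filter]
            exact ⟨mem_image.2 ⟨b, mem_univ _, hb.symm⟩, hY.2⟩
          have h9 : (2 : ℝ) ^ ((K'.filter fun X_1 => Disjoint X_1
              (cls (π ⊔ wire c.S ⊤) a₀)).card + 1 +
              ((uc p D v h π \ K').filter fun X_1 => ¬ Disjoint X_1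
                (cls (π ⊔ wire c.S ⊤) a₀)).card + L₁.length) ≤
              2 ^ (K'.card + 1 + (cs π - cs (π ⊔ wire c.S ⊤) + 1) + L₁.length) :=
            pow_le_pow_right₀ (by norm_num) (by omega)
          refine mul_le_mul_of_nonneg_right ?_ hM
          refine mul_le_mul_of_nonneg_right ?_ (pow_nonneg (by linarith) _)
          exact mul_le_mul_of_nonneg_left h9 (by positivity)
        rw [hlen]
        refine BT_arith2 hx hM (m' := cs (π ⊔ wire c.S ⊤) - cs (gen p D ⊔ θ))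
          (Δ := cs π - cs (π ⊔ wire c.S ⊤))
          (k' := K'.card + 1 + (cs π - cs (π ⊔ wire c.S ⊤) + 1) + L₁.length)
          (by omega) (by omega) (by omega) hT ?_
        set Q : ℝ := 16 ^ (cs (π ⊔ wire c.S ⊤) - cs (gen p D ⊔ θ)) *
              2 ^ (K'.card + 1 + (cs π - cs (π ⊔ wire c.S ⊤) + 1) + L₁.length) * M with hQ
        have hQ0 : 0 ≤ Q := by positivity
        obtain ⟨d, hd⟩ : ∃ d, cs π - cs (π ⊔ wire c.S ⊤) = d + 1 :=
          ⟨cs π - cs (π ⊔ wire c.S ⊤) - 1, by omega⟩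
        cases hcX : c.X with
        | none =>
          have h6 := hbound g (e + (d + 1)) (fun ρ hρ hle' => by
            have := hns1 ρ hρ (hle.trans hle')
            omega) hg
          simp only [zero_sub, mul_neg, abs_neg]
          rw [hd] at h6 ⊢
          rw [abs_mul, abs_of_pos (by positivity : (0 : ℝ) < (1 / x) ^ (d + 1))]
          have h7 : (1 / x) ^ (d + 1) * |TT p x D θ v h A (π ⊔ wire c.S ⊤)
              (cd p D π (uc p D v h π \ K') ++ L₁) g| ≤
              (1 / x) ^ (d + 1) * (x ^ (e + (d + 1)) * Q) := by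
            refine mul_le_mul_of_nonneg_left (h6.trans (le_of_eq ?_)) (by positivity)
            rw [hQ, hd]
            ring
          refine h7.trans ?_
          have h8 : (1 / x) ^ (d + 1) * (x ^ (e + (d + 1)) * Q) = x ^ e * Q := by
            have hi : (1 / x) ^ (d + 1) * x ^ (d + 1) = 1 := by
              rw [← mul_pow, one_div_mul_cancel hx0.ne', one_pow]
            rw [pow_add x e (d + 1)]
            calc (1 / x) ^ (d + 1) * (x ^ e * x ^ (d + 1) * Q)
                = x ^ e * Q * ((1 / x) ^ (d + 1) * x ^ (d + 1)) := by ring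
              _ = x ^ e * Q := by rw [hi, mul_one]
          rw [h8]
          have h9 : 0 ≤ x ^ e * Q := by positivity
          linarith
        | some X =>
          have hn' : ∀ ρ ∈ FL p D θ v h, π ⊔ wire c.S ⊤ ≤ ρ →
              ns ρ (cd p D π (uc p D v h π \ K') ++ L₁) + cs ρ ≤
                cs (π ⊔ wire c.S ⊤) + (e + d) := by
            intro ρ hρ hle'
            have h10 := hns' ρ hρ (hle.trans hle')
            rw [BT_ns_some (hsat ρ hle') (by rw [hcX]; rfl)] at h10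
            omega
          have h6 := hbound g (e + d) hn' hg
          have h7 := hbound (fun σ => g (se X σ)) (e + d) hn' (hgse X hcX)
          simp only
          rw [hd] at h6 h7 ⊢
          rw [abs_mul, abs_of_pos (by positivity : (0 : ℝ) < (1 / x) ^ (d + 1))]
          have h8 : |x * TT p x D θ v h A (π ⊔ wire c.S ⊤)
              (cd p D π (uc p D v h π \ K') ++ L₁) (fun σ => g (se X σ)) -
              TT p x D θ v h A (π ⊔ wire c.S ⊤)
              (cd p D π (uc p D v h π \ K') ++ L₁) g| ≤ (x + 1) * (x ^ (e + d) * Q) := by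
            have h11 := abs_sub (x * TT p x D θ v h A (π ⊔ wire c.S ⊤)
              (cd p D π (uc p D v h π \ K') ++ L₁) (fun σ => g (se X σ)))
              (TT p x D θ v h A (π ⊔ wire c.S ⊤)
              (cd p D π (uc p D v h π \ K') ++ L₁) g)
            rw [abs_mul x, abs_of_pos hx0] at h11
            have h12 := mul_le_mul_of_nonneg_left h7 hx0.le
            rw [hQ, hd]
            have h13 : (x + 1) * (x ^ (e + d) *
                (16 ^ (cs (π ⊔ wire c.S ⊤) - cs (gen p D ⊔ θ)) *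
                2 ^ (K'.card + 1 + (d + 1 + 1) + L₁.length) * M)) =
                x * (16 ^ (cs (π ⊔ wire c.S ⊤) - cs (gen p D ⊔ θ)) *
                2 ^ (K'.card + 1 + (d + 1 + 1) + L₁.length) * x ^ (e + d) * M) +
                16 ^ (cs (π ⊔ wire c.S ⊤) - cs (gen p D ⊔ θ)) *
                2 ^ (K'.card + 1 + (d + 1 + 1) + L₁.length) * x ^ (e + d) * M := by ring
            rw [h13]
            linarith
          have h9 := mul_le_mul_of_nonneg_left h8
            (by positivity : (0 : ℝ) ≤ (1 / x) ^ (d + 1))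
          refine h9.trans ?_
          have h14 : (1 / x) ^ (d + 1) * ((x + 1) * (x ^ (e + d) * Q)) =
              ((x + 1) / x) * (x ^ e * Q) := by
            have hi : (1 / x) ^ d * x ^ d = 1 := by
              rw [← mul_pow, one_div_mul_cancel hx0.ne', one_pow]
            rw [pow_add x e d, pow_succ (1 / x) d]
            calc (1 / x) ^ d * (1 / x) * ((x + 1) * (x ^ e * x ^ d * Q))
                = (x + 1) / x * (x ^ e * Q) * ((1 / x) ^ d * x ^ d) := by ring
              _ = (x + 1) / x * (x ^ e * Q) := by rw [hi, mul_one]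
          rw [h14]
          have h15 : (x + 1) / x ≤ 2 := by
            rw [div_le_iff₀ hx0]
            linarith
          have h16 := mul_le_mul_of_nonneg_right h15 (by positivity : 0 ≤ x ^ e * Q)
          linarith
    · -- the partition does not change
      have heq : π ⊔ wire c.S ⊤ = π := (eq_of_cs_le hle (by omega)).symm
      rw [heq, Nat.sub_self, pow_zero, one_mul]
      cases hcX : c.X with
      | none =>
        simp only [zero_sub, add_neg_cancel, abs_zero]
        positivity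
      | some X =>
        simp only
        rw [add_sub_cancel]
        have h10 := hns' π hπ le_rfl
        have hs : ∀ ρ : Setoid V, π ≤ ρ → Sat ρ c.S := fun ρ hρ => hsat ρ (by rw [heq]; exact hρ)
        rw [BT_ns_some (hs π le_rfl) (by rw [hcX]; rfl)] at h10
        obtain ⟨d, rfl⟩ : ∃ d, e = d + 1 := ⟨e - 1, by omega⟩
        have h11 := ih (fun σ => g (se X σ)) M d hc1' hc2' (fun ρ hρ hle' => by
          have h12 := hns' ρ hρ hle'
          rw [BT_ns_some (hs ρ hle') (by rw [hcX]; rfl)] at h12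
          omega) (hgse X hcX)
        rw [abs_mul, abs_of_pos hx0, hlen]
        have h13 := mul_le_mul_of_nonneg_left h11 hx0.le
        refine h13.trans ?_
        have h14 : (16 : ℝ) ^ (cs π - cs (gen p D ⊔ θ)) * 2 ^ (K'.card + (L₁.length + 1)) *
            x ^ (d + 1) * M = 2 * (x * (16 ^ (cs π - cs (gen p D ⊔ θ)) *
            2 ^ (K'.card + L₁.length) * x ^ d * M)) := by
          rw [← add_assoc, pow_succ, pow_succ]
          ring
        rw [h14]
        have h15 : 0 ≤ x * (16 ^ (cs π - cs (gen p D ⊔ θ)) *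
            2 ^ (K'.card + L₁.length) * x ^ d * M) := by positivity
        linarith

end BT

/-- **[BT]** -/
theorem p_BT (TID : S_TID) (TST : S_TST) (TPM : S_TPM) (UCC : S_UCC) (TEQ : S_TEQ)
    (EXC : S_EXC) (FLN : S_FLN) : S_BT := by
  intro V E _ _ p x D θ v h A hx hA hfull π₀
  have key : ∀ n : ℕ, ∀ π ∈ FL p D θ v h, cs π = n → π₀ ≤ π → Wh p D θ v π →
      BTat p x D θ v h A π₀ π := by
    intro n
    induction n using Nat.strong_induction_on with
    | _ n ih =>
      intro π hπ hn h0 hW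
      exact BT_list TID TST TPM UCC TEQ EXC FLN hx hA hfull hπ h0 hW
        fun π' hπ' h0' hW' hlt => ih _ (by omega) π' hπ' rfl h0' hW'
  intro π hπ h0 hW K' hK' L g M e h1 h2 h3 h4
  exact key _ π hπ rfl h0 hW K' hK' L g M e h1 h2 h3 h4

end Pool.Agent.Lib.MP_4a8162_co.FB
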