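import Pool.Agent.Lib.MP_4a8162_co.FB.StmC

set_option autoImplicit false

/-!
# MP_4a8162_co, REAL FLOW ROOTS ARE BOUNDED: piece `CFO`
-/

namespace Pool.Agent.Lib.MP_4a8162_co.FB

open Finset
open scoped Classical

theorem p_CFO : S_CFO := by
  intro V E _ _ p D U θ v h c hvU hhU hvh
  have hfull : gen p D ⊔ (θ ⊔ jn v h) = gen p D ⊔ θ := by
    rw [← sup_assoc, sup_jn_of_rel hvh]
  have hθ : θ ≤ gen p D ⊔ θ := le_sup_right
  have hclaim : ∀ a ∈ insert v U, ∀ b ∈ insert v U, (gen p D ⊔ θ) a b → (θ ⊔ jn v h) a b := by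
    intro a ha b hb hab
    rw [sup_jn_rel]
    rw [mem_insert] at ha hb
    rcases ha with rfl | ha
    · rcases hb with rfl | hb
      · exact Or.inl (θ.refl _)
      · right
        left
        exact ⟨θ.refl _, c.hub _ hhU _ hb ((gen p D ⊔ θ).trans ((gen p D ⊔ θ).symm hvh) hab)⟩
    · rcases hb with rfl | hb
      · right
        right
        exact ⟨c.hub _ ha _ hhU ((gen p D ⊔ θ).trans hab hvh), θ.refl _⟩
      · exact Or.inl (c.hub _ ha _ hb hab)
  refine ⟨⟨?_, ?_, ?_, ?_⟩, hfull⟩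
  · intro a b hab
    rw [sup_jn_rel] at hab
    have key1 : ∀ x, θ x v → x = v := by
      intro x hx
      rcases c.wired _ _ hx with h1 | ⟨-, h1⟩
      · exact h1
      · exact absurd h1 hvU
    have key2 : ∀ x, θ x h → x ∈ U := by
      intro x hx
      rcases c.wired _ _ hx with h1 | ⟨h1, -⟩
      · exact h1 ▸ hhU
      · exact h1
    rcases hab with hab | ⟨h1, h2⟩ | ⟨h1, h2⟩
    · rcases c.wired _ _ hab with h1 | ⟨h1, h2⟩
      · exact Or.inl h1
      · exact Or.inr ⟨mem_insert_of_mem h1, mem_insert_of_mem h2⟩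
    · right
      refine ⟨?_, mem_insert_of_mem (key2 _ (θ.symm h2))⟩
      rw [key1 _ h1]
      exact mem_insert_self _ _
    · right
      refine ⟨mem_insert_of_mem (key2 _ h1), ?_⟩
      rw [key1 _ (θ.symm h2)]
      exact mem_insert_self _ _
  · intro e
    constructor
    · intro he h1 h2
      exact hclaim _ h1 _ h2 ((le_sup_left : gen p D ≤ gen p D ⊔ θ) (gen_rel he))
    · intro h1
      rw [c.edges]
      intro h2 h3
      have h4 := h1 (mem_insert_of_mem h2) (mem_insert_of_mem h3)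
      have h5 : (gen p D ⊔ (θ ⊔ jn v h)) (p e).1 (p e).2 :=
        (le_sup_right : θ ⊔ jn v h ≤ gen p D ⊔ (θ ⊔ jn v h)) h4
      rw [hfull] at h5
      exact c.hub _ h2 _ h3 h5
  · intro a ha b hb hab
    rw [hfull] at hab
    exact hclaim a ha b hb hab
  · intro w
    obtain ⟨u, hu, hwu⟩ := c.att w
    rw [hfull]
    exact ⟨u, mem_insert_of_mem hu, hwu⟩

end Pool.Agent.Lib.MP_4a8162_co.FB
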