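import Pool.Agent.Lib.MP_4a8162_co.FB.StmB

set_option autoImplicit false

/-!
# MP_4a8162_co, REAL FLOW ROOTS ARE BOUNDED: the contraction lemma [CLE]
-/

namespace Pool.Agent.Lib.MP_4a8162_co.FB

open Finset
open scoped Classical

section cle

variable {V E : Type} [Fintype V] [Fintype E]

private theorem cle_mem_cls {c : Setoid V} {u w : V} : w ∈ cls c u ↔ c u w := by
  simp [cls]

private theorem cle_self (c : Setoid V) (u : V) : u ∈ cls c u := cle_mem_cls.2 (c.refl u)

private theorem cle_cls_mono {c c' : Setoid V} (h : c ≤ c') (u : V) : cls c u ⊆ cls c' u := by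
  intro w hw
  rw [cle_mem_cls] at hw ⊢
  exact h hw

private theorem cle_cls_eq {c : Setoid V} {u w : V} (h : c u w) : cls c u = cls c w := by
  ext x
  rw [cle_mem_cls, cle_mem_cls]
  exact ⟨fun h1 => c.trans (c.symm h) h1, fun h1 => c.trans h h1⟩

/-- the potential of a vertex -/
private noncomputable def cleF (φ : ℕ → ℝ) (s : ℕ) (I : Finset V) (c : Setoid V) (u : V) : ℝ :=
  if Disjoint (cls c u) I ∧ (cls c u).card < s then φ (cls c u).card else 0

private theorem cleF_nonneg {φ : ℕ → ℝ} (h0 : ∀ n, 0 ≤ φ n) (s : ℕ) (I : Finset V) (c : Setoid V)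
    (u : V) : 0 ≤ cleF φ s I c u := by
  unfold cleF
  split_ifs
  · exact h0 _
  · exact le_refl _

private theorem cleF_mono {φ : ℕ → ℝ} (hφ : Antitone φ) (h0 : ∀ n, 0 ≤ φ n) (s : ℕ) (I : Finset V)
    {c c' : Setoid V} (h : c ≤ c') (u : V) : cleF φ s I c' u ≤ cleF φ s I c u := by
  by_cases h1 : Disjoint (cls c' u) I ∧ (cls c' u).card < s
  · have hsub := cle_cls_mono h u
    have h2 : Disjoint (cls c u) I ∧ (cls c u).card < s :=
      ⟨Finset.disjoint_of_subset_left hsub h1.1, lt_of_le_of_lt (Finset.card_le_card hsub) h1.2⟩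
    unfold cleF
    rw [if_pos h1, if_pos h2]
    exact hφ (Finset.card_le_card hsub)
  · have h3 : cleF φ s I c' u = 0 := by
      unfold cleF
      rw [if_neg h1]
    rw [h3]
    exact cleF_nonneg h0 s I c u

/-- the potential of a set -/
private noncomputable def cleP (p : E → V × V) (φ : ℕ → ℝ) (s : ℕ) (I : Finset V) (c : Setoid V)
    (J : Finset V) : ℝ :=
  ∑ e ∈ bd p J, (cleF φ s I c (p e).1 + cleF φ s I c (p e).2)

private theorem cleP_nonneg (p : E → V × V) {φ : ℕ → ℝ} (h0 : ∀ n, 0 ≤ φ n) (s : ℕ) (I : Finset V)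
    (c : Setoid V) (J : Finset V) : 0 ≤ cleP p φ s I c J :=
  Finset.sum_nonneg fun _ _ => add_nonneg (cleF_nonneg h0 s I c _) (cleF_nonneg h0 s I c _)

private theorem cle_log {d r : ℕ} {δ : ℝ} (h1 : 1 ≤ r) (h2 : r ≤ d) (h3 : 2 ≤ d)
    (h4 : Real.log d ≤ (d - 1) * δ) : Real.log (d / r) ≤ (d - r) * δ := by
  have hd : (1 : ℝ) < d := by exact_mod_cast h3
  have hr : (1 : ℝ) ≤ r := by exact_mod_cast h1
  have hrd : (r : ℝ) ≤ d := by exact_mod_cast h2
  have hd0 : (0 : ℝ) < (d : ℝ) - 1 := by linarith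
  rw [Real.log_div (by positivity) (by positivity)]
  have hc := strictConcaveOn_log_Ioi.concaveOn.2 (Set.mem_Ioi.2 (zero_lt_one' ℝ))
    (Set.mem_Ioi.2 (lt_trans (zero_lt_one' ℝ) hd))
    (show (0 : ℝ) ≤ ((d : ℝ) - r) / (d - 1) from div_nonneg (by linarith) hd0.le)
    (show (0 : ℝ) ≤ ((r : ℝ) - 1) / (d - 1) from div_nonneg (by linarith) hd0.le)
    (by rw [← add_div, div_eq_one_iff_eq hd0.ne']; ring)
  have he : ((d : ℝ) - r) / (d - 1) * 1 + ((r : ℝ) - 1) / (d - 1) * d = r := by
    rw [mul_one, div_mul_eq_mul_div, ← add_div, div_eq_iff hd0.ne']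
    ring
  simp only [smul_eq_mul] at hc
  rw [he, Real.log_one, mul_zero, zero_add] at hc
  have h5 : ((d : ℝ) - r) / (d - 1) * Real.log d ≤ ((d : ℝ) - r) / (d - 1) * ((d - 1) * δ) :=
    mul_le_mul_of_nonneg_left h4 (div_nonneg (by linarith) hd0.le)
  have h6 : ((d : ℝ) - r) / (d - 1) * ((d - 1) * δ) = (d - r) * δ := by
    rw [← mul_assoc, div_mul_cancel₀ _ hd0.ne']
  have h7 : ((d : ℝ) - r) / (d - 1) * Real.log d + ((r : ℝ) - 1) / (d - 1) * Real.log d =
      Real.log d := by
    rw [← add_mul, ← add_div]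
    have : ((d : ℝ) - r + (r - 1)) / (d - 1) = 1 := by
      rw [div_eq_one_iff_eq hd0.ne']
      ring
    rw [this, one_mul]
  linarith

/-- the difference of the potentials -/
private theorem cle_diff (p : E → V × V) (s : ℕ) {φ : ℕ → ℝ} (I : Finset V) (hφ : Antitone φ)
    (h0 : ∀ n, 0 ≤ φ n) (c : Setoid V) (u0 : V) (hdis : Disjoint (cls c u0) I)
    (hs : (cls c u0).card < s)
    (hmin : ∀ u, Disjoint (cls c u) I → (cls c u0).card ≤ (cls c u).card)
    (J : Finset V) (e : E) (he : e ∈ bd p (cls c u0)) :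
    (((bd p J ∩ bd p (cls c u0)).card : ℕ) : ℝ) * (φ (cls c u0).card - φ (2 * (cls c u0).card)) ≤
      cleP p φ s I c J - cleP p φ s I (c ⊔ jn (p e).1 (p e).2) J := by
  have hcle : c ≤ c ⊔ jn (p e).1 (p e).2 := le_sup_left
  have hmono := fun u => cleF_mono (φ := φ) hφ h0 s I hcle u
  have hjoin : (c ⊔ jn (p e).1 (p e).2) (p e).1 (p e).2 := by
    rw [sup_jn_rel]
    exact Or.inr (Or.inl ⟨c.refl _, c.refl _⟩)
  -- the other end
  obtain ⟨w, hw1, hw2⟩ : ∃ w, w ∉ cls c u0 ∧ (c ⊔ jn (p e).1 (p e).2) u0 w := by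
    rw [mem_bd] at he
    by_cases h1 : (p e).1 ∈ cls c u0
    · refine ⟨(p e).2, fun h2 => he ⟨fun _ => h2, fun _ => h1⟩, ?_⟩
      exact Setoid.trans' _ (hcle (cle_mem_cls.1 h1)) hjoin
    · have h2 : (p e).2 ∈ cls c u0 := by
        by_contra h2
        exact he ⟨fun h => absurd h h1, fun h => absurd h h2⟩
      refine ⟨(p e).1, h1, ?_⟩
      exact Setoid.trans' _ (hcle (cle_mem_cls.1 h2)) (Setoid.symm' _ hjoin)
  -- on the class `A`
  have hA : ∀ u ∈ cls c u0, φ (cls c u0).card - φ (2 * (cls c u0).card) ≤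
      cleF φ s I c u - cleF φ s I (c ⊔ jn (p e).1 (p e).2) u := by
    intro u hu
    have h1 : cls c u = cls c u0 := (cle_cls_eq (cle_mem_cls.1 hu)).symm
    have h2 : cleF φ s I c u = φ (cls c u0).card := by
      unfold cleF
      rw [h1, if_pos ⟨hdis, hs⟩]
    have h3 : cleF φ s I (c ⊔ jn (p e).1 (p e).2) u ≤ φ (2 * (cls c u0).card) := by
      by_cases h4 : Disjoint (cls (c ⊔ jn (p e).1 (p e).2) u) I ∧
          (cls (c ⊔ jn (p e).1 (p e).2) u).card < s
      · unfold cleF
        rw [if_pos h4]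
        apply hφ
        have h5 : cls (c ⊔ jn (p e).1 (p e).2) u = cls (c ⊔ jn (p e).1 (p e).2) u0 :=
          (cle_cls_eq (hcle (cle_mem_cls.1 hu))).symm
        have h6 : cls (c ⊔ jn (p e).1 (p e).2) u0 = cls (c ⊔ jn (p e).1 (p e).2) w :=
          cle_cls_eq hw2
        have h7 : cls c u0 ⊆ cls (c ⊔ jn (p e).1 (p e).2) u := by
          rw [h5]
          exact cle_cls_mono hcle u0
        have h8 : cls c w ⊆ cls (c ⊔ jn (p e).1 (p e).2) u := by
          rw [h5, h6]
          exact cle_cls_mono hcle w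
        have h9 : Disjoint (cls c u0) (cls c w) := by
          rw [Finset.disjoint_left]
          intro x hx hx2
          apply hw1
          rw [cle_mem_cls] at hx hx2 ⊢
          exact c.trans hx (c.symm hx2)
        have h10 := hmin w (Finset.disjoint_of_subset_left h8 h4.1)
        have h11 := Finset.card_le_card (Finset.union_subset h7 h8)
        rw [Finset.card_union_of_disjoint h9] at h11
        omega
      · have h5 : cleF φ s I (c ⊔ jn (p e).1 (p e).2) u = 0 := by
          unfold cleF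
          rw [if_neg h4]
        rw [h5]
        exact h0 _
    rw [h2]
    linarith
  unfold cleP
  rw [← Finset.sum_sub_distrib, ← nsmul_eq_mul, ← Finset.sum_const]
  refine le_trans (Finset.sum_le_sum (g := fun e' =>
    (cleF φ s I c (p e').1 + cleF φ s I c (p e').2) -
      (cleF φ s I (c ⊔ jn (p e).1 (p e).2) (p e').1 +
        cleF φ s I (c ⊔ jn (p e).1 (p e).2) (p e').2)) ?_) ?_
  · intro e' he'
    have h1 := (Finset.mem_inter.1 he').2
    rw [mem_bd] at h1
    have h2 := hmono (p e').1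
    have h3 := hmono (p e').2
    by_cases h4 : (p e').1 ∈ cls c u0
    · have h5 := hA _ h4
      linarith
    · have h6 : (p e').2 ∈ cls c u0 := by
        by_contra h6
        exact h1 ⟨fun h => absurd h h4, fun h => absurd h h6⟩
      have h5 := hA _ h6
      linarith
  · apply Finset.sum_le_sum_of_subset_of_nonneg Finset.inter_subset_left
    intro e' _ _
    have h2 := hmono (p e').1
    have h3 := hmono (p e').2
    linarith

/-- one term -/
private theorem cle_term (p : E → V × V) (s : ℕ) {φ : ℕ → ℝ} (I : Finset V) (hφ : Antitone φ)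
    (h0 : ∀ n, 0 ≤ φ n) (c : Setoid V) (u0 : V) (hdis : Disjoint (cls c u0) I)
    (hs : (cls c u0).card < s)
    (hmin : ∀ u, Disjoint (cls c u) I → (cls c u0).card ≤ (cls c u).card)
    (h2 : 2 ≤ (bd p (cls c u0)).card)
    (hlog : Real.log (bd p (cls c u0)).card ≤
      ((bd p (cls c u0)).card - 1) * (φ (cls c u0).card - φ (2 * (cls c u0).card)))
    (J : Finset V) (hr : 1 ≤ (bd p (cls c u0) \ bd p J).card) (e : E)
    (he : e ∈ bd p (cls c u0)) :
    Real.exp (-(cleP p φ s I c J)) / ((bd p (cls c u0) \ bd p J).card : ℝ) ≤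
      Real.exp (-(cleP p φ s I (c ⊔ jn (p e).1 (p e).2) J)) / ((bd p (cls c u0)).card : ℝ) := by
  have hdiff := cle_diff p s I hφ h0 c u0 hdis hs hmin J e he
  have hrd : (bd p (cls c u0) \ bd p J).card ≤ (bd p (cls c u0)).card :=
    Finset.card_le_card Finset.sdiff_subset
  have hl := cle_log hr hrd h2 hlog
  have hcard : (bd p (cls c u0) \ bd p J).card + (bd p J ∩ bd p (cls c u0)).card =
      (bd p (cls c u0)).card := by
    rw [Finset.inter_comm]
    exact Finset.card_sdiff_add_card_inter _ _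
  have hcard' : ((bd p J ∩ bd p (cls c u0)).card : ℝ) =
      (bd p (cls c u0)).card - (bd p (cls c u0) \ bd p J).card := by
    rw [← hcard]
    push_cast
    ring
  rw [hcard'] at hdiff
  have hrpos : (0 : ℝ) < ((bd p (cls c u0) \ bd p J).card : ℝ) := by exact_mod_cast hr
  have hdpos : (0 : ℝ) < ((bd p (cls c u0)).card : ℝ) := by
    have : 0 < (bd p (cls c u0)).card := by omega
    exact_mod_cast this
  have h3 : ((bd p (cls c u0)).card : ℝ) / ((bd p (cls c u0) \ bd p J).card : ℝ) ≤
      Real.exp (cleP p φ s I c J - cleP p φ s I (c ⊔ jn (p e).1 (p e).2) J) := by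
    rw [← Real.log_le_iff_le_exp (div_pos hdpos hrpos)]
    exact hl.trans hdiff
  rw [div_le_div_iff₀ hrpos hdpos]
  rw [div_le_iff₀ hrpos] at h3
  have h4 : Real.exp (-(cleP p φ s I (c ⊔ jn (p e).1 (p e).2) J)) =
      Real.exp (-(cleP p φ s I c J)) *
        Real.exp (cleP p φ s I c J - cleP p φ s I (c ⊔ jn (p e).1 (p e).2) J) := by
    rw [← Real.exp_add]
    congr 1
    ring
  rw [h4, mul_assoc]
  exact mul_le_mul_of_nonneg_left h3 (Real.exp_pos _).le

private theorem cle_satd {p : E → V × V} {c : Setoid V} {J : Finset V} {e : E} :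
    Satd (c ⊔ jn (p e).1 (p e).2) J ↔ Satd c J ∧ e ∉ bd p J := by
  constructor
  · intro h
    have hjoin : (c ⊔ jn (p e).1 (p e).2) (p e).1 (p e).2 := by
      rw [sup_jn_rel]
      exact Or.inr (Or.inl ⟨c.refl _, c.refl _⟩)
    refine ⟨fun x y hxy => h x y ((le_sup_left : c ≤ c ⊔ jn (p e).1 (p e).2) hxy), ?_⟩
    rw [mem_bd, not_not]
    exact ⟨h _ _ hjoin, h _ _ (Setoid.symm' _ hjoin)⟩
  · rintro ⟨h1, h2⟩ x y hxy hx
    rw [mem_bd, not_not] at h2
    rw [sup_jn_rel] at hxy
    rcases hxy with h | ⟨h3, h4⟩ | ⟨h3, h4⟩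
    · exact h1 x y h hx
    · exact h1 _ _ h4 (h2.1 (h1 _ _ h3 hx))
    · exact h1 _ _ h4 (h2.2 (h1 _ _ h3 hx))

private theorem cle_main (p : E → V × V) (s : ℕ) (φ ψ : ℕ → ℝ)
    (I : Finset V) (a : V) (F : Finset (Finset V)) (C : ℝ)
    (hφ : Antitone φ) (h0 : ∀ n, 0 ≤ φ n)
    (hψ : ∀ n : ℕ, 1 ≤ n → ∀ d : ℕ, 2 ≤ d → ψ n ≤ d →
      Real.log d ≤ (d - 1) * (φ n - φ (2 * n)))
    (hbd : ∀ A : Finset V, A.Nonempty → A.card < s → Disjoint A I →
      2 ≤ (bd p A).card ∧ ψ A.card ≤ (bd p A).card)
    (hF : ∀ J ∈ F, s ≤ J.card ∧ Good p I a J)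
    (hC : ∀ c : Setoid V, (∀ u, Disjoint (cls c u) I → s ≤ (cls c u).card) →
      ((F.filter (Satd c)).card : ℝ) ≤ C) :
    ∀ (n : ℕ) (c : Setoid V), cs c = n →
      ∑ J ∈ F.filter (Satd c), Real.exp (-(cleP p φ s I c J)) ≤ C := by
  intro n
  induction n with
  | zero =>
    intro c hc
    have hempty : IsEmpty (Quotient c) := by
      by_contra h
      rw [not_isEmpty_iff] at h
      have : 0 < Nat.card (Quotient c) := Nat.card_pos
      unfold cs at hc
      omega
    have h1 := hC c (fun u _ => (hempty.false (Quotient.mk'' u)).elim)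
    refine le_trans ?_ h1
    refine le_trans (Finset.sum_le_card_nsmul _ _ 1 ?_) ?_
    · intro J _
      rw [Real.exp_le_one_iff]
      have := cleP_nonneg p h0 s I c J
      linarith
    · rw [nsmul_eq_mul, mul_one]
  | succ n ih =>
    intro c hc
    by_cases hall : ∀ u, Disjoint (cls c u) I → s ≤ (cls c u).card
    · have h1 := hC c hall
      refine le_trans ?_ h1
      refine le_trans (Finset.sum_le_card_nsmul _ _ 1 ?_) ?_
      · intro J _
        rw [Real.exp_le_one_iff]
        have := cleP_nonneg p h0 s I c J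
        linarith
      · rw [nsmul_eq_mul, mul_one]
    · -- the smallest class
      obtain ⟨u0, hu0, hmin⟩ : ∃ u0, Disjoint (cls c u0) I ∧
          ∀ u, Disjoint (cls c u) I → (cls c u0).card ≤ (cls c u).card := by
        push Not at hall
        obtain ⟨u1, hu1, _⟩ := hall
        obtain ⟨u0, hu0, hmin⟩ := Finset.exists_min_image
          (univ.filter fun u => Disjoint (cls c u) I) (fun u => (cls c u).card)
          ⟨u1, by simp [hu1]⟩
        refine ⟨u0, (Finset.mem_filter.1 hu0).2, fun u hu => hmin u (by simp [hu])⟩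
      have hs : (cls c u0).card < s := by
        push Not at hall
        obtain ⟨u1, hu1, hu2⟩ := hall
        exact lt_of_le_of_lt (hmin u1 hu1) hu2
      have hne : (cls c u0).Nonempty := ⟨u0, cle_self c u0⟩
      obtain ⟨hb2, hbψ⟩ := hbd _ hne hs hu0
      have hlog := hψ (cls c u0).card hne.card_pos _ hb2 hbψ
      have hdpos : (0 : ℝ) < ((bd p (cls c u0)).card : ℝ) := by
        have : 0 < (bd p (cls c u0)).card := by omega
        exact_mod_cast this
      -- (1)
      have hr : ∀ J ∈ F.filter (Satd c), 1 ≤ (bd p (cls c u0) \ bd p J).card := by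
        intro J hJ
        obtain ⟨hJF, hJc⟩ := Finset.mem_filter.1 hJ
        obtain ⟨hJs, hg1, hg2, hg3, hg4⟩ := hF J hJF
        rw [Nat.succ_le_iff, Finset.card_pos]
        by_cases hin : u0 ∈ J
        · have hsub : cls c u0 ⊆ J := fun x hx => hJc u0 x (cle_mem_cls.1 hx) hin
          have hss : cls c u0 ⊂ J := by
            refine lt_of_le_of_ne hsub ?_
            intro h
            rw [h] at hs
            omega
          obtain ⟨e, he⟩ := hg3 _ hne hss
          refine ⟨e, ?_⟩
          rw [Finset.mem_sdiff, mem_bd, mem_bd, not_not]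
          rcases he with ⟨h1, h2⟩ | ⟨h1, h2⟩
          · rw [Finset.mem_sdiff] at h2
            exact ⟨fun h => h2.2 (h.1 h1), fun _ => h2.1, fun _ => hsub h1⟩
          · rw [Finset.mem_sdiff] at h1
            exact ⟨fun h => h1.2 (h.2 h2), fun _ => hsub h2, fun _ => h1.1⟩
        · have hdj : Disjoint (cls c u0) J := by
            rw [Finset.disjoint_left]
            intro x hx hxJ
            exact hin (hJc x u0 (c.symm (cle_mem_cls.1 hx)) hxJ)
          have hdj2 : Disjoint (cls c u0) (J ∪ I) := Finset.disjoint_union_right.2 ⟨hdj, hu0⟩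
          obtain ⟨e, he⟩ := hg4 _ hne hdj2
          refine ⟨e, ?_⟩
          rw [Finset.mem_sdiff, mem_bd, mem_bd, not_not]
          rw [Finset.disjoint_left] at hdj
          rcases he with ⟨h1, h2⟩ | ⟨h1, h2⟩
          · rw [Finset.mem_compl, Finset.mem_union, not_or] at h2
            exact ⟨fun h => h2.1 (h.1 h1), fun h => absurd h (hdj h1), fun h => absurd h h2.2⟩
          · rw [Finset.mem_compl, Finset.mem_union, not_or] at h1
            exact ⟨fun h => h1.1 (h.2 h2), fun h => absurd h h1.2, fun h => absurd h (hdj h2)⟩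
      -- the sums
      calc ∑ J ∈ F.filter (Satd c), Real.exp (-(cleP p φ s I c J))
          ≤ ∑ J ∈ F.filter (Satd c), ∑ e ∈ bd p (cls c u0) \ bd p J,
              Real.exp (-(cleP p φ s I (c ⊔ jn (p e).1 (p e).2) J)) /
                ((bd p (cls c u0)).card : ℝ) := by
            apply Finset.sum_le_sum
            intro J hJ
            have hr1 := hr J hJ
            have hrpos : (0 : ℝ) < ((bd p (cls c u0) \ bd p J).card : ℝ) := by
              exact_mod_cast hr1
            have h1 : Real.exp (-(cleP p φ s I c J)) =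
                ∑ e ∈ bd p (cls c u0) \ bd p J, Real.exp (-(cleP p φ s I c J)) /
                  ((bd p (cls c u0) \ bd p J).card : ℝ) := by
              rw [Finset.sum_const, nsmul_eq_mul, mul_div_cancel₀ _ hrpos.ne']
            rw [h1]
            apply Finset.sum_le_sum
            intro e he
            exact cle_term p s I hφ h0 c u0 hu0 hs hmin hb2 hlog J hr1 e
              (Finset.mem_sdiff.1 he).1
        _ = ∑ e ∈ bd p (cls c u0), ∑ J ∈ F.filter (Satd (c ⊔ jn (p e).1 (p e).2)),
              Real.exp (-(cleP p φ s I (c ⊔ jn (p e).1 (p e).2) J)) /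
                ((bd p (cls c u0)).card : ℝ) := by
            apply Finset.sum_comm'
            intro J e
            rw [Finset.mem_filter, Finset.mem_filter, cle_satd, Finset.mem_sdiff]
            tauto
        _ ≤ ∑ e ∈ bd p (cls c u0), C / ((bd p (cls c u0)).card : ℝ) := by
            apply Finset.sum_le_sum
            intro e he
            rw [← Finset.sum_div]
            apply div_le_div_of_nonneg_right _ hdpos.le
            apply ih
            have h1 : ¬ c (p e).1 (p e).2 := by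
              rw [mem_bd] at he
              intro h
              apply he
              rw [cle_mem_cls, cle_mem_cls]
              exact ⟨fun h1 => c.trans h1 h, fun h1 => c.trans h1 (c.symm h)⟩
            have h2 := cs_jn h1
            omega
        _ = C := by
            rw [Finset.sum_const, nsmul_eq_mul, mul_div_cancel₀ _ hdpos.ne']

end cle

theorem p_CLE : S_CLE := by
  intro V E _ _ p s φ ψ I a F C hφ h0 hψ hbd hF hC
  have h1 := cle_main p s φ ψ I a F C hφ h0 hψ hbd hF hC _ ⊥ rfl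
  have h2 : F.filter (Satd (⊥ : Setoid V)) = F := by
    apply Finset.filter_true_of_mem
    intro J _ x y hxy hx
    have : x = y := hxy
    rw [← this]
    exact hx
  rw [h2] at h1
  refine le_trans (Finset.sum_le_sum ?_) h1
  intro J _
  rw [← Real.exp_nat_mul, Real.exp_le_exp]
  have h3 : ∀ u : V, cleF φ s I ⊥ u ≤ φ 1 := by
    intro u
    have h4 : cls (⊥ : Setoid V) u = {u} := by
      ext w
      rw [cle_mem_cls, Finset.mem_singleton]
      exact ⟨fun h => Eq.symm h, fun h => Eq.symm h⟩
    unfold cleF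
    rw [h4, Finset.card_singleton]
    split_ifs
    · exact le_refl _
    · exact h0 1
  have h5 : cleP p φ s I ⊥ J ≤ (bd p J).card • (2 * φ 1) := by
    unfold cleP
    apply Finset.sum_le_card_nsmul
    intro e _
    have h6 := h3 (p e).1
    have h7 := h3 (p e).2
    linarith
  rw [nsmul_eq_mul] at h5
  linarith

end Pool.Agent.Lib.MP_4a8162_co.FB
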