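import Pool.Agent.Lib.MP_4a8162_co.FB.StmC

set_option autoImplicit false

namespace Pool.Agent.Lib.MP_4a8162_co.FB

open Finset
open scoped Classical

private theorem cmp_wire {V : Type} [Fintype V] (R : Set V) (σ : Setoid V) (a h : V) (ha : a ∈ R)
    (hh : h ∈ R) : wire R (σ ⊔ jn a h) = wire R σ ⊔ jn a h := by
  apply le_antisymm
  · rw [wire_le_iff]
    intro c hc d hd hcd
    rw [sup_jn_rel] at hcd
    have hj : (wire R σ ⊔ jn a h) a h := (le_sup_right : jn a h ≤ _) (jn_rel a h)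
    have hw : ∀ s ∈ R, ∀ t ∈ R, σ s t → (wire R σ ⊔ jn a h) s t := fun s hs t ht hst =>
      (le_sup_left : wire R σ ≤ _) (Or.inr ⟨hs, ht, hst⟩)
    rcases hcd with h1 | ⟨h1, h2⟩ | ⟨h1, h2⟩
    · exact hw c hc d hd h1
    · exact (wire R σ ⊔ jn a h).trans (hw c hc a ha h1)
        ((wire R σ ⊔ jn a h).trans hj (hw h hh d hd h2))
    · exact (wire R σ ⊔ jn a h).trans (hw c hc h hh h1)
        ((wire R σ ⊔ jn a h).trans ((wire R σ ⊔ jn a h).symm hj) (hw a ha d hd h2))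
  · apply sup_le
    · rw [wire_le_iff]
      intro c hc d hd hcd
      exact Or.inr ⟨hc, hd, (le_sup_left : σ ≤ σ ⊔ jn a h) hcd⟩
    · rw [jn_le_iff]
      exact Or.inr ⟨ha, hh, (le_sup_right : jn a h ≤ σ ⊔ jn a h) (jn_rel a h)⟩

private theorem cmp_step {V E : Type} [Fintype V] [Fintype E] (p : E → V × V) (x : ℝ)
    (D : Finset E) (θ : Setoid V) (v h : V) (ρ σ : Setoid V) (f : Setoid V → ℝ)
    (l : List (V × V)) (a : V) (ha : a ∈ Rv p D v h ρ) :
    Gs p x D θ v h ρ (fe ((a, h) :: l) f) σ =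
      Gs p x D θ v h ρ (fe l f) (σ ⊔ jn a h) - Gs p x D θ v h ρ (fe l f) σ := by
  have hh : h ∈ Rv p D v h ρ := Or.inr (Or.inl rfl)
  unfold Gs
  rw [← Finset.sum_sub_distrib]
  refine Finset.sum_congr rfl fun B _ => ?_
  rw [cmp_wire _ σ a h ha hh, ← sup_assoc]
  simp only [fe]
  ring

theorem p_CMP : S_RCH → S_CFR → S_GQQ → S_CMP := by
  intro hRCH hCFR hGQQ V E _ _ p x D U θ v h f l hx hC hv hh hvh hl hF hPos ρ hρ hWh
  have hx0 : 0 < x := by linarith
  have hfac : 0 < 1 - 1 / x := by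
    have : 1 / x < 1 := by rw [div_lt_one hx0]; exact hx
    linarith
  have hsub : U ⊆ UR p D U v h ρ := by
    intro a ha
    unfold UR
    rw [Finset.mem_filter]
    exact ⟨Finset.mem_univ _, Or.inl ha⟩
  have hRU : ∀ a ∈ Rv p D v h ρ, a ∈ UR p D U v h ρ := by
    intro a ha
    unfold UR
    rw [Finset.mem_filter]
    exact ⟨Finset.mem_univ _, Or.inr ha⟩
  have hcard : (UR p D U v h ρ)ᶜ.card < Uᶜ.card := by
    apply Finset.card_lt_card
    rw [Finset.ssubset_iff_of_subset (Finset.compl_subset_compl.2 hsub)]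
    refine ⟨v, Finset.mem_compl.2 hv, ?_⟩
    rw [Finset.mem_compl, not_not]
    exact hRU v (Or.inl rfl)
  have h1 : ∀ σ : Setoid V, ρ ≤ σ → σ ≤ gen p D ⊔ θ → ∀ l' : List (V × V),
      (∀ e ∈ l', e.1 ∈ UR p D U v h ρ ∧ e.2 ∈ UR p D U v h ρ) → Forest l' σ →
      0 ≤ Gs p x D θ v h ρ (fe l' f) σ := by
    intro σ hs1 hs2 l' hl' hF'
    obtain ⟨c1, c2⟩ := hCFR V E p D U θ v h hC hv hh hvh ρ hρ hWh σ hs1 hs2
    have hq := (hPos (Din p D σ) (UR p D U v h ρ) (θ ⊔ wire (Rv p D v h ρ) σ) l' c1 hcard hl'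
      (by rw [c2]; exact hF')).1
    have hg := hGQQ V E p x D θ v h hx0 ρ hρ σ hs1 hs2 (fe l' f)
    have hpos : 0 < (1 - 1 / x) ^ (Din p D σ \ Din p D ρ).card := pow_pos hfac _
    have hge : 0 ≤ (1 - 1 / x) ^ (Din p D σ \ Din p D ρ).card * Gs p x D θ v h ρ (fe l' f) σ := by
      rw [hg]
      exact mul_nonneg (pow_nonneg hx0.le _) hq
    exact nonneg_of_mul_nonneg_right hge hpos
  have hRh : ∀ a ∈ Rv p D v h ρ, (gen p D ⊔ θ) a h := by
    rintro a (rfl | rfl | ⟨e, he, hae⟩)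
    · exact hvh
    · exact (gen p D ⊔ θ).refl a
    · rw [mem_cutE] at he
      have hf : (gen p D ⊔ θ) (p e).1 (p e).2 := (le_sup_left : gen p D ≤ _) (gen_rel he.1)
      have hev : (gen p D ⊔ θ) (p e).1 v := by
        by_contra hc
        exact he.2 (hWh _ _ hf hc)
      rcases hae with rfl | rfl
      · exact (gen p D ⊔ θ).trans hev hvh
      · exact (gen p D ⊔ θ).trans ((gen p D ⊔ θ).symm hf) ((gen p D ⊔ θ).trans hev hvh)
  have h2 : ∀ n : ℕ, ∀ σ : Setoid V, cs σ = n → ρ ≤ σ → σ ≤ gen p D ⊔ θ →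
      Gs p x D θ v h ρ (fe l f) σ ≤ Gs p x D θ v h ρ (fe l f) (gen p D ⊔ θ) := by
    intro n
    induction n with
    | zero =>
      intro σ hn hs1 hs2
      have : σ = gen p D ⊔ θ := eq_of_cs_le hs2 (by omega)
      rw [this]
    | succ n ih =>
      intro σ hn hs1 hs2
      by_cases hfull : σ = gen p D ⊔ θ
      · rw [hfull]
      · obtain ⟨a', ha', b', hb', hab, hnab⟩ := hRCH V E p D θ v h ρ hρ σ (gen p D ⊔ θ) hs1 hs2
          le_rfl hfull
        have hex : ∃ a ∈ Rv p D v h ρ, ¬ σ a h := by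
          by_contra hc
          push Not at hc
          exact hnab (σ.trans (hc a' ha') (σ.symm (hc b' hb')))
        obtain ⟨a, ha, hna⟩ := hex
        have hle : σ ⊔ jn a h ≤ gen p D ⊔ θ := sup_le hs2 (jn_le_iff.2 (hRh a ha))
        have hcs := cs_jn hna
        have hih := ih (σ ⊔ jn a h) (by omega) (hs1.trans le_sup_left) hle
        have hst := cmp_step p x D θ v h ρ σ f l a ha
        have hnn := h1 σ hs1 hs2 ((a, h) :: l) (by
          intro e he
          rcases List.mem_cons.1 he with rfl | he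
          · exact ⟨hRU a ha, hsub hh⟩
          · exact ⟨hsub (hl e he).1, hsub (hl e he).2⟩)
          (forest_cons.2 ⟨hna, forest_mono hle hF⟩)
        rw [hst] at hnn
        linarith
  intro σ hs1 hs2
  refine ⟨h1 σ hs1 hs2 l (fun e he => ⟨hsub (hl e he).1, hsub (hl e he).2⟩)
    (forest_mono hs2 hF), h2 _ σ rfl hs1 hs2⟩

end Pool.Agent.Lib.MP_4a8162_co.FB
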