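import Pool.Agent.Lib.MP_4a8162_co.FB.StmF

set_option autoImplicit false

/-!
# MP_4a8162_co, piece [CMS]
-/

namespace Pool.Agent.Lib.MP_4a8162_co.FB

open Finset
open scoped Classical

section aux

variable {V E : Type} [Fintype V] [Fintype E]

private theorem cs_bot : cs (⊥ : Setoid V) = Fintype.card V := by
  unfold cs
  rw [← Nat.card_eq_fintype_card]
  symm
  refine Nat.card_eq_of_bijective (fun a => (Quotient.mk'' a : Quotient (⊥ : Setoid V))) ⟨?_, ?_⟩
  · intro a b h
    have h1 : (⊥ : Setoid V) a b := Quotient.exact' h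
    exact h1
  · intro q
    induction q using Quotient.inductionOn' with
    | h a => exact ⟨a, rfl⟩

private theorem cs_top (a : V) : cs (⊤ : Setoid V) = 1 := by
  unfold cs
  rw [Nat.card_eq_one_iff_unique]
  refine ⟨⟨?_⟩, ⟨Quotient.mk'' a⟩⟩
  intro q q'
  induction q using Quotient.inductionOn' with
  | h b =>
    induction q' using Quotient.inductionOn' with
    | h c => exact Quotient.sound' trivial

private theorem lf_rel {S : Finset V} {π : Setoid {a : V // a ∈ S}} {a b : V} :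
    lf S π a b ↔ a = b ∨ ∃ (ha : a ∈ S) (hb : b ∈ S), π ⟨a, ha⟩ ⟨b, hb⟩ := Iff.rfl

private theorem lf_rel_right {S : Finset V} {π : Setoid {a : V // a ∈ S}} {a : V}
    {b : {a : V // a ∈ S}} : lf S π a b.1 ↔ ∃ (ha : a ∈ S), π ⟨a, ha⟩ b := by
  rw [lf_rel]
  constructor
  · rintro (h | ⟨ha, hb, h⟩)
    · subst h
      exact ⟨b.2, π.refl _⟩
    · exact ⟨ha, h⟩
  · rintro ⟨ha, h⟩
    exact Or.inr ⟨ha, b.2, h⟩

private theorem lf_rel_left {S : Finset V} {π : Setoid {a : V // a ∈ S}} {b : V}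
    {a : {a : V // a ∈ S}} : lf S π a.1 b ↔ ∃ (hb : b ∈ S), π a ⟨b, hb⟩ := by
  constructor
  · intro h
    obtain ⟨hb, h1⟩ := lf_rel_right.1 ((lf S π).symm h)
    exact ⟨hb, π.symm h1⟩
  · rintro ⟨hb, h⟩
    exact (lf S π).symm (lf_rel_right.2 ⟨hb, π.symm h⟩)

private theorem cs_lf (S : Finset V) (π : Setoid {a : V // a ∈ S}) :
    cs (lf S π) = cs π + (Fintype.card V - S.card) := by
  have h1 : Nat.card (Quotient π ⊕ {a : V // a ∉ S}) = cs (lf S π) := by
    unfold cs
    refine Nat.card_eq_of_bijective (fun c : Quotient π ⊕ {a : V // a ∉ S} =>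
      Sum.elim (Quotient.map' (fun a => a.1) (fun a b hab => lf_rel_right.2 ⟨a.2, hab⟩) :
        Quotient π → Quotient (lf S π)) (fun a => Quotient.mk'' a.1) c) ⟨?_, ?_⟩
    · rintro (c | c) (d | d) hcd
      · induction c using Quotient.inductionOn' with
        | h a =>
          induction d using Quotient.inductionOn' with
          | h b =>
            simp only [Sum.elim_inl, Quotient.map'_mk''] at hcd
            have h2 : lf S π a.1 b.1 := Quotient.exact' hcd
            obtain ⟨ha, h3⟩ := lf_rel_right.1 h2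
            exact congrArg Sum.inl (Quotient.sound' h3)
      · induction c using Quotient.inductionOn' with
        | h a =>
          simp only [Sum.elim_inl, Sum.elim_inr, Quotient.map'_mk''] at hcd
          have h2 : lf S π a.1 d.1 := Quotient.exact' hcd
          exact absurd (lf_rel_left.1 h2).choose d.2
      · induction d using Quotient.inductionOn' with
        | h a =>
          simp only [Sum.elim_inl, Sum.elim_inr, Quotient.map'_mk''] at hcd
          have h2 : lf S π c.1 a.1 := Quotient.exact' hcd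
          exact absurd (lf_rel_right.1 h2).choose c.2
      · simp only [Sum.elim_inr] at hcd
        have h2 : lf S π c.1 d.1 := Quotient.exact' hcd
        rcases h2 with h2 | ⟨h3, _⟩
        · exact congrArg Sum.inr (Subtype.ext h2)
        · exact absurd h3 c.2
    · intro q
      induction q using Quotient.inductionOn' with
      | h a =>
        by_cases ha : a ∈ S
        · exact ⟨Sum.inl (Quotient.mk'' ⟨a, ha⟩), rfl⟩
        · exact ⟨Sum.inr ⟨a, ha⟩, rfl⟩
  rw [← h1, Nat.card_sum]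
  unfold cs
  congr 1
  rw [Nat.card_eq_fintype_card, Fintype.card_subtype_compl]
  congr 1
  rw [Fintype.card_coe]

private theorem lf_sup_jn (S : Finset V) (π : Setoid {a : V // a ∈ S}) (a b : {a : V // a ∈ S}) :
    lf S (π ⊔ jn a b) = lf S π ⊔ jn a.1 b.1 := by
  ext c d
  rw [sup_jn_rel, lf_rel, lf_rel_right, lf_rel_left, lf_rel_right, lf_rel_left, lf_rel]
  constructor
  · rintro (h | ⟨hc, hd, h⟩)
    · exact Or.inl (Or.inl h)
    · rw [sup_jn_rel] at h
      rcases h with h | ⟨h1, h2⟩ | ⟨h1, h2⟩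
      · exact Or.inl (Or.inr ⟨hc, hd, h⟩)
      · exact Or.inr (Or.inl ⟨⟨hc, h1⟩, ⟨hd, h2⟩⟩)
      · exact Or.inr (Or.inr ⟨⟨hc, h1⟩, ⟨hd, h2⟩⟩)
  · rintro ((h | ⟨hc, hd, h⟩) | ⟨⟨hc, h1⟩, ⟨hd, h2⟩⟩ | ⟨⟨hc, h1⟩, ⟨hd, h2⟩⟩)
    · exact Or.inl h
    · exact Or.inr ⟨hc, hd, sup_jn_rel.2 (Or.inl h)⟩
    · exact Or.inr ⟨hc, hd, sup_jn_rel.2 (Or.inr (Or.inl ⟨h1, h2⟩))⟩
    · exact Or.inr ⟨hc, hd, sup_jn_rel.2 (Or.inr (Or.inr ⟨h1, h2⟩))⟩

/-- the list of pairs in `V` -/
private def up (S : Finset V) (l : List ({a : V // a ∈ S} × {a : V // a ∈ S})) : List (V × V) :=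
  l.map fun e => (e.1.1, e.2.1)

private theorem lf_sup_gl (S : Finset V) (l : List ({a : V // a ∈ S} × {a : V // a ∈ S}))
    (π : Setoid {a : V // a ∈ S}) : lf S (π ⊔ gl l) = lf S π ⊔ gl (up S l) := by
  induction l generalizing π with
  | nil => simp [gl, up]
  | cons e l ih =>
    have h1 := ih (π ⊔ jn e.1 e.2)
    rw [lf_sup_jn] at h1
    simp only [gl, up, List.map_cons]
    rw [← sup_assoc, ← sup_assoc]
    exact h1

private theorem fe_fS (p : E → V × V) {x : ℝ} (hx : 0 < x) (S : Finset V)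
    (l : List ({a : V // a ∈ S} × {a : V // a ∈ S})) (π : Setoid {a : V // a ∈ S}) :
    fe l (fS p x S) π = x ^ (Fintype.card V - S.card) *
      fe (up S l) (fun σ => (1 / x) ^ cs σ * PolD p x (ES p S)ᶜ σ) (lf S π) := by
  induction l generalizing π with
  | nil =>
    simp only [fe, up, List.map_nil, fS]
    rw [cs_lf, pow_add, ← mul_assoc, ← mul_assoc]
    congr 1
    have h1 : x ^ (Fintype.card V - S.card) * (1 / x) ^ (Fintype.card V - S.card) = 1 := by
      rw [← mul_pow, mul_one_div_cancel hx.ne', one_pow]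
    calc (1 / x) ^ cs π = (x ^ (Fintype.card V - S.card) *
        (1 / x) ^ (Fintype.card V - S.card)) * (1 / x) ^ cs π := by rw [h1, one_mul]
      _ = _ := by ring
  | cons e l ih =>
    have h1 := ih (π ⊔ jn e.1 e.2)
    rw [lf_sup_jn] at h1
    have h2 := ih π
    simp only [fe, up, List.map_cons]
    rw [h1, h2, mul_sub]
    rfl

/-- every class contains a vertex of `S` -/
private theorem cs_le (p : E → V × V) (S : Finset V) (hS : S.Nonempty) (htop : gen p univ = ⊤)
    (τ : Setoid {a : V // a ∈ S}) : cs (gen p (ES p S)ᶜ ⊔ lf S τ) ≤ cs τ := by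
  unfold cs
  refine Nat.card_le_card_of_surjective (Quotient.map' (fun a => a.1)
    (fun a b hab => (le_sup_right : lf S τ ≤ _) (lf_rel_right.2 ⟨a.2, hab⟩)) :
      Quotient τ → Quotient (gen p (ES p S)ᶜ ⊔ lf S τ)) ?_
  intro q
  induction q using Quotient.inductionOn' with
  | h b =>
    obtain ⟨a₀, ha₀⟩ := hS
    let ξ : Setoid V :=
      { r := fun c d => (∃ a ∈ S, (gen p (ES p S)ᶜ ⊔ lf S τ) a c) ↔
          ∃ a ∈ S, (gen p (ES p S)ᶜ ⊔ lf S τ) a d
        iseqv := ⟨fun _ => Iff.rfl, fun h => h.symm, fun h h' => h.trans h'⟩ }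
    have h1 : gen p univ ≤ ξ := by
      rw [gen_le_iff]
      intro e _
      by_cases he : e ∈ ES p S
      · have h2 : (p e).1 ∈ S ∧ (p e).2 ∈ S := by simpa [ES] using he
        exact ⟨fun _ => ⟨_, h2.2, Setoid.refl' _ _⟩, fun _ => ⟨_, h2.1, Setoid.refl' _ _⟩⟩
      · have h2 : (gen p (ES p S)ᶜ ⊔ lf S τ) (p e).1 (p e).2 :=
          (le_sup_left : gen p (ES p S)ᶜ ≤ _) (gen_rel (mem_compl.2 he))
        exact ⟨fun ⟨a, ha, h3⟩ => ⟨a, ha, Setoid.trans' _ h3 h2⟩,
          fun ⟨a, ha, h3⟩ => ⟨a, ha, Setoid.trans' _ h3 (Setoid.symm' _ h2)⟩⟩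
    rw [htop] at h1
    have h2 : ξ a₀ b := h1 trivial
    obtain ⟨a, ha, h3⟩ := h2.1 ⟨a₀, ha₀, Setoid.refl' _ _⟩
    exact ⟨Quotient.mk'' ⟨a, ha⟩, Quotient.sound' h3⟩

end aux

theorem p_CMS : S_FAD → S_CMS := by
  intro hFAD x r hx hPW V E _ _ p S hS htop hNl hBr hSc
  have hx0 : 0 < x := by linarith
  obtain ⟨a₀, ha₀⟩ := hS
  have hN : Fintype.card E < r + Fintype.card V := by
    unfold NlLt at hNl
    rw [sup_bot_eq, htop, cs_top a₀, cs_bot, Finset.card_univ] at hNl
    omega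
  have hR : ((ES p S)ᶜ).card + (ES p S).card = Fintype.card E := by
    rw [Finset.card_compl]
    have := Finset.card_le_univ (ES p S)
    omega
  have hSV : S.card ≤ Fintype.card V := Finset.card_le_univ _
  -- the nullity
  have hnul : ∀ (π : Setoid {a : V // a ∈ S}) (l : List ({a : V // a ∈ S} × {a : V // a ∈ S})),
      Forest l π → ((ES p S)ᶜ).card + l.length + cs (gen p (ES p S)ᶜ ⊔ lf S (π ⊔ gl l)) <
        r + cs (lf S π) := by
    intro π l hl
    have h1 := cs_le p S ⟨a₀, ha₀⟩ htop (π ⊔ gl l)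
    have h2 := cs_lf S π
    unfold Forest at hl
    omega
  constructor
  · intro π l hl
    rw [fe_fS p hx0]
    refine mul_nonneg (pow_pos hx0 _).le (hFAD x r hx0 hPW V E p _ _ _ ?_ ?_)
    · have h1 := cs_lf S π
      have h2 := cs_lf S (π ⊔ gl l)
      unfold Forest at hl ⊢
      rw [← lf_sup_gl]
      have h3 : (up S l).length = l.length := List.length_map _
      omega
    · have h1 := hnul π l hl
      rw [sup_assoc, ← lf_sup_gl]
      have h3 : (up S l).length = l.length := List.length_map _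
      omega
  · unfold fS
    refine mul_pos (pow_pos (by positivity) _) ((hPW V E p _ _ ?_).2 ?_)
    · have h1 := hnul ⊤ [] (by simp [Forest, gl])
      simp only [gl, sup_bot_eq, List.length_nil, add_zero] at h1
      exact h1
    · intro e he
      have h1 : (gen p (univ.erase e) ⊔ ⊥) (p e).1 (p e).2 := hBr e (mem_univ e)
      rw [sup_bot_eq] at h1
      refine (?_ : gen p (univ.erase e) ≤ _) h1
      rw [gen_le_iff]
      intro f hf
      by_cases h2 : f ∈ ES p S
      · have h3 : (p f).1 ∈ S ∧ (p f).2 ∈ S := by simpa [ES] using h2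
        exact (le_sup_right : lf S ⊤ ≤ _) (Or.inr ⟨h3.1, h3.2, trivial⟩)
      · exact (le_sup_left : gen p _ ≤ _)
          (gen_rel (mem_erase.2 ⟨(mem_erase.1 hf).1, mem_compl.2 h2⟩))

end Pool.Agent.Lib.MP_4a8162_co.FB
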