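import Pool.Agent.Lib.MP_4a8162_co.FB.StmB

set_option autoImplicit false

/-!
# MP_4a8162_co, REAL FLOW ROOTS ARE BOUNDED: piece CNT (the sum over the flats with nonvanishing
functional)
-/

namespace Pool.Agent.Lib.MP_4a8162_co.FB

open Finset
open scoped Classical

/-- **[CNT]** -/
theorem p_CNT : S_STR → S_PXX → S_PSS → S_CLU → S_MAP → S_INJ → S_CNT := by
  intro hSTR hPXX hPSS hCLU hMAP hINJ
  obtain ⟨y, hy0, hy1, hy⟩ := hPXX
  refine ⟨y ^ 2, by positivity, pow_le_one₀ hy0.le hy1, ?_⟩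
  intro V E _ _ p x D U θ v h A hx hIso hCfg hv hh hvh hA
  set S : Finset (Setoid V) := (FL p D θ v h).filter (fun π => A π ≠ 0) with hS
  have hmem : ∀ π ∈ S, π ∈ FL p D θ v h ∧ Wh p D θ v π ∧ Str p D θ v h π := by
    intro π hπ
    have h1 := Finset.mem_filter.1 hπ
    exact ⟨h1.1, hSTR V E p x D θ v h A hx hA hvh π h1.1 h1.2⟩
  have hU : U.Nonempty := ⟨h, hh⟩
  -- the term
  have hterm : ∀ π ∈ S, (y ^ 2) ^ (cutE p D π).card =
      y ^ (bd p (YY p D θ v h π)).card * ∏ P ∈ inn p D θ v h π, y ^ (bd p P).card := by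
    intro π hπ
    obtain ⟨h1, h2, -⟩ := hmem π hπ
    have h3 := (hCLU V E p D U θ v h hCfg hv hh hvh π h1 h2).2.2.2.2
    rw [← pow_mul, ← h3, Finset.prod_pow_eq_pow_sum, ← pow_add, add_comm]
  have hinj : Set.InjOn (fun π => (⟨YY p D θ v h π, inn p D θ v h π⟩ :
      Σ _ : Finset V, Finset (Finset V))) (S : Set (Setoid V)) := by
    intro π hπ π' hπ' he
    obtain ⟨h1, h2, -⟩ := hmem π hπ
    obtain ⟨h1', h2', -⟩ := hmem π' hπ'
    have h3 : inn p D θ v h π = inn p D θ v h π' := by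
      have h4 := congrArg (fun z : Σ _ : Finset V, Finset (Finset V) => z.2) he
      exact h4
    exact hINJ V E p D θ v h hvh π h1 π' h1' h2 h2' h3
  have hsub : S.image (fun π => (⟨YY p D θ v h π, inn p D θ v h π⟩ :
      Σ _ : Finset V, Finset (Finset V))) ⊆
      (univ.filter (fun J => Good p U v J)).sigma (fun Y => Pt p v Y) := by
    intro z hz
    rw [Finset.mem_image] at hz
    obtain ⟨π, hπ, rfl⟩ := hz
    obtain ⟨h1, h2, h3⟩ := hmem π hπ
    have h4 := hMAP V E p D U θ v h hCfg hv hh hvh π h1 h2 h3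
    rw [Finset.mem_sigma]
    exact ⟨Finset.mem_filter.2 ⟨Finset.mem_univ _, h4.1⟩, h4.2⟩
  have hnn : ∀ z : Σ _ : Finset V, Finset (Finset V),
      0 ≤ y ^ (bd p z.1).card * ∏ P ∈ z.2, y ^ (bd p P).card := by
    intro z
    exact mul_nonneg (pow_nonneg hy0.le _) (Finset.prod_nonneg fun P _ => pow_nonneg hy0.le _)
  calc ∑ π ∈ S, (y ^ 2) ^ (cutE p D π).card
      = ∑ π ∈ S, y ^ (bd p (YY p D θ v h π)).card *
          ∏ P ∈ inn p D θ v h π, y ^ (bd p P).card := Finset.sum_congr rfl hterm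
    _ = ∑ z ∈ S.image (fun π => (⟨YY p D θ v h π, inn p D θ v h π⟩ :
          Σ _ : Finset V, Finset (Finset V))),
          y ^ (bd p z.1).card * ∏ P ∈ z.2, y ^ (bd p P).card := by
        rw [Finset.sum_image hinj]
    _ ≤ ∑ z ∈ (univ.filter (fun J => Good p U v J)).sigma (fun Y => Pt p v Y),
          y ^ (bd p z.1).card * ∏ P ∈ z.2, y ^ (bd p P).card :=
        Finset.sum_le_sum_of_subset_of_nonneg hsub fun z _ _ => hnn z
    _ = ∑ Y ∈ univ.filter (fun J => Good p U v J), ∑ Q ∈ Pt p v Y,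
          y ^ (bd p Y).card * ∏ P ∈ Q, y ^ (bd p P).card := Finset.sum_sigma _ _ _
    _ ≤ ∑ Y ∈ univ.filter (fun J => Good p U v J), y ^ (bd p Y).card := by
        apply Finset.sum_le_sum
        intro Y hY
        have hG : Good p U v Y := (Finset.mem_filter.1 hY).2
        have hYu : Y ≠ univ := by
          rintro rfl
          exact (Finset.disjoint_left.1 hG.2.1 (Finset.mem_univ h)) hh
        have h5 := hPSS V E p y hy0.le (fun I hI a => hy V E p hIso I hI a) v Y hYu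
        rw [← Finset.mul_sum]
        have h6 : (0 : ℝ) ≤ y ^ (bd p Y).card := pow_nonneg hy0.le _
        nlinarith [mul_le_mul_of_nonneg_left h5 h6]
    _ ≤ 1 := hy V E p hIso U hU v

end Pool.Agent.Lib.MP_4a8162_co.FB
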