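import Pool.Agent.Lib.MP_4a8162_co.FB.StmF

set_option autoImplicit false

/-!
# MP_4a8162_co, piece [CON]
-/

namespace Pool.Agent.Lib.MP_4a8162_co.FB

open Finset
open scoped Classical

private theorem con_gen {V E : Type} [Fintype V] [Fintype E] (p : E → V × V) (S : Finset V)
    (B : Finset {e : E // (p e).1 ∈ S ∧ (p e).2 ∈ S}) :
    gen p (B.map (Function.Embedding.subtype _)) = lf S (gen (pS p S) B) := by
  apply le_antisymm
  · rw [gen_le_iff]
    intro e he
    rw [mem_map] at he
    obtain ⟨e', he', rfl⟩ := he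
    exact Or.inr ⟨e'.2.1, e'.2.2, gen_rel (p := pS p S) he'⟩
  · have h1 : gen (pS p S) B ≤
        Setoid.comap (Subtype.val : {a : V // a ∈ S} → V)
          (gen p (B.map (Function.Embedding.subtype _))) := by
      rw [gen_le_iff]
      intro e he
      show gen p (B.map (Function.Embedding.subtype _)) (p e.1).1 (p e.1).2
      exact gen_rel (mem_map_of_mem _ he)
    rintro a b (rfl | ⟨ha, hb, hab⟩)
    · exact Setoid.refl' _ a
    · exact h1 hab

theorem p_CON : S_CON := by
  intro V E _ _ p x hx S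
  have hES : ∀ e, e ∈ ES p S ↔ (p e).1 ∈ S ∧ (p e).2 ∈ S := by
    intro e
    simp [ES]
  -- the number of edges
  have hcard : (ES p S).card = Fintype.card {e : E // (p e).1 ∈ S ∧ (p e).2 ∈ S} := by
    rw [Fintype.card_subtype]
    rfl
  unfold q PolD
  rw [Finset.powerset_univ, Finset.powerset_univ, Finset.mul_sum]
  have hR : ∀ B' : Finset {e : E // (p e).1 ∈ S ∧ (p e).2 ∈ S},
      x ^ (ES p S).card * ((-(1 / x)) ^ B'.card * x ^ cs (gen (pS p S) (univ \ B') ⊔ ⊥) *
        fS p x S (gen (pS p S) (univ \ B') ⊔ ⊥)) =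
      ∑ B2 ∈ (ES p S)ᶜ.powerset, (-1) ^ (B'.card + ((ES p S)ᶜ \ B2).card) *
        x ^ (B'ᶜ.card + B2.card) *
        x ^ cs (gen p (B'ᶜ.map (Function.Embedding.subtype _) ∪ B2)) := by
    intro B'
    unfold fS PolD
    have h1 : univ \ B' = B'ᶜ := rfl
    rw [h1, sup_bot_eq]
    have h2 : x ^ (ES p S).card = x ^ B'.card * x ^ B'ᶜ.card := by
      rw [← pow_add, Finset.card_add_card_compl, hcard]
    have h3 : x ^ B'.card * (-(1 / x)) ^ B'.card = (-1) ^ B'.card := by
      rw [← mul_pow]
      congr 1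
      field_simp
    have h4 : ∀ n : ℕ, x ^ n * (1 / x) ^ n = 1 := by
      intro n
      rw [← mul_pow]
      have : x * (1 / x) = 1 := by field_simp
      rw [this, one_pow]
    calc x ^ (ES p S).card * ((-(1 / x)) ^ B'.card * x ^ cs (gen (pS p S) B'ᶜ) *
          ((1 / x) ^ cs (gen (pS p S) B'ᶜ) *
          ∑ B ∈ (ES p S)ᶜ.powerset, (-1) ^ ((ES p S)ᶜ \ B).card * x ^ B.card *
            x ^ cs (gen p B ⊔ lf S (gen (pS p S) B'ᶜ))))
        = (x ^ B'.card * (-(1 / x)) ^ B'.card) * x ^ B'ᶜ.card *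
          (x ^ cs (gen (pS p S) B'ᶜ) * (1 / x) ^ cs (gen (pS p S) B'ᶜ)) *
          ∑ B ∈ (ES p S)ᶜ.powerset, (-1) ^ ((ES p S)ᶜ \ B).card * x ^ B.card *
            x ^ cs (gen p B ⊔ lf S (gen (pS p S) B'ᶜ)) := by
          rw [h2]; ring
      _ = (-1) ^ B'.card * x ^ B'ᶜ.card *
          ∑ B ∈ (ES p S)ᶜ.powerset, (-1) ^ ((ES p S)ᶜ \ B).card * x ^ B.card *
            x ^ cs (gen p B ⊔ lf S (gen (pS p S) B'ᶜ)) := by
          rw [h3, h4, mul_one]
      _ = _ := by
          rw [Finset.mul_sum]
          apply Finset.sum_congr rfl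
          intro B2 _
          rw [gen_union, con_gen, sup_comm (lf S _) (gen p B2), pow_add, pow_add]
          ring
  symm
  refine Eq.trans (b := ∑ B' : Finset {e : E // (p e).1 ∈ S ∧ (p e).2 ∈ S},
      ∑ B2 ∈ (ES p S)ᶜ.powerset, (-1) ^ (B'.card + ((ES p S)ᶜ \ B2).card) *
        x ^ (B'ᶜ.card + B2.card) *
        x ^ cs (gen p (B'ᶜ.map (Function.Embedding.subtype _) ∪ B2))) ?_ ?_
  · apply Finset.sum_congr rfl
    intro B' _
    have e2 : ∀ (inst : DecidableEq {e : E // (p e).1 ∈ S ∧ (p e).2 ∈ S}),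
        @SDiff.sdiff _ (@Finset.instSDiff _ inst) univ B' =
          @Finset.filter _ (fun e => e ∉ B') (fun _ => Classical.propDecidable _) univ := by
      intro inst
      ext e
      simp
    have e3 := hR B'
    rw [e2] at e3 ⊢
    exact e3
  rw [← Finset.sum_product']
  refine Finset.sum_nbij'
    (i := fun t : Finset {e : E // (p e).1 ∈ S ∧ (p e).2 ∈ S} × Finset E =>
      t.1ᶜ.map (Function.Embedding.subtype _) ∪ t.2)
    (j := fun B : Finset E =>
      ((univ.filter fun e : {e : E // (p e).1 ∈ S ∧ (p e).2 ∈ S} => e.1 ∉ B), B \ ES p S))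
    ?_ ?_ ?_ ?_ ?_
  · intro t _
    exact mem_univ _
  · intro B _
    rw [mem_product, mem_powerset]
    refine ⟨mem_univ _, ?_⟩
    intro e he
    rw [mem_sdiff] at he
    rw [mem_compl]
    exact he.2
  · rintro ⟨B', B2⟩ ht
    rw [mem_product, mem_powerset] at ht
    have hB2 : ∀ e ∈ B2, ¬ ((p e).1 ∈ S ∧ (p e).2 ∈ S) := by
      intro e he
      have := ht.2 he
      rw [mem_compl, hES] at this
      exact this
    apply Prod.ext
    · ext e
      simp only [mem_filter, mem_univ, true_and, mem_union, mem_map, mem_compl,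
        Function.Embedding.subtype_apply]
      constructor
      · intro h
        by_contra h1
        exact h (Or.inl ⟨e, h1, rfl⟩)
      · rintro h (⟨e', he', h1⟩ | h1)
        · apply he'
          rw [Subtype.ext h1]
          exact h
        · exact hB2 _ h1 e.2
    · ext e
      simp only [mem_sdiff, mem_union, mem_map, mem_compl, Function.Embedding.subtype_apply, hES]
      constructor
      · rintro ⟨⟨e', he', rfl⟩ | h1, h2⟩
        · exact absurd e'.2 h2
        · exact h1
      · intro h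
        exact ⟨Or.inr h, hB2 e h⟩
  · intro B _
    ext e
    simp only [mem_sdiff, mem_union, mem_map, mem_compl, Function.Embedding.subtype_apply, hES,
      mem_filter, mem_univ, true_and, not_not]
    constructor
    · rintro (⟨e', he', rfl⟩ | h1)
      · exact he'
      · exact h1.1
    · intro h
      by_cases h1 : (p e).1 ∈ S ∧ (p e).2 ∈ S
      · exact Or.inl ⟨⟨e, h1⟩, h, rfl⟩
      · exact Or.inr ⟨h, h1⟩
  · rintro ⟨B', B2⟩ ht
    rw [mem_product, mem_powerset] at ht
    have hB2 : ∀ e ∈ B2, ¬ ((p e).1 ∈ S ∧ (p e).2 ∈ S) := by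
      intro e he
      have := ht.2 he
      rw [mem_compl, hES] at this
      exact this
    have hd1 : Disjoint (B'ᶜ.map (Function.Embedding.subtype _)) B2 := by
      rw [Finset.disjoint_left]
      intro e he he'
      rw [mem_map] at he
      obtain ⟨e', -, rfl⟩ := he
      exact hB2 _ he' e'.2
    have hd2 : Disjoint (B'.map (Function.Embedding.subtype _)) ((ES p S)ᶜ \ B2) := by
      rw [Finset.disjoint_left]
      intro e he he'
      rw [mem_map] at he
      obtain ⟨e', -, rfl⟩ := he
      rw [mem_sdiff, mem_compl, hES] at he'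
      exact he'.1 e'.2
    have h1 : univ \ (B'ᶜ.map (Function.Embedding.subtype _) ∪ B2) =
        B'.map (Function.Embedding.subtype _) ∪ ((ES p S)ᶜ \ B2) := by
      ext e
      simp only [mem_sdiff, mem_union, mem_map, mem_compl, Function.Embedding.subtype_apply, hES,
        mem_univ, true_and, not_or]
      constructor
      · rintro ⟨h1, h2⟩
        by_cases h3 : (p e).1 ∈ S ∧ (p e).2 ∈ S
        · left
          refine ⟨⟨e, h3⟩, ?_, rfl⟩
          by_contra h4
          exact h1 ⟨⟨e, h3⟩, h4, rfl⟩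
        · exact Or.inr ⟨h3, h2⟩
      · rintro (⟨e', he', rfl⟩ | ⟨h1, h2⟩)
        · refine ⟨?_, fun h => hB2 _ h e'.2⟩
          rintro ⟨e'', he'', h⟩
          apply he''
          rw [Subtype.ext h]
          exact he'
        · refine ⟨?_, h2⟩
          rintro ⟨e'', -, rfl⟩
          exact h1 e''.2
    simp only
    rw [h1, card_union_of_disjoint hd2, card_union_of_disjoint hd1, card_map, card_map, sup_bot_eq]

end Pool.Agent.Lib.MP_4a8162_co.FB
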