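import Pool.Agent.Lib.MP_4a8162_co.FB.StmC

set_option autoImplicit false

/-!
# MP_4a8162_co, REAL FLOW ROOTS ARE BOUNDED: piece DEL
-/

namespace Pool.Agent.Lib.MP_4a8162_co.FB

open Finset
open scoped Classical

theorem p_DEL : S_DEL := by
  intro V E _ _ p x D θ v h g hx
  unfold q EE
  rw [sum_filter, sum_filter, mul_sum, ← sum_sub_distrib, ← sum_sub_distrib]
  refine sum_congr rfl fun B _ => ?_
  rw [← sup_assoc]
  by_cases hB : (gen p (D \ B) ⊔ θ) v h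
  · rw [if_neg (not_not.2 hB), if_neg (not_not.2 hB), sup_jn_of_rel hB]
    ring
  · rw [if_pos hB, if_pos hB]
    have h1 : x ^ cs (gen p (D \ B) ⊔ θ) = x * x ^ cs (gen p (D \ B) ⊔ θ ⊔ jn v h) := by
      rw [← cs_jn hB, pow_succ]
      ring
    have h2 : 1 / x * ((-(1 / x)) ^ B.card * x ^ cs (gen p (D \ B) ⊔ θ) *
        g (gen p (D \ B) ⊔ θ ⊔ jn v h)) =
        (-(1 / x)) ^ B.card * x ^ cs (gen p (D \ B) ⊔ θ ⊔ jn v h) *
        g (gen p (D \ B) ⊔ θ ⊔ jn v h) := by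
      rw [h1]
      have h3 : 1 / x * x = 1 := by
        rw [one_div]
        exact inv_mul_cancel₀ hx.ne'
      calc 1 / x * ((-(1 / x)) ^ B.card * (x * x ^ cs (gen p (D \ B) ⊔ θ ⊔ jn v h)) *
            g (gen p (D \ B) ⊔ θ ⊔ jn v h)) =
            (1 / x * x) * ((-(1 / x)) ^ B.card * x ^ cs (gen p (D \ B) ⊔ θ ⊔ jn v h) *
            g (gen p (D \ B) ⊔ θ ⊔ jn v h)) := by ring
        _ = _ := by rw [h3, one_mul]
    rw [h2]

end Pool.Agent.Lib.MP_4a8162_co.FB
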