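import Pool.Agent.Lib.MP_4a8162_co.FB.StmF

set_option autoImplicit false

namespace Pool.Agent.Lib.MP_4a8162_co.FB

open Finset
open scoped Classical

theorem p_DGS : S_DGS := by
  intro V E _ _ p P
  have h1 : ∑ v ∈ P, (bd p {v}).card =
      ∑ e : E, (P.filter fun v => e ∈ bd p {v}).card := by
    have e1 : ∀ v ∈ P, (bd p {v}).card = ∑ e : E, if e ∈ bd p {v} then 1 else 0 := by
      intro v _
      rw [← card_filter]
      congr 1
      ext e
      simp
    rw [sum_congr rfl e1, sum_comm]
    apply sum_congr rfl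
    intro e _
    rw [card_filter]
  have h2 : 2 * (ES p P).card + (bd p P).card =
      ∑ e : E, ((if (p e).1 ∈ P then 1 else 0) + (if (p e).2 ∈ P then 1 else 0)) := by
    have e1 : (ES p P).card = ∑ e : E, if (p e).1 ∈ P ∧ (p e).2 ∈ P then 1 else 0 := by
      unfold ES
      rw [card_filter]
    have e2 : (bd p P).card = ∑ e : E, if ¬ ((p e).1 ∈ P ↔ (p e).2 ∈ P) then 1 else 0 := by
      unfold bd
      rw [card_filter]
    rw [e1, e2, mul_sum, ← sum_add_distrib]
    apply sum_congr rfl
    intro e _
    by_cases ha : (p e).1 ∈ P <;> by_cases hb : (p e).2 ∈ P <;> simp [ha, hb]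
  rw [h1, h2]
  apply sum_le_sum
  intro e _
  have e1 : (P.filter fun v => e ∈ bd p {v}) ⊆
      (({(p e).1} : Finset V).filter fun v => v ∈ P) ∪ (({(p e).2} : Finset V).filter fun v => v ∈ P) := by
    intro v hv
    rw [mem_filter, mem_bd, mem_singleton, mem_singleton] at hv
    rw [mem_union, mem_filter, mem_filter, mem_singleton, mem_singleton]
    by_cases h3 : (p e).1 = v
    · exact Or.inl ⟨h3.symm, hv.1⟩
    · by_cases h4 : (p e).2 = v
      · exact Or.inr ⟨h4.symm, hv.1⟩
      · exact absurd ⟨fun h => absurd h h3, fun h => absurd h h4⟩ hv.2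
  refine (card_le_card e1).trans ((card_union_le _ _).trans ?_)
  apply Nat.add_le_add
  · rw [filter_singleton]
    split_ifs <;> simp
  · rw [filter_singleton]
    split_ifs <;> simp

end Pool.Agent.Lib.MP_4a8162_co.FB
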