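import Pool.Agent.Lib.MP_4a8162_co.FB.StmA

set_option autoImplicit false

/-!
# MP_4a8162_co, REAL FLOW ROOTS ARE BOUNDED: piece EXC (the excess of the full family is zero)
-/

namespace Pool.Agent.Lib.MP_4a8162_co.FB

open Finset
open scoped Classical

private theorem exc_mem_cls {V : Type} [Fintype V] {π : Setoid V} {a b : V} :
    b ∈ cls π a ↔ π a b := by simp [cls]

/-- the number of classes -/
private theorem exc_cs {V : Type} [Fintype V] (π : Setoid V) :
    cs π = (univ.image (cls π)).card := by
  have h1 : Nat.card (Quotient π) = Nat.card (univ.image (cls π) : Finset (Finset V)) := by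
    apply Nat.card_congr
    refine Equiv.ofBijective (fun q => Quotient.liftOn' q (fun a => (⟨cls π a, by simp⟩ :
      (univ.image (cls π) : Finset (Finset V)))) (fun a b hab => ?_)) ⟨?_, ?_⟩
    · apply Subtype.ext
      ext x
      rw [exc_mem_cls, exc_mem_cls]
      exact ⟨fun h => π.trans (π.symm hab) h, fun h => π.trans hab h⟩
    · intro q r
      induction q using Quotient.inductionOn' with
      | h a =>
        induction r using Quotient.inductionOn' with
        | h b =>
          intro hab
          apply Quotient.sound'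
          have h2 : cls π a = cls π b := congrArg Subtype.val hab
          have h3 : b ∈ cls π b := exc_mem_cls.2 (π.refl b)
          rw [← h2] at h3
          exact exc_mem_cls.1 h3
    · rintro ⟨X, hX⟩
      rw [mem_image] at hX
      obtain ⟨a, -, ha⟩ := hX
      exact ⟨Quotient.mk'' a, Subtype.ext ha⟩
  unfold cs
  rw [h1, Nat.card_eq_fintype_card, Fintype.card_coe]

/-- the number of satisfied conditions -/
private theorem exc_ns {V E : Type} [Fintype V] [Fintype E] (p : E → V × V) (D : Finset E)
    (π ρ : Setoid V) (K : Finset (Finset V)) :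
    ns ρ (cd p D π K) = (K.filter fun X => Sat ρ (nbh p D π X : Set V)).card := by
  unfold ns cd
  rw [List.filter_map, List.length_map]
  have h1 : (K.filter fun X => Sat ρ (nbh p D π X : Set V)).card =
      Multiset.card (Multiset.filter (fun X => Sat ρ (nbh p D π X : Set V)) K.val) := rfl
  rw [h1, ← Finset.coe_toList, Multiset.filter_coe, Multiset.coe_card]
  congr 1
  apply List.filter_congr
  intro X _
  simp

theorem p_EXC : S_EXC := by
  intro V E _ _ p D θ v h _ π hπ hW ρ hρ hle K hK
  rw [mem_FL] at hπ hρ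
  rw [exc_ns, exc_cs, exc_cs]
  haveI : Nonempty V := ⟨v⟩
  have key : ∀ a : V, ∃ b, ρ a b ∧ cls π b ∉ K.filter fun X => Sat ρ (nbh p D π X : Set V) := by
    intro a
    by_contra hcon
    push Not at hcon
    have h1 : ∀ b, ρ a b → cls π b ∈ uc p D v h π ∧ Sat ρ (nbh p D π (cls π b) : Set V) := by
      intro b hb
      have := hcon b hb
      rw [mem_filter] at this
      exact ⟨hK this.1, this.2⟩
    have h2 : ¬ ρ a v := by
      intro hav
      have h3 := (h1 v hav).1
      unfold uc at h3
      rw [mem_filter] at h3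
      exact h3.2.1 (exc_mem_cls.2 (π.refl v))
    have h3 : ∀ e ∈ D, (ρ a (p e).1 ↔ ρ a (p e).2) := by
      intro e he
      constructor
      · intro h4
        have h5 := (h1 _ h4).2 (p e).1 (by
          rw [mem_coe]
          unfold nbh
          rw [mem_filter]
          exact ⟨mem_univ _, Or.inl (exc_mem_cls.2 (π.refl _))⟩) (p e).2 (by
          rw [mem_coe]
          unfold nbh
          rw [mem_filter]
          exact ⟨mem_univ _, Or.inr ⟨e, he, Or.inl ⟨exc_mem_cls.2 (π.refl _), π.refl _⟩⟩⟩)
        exact ρ.trans h4 h5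
      · intro h4
        have h5 := (h1 _ h4).2 (p e).2 (by
          rw [mem_coe]
          unfold nbh
          rw [mem_filter]
          exact ⟨mem_univ _, Or.inl (exc_mem_cls.2 (π.refl _))⟩) (p e).1 (by
          rw [mem_coe]
          unfold nbh
          rw [mem_filter]
          exact ⟨mem_univ _, Or.inr ⟨e, he, Or.inr ⟨exc_mem_cls.2 (π.refl _), π.refl _⟩⟩⟩)
        exact ρ.trans h4 h5
    have h4 : gen p D ⊔ θ ≤ Setoid.ker (fun x => (ρ a x : Prop)) := by
      apply sup_le
      · rw [gen_le_iff]
        intro e he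
        exact propext (h3 e he)
      · intro x y hxy
        have h5 : ρ x y := hρ.1.le hxy
        exact propext ⟨fun h6 => ρ.trans h6 h5, fun h6 => ρ.trans h6 (ρ.symm h5)⟩
    have h5 : ∀ b, (gen p D ⊔ θ) a b → ρ a b := by
      intro b hb
      have h6 : (ρ a a : Prop) = (ρ a b : Prop) := h4 hb
      exact h6.mp (ρ.refl a)
    have h6 : ¬ (gen p D ⊔ θ) a v := fun h7 => h2 (h5 v h7)
    have h7 : ∀ b, (gen p D ⊔ θ) a b → π a b := fun b hb => hW a b hb h6
    have h8 := (h1 a (ρ.refl a)).1
    unfold uc at h8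
    rw [mem_filter] at h8
    obtain ⟨-, -, -, e, he, h9⟩ := h8
    rw [mem_cutE] at he
    have hfe : (gen p D ⊔ θ) (p e).1 (p e).2 := (le_sup_left : gen p D ≤ _) (gen_rel he.1)
    have hπf : π ≤ gen p D ⊔ θ := hπ.1.le_full
    rcases h9 with h9 | h9
    · rw [exc_mem_cls] at h9
      have h10 := h7 _ ((gen p D ⊔ θ).trans (hπf h9) hfe)
      exact he.2 (π.trans (π.symm h9) h10)
    · rw [exc_mem_cls] at h9
      have h10 := h7 _ ((gen p D ⊔ θ).trans (hπf h9) ((gen p D ⊔ θ).symm hfe))
      exact he.2 (π.trans (π.symm h10) h9)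
  choose b hb hb' using key
  obtain ⟨K', hK'⟩ : ∃ K', K' = K.filter fun X => Sat ρ (nbh p D π X : Set V) := ⟨_, rfl⟩
  rw [← hK'] at hb' ⊢
  have hsub : K' ⊆ univ.image (cls π) := by
    intro X hX
    rw [hK', mem_filter] at hX
    have := hK hX.1
    unfold uc at this
    exact (mem_filter.1 this).1
  have h1 : (univ.image (cls ρ)).card ≤ ((univ.image (cls π)) \ K').card := by
    -- choose a vertex in each class of `ρ`
    have h2 : ∀ P ∈ univ.image (cls ρ), ∃ a, cls ρ a = P := by
      intro P hP
      rw [mem_image] at hP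
      obtain ⟨a, -, ha⟩ := hP
      exact ⟨a, ha⟩
    choose! r hr using h2
    apply card_le_card_of_injOn (fun P => cls π (b (r P)))
    · intro P _
      rw [mem_coe, mem_sdiff]
      exact ⟨mem_image.2 ⟨_, mem_univ _, rfl⟩, hb' _⟩
    · intro P hP Q hQ hPQ
      rw [mem_coe] at hP hQ
      have h3 : cls π (b (r P)) = cls π (b (r Q)) := hPQ
      have h4 : b (r Q) ∈ cls π (b (r Q)) := exc_mem_cls.2 (π.refl _)
      rw [← h3, exc_mem_cls] at h4
      have h5 : ρ (r P) (r Q) := ρ.trans (hb (r P)) (ρ.trans (hle h4) (ρ.symm (hb (r Q))))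
      rw [← hr P hP, ← hr Q hQ]
      ext x
      rw [exc_mem_cls, exc_mem_cls]
      exact ⟨fun h6 => ρ.trans (ρ.symm h5) h6, fun h6 => ρ.trans h5 h6⟩
  have h2 := card_sdiff_add_card_eq_card hsub
  omega

end Pool.Agent.Lib.MP_4a8162_co.FB
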