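import Pool.Agent.Lib.MP_4a8162_co.FB.StmB

set_option autoImplicit false

namespace Pool.Agent.Lib.MP_4a8162_co.FB

open Finset
open scoped Classical

private theorem exn_disj {V E : Type} [Fintype V] [Fintype E] {p : E → V × V} {D : Finset E}
    {θ : Setoid V} {v h : V} {π : Setoid V} {P Q : Finset V} (hP : P ∈ inn p D θ v h π)
    (hQ : Q ∈ inn p D θ v h π) (hne : P ≠ Q) : Disjoint P Q := by
  simp only [inn, mem_filter, mem_image, mem_univ, true_and] at hP hQ
  obtain ⟨⟨a, rfl⟩, -, -⟩ := hP
  obtain ⟨⟨b, rfl⟩, -, -⟩ := hQ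
  rw [Finset.disjoint_left]
  intro x hx hy
  simp only [cls, mem_filter, mem_univ, true_and] at hx hy
  apply hne
  ext y
  simp only [cls, mem_filter, mem_univ, true_and]
  have hab : π a b := π.trans hx (π.symm hy)
  exact ⟨fun h1 => π.trans (π.symm hab) h1, fun h1 => π.trans hab h1⟩

private theorem exn_h {V E : Type} [Fintype V] [Fintype E] {p : E → V × V} {D : Finset E}
    {θ : Setoid V} {v h : V} {π : Setoid V} {P : Finset V} (hP : P ∈ inn p D θ v h π) : h ∉ P := by
  simp only [inn, mem_filter, mem_image, mem_univ, true_and] at hP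
  exact hP.2.2

private theorem exn_ne_univ {V : Type} [Fintype V] {h : V} {P : Finset V} (hP : h ∉ P) :
    P ≠ univ := by
  rintro rfl
  exact hP (mem_univ h)

/-- an edge in the boundaries of two disjoint sets is not in the boundary of a set containing both -/
private theorem exn_inner {V E : Type} [Fintype V] [Fintype E] {p : E → V × V} {A B T : Finset V}
    (hAB : Disjoint A B) {e : E} (hA : e ∈ bd p A) (hB : e ∈ bd p B) (h1 : A ⊆ T) (h2 : B ⊆ T) :
    e ∉ bd p T := by
  rw [mem_bd] at hA hB ⊢
  rw [Finset.disjoint_left] at hAB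
  have a1 := @hAB (p e).1
  have a2 := @hAB (p e).2
  have b1 := @h1 (p e).1
  have b2 := @h1 (p e).2
  have c1 := @h2 (p e).1
  have c2 := @h2 (p e).2
  tauto

private theorem exn_third {V E : Type} [Fintype V] [Fintype E] {p : E → V × V} {A B T : Finset V}
    (hAB : Disjoint A B) {e : E} (hA : e ∈ bd p A) (hB : e ∈ bd p B) (h1 : Disjoint A T)
    (h2 : Disjoint B T) : e ∉ bd p T := by
  rw [mem_bd] at hA hB ⊢
  rw [Finset.disjoint_left] at hAB h1 h2
  have a1 := @hAB (p e).1
  have a2 := @hAB (p e).2
  have b1 := @h1 (p e).1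
  have b2 := @h1 (p e).2
  have c1 := @h2 (p e).1
  have c2 := @h2 (p e).2
  tauto

private theorem exn_union {V E : Type} [Fintype V] [Fintype E] {p : E → V × V} {A B : Finset V}
    {e : E} (he : e ∈ bd p (A ∪ B)) : e ∈ bd p A ∨ e ∈ bd p B := by
  rw [mem_bd] at he ⊢
  rw [mem_bd]
  simp only [mem_union] at he
  tauto

private theorem exn_end {V E : Type} [Fintype V] [Fintype E] {p : E → V × V} {P Y : Finset V}
    {e : E} (hPY : P ⊆ Y) (he : e ∈ bd p P) (hY : e ∉ bd p Y) :
    ∃ w, w ∈ Y ∧ w ∉ P ∧ (w = (p e).1 ∨ w = (p e).2) := by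
  rw [mem_bd] at he hY
  have h3 := @hPY (p e).1
  have h4 := @hPY (p e).2
  by_cases h1 : (p e).1 ∈ P
  · exact ⟨(p e).2, by tauto, by tauto, Or.inr rfl⟩
  · exact ⟨(p e).1, by tauto, h1, Or.inl rfl⟩

/-- members of a disjoint family outside of a set -/
private theorem exn_count {V : Type} [Fintype V] (N S : Finset (Finset V))
    (hdis : ∀ P ∈ N, ∀ Q ∈ N, P ≠ Q → Disjoint P Q) (hne : ∀ P ∈ N, P.Nonempty) (hS : S ⊆ N)
    (T : Finset V) (hT : T = S.biUnion id) : N.card ≤ S.card + (Tᶜ).card := by
  have h1 : (N \ S).card ≤ ((N \ S).biUnion id).card := by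
    rw [Finset.card_biUnion]
    · rw [Finset.card_eq_sum_ones]
      apply Finset.sum_le_sum
      intro P hP
      exact Finset.card_pos.2 (hne P (mem_sdiff.1 hP).1)
    · intro P hP Q hQ hPQ
      exact hdis P (mem_sdiff.1 hP).1 Q (mem_sdiff.1 hQ).1 hPQ
  have h2 : (N \ S).biUnion id ⊆ Tᶜ := by
    intro x hx
    rw [mem_biUnion] at hx
    obtain ⟨P, hP, hxP⟩ := hx
    rw [mem_compl, hT, mem_biUnion]
    rintro ⟨Q, hQ, hxQ⟩
    rw [mem_sdiff] at hP
    have hPQ : P ≠ Q := by
      rintro rfl
      exact hP.2 hQ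
    exact (Finset.disjoint_left.1 (hdis P hP.1 Q (hS hQ) hPQ)) hxP hxQ
  have h3 := Finset.card_le_card h2
  have h4 : N.card = (N \ S).card + S.card := by
    have := Finset.card_sdiff_add_card_eq_card hS
    omega
  omega

theorem p_EXN : S_CLU → S_EXN := by
  intro hCLU V E _ _ p D U θ v h hIso hCfg hv hh hvh π hπ hWh
  obtain ⟨c1, c2, c3, c4, c5⟩ := hCLU V E p D U θ v h hCfg hv hh hvh π hπ hWh
  obtain ⟨i1, -, i3⟩ := hIso
  set N := inn p D θ v h π with hN
  set Y := YY p D θ v h π with hY
  have hdis : ∀ P ∈ N, ∀ Q ∈ N, P ≠ Q → Disjoint P Q := fun P hP Q hQ hne => exn_disj hP hQ hne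
  have hhN : ∀ P ∈ N, h ∉ P := fun P hP => exn_h hP
  have hne : ∀ P ∈ N, P.Nonempty := fun P hP => (c4 P hP).1
  have hbd2 : ∀ P ∈ N, 2 ≤ (bd p P).card := fun P hP => i1 P (hne P hP) (exn_ne_univ (hhN P hP))
  have hvY : v ∈ Y := by
    rw [hY]
    simp only [YY, cls, mem_sdiff, mem_filter, mem_univ, true_and]
    exact ⟨(gen p D ⊔ θ).refl v, fun h1 => (mem_FL.1 hπ).2 (π.symm h1)⟩
  have hhY : h ∉ Y := fun h1 => (Finset.disjoint_left.1 c3) h1 hh
  have hbY : 2 ≤ (bd p Y).card := i1 Y ⟨v, hvY⟩ (exn_ne_univ hhY)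
  have hsum : 2 * N.card ≤ ∑ P ∈ N, (bd p P).card := by
    have : ∑ P ∈ N, 2 ≤ ∑ P ∈ N, (bd p P).card := Finset.sum_le_sum hbd2
    rw [Finset.sum_const, smul_eq_mul] at this
    omega
  refine ⟨by omega, ?_⟩
  by_cases hn : N.card ≤ 13
  · omega
  -- the members with two boundary edges
  set N2 := N.filter (fun P => (bd p P).card = 2) with hN2
  set N3 := N.filter (fun P => ¬ (bd p P).card = 2) with hN3
  have m2 : ∀ P ∈ N2, P ∈ N ∧ (bd p P).card = 2 := fun P hP => mem_filter.1 hP
  have hcard : N2.card + N3.card = N.card := Finset.card_filter_add_card_filter_not _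
  have hs : ∑ P ∈ N2, (bd p P).card + ∑ P ∈ N3, (bd p P).card = ∑ P ∈ N, (bd p P).card :=
    Finset.sum_filter_add_sum_filter_not _ _ _
  have hs2 : ∑ P ∈ N2, (bd p P).card = 2 * N2.card := by
    rw [Finset.sum_congr rfl (fun P hP => (m2 P hP).2), Finset.sum_const, smul_eq_mul, mul_comm]
  have hs3 : 3 * N3.card ≤ ∑ P ∈ N3, (bd p P).card := by
    have : ∑ P ∈ N3, 3 ≤ ∑ P ∈ N3, (bd p P).card := by
      apply Finset.sum_le_sum
      intro P hP
      have h1 := mem_filter.1 hP
      have h2 := hbd2 P h1.1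
      have h3 := h1.2
      omega
    rw [Finset.sum_const, smul_eq_mul] at this
    omega
  -- (C)
  have hC : ∀ P ∈ N2, ∃ e ∈ bd p P, ∀ Q ∈ N2, Q ≠ P → e ∉ bd p Q := by
    intro P hP
    by_contra hcon
    push Not at hcon
    obtain ⟨hPN, hP2⟩ := m2 P hP
    obtain ⟨e1, e2, he12, hbP⟩ := Finset.card_eq_two.1 hP2
    have he1 : e1 ∈ bd p P := by rw [hbP]; simp
    have he2 : e2 ∈ bd p P := by rw [hbP]; simp
    obtain ⟨P1, hP1, hP1P, he1'⟩ := hcon e1 he1
    obtain ⟨P2, hP2', hP2P, he2'⟩ := hcon e2 he2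
    obtain ⟨hP1N, hP1c⟩ := m2 P1 hP1
    obtain ⟨hP2N, hP2c⟩ := m2 P2 hP2'
    have d1 : Disjoint P P1 := hdis P hPN P1 hP1N hP1P.symm
    have d2 : Disjoint P P2 := hdis P hPN P2 hP2N hP2P.symm
    by_cases h12 : P1 = P2
    · subst h12
      have hT : bd p (P ∪ P1) = ∅ := by
        rw [Finset.eq_empty_iff_forall_notMem]
        intro e he
        have hb1 : bd p P1 = {e1, e2} := by
          symm
          apply Finset.eq_of_subset_of_card_le
          · intro x hx
            rw [mem_insert, mem_singleton] at hx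
            rcases hx with rfl | rfl
            · exact he1'
            · exact he2'
          · rw [hP1c, Finset.card_pair he12]
        have h3 : e ∈ bd p P ∨ e ∈ bd p P1 := exn_union he
        have h4 : e = e1 ∨ e = e2 := by
          rcases h3 with h3 | h3
          · rw [hbP] at h3; simpa using h3
          · rw [hb1] at h3; simpa using h3
        rcases h4 with rfl | rfl
        · exact exn_inner d1 he1 he1' subset_union_left subset_union_right he
        · exact exn_inner d1 he2 he2' subset_union_left subset_union_right he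
      have hTh : h ∉ P ∪ P1 := by
        rw [mem_union, not_or]
        exact ⟨hhN P hPN, hhN P1 hP1N⟩
      have h5 := i1 (P ∪ P1) ((hne P hPN).mono subset_union_left) (exn_ne_univ hTh)
      rw [hT, Finset.card_empty] at h5
      omega
    · have d3 : Disjoint P1 P2 := hdis P1 hP1N P2 hP2N h12
      set T := P ∪ P1 ∪ P2 with hT
      have s0 : P ⊆ T := by
        intro x hx; rw [hT]; simp [hx]
      have s1 : P1 ⊆ T := by
        intro x hx; rw [hT]; simp [hx]
      have s2 : P2 ⊆ T := by
        intro x hx; rw [hT]; simp [hx]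
      have hTh : h ∉ T := by
        rw [hT, mem_union, mem_union]
        rintro ((h1 | h1) | h1)
        · exact hhN P hPN h1
        · exact hhN P1 hP1N h1
        · exact hhN P2 hP2N h1
      have hsub : bd p T ⊆ (bd p P1).erase e1 ∪ (bd p P2).erase e2 := by
        intro e he
        have n1 : e ≠ e1 := by
          rintro rfl
          exact exn_inner d1 he1 he1' s0 s1 he
        have n2 : e ≠ e2 := by
          rintro rfl
          exact exn_inner d2 he2 he2' s0 s2 he
        rcases (exn_union he).imp_left exn_union with (h3 | h3) | h3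
        · rw [hbP, mem_insert, mem_singleton] at h3
          exact absurd h3 (not_or.2 ⟨n1, n2⟩)
        · exact mem_union_left _ (mem_erase.2 ⟨n1, h3⟩)
        · exact mem_union_right _ (mem_erase.2 ⟨n2, h3⟩)
      have hle : (bd p T).card ≤ 2 := by
        have h1 := Finset.card_le_card hsub
        have h2 := Finset.card_union_le ((bd p P1).erase e1) ((bd p P2).erase e2)
        rw [Finset.card_erase_of_mem he1', Finset.card_erase_of_mem he2', hP1c, hP2c] at h2
        omega
      have hTne : T.Nonempty := (hne P hPN).mono s0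
      have h2le := i1 T hTne (exn_ne_univ hTh)
      have hT3 : 3 ≤ T.card := by
        rw [hT, Finset.card_union_of_disjoint, Finset.card_union_of_disjoint d1]
        · have h1 := Finset.card_pos.2 (hne P hPN)
          have h2 := Finset.card_pos.2 (hne P1 hP1N)
          have h3 := Finset.card_pos.2 (hne P2 hP2N)
          omega
        · rw [Finset.disjoint_union_left]
          exact ⟨d2, d3⟩
      have hTc : Tᶜ.card ≤ 2 := by
        rcases i3 T hTne (exn_ne_univ hTh) (by omega) with h1 | h1
        · omega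
        · exact h1
      have hTS : T = ({P, P1, P2} : Finset (Finset V)).biUnion id := by
        rw [hT]
        simp [Finset.biUnion_insert, Finset.union_assoc]
      have hSN : ({P, P1, P2} : Finset (Finset V)) ⊆ N := by
        intro x hx
        simp only [mem_insert, mem_singleton] at hx
        rcases hx with rfl | rfl | rfl
        · exact hPN
        · exact hP1N
        · exact hP2N
      have h6 := exn_count N {P, P1, P2} hdis hne hSN T hTS
      have h7 : ({P, P1, P2} : Finset (Finset V)).card ≤ 3 := Finset.card_le_three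
      omega
  have hbYne : (bd p Y).Nonempty := Finset.card_pos.1 (by omega)
  have : Nonempty E := ⟨hbYne.choose⟩
  choose! f hf1 hf2 using hC
  have hinj : N2.card ≤ ((N3.biUnion (bd p)) ∪ bd p Y).card := by
    apply Finset.card_le_card_of_injOn f
    · intro P hP
      have hP' : P ∈ N2 := hP
      have hPN : P ∈ N := (m2 P hP').1
      have he := hf1 P hP'
      show f P ∈ ((N3.biUnion (bd p)) ∪ bd p Y)
      rw [mem_union]
      by_cases hY' : f P ∈ bd p Y
      · exact Or.inr hY'
      · left
        have hcut := (((c4 P hPN).2 (f P)).1 he).1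
        have hPY : P ⊆ Y := by
          rw [← c2]
          exact Finset.subset_biUnion_of_mem id hPN
        -- the end outside of P
        obtain ⟨w, hwY, hwP, hw⟩ := exn_end hPY he hY'
        rw [← c2, mem_biUnion] at hwY
        obtain ⟨Q, hQ, hwQ⟩ := hwY
        have hwQ' : w ∈ Q := hwQ
        have hQP : Q ≠ P := by
          rintro rfl
          exact hwP hwQ'
        have heQ : f P ∈ bd p Q := by
          rw [(c4 Q hQ).2]
          refine ⟨hcut, ?_⟩
          rcases hw with rfl | rfl
          · exact Or.inl hwQ'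
          · exact Or.inr hwQ'
        rw [mem_biUnion]
        refine ⟨Q, ?_, heQ⟩
        rw [hN3, mem_filter]
        refine ⟨hQ, fun h2 => ?_⟩
        exact hf2 P hP' Q (by rw [hN2, mem_filter]; exact ⟨hQ, h2⟩) hQP heQ
    · intro P hP Q hQ hPQ
      by_contra hne'
      have h1 := hf2 P hP Q hQ (fun h1 => hne' h1.symm)
      have h2 := hf1 Q hQ
      have h3 : f P = f Q := hPQ
      rw [h3] at h1
      exact h1 h2
  have hU := Finset.card_union_le (N3.biUnion (bd p)) (bd p Y)
  have hB : (N3.biUnion (bd p)).card ≤ ∑ P ∈ N3, (bd p P).card := Finset.card_biUnion_le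
  omega

end Pool.Agent.Lib.MP_4a8162_co.FB
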