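import Pool.Agent.Lib.MP_4a8162_co.FB.StmC

set_option autoImplicit false

namespace Pool.Agent.Lib.MP_4a8162_co.FB

open Finset
open scoped Classical

private theorem exp_gs {V E : Type} [Fintype V] [Fintype E] (p : E → V × V) (x : ℝ) (D : Finset E)
    (θ : Setoid V) (v h : V) (L : (Setoid V → ℝ) →ₗ[ℝ] ℝ) (ρ : Setoid V) (g : Setoid V → ℝ) :
    L (Gs p x D θ v h ρ g) = ∑ B ∈ (Din p D ρ).powerset, (-(1 / x)) ^ B.card *
      x ^ cs (gen p (Din p D ρ \ B) ⊔ θ ⊔ wire (Rv p D v h ρ) ρ) *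
      L (fun σ => g (gen p (Din p D ρ \ B) ⊔ θ ⊔ wire (Rv p D v h ρ) σ)) := by
  have h1 : Gs p x D θ v h ρ g = ∑ B ∈ (Din p D ρ).powerset, ((-(1 / x)) ^ B.card *
      x ^ cs (gen p (Din p D ρ \ B) ⊔ θ ⊔ wire (Rv p D v h ρ) ρ)) •
      (fun σ => g (gen p (Din p D ρ \ B) ⊔ θ ⊔ wire (Rv p D v h ρ) σ)) := by
    funext σ
    rw [Finset.sum_apply]
    rfl
  rw [h1, map_sum]
  refine Finset.sum_congr rfl fun B _ => ?_
  rw [map_smul, smul_eq_mul]

theorem p_EXP : S_EXP := by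
  intro V E _ _ p x D θ v h A hx hA g
  obtain ⟨-, hA2⟩ := hA
  have h1 : ∀ B ∈ D.powerset.filter (fun B => ¬ (gen p (D \ B) ⊔ θ) v h),
      (-(1 / x)) ^ B.card * x ^ cs (gen p (D \ B) ⊔ θ) * g (gen p (D \ B) ⊔ θ) =
      ∑ ρ ∈ (FL p D θ v h).filter (fun ρ => gen p (D \ B) ⊔ θ ≤ ρ),
        (-(1 / x)) ^ B.card * x ^ cs (wi p D v h (gen p (D \ B) ⊔ θ) ρ ρ) *
          A ρ (fun σ => g (wi p D v h (gen p (D \ B) ⊔ θ) ρ σ)) := by
    intro B hB
    rw [Finset.mem_filter] at hB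
    have hFL : gen p (D \ B) ⊔ θ ∈ FL p D θ v h := mem_FL.2 ⟨Fl.pi, hB.2⟩
    rw [hA2 _ hFL g, Finset.mul_sum]
    refine Finset.sum_congr rfl fun ρ _ => ?_
    have hcs : cs (wi p D v h (gen p (D \ B) ⊔ θ) ρ ρ) ≤ cs (gen p (D \ B) ⊔ θ) :=
      cs_anti le_sup_left
    obtain ⟨k, hk⟩ := Nat.exists_eq_add_of_le hcs
    rw [hk, Nat.add_sub_cancel_left, pow_add, ← mul_assoc]
    have hxk : x ^ k * (1 / x) ^ k = 1 := by
      rw [← mul_pow, mul_one_div, div_self hx.ne', one_pow]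
    calc (-(1 / x)) ^ B.card * (x ^ cs (wi p D v h (gen p (D \ B) ⊔ θ) ρ ρ) * x ^ k) * (1 / x) ^ k *
          A ρ (fun σ => g (wi p D v h (gen p (D \ B) ⊔ θ) ρ σ)) =
        (-(1 / x)) ^ B.card * x ^ cs (wi p D v h (gen p (D \ B) ⊔ θ) ρ ρ) *
          (x ^ k * (1 / x) ^ k) *
          A ρ (fun σ => g (wi p D v h (gen p (D \ B) ⊔ θ) ρ σ)) := by ring
      _ = _ := by rw [hxk, mul_one]
  unfold EE
  rw [Finset.sum_congr rfl h1]
  rw [Finset.sum_comm' (t' := FL p D θ v h)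
    (s' := fun ρ => D.powerset.filter (fun B => cutE p D ρ ⊆ B))]
  · refine Finset.sum_congr rfl fun ρ hρ => ?_
    rw [exp_gs, Finset.mul_sum]
    symm
    refine Finset.sum_bij (fun B' _ => cutE p D ρ ∪ B') ?_ ?_ ?_ ?_
    · intro B' hB'
      rw [Finset.mem_powerset] at hB'
      rw [Finset.mem_filter, Finset.mem_powerset]
      refine ⟨Finset.union_subset (Finset.filter_subset _ _)
        (hB'.trans (Finset.filter_subset _ _)), Finset.subset_union_left⟩
    · intro B1 hB1 B2 hB2 h12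
      rw [Finset.mem_powerset] at hB1 hB2
      have d1 : Disjoint (cutE p D ρ) B1 :=
        (disjoint_Din_cutE.symm).mono_right hB1
      have d2 : Disjoint (cutE p D ρ) B2 :=
        (disjoint_Din_cutE.symm).mono_right hB2
      ext e
      have he := Finset.ext_iff.1 h12 e
      simp only [Finset.mem_union] at he
      constructor
      · intro h3
        rcases he.1 (Or.inr h3) with h4 | h4
        · exact absurd h3 (Finset.disjoint_left.1 d1 h4)
        · exact h4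
      · intro h3
        rcases he.2 (Or.inr h3) with h4 | h4
        · exact absurd h3 (Finset.disjoint_left.1 d2 h4)
        · exact h4
    · intro B hB
      rw [Finset.mem_filter, Finset.mem_powerset] at hB
      refine ⟨B ∩ Din p D ρ, Finset.mem_powerset.2 Finset.inter_subset_right, ?_⟩
      ext e
      simp only [Finset.mem_union, Finset.mem_inter]
      constructor
      · rintro (h3 | h3)
        · exact hB.2 h3
        · exact h3.1
      · intro h3
        have hD := hB.1 h3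
        rw [← Din_union_cutE (p := p) (D := D) (ρ := ρ), Finset.mem_union] at hD
        rcases hD with h4 | h4
        · exact Or.inr ⟨h3, h4⟩
        · exact Or.inl h4
    · intro B' hB'
      rw [Finset.mem_powerset] at hB'
      have hd : Disjoint (cutE p D ρ) B' :=
        (disjoint_Din_cutE.symm).mono_right hB'
      rw [Finset.card_union_of_disjoint hd, sdiff_cutE_union, pow_add]
      unfold wi
      ring
  · intro B ρ
    simp only [Finset.mem_filter, Finset.mem_powerset]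
    constructor
    · rintro ⟨⟨h2, h3⟩, h4, h5⟩
      exact ⟨⟨h2, (pi_le_iff (mem_FL.1 h4).1).1 h5⟩, h4⟩
    · rintro ⟨⟨h2, h3⟩, h4⟩
      have h5 := (pi_le_iff (mem_FL.1 h4).1).2 h3
      exact ⟨⟨h2, fun h6 => (mem_FL.1 h4).2 (h5 h6)⟩, h4, h5⟩

end Pool.Agent.Lib.MP_4a8162_co.FB
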