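import Pool.Agent.Lib.MP_4a8162_co.FB.StmF

set_option autoImplicit false

namespace Pool.Agent.Lib.MP_4a8162_co.FB

open Finset
open scoped Classical

private theorem fad_fe {V : Type} [Fintype V] (s0 : Setoid V) (F F' : Setoid V → ℝ)
    (l : List (V × V)) : ∀ θ : Setoid V,
    (∀ τ, θ ≤ τ → τ ≤ θ ⊔ gl l → F' τ = F (τ ⊔ s0) - F τ) →
    fe l F' θ = fe l F (θ ⊔ s0) - fe l F θ := by
  induction l with
  | nil =>
    intro θ h
    exact h θ le_rfl le_sup_left
  | cons e l ih =>
    intro θ h
    have h1 := ih (θ ⊔ jn e.1 e.2) (by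
      intro τ h2 h3
      refine h τ (le_trans le_sup_left h2) ?_
      simp only [gl]
      rw [← sup_assoc]
      exact h3)
    have h2 := ih θ (by
      intro τ h2 h3
      refine h τ h2 (le_trans h3 ?_)
      simp only [gl]
      rw [← sup_assoc]
      exact sup_le_sup_right le_sup_left _)
    simp only [fe]
    rw [h1, h2, sup_right_comm θ s0 (jn e.1 e.2)]
    ring

private theorem fad_gen {V E : Type} [Fintype V] [Fintype E] (p : E → V × V)
    (p' : Option E → V × V) (hp : ∀ e, p' (some e) = p e) (B : Finset E) :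
    gen p' (B.map Function.Embedding.some) = gen p B := by
  apply le_antisymm
  · rw [gen_le_iff]
    intro e he
    rw [Finset.mem_map] at he
    obtain ⟨a, ha, rfl⟩ := he
    have h1 : p' (Function.Embedding.some a) = p a := hp a
    rw [h1]
    exact gen_rel ha
  · rw [gen_le_iff]
    intro e he
    have h1 : (Function.Embedding.some e) ∈ B.map Function.Embedding.some :=
      Finset.mem_map_of_mem _ he
    have h2 := gen_rel (p := p') h1
    have h3 : p' (Function.Embedding.some e) = p e := hp e
    rw [h3] at h2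
    exact h2

private theorem fad_pol {V E : Type} [Fintype V] [Fintype E] (p : E → V × V)
    (p' : Option E → V × V) (hp : ∀ e, p' (some e) = p e) (x : ℝ) (D : Finset E) (θ : Setoid V) :
    PolD p' x (D.map Function.Embedding.some) θ = PolD p x D θ := by
  unfold PolD
  symm
  refine Finset.sum_bij' (fun B _ => B.map Function.Embedding.some)
    (fun B _ => B.preimage Function.Embedding.some (fun _ _ _ _ h => Option.some_injective _ h))
    ?_ ?_ ?_ ?_ ?_
  · intro B hB
    rw [Finset.mem_powerset] at hB ⊢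
    exact Finset.map_subset_map.2 hB
  · intro B hB
    rw [Finset.mem_powerset] at hB ⊢
    intro e he
    rw [Finset.mem_preimage] at he
    have h1 := hB he
    rw [Finset.mem_map] at h1
    obtain ⟨a, ha, h2⟩ := h1
    have h3 : a = e := Option.some_injective _ h2
    rw [← h3]
    exact ha
  · intro B hB
    ext e
    simp [Finset.mem_preimage]
  · intro B hB
    rw [Finset.mem_powerset] at hB
    ext e
    constructor
    · intro he
      rw [Finset.mem_map] at he
      obtain ⟨a, ha, rfl⟩ := he
      exact Finset.mem_preimage.1 ha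
    · intro he
      have h1 := hB he
      rw [Finset.mem_map] at h1
      obtain ⟨a, ha, rfl⟩ := h1
      rw [Finset.mem_map]
      exact ⟨a, Finset.mem_preimage.2 he, rfl⟩
  · intro B hB
    rw [fad_gen p p' hp B]
    have h1 : D.map Function.Embedding.some \ B.map Function.Embedding.some =
        (D \ B).map Function.Embedding.some := by
      ext e
      simp only [Finset.mem_sdiff, Finset.mem_map]
      constructor
      · rintro ⟨⟨a, ha, rfl⟩, h2⟩
        exact ⟨a, ⟨ha, fun h3 => h2 ⟨a, h3, rfl⟩⟩, rfl⟩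
      · rintro ⟨a, ⟨ha, h2⟩, rfl⟩
        refine ⟨⟨a, ha, rfl⟩, ?_⟩
        rintro ⟨b, hb, hba⟩
        have h4 : b = a := Option.some_injective _ hba
        exact h2 (h4 ▸ hb)
    have h5 : (D.map Function.Embedding.some \ B.map Function.Embedding.some).card = (D \ B).card := by
      rw [h1, Finset.card_map]
    rw [Finset.card_map]
    congr 3
    rw [← h5]
    congr
    exact Subsingleton.elim _ _

private theorem fad_ins (hPDI : S_PDI) {V E : Type} [Fintype V] [Fintype E] (p : E → V × V)
    (x : ℝ) (D0 : Finset E) (e : E) (he : e ∉ D0) :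
    ∃ D1 : Finset E, (∀ τ, PolD p x D1 τ =
      x * PolD p x D0 (τ ⊔ jn (p e).1 (p e).2) - PolD p x D0 τ) ∧
      gen p D1 = gen p D0 ⊔ jn (p e).1 (p e).2 ∧ D1.card = D0.card + 1 :=
  ⟨insert e D0, fun τ => hPDI V E p x D0 τ e he, gen_insert p D0 e,
    Finset.card_insert_of_notMem he⟩

theorem p_FAD : S_PDI → S_FAD := by
  intro hPDI x r hx hPW V E _ _ p D θ l hF hN
  suffices H : ∀ (l : List (V × V)) (E : Type) [Fintype E] (p : E → V × V) (D : Finset E)
      (θ : Setoid V), Forest l θ → D.card + l.length + cs (gen p D ⊔ θ ⊔ gl l) < r + cs θ →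
      0 ≤ fe l (fun σ => (1 / x) ^ cs σ * PolD p x D σ) θ from H l E p D θ hF hN
  clear hF hN l θ D p
  intro l
  induction l with
  | nil =>
    intro E _ p D θ _ hN
    simp only [fe]
    have h1 : NlLt p D θ r := by
      unfold NlLt
      simpa [gl] using hN
    exact mul_nonneg (by positivity) (hPW V E p D θ h1).1
  | cons e0 l ih =>
    intro E _ p D θ hF hN
    let p' : Option E → V × V := fun o => o.elim e0 p
    have hp : ∀ e, p' (some e) = p e := fun _ => rfl
    let D0 : Finset (Option E) := D.map Function.Embedding.some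
    have hD0 : (none : Option E) ∉ D0 := by
      simp [D0]
    have hgen : gen p' D0 = gen p D := fad_gen p p' hp D
    obtain ⟨D1, hD1, hD2, hD3⟩ := fad_ins hPDI p' x D0 none hD0
    obtain ⟨hF1, hF2⟩ := forest_cons.1 hF
    have hFl : Forest l θ := forest_mono le_sup_left hF2
    have hnot : ¬ (θ ⊔ gl l) e0.1 e0.2 := by
      intro hc
      have h1 := cs_le_gl l θ
      have h2 : θ ⊔ gl (e0 :: l) = θ ⊔ gl l := by
        simp only [gl]
        rw [← sup_assoc, sup_right_comm]
        exact sup_jn_of_rel hc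
      unfold Forest at hF
      rw [h2] at hF
      simp only [List.length_cons] at hF
      omega
    have hrel : ∀ τ, θ ≤ τ → τ ≤ θ ⊔ gl l →
        (fun σ => (1 / x) ^ cs σ * PolD p' x D1 σ) τ =
        (fun σ => (1 / x) ^ cs σ * PolD p x D σ) (τ ⊔ jn e0.1 e0.2) -
          (fun σ => (1 / x) ^ cs σ * PolD p x D σ) τ := by
      intro τ _ h2
      have h3 : ¬ τ e0.1 e0.2 := fun hc => hnot (h2 hc)
      have h4 := cs_jn h3
      have h5 := hD1 τ
      have h6 : p' none = e0 := rfl
      rw [h6] at h5
      have h7 : ∀ σ, PolD p' x D0 σ = PolD p x D σ := fun σ => fad_pol p p' hp x D σ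
      rw [h7, h7] at h5
      simp only
      rw [h5, ← h4, pow_succ]
      field_simp
    have h1 := fad_fe (jn e0.1 e0.2) (fun σ => (1 / x) ^ cs σ * PolD p x D σ)
      (fun σ => (1 / x) ^ cs σ * PolD p' x D1 σ) l θ hrel
    have h2 : fe (e0 :: l) (fun σ => (1 / x) ^ cs σ * PolD p x D σ) θ =
        fe l (fun σ => (1 / x) ^ cs σ * PolD p' x D1 σ) θ := by
      rw [h1]
      rfl
    rw [h2]
    refine ih (Option E) p' D1 θ hFl ?_
    have h3 : gen p' D1 = gen p D ⊔ jn e0.1 e0.2 := by
      rw [hD2, hgen]
      rfl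
    rw [h3, hD3]
    have h4 : D0.card = D.card := Finset.card_map _
    rw [h4]
    have h5 : gen p D ⊔ jn e0.1 e0.2 ⊔ θ ⊔ gl l = gen p D ⊔ θ ⊔ gl (e0 :: l) := by
      simp only [gl]
      rw [sup_right_comm (gen p D), sup_assoc (gen p D ⊔ θ)]
    rw [h5]
    simp only [List.length_cons] at hN
    omega

end Pool.Agent.Lib.MP_4a8162_co.FB
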