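import Pool.Agent.Lib.MP_4a8162_co.FB.StmF

set_option autoImplicit false

namespace Pool.Agent.Lib.MP_4a8162_co.FB

open Finset
open scoped Classical

private theorem GAN_K {A B : ℝ} (hA : 8 ≤ A) (hAB : A ≤ B) (h1 : 1 ≤ Real.log A) :
    Real.log B ^ 2 / 2 - Real.log A ^ 2 / 2 ≤ (B - A) * (Real.log A / A) := by
  have hA0 : 0 < A := by linarith
  have hB0 : 0 < B := by linarith
  set u := Real.log (B / A) with hu
  have hBA : 1 ≤ B / A := by rw [le_div_iff₀ hA0]; linarith
  have hu0 : 0 ≤ u := Real.log_nonneg hBA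
  have he : Real.exp u = B / A := Real.exp_log (by positivity)
  have hlog : Real.log B = Real.log A + u := by
    rw [hu, Real.log_div hB0.ne' hA0.ne']; ring
  have hq := Real.quadratic_le_exp_of_nonneg hu0
  rw [he] at hq
  have h2 : (B - A) * (Real.log A / A) = (B / A - 1) * Real.log A := by
    field_simp
  rw [h2, hlog]
  have h3 : (u + u ^ 2 / 2) * Real.log A ≤ (B / A - 1) * Real.log A := by
    apply mul_le_mul_of_nonneg_right _ (by linarith)
    linarith
  nlinarith [sq_nonneg u, mul_nonneg (sq_nonneg u) (by linarith : 0 ≤ Real.log A - 1)]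

private theorem GAN_log9_lt : Real.log 9 < 11 / 5 := by
  have h1 : (9 : ℝ) ^ 5 < Real.exp 1 ^ 11 := by
    have := Real.exp_one_gt_d9
    calc (9 : ℝ) ^ 5 < 2.7182818283 ^ 11 := by norm_num
      _ ≤ Real.exp 1 ^ 11 := by gcongr
  have h2 : Real.log ((9 : ℝ) ^ 5) < Real.log (Real.exp 1 ^ 11) :=
    Real.log_lt_log (by norm_num) h1
  rw [Real.log_pow, Real.log_pow, Real.log_exp] at h2
  norm_num at h2
  linarith

private theorem GAN_log9_gt : 17 / 8 < Real.log 9 := by
  have h1 : Real.exp 1 ^ 17 < (9 : ℝ) ^ 8 := by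
    have := Real.exp_one_lt_d9
    calc Real.exp 1 ^ 17 ≤ 2.7182818286 ^ 17 := by gcongr
      _ < (9 : ℝ) ^ 8 := by norm_num
  have h2 := Real.log_lt_log (by positivity) h1
  rw [Real.log_pow, Real.log_pow, Real.log_exp] at h2
  norm_num at h2
  linarith

private theorem GAN_log11_lt : Real.log 11 < 61 / 25 := by
  -- 11 ^ 25 < e ^ 61
  have h1 : (11 : ℝ) ^ 25 < Real.exp 1 ^ 61 := by
    have := Real.exp_one_gt_d9
    calc (11 : ℝ) ^ 25 < 2.7182818283 ^ 61 := by norm_num
      _ ≤ Real.exp 1 ^ 61 := by gcongr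
  have h2 := Real.log_lt_log (by norm_num) h1
  rw [Real.log_pow, Real.log_pow, Real.log_exp] at h2
  norm_num at h2
  linarith

private theorem GAN_log409_gt : 6 ≤ Real.log 409 := by
  have h1 : Real.exp 1 ^ 6 < (409 : ℝ) := by
    have := Real.exp_one_lt_d9
    calc Real.exp 1 ^ 6 ≤ 2.7182818286 ^ 6 := by gcongr
      _ < (409 : ℝ) := by norm_num
  have h2 := Real.log_lt_log (by positivity) h1
  rw [Real.log_pow, Real.log_exp] at h2
  norm_num at h2
  linarith

private theorem GAN_one_le {A : ℝ} (hA : 8 ≤ A) : 1 ≤ Real.log A := by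
  have h1 := Real.exp_one_lt_d9
  rw [Real.le_log_iff_exp_le (by linarith)]
  linarith

private theorem GAN_anti {A B : ℝ} (hA : 8 ≤ A) (hAB : A ≤ B) :
    Real.log B / B ≤ Real.log A / A := by
  have h1 := Real.exp_one_lt_d9
  exact Real.log_div_self_antitoneOn (by show Real.exp 1 ≤ A; linarith)
    (by show Real.exp 1 ≤ B; linarith) hAB

private theorem GAN_concave : ConcaveOn ℝ (Set.Ici (8 : ℝ)) (fun y => Real.log y ^ 2 / 2) := by
  apply AntitoneOn.concaveOn_of_deriv (convex_Ici 8)
  · apply ContinuousOn.div_const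
    apply ContinuousOn.pow
    apply Real.continuousOn_log.mono
    intro x hx
    simp only [Set.mem_Ici] at hx
    simp only [Set.mem_compl_iff, Set.mem_singleton_iff]
    linarith
  · intro x hx
    rw [interior_Ici] at hx
    simp only [Set.mem_Ioi] at hx
    have : DifferentiableAt ℝ Real.log x := Real.differentiableAt_log (by linarith)
    exact ((this.pow 2).div_const 2).differentiableWithinAt
  · have hd : ∀ x ∈ interior (Set.Ici (8 : ℝ)),
        deriv (fun y => Real.log y ^ 2 / 2) x = Real.log x / x := by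
      intro x hx
      rw [interior_Ici] at hx
      simp only [Set.mem_Ioi] at hx
      have h1 : HasDerivAt Real.log x⁻¹ x := Real.hasDerivAt_log (by linarith)
      have h2 : HasDerivAt (fun y : ℝ => Real.log y ^ 2 / 2)
          (((2 : ℕ) : ℝ) * Real.log x ^ (2 - 1) * x⁻¹ / 2) x := (h1.pow 2).div_const 2
      rw [h2.deriv]
      simp only [Nat.cast_ofNat, Nat.add_one_sub_one, pow_one]
      ring
    intro x hx y hy hxy
    rw [hd x hx, hd y hy]
    rw [interior_Ici] at hx
    simp only [Set.mem_Ioi] at hx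
    exact GAN_anti hx.le hxy

theorem p_GAN : S_GAN := by
  have l9 := GAN_log9_lt
  have l9' := GAN_log9_gt
  have l11 := GAN_log11_lt
  have l409 := GAN_log409_gt
  have e1 : ∀ n : ℕ, 1 ≤ n → gg n ≤ n + 2 := by
    intro n hn
    have hn' : (1 : ℝ) ≤ n := by exact_mod_cast hn
    have h := GAN_K (A := 9) (B := n + 8) (by norm_num) (by linarith) (by linarith)
    have h2 : ((n : ℝ) + 8 - 9) * (Real.log 9 / 9) ≤ ((n : ℝ) - 1) * 1 := by
      have : (n : ℝ) + 8 - 9 = n - 1 := by ring
      rw [this]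
      apply mul_le_mul_of_nonneg_left _ (by linarith)
      rw [div_le_iff₀ (by norm_num)]
      linarith
    unfold gg
    nlinarith [h, h2, l9, l9']
  have e2 : ∀ n : ℕ, 3 ≤ n → gg n ≤ n := by
    intro n hn
    have hn' : (3 : ℝ) ≤ n := by exact_mod_cast hn
    have h0 : (0 : ℝ) ≤ Real.log 11 := Real.log_nonneg (by norm_num)
    have h := GAN_K (A := 11) (B := n + 8) (by norm_num) (by linarith)
      (GAN_one_le (by norm_num))
    have h2 : ((n : ℝ) + 8 - 11) * (Real.log 11 / 11) ≤ ((n : ℝ) - 3) * 1 := by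
      have : (n : ℝ) + 8 - 11 = n - 3 := by ring
      rw [this]
      apply mul_le_mul_of_nonneg_left _ (by linarith)
      rw [div_le_iff₀ (by norm_num)]
      linarith
    unfold gg
    nlinarith [h, h2, l11, h0]
  refine ⟨e1, e2, ?_, ?_, ?_, ?_⟩
  · intro p s hp hps
    have hp' : (1 : ℝ) ≤ p := by exact_mod_cast hp
    have hps' : 2 * (p : ℝ) ≤ s := by exact_mod_cast hps
    have hsub : ((s - p : ℕ) : ℝ) = (s : ℝ) - p := by
      rw [Nat.cast_sub (by omega)]
    have hs2 : (2 : ℝ) ≤ s := by linarith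
    -- gg 1 + gg (s - 1) ≤ gg p + gg (s - p)
    have hc : Real.log 9 ^ 2 / 2 + Real.log ((s : ℝ) + 7) ^ 2 / 2 ≤
        Real.log ((p : ℝ) + 8) ^ 2 / 2 + Real.log ((s : ℝ) - p + 8) ^ 2 / 2 := by
      rcases eq_or_lt_of_le hs2 with hs | hs
      · have hp1 : (p : ℝ) = 1 := by linarith
        rw [hp1, ← hs]
        norm_num
      · have hs0 : 0 < (s : ℝ) - 2 := by linarith
        set t : ℝ := ((p : ℝ) - 1) / (s - 2) with ht
        have ht0 : 0 ≤ t := div_nonneg (by linarith) hs0.le
        have ht1 : t ≤ 1 := by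
          rw [ht, div_le_one hs0]
          linarith
        have hts : t * (s - 2) = p - 1 := by
          rw [ht]
          field_simp
        have h9 : (9 : ℝ) ∈ Set.Ici (8 : ℝ) := by simp only [Set.mem_Ici]; norm_num
        have hs7 : ((s : ℝ) + 7) ∈ Set.Ici (8 : ℝ) := by simp only [Set.mem_Ici]; linarith
        have c1 := GAN_concave.2 h9 hs7 (by linarith : 0 ≤ 1 - t) ht0 (by ring)
        have c2 := GAN_concave.2 h9 hs7 ht0 (by linarith : 0 ≤ 1 - t) (by ring)
        simp only [smul_eq_mul] at c1 c2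
        have q1 : (1 - t) * 9 + t * ((s : ℝ) + 7) = (p : ℝ) + 8 := by linarith
        have q2 : t * 9 + (1 - t) * ((s : ℝ) + 7) = (s : ℝ) - p + 8 := by linarith
        rw [q1] at c1
        rw [q2] at c2
        linarith
    have hk := GAN_K (A := (s : ℝ) + 7) (B := s + 8) (by linarith) (by linarith)
      (GAN_one_le (by linarith))
    have ha := GAN_anti (A := 9) (B := (s : ℝ) + 7) (by norm_num) (by linarith)
    have hl : Real.log 9 / 9 ≤ 11 / 45 := by
      rw [div_le_iff₀ (by norm_num)]
      linarith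
    have hk' : Real.log ((s : ℝ) + 8) ^ 2 / 2 - Real.log ((s : ℝ) + 7) ^ 2 / 2 ≤
        Real.log ((s : ℝ) + 7) / ((s : ℝ) + 7) := by
      calc _ ≤ _ := hk
        _ = _ := by ring
    unfold gg
    rw [hsub]
    nlinarith [hk', ha, hl, hc, l9']
  · intro p s hp hps
    have hp' : (401 : ℝ) ≤ p := by exact_mod_cast hp
    have hps' : 2 * (p : ℝ) ≤ s := by exact_mod_cast hps
    have hsub : ((s - p : ℕ) : ℝ) = (s : ℝ) - p := by
      rw [Nat.cast_sub (by omega)]
    have hk := GAN_K (A := (s : ℝ) - p + 8) (B := s + 8) (by linarith) (by linarith)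
      (GAN_one_le (by linarith))
    have ha := GAN_anti (A := (p : ℝ) + 8) (B := (s : ℝ) - p + 8) (by linarith) (by linarith)
    have hL : Real.log 409 ≤ Real.log ((p : ℝ) + 8) :=
      Real.log_le_log (by norm_num) (by linarith)
    set L := Real.log ((p : ℝ) + 8) with hLdef
    have hL6 : 6 ≤ L := by linarith
    have h3 : (s + 8 - ((s : ℝ) - p + 8)) * (Real.log ((s : ℝ) - p + 8) / ((s : ℝ) - p + 8)) ≤ L := by
      have e : (s + 8 - ((s : ℝ) - p + 8)) = p := by ring
      rw [e]
      calc (p : ℝ) * (Real.log ((s : ℝ) - p + 8) / ((s : ℝ) - p + 8)) ≤ p * (L / ((p : ℝ) + 8)) := by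
            apply mul_le_mul_of_nonneg_left ha (by linarith)
        _ ≤ L := by
            rw [mul_div_assoc', div_le_iff₀ (by linarith)]
            nlinarith
    unfold gg psi
    rw [hsub]
    constructor
    · nlinarith [hk, h3]
    · nlinarith [hk, h3]
  · intro p s hp hs
    have hp' : (p : ℝ) ≤ 400 := by exact_mod_cast hp
    have hp0 : (0 : ℝ) ≤ p := Nat.cast_nonneg p
    have hs' : (1000000 : ℝ) ≤ s := by exact_mod_cast hs
    have hsub : ((s - p : ℕ) : ℝ) = (s : ℝ) - p := by
      rw [Nat.cast_sub (by omega)]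
    have hk := GAN_K (A := (s : ℝ) - p + 8) (B := s + 8) (by linarith) (by linarith)
      (GAN_one_le (by linarith))
    have ha := GAN_anti (A := 999608) (B := (s : ℝ) - p + 8) (by norm_num) (by linarith)
    have hl : Real.log 999608 ≤ 20 := by
      have h1 : Real.log 999608 ≤ Real.log ((2 : ℝ) ^ 20) :=
        Real.log_le_log (by norm_num) (by norm_num)
      rw [Real.log_pow] at h1
      have := Real.log_two_lt_d9
      norm_num at h1
      linarith
    have hl2 : Real.log 999608 / 999608 ≤ 1 / 40000 := by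
      rw [div_le_iff₀ (by norm_num)]
      linarith
    have h3 : (s + 8 - ((s : ℝ) - p + 8)) * (Real.log ((s : ℝ) - p + 8) / ((s : ℝ) - p + 8)) ≤
        400 * (1 / 40000) := by
      have e : (s + 8 - ((s : ℝ) - p + 8)) = p := by ring
      rw [e]
      apply mul_le_mul hp' (by linarith) _ (by norm_num)
      apply div_nonneg (by linarith [GAN_one_le (A := (s : ℝ) - p + 8) (by linarith)]) (by linarith)
    unfold gg
    rw [hsub]
    linarith
  · intro n hn
    have h := e1 n hn
    have hn' : (1 : ℝ) ≤ n := by exact_mod_cast hn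
    unfold gg at h
    unfold psi
    linarith

end Pool.Agent.Lib.MP_4a8162_co.FB
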