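import Pool.Agent.Lib.MP_4a8162_co.FB.StmC

set_option autoImplicit false

/-!
# Piece GJN
-/

namespace Pool.Agent.Lib.MP_4a8162_co.FB

open Finset
open scoped Classical

private theorem GJN_wire {V : Type} [Fintype V] (R : Set V) (σ : Setoid V) (v h : V) (hv : v ∈ R)
    (hh : h ∈ R) : wire R σ ⊔ jn v h = wire R (σ ⊔ jn v h) := by
  apply le_antisymm
  · refine sup_le ?_ ?_
    · rw [wire_le_iff]
      intro a ha b hb hab
      exact Or.inr ⟨ha, hb, (le_sup_left : σ ≤ σ ⊔ jn v h) hab⟩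
    · rw [jn_le_iff]
      exact Or.inr ⟨hv, hh, (le_sup_right : jn v h ≤ σ ⊔ jn v h) (jn_rel v h)⟩
  · rw [wire_le_iff]
    intro a ha b hb hab
    rw [sup_jn_rel] at hab
    have hw : ∀ x ∈ R, ∀ y ∈ R, σ x y → (wire R σ ⊔ jn v h) x y := fun x hx y hy hxy =>
      (le_sup_left : wire R σ ≤ wire R σ ⊔ jn v h) (Or.inr ⟨hx, hy, hxy⟩)
    have hj : (wire R σ ⊔ jn v h) v h :=
      (le_sup_right : jn v h ≤ wire R σ ⊔ jn v h) (jn_rel v h)
    rcases hab with h1 | ⟨h1, h2⟩ | ⟨h1, h2⟩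
    · exact hw a ha b hb h1
    · exact (wire R σ ⊔ jn v h).trans (hw a ha v hv h1)
        ((wire R σ ⊔ jn v h).trans hj (hw h hh b hb h2))
    · exact (wire R σ ⊔ jn v h).trans (hw a ha h hh h1)
        ((wire R σ ⊔ jn v h).trans ((wire R σ ⊔ jn v h).symm hj) (hw v hv b hb h2))

theorem p_GJN : S_GJN := by
  intro V E _ _ p x D θ v h ρ σ g
  unfold Gs
  refine Finset.sum_congr rfl fun B _ => ?_
  have hv : v ∈ Rv p D v h ρ := by simp [Rv]
  have hh : h ∈ Rv p D v h ρ := by simp [Rv]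
  simp only [sup_assoc]
  rw [GJN_wire _ σ v h hv hh]

end Pool.Agent.Lib.MP_4a8162_co.FB
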