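import Pool.Agent.Lib.MP_4a8162_co.FB.StmC

/-!
# MP_4a8162_co, FB, piece GQQ: the coefficient function is a state sum of the new configuration
-/

set_option autoImplicit false

namespace Pool.Agent.Lib.MP_4a8162_co.FB

open Finset
open scoped Classical

private theorem gqq_wire_jn {V : Type} [Fintype V] {R : Set V} {ρ : Setoid V} {a b : V}
    (ha : a ∈ R) (hb : b ∈ R) : wire R (ρ ⊔ jn a b) = wire R ρ ⊔ jn a b := by
  apply le_antisymm
  · rw [wire_le_iff]
    intro c hc d hd hcd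
    have hw : ∀ u w, u ∈ R → w ∈ R → ρ u w → (wire R ρ ⊔ jn a b) u w := by
      intro u w hu hw huw
      exact (le_sup_left : wire R ρ ≤ _) (Or.inr ⟨hu, hw, huw⟩)
    have hj : (wire R ρ ⊔ jn a b) a b := (le_sup_right : jn a b ≤ _) (jn_rel a b)
    rw [sup_jn_rel] at hcd
    rcases hcd with h1 | ⟨h1, h2⟩ | ⟨h1, h2⟩
    · exact hw c d hc hd h1
    · exact (wire R ρ ⊔ jn a b).trans (hw c a hc ha h1)
        ((wire R ρ ⊔ jn a b).trans hj (hw b d hb hd h2))
    · exact (wire R ρ ⊔ jn a b).trans (hw c b hc hb h1)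
        ((wire R ρ ⊔ jn a b).trans ((wire R ρ ⊔ jn a b).symm hj) (hw a d ha hd h2))
  · refine sup_le ?_ ?_
    · rw [wire_le_iff]
      intro c hc d hd hcd
      exact Or.inr ⟨hc, hd, (le_sup_left : ρ ≤ ρ ⊔ jn a b) hcd⟩
    · rw [jn_le_iff]
      exact Or.inr ⟨ha, hb, (le_sup_right : jn a b ≤ ρ ⊔ jn a b) (jn_rel a b)⟩

private theorem gqq_cs (hR : S_RCH) {V E : Type} [Fintype V] [Fintype E] {p : E → V × V}
    {D : Finset E} {θ : Setoid V} {v h : V} {ρ : Setoid V} (hρ : ρ ∈ FL p D θ v h)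
    {σ : Setoid V} (hσ : σ ≤ gen p D ⊔ θ) {π : Setoid V} (hπ : π ≤ ρ) :
    ∀ (n : ℕ) (ρ' : Setoid V), cs ρ' = n → ρ ≤ ρ' → ρ' ≤ σ →
      cs (π ⊔ wire (Rv p D v h ρ) ρ') + cs σ = cs (π ⊔ wire (Rv p D v h ρ) σ) + cs ρ' := by
  intro n
  induction n using Nat.strong_induction_on with
  | _ n ih =>
    intro ρ' hn h1 h2
    by_cases h3 : ρ' = σ
    · rw [h3]
    · obtain ⟨a, ha, b, hb, hab, hnab⟩ := hR V E p D θ v h ρ hρ ρ' σ h1 h2 hσ h3
      have h4 := cs_jn hnab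
      have h5 : ρ' ⊔ jn a b ≤ σ := sup_le h2 (jn_le_iff.2 hab)
      have h6 := ih (cs (ρ' ⊔ jn a b)) (by omega) (ρ' ⊔ jn a b) rfl
        (h1.trans le_sup_left) h5
      rw [gqq_wire_jn ha hb, ← sup_assoc] at h6
      have h7 : ¬ (π ⊔ wire (Rv p D v h ρ) ρ') a b := by
        intro h8
        have h9 : π ⊔ wire (Rv p D v h ρ) ρ' ≤ ρ' := by
          refine sup_le (hπ.trans h1) ?_
          rw [wire_le_iff]
          intro c _ d _ hcd
          exact hcd
        exact hnab (h9 h8)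
      have h10 := cs_jn h7
      omega

private theorem gqq_ins {V E : Type} [Fintype V] [Fintype E] {p : E → V × V} {x : ℝ}
    {A : Finset E} {θ : Setoid V} {g : Setoid V → ℝ} {e : E} (he : e ∉ A)
    (hr : θ (p e).1 (p e).2) :
    q p x (insert e A) θ g = (1 - 1 / x) * q p x A θ g := by
  unfold q
  rw [Finset.sum_powerset_insert he, Finset.mul_sum, ← Finset.sum_add_distrib]
  refine Finset.sum_congr rfl fun B hB => ?_
  have heB : e ∉ B := fun h => he (Finset.mem_powerset.1 hB h)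
  have h1 : insert e A \ B = insert e (A \ B) := Finset.insert_sdiff_of_notMem A heB
  have h2 : insert e A \ insert e B = A \ B := by
    ext f
    simp only [mem_sdiff, mem_insert, not_or]
    constructor
    · rintro ⟨h3 | h3, h4, h5⟩
      · exact absurd h3 h4
      · exact ⟨h3, h5⟩
    · rintro ⟨h3, h4⟩
      exact ⟨Or.inr h3, fun h5 => he (h5 ▸ h3), h4⟩
  have h3 : gen p (insert e (A \ B)) ⊔ θ = gen p (A \ B) ⊔ θ := by
    rw [gen_insert, sup_assoc]
    congr 1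
    exact sup_eq_right.2 (jn_le_iff.2 hr)
  rw [h1, h2, h3, Finset.card_insert_of_notMem heB, pow_succ]
  ring

private theorem gqq_un {V E : Type} [Fintype V] [Fintype E] {p : E → V × V} {x : ℝ}
    {θ : Setoid V} {g : Setoid V → ℝ} (A J : Finset E) (hd : Disjoint A J)
    (hr : ∀ e ∈ J, θ (p e).1 (p e).2) :
    q p x (A ∪ J) θ g = (1 - 1 / x) ^ J.card * q p x A θ g := by
  induction J using Finset.induction_on with
  | empty => simp
  | insert e J he ih =>
    have h1 : e ∉ A := fun h => Finset.disjoint_left.1 hd h (mem_insert_self e J)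
    have h2 : Disjoint A J := Finset.disjoint_of_subset_right (subset_insert e J) hd
    have h3 : e ∉ A ∪ J := by
      rw [mem_union, not_or]
      exact ⟨h1, he⟩
    rw [Finset.union_insert, gqq_ins h3 (hr e (mem_insert_self e J)),
      ih h2 (fun f hf => hr f (mem_insert_of_mem hf)), Finset.card_insert_of_notMem he, pow_succ]
    ring

theorem p_GQQ (hR : S_RCH) : S_GQQ := by
  intro V E _ _ p x D θ v h hx ρ hρ σ hρσ hσ g
  have hθ : θ ≤ ρ := (mem_FL.1 hρ).1.le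
  have hsub : Din p D ρ ⊆ Din p D σ := by
    intro e he
    rw [mem_Din] at he ⊢
    exact ⟨he.1, hρσ he.2⟩
  have hun : Din p D ρ ∪ (Din p D σ \ Din p D ρ) = Din p D σ := Finset.union_sdiff_of_subset hsub
  have hq : q p x (Din p D σ) (θ ⊔ wire (Rv p D v h ρ) σ) g =
      (1 - 1 / x) ^ (Din p D σ \ Din p D ρ).card *
        q p x (Din p D ρ) (θ ⊔ wire (Rv p D v h ρ) σ) g := by
    rw [← gqq_un (Din p D ρ) (Din p D σ \ Din p D ρ) Finset.disjoint_sdiff, hun]
    intro e he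
    rw [mem_sdiff, mem_Din, mem_Din, not_and] at he
    obtain ⟨⟨h1, h2⟩, h3⟩ := he
    have h4 : e ∈ cutE p D ρ := mem_cutE.2 ⟨h1, h3 h1⟩
    exact (le_sup_right : wire (Rv p D v h ρ) σ ≤ _)
      (Or.inr ⟨Or.inr (Or.inr ⟨e, h4, Or.inl rfl⟩), Or.inr (Or.inr ⟨e, h4, Or.inr rfl⟩), h2⟩)
  have hG : Gs p x D θ v h ρ g σ = x ^ (cs ρ - cs σ) *
      q p x (Din p D ρ) (θ ⊔ wire (Rv p D v h ρ) σ) g := by
    unfold Gs q
    rw [Finset.mul_sum]
    refine Finset.sum_congr rfl fun B hB => ?_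
    have hπ : gen p (Din p D ρ \ B) ⊔ θ ≤ ρ := by
      refine sup_le ?_ hθ
      rw [gen_le_iff]
      intro e he
      exact (mem_Din.1 (mem_sdiff.1 he).1).2
    have h1 := gqq_cs hR hρ hσ hπ (cs ρ) ρ rfl le_rfl hρσ
    have h2 := cs_anti hρσ
    have h3 : cs (gen p (Din p D ρ \ B) ⊔ θ ⊔ wire (Rv p D v h ρ) ρ) =
        (cs ρ - cs σ) + cs (gen p (Din p D ρ \ B) ⊔ θ ⊔ wire (Rv p D v h ρ) σ) := by
      omega
    rw [h3, pow_add, ← sup_assoc]
    ring
  rw [hG, hq]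
  ring

end Pool.Agent.Lib.MP_4a8162_co.FB
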