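import Pool.Agent.Lib.MP_4a8162_co.FB.StmC

set_option autoImplicit false

/-!
# MP_4a8162_co, REAL FLOW ROOTS ARE BOUNDED: piece GRW (the growth estimate)
-/

namespace Pool.Agent.Lib.MP_4a8162_co.FB

open Finset
open scoped Classical

/-- join the elements of the list with `h` -/
private def GRW_js {V : Type} (h : V) : List V → Setoid V
  | [] => ⊥
  | r :: L => jn r h ⊔ GRW_js h L

private theorem GRW_js_le {V : Type} [Fintype V] (h : V) (L : List V) (s : Setoid V) :
    GRW_js h L ≤ s ↔ ∀ r ∈ L, s r h := by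
  induction L with
  | nil => simp [GRW_js]
  | cons r L ih =>
    rw [GRW_js, sup_le_iff, ih, jn_le_iff]
    simp

/-- the iteration -/
private theorem GRW_it (hCFO : S_CFO) (V E : Type) [Fintype V] [Fintype E] (p : E → V × V) (x : ℝ)
    (D : Finset E) (U : Finset V) (h : V) (f : Setoid V → ℝ) (l : List (V × V)) (ε : ℝ)
    (hε0 : 0 ≤ ε) (hε1 : ε ≤ 1 / 4) (full : Setoid V)
    (hl : ∀ e ∈ l, e.1 ∈ U ∧ e.2 ∈ U) (hF : Forest l full) (hPos : Pos p x f Uᶜ.card)
    (hRat : Rat p x f ε Uᶜ.card) (L : List V) : (∀ r ∈ L, full r h) →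
    ∀ (U' : Finset V) (θ' : Setoid V), U ⊆ U' → U'ᶜ.card < Uᶜ.card → h ∈ U' → Cfg p D U' θ' →
      gen p D ⊔ θ' = full →
      (1 - ε) ^ L.length * q p x D (θ' ⊔ GRW_js h L) (fe l f) ≤ q p x D θ' (fe l f) := by
  induction L with
  | nil =>
    intro _ U' θ' _ _ _ _ _
    simp [GRW_js]
  | cons r L ih =>
    intro hL U' θ' hUU hcard hh hC hfull
    have hl' : ∀ e ∈ l, e.1 ∈ U' ∧ e.2 ∈ U' := fun e he => ⟨hUU (hl e he).1, hUU (hl e he).2⟩
    have hF' : Forest l (gen p D ⊔ θ') := by rw [hfull]; exact hF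
    have hq0 : 0 ≤ q p x D θ' (fe l f) := (hPos D U' θ' l hC hcard hl' hF').1
    have hrh : full r h := hL r (by simp)
    have hL' : ∀ r ∈ L, full r h := fun s hs => hL s (by simp [hs])
    have h1ε : 0 ≤ 1 - ε := by linarith
    rw [List.length_cons, pow_succ, GRW_js]
    by_cases hr : r ∈ U'
    · have h1 : θ' r h := hC.hub r hr h hh (by rw [hfull]; exact hrh)
      have h2 : θ' ⊔ (jn r h ⊔ GRW_js h L) = θ' ⊔ GRW_js h L := by
        rw [← sup_assoc, sup_jn_of_rel h1]
      rw [h2]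
      have h3 := ih hL' U' θ' hUU hcard hh hC hfull
      calc (1 - ε) ^ L.length * (1 - ε) * q p x D (θ' ⊔ GRW_js h L) (fe l f)
          = (1 - ε) * ((1 - ε) ^ L.length * q p x D (θ' ⊔ GRW_js h L) (fe l f)) := by ring
        _ ≤ (1 - ε) * q p x D θ' (fe l f) := mul_le_mul_of_nonneg_left h3 h1ε
        _ ≤ q p x D θ' (fe l f) := by nlinarith
    · have h1 := hCFO V E p D U' θ' r h hC hr hh (by rw [hfull]; exact hrh)
      have hsub : U' ⊆ insert r U' := Finset.subset_insert _ _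
      have hc2 : (insert r U')ᶜ.card ≤ U'ᶜ.card :=
        Finset.card_le_card (Finset.compl_subset_compl.2 hsub)
      have h3 := ih hL' (insert r U') (θ' ⊔ jn r h) (hUU.trans hsub) (lt_of_le_of_lt hc2 hcard)
        (Finset.mem_insert_of_mem hh) h1.1 (by rw [h1.2, hfull])
      have h4 := hRat D U' θ' l r h hC hcard hl' hF' hr hh (by rw [hfull]; exact hrh)
      have h5 : (1 - ε) * q p x D (θ' ⊔ jn r h) (fe l f) ≤ q p x D θ' (fe l f) := by
        have h6 := (abs_le.1 h4).1
        nlinarith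
      have h7 : θ' ⊔ (jn r h ⊔ GRW_js h L) = θ' ⊔ jn r h ⊔ GRW_js h L := by rw [sup_assoc]
      rw [h7]
      calc (1 - ε) ^ L.length * (1 - ε) * q p x D (θ' ⊔ jn r h ⊔ GRW_js h L) (fe l f)
          = (1 - ε) * ((1 - ε) ^ L.length * q p x D (θ' ⊔ jn r h ⊔ GRW_js h L) (fe l f)) := by ring
        _ ≤ (1 - ε) * q p x D (θ' ⊔ jn r h) (fe l f) := mul_le_mul_of_nonneg_left h3 h1ε
        _ ≤ q p x D θ' (fe l f) := h5

/-- **[GRW]** -/
theorem p_GRW : S_CFO → S_GQQ → S_GRW := by
  intro hCFO hGQQ V E _ _ p x D U θ v h f l ε hx hε0 hε1 hCfg hv hh hvh hl hF hPos hRat ρ hρ hWh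
  set full : Setoid V := gen p D ⊔ θ with hfull
  have hx0 : 0 < x := by linarith
  have hρF := (mem_FL.1 hρ).1
  have hρle : ρ ≤ full := hρF.le_full
  -- the edges of D
  have hDr : ∀ e ∈ D, full (p e).1 (p e).2 := fun e he =>
    (le_sup_left : gen p D ≤ gen p D ⊔ θ) (gen_rel he)
  have hDin : Din p D full = D := by
    apply Finset.Subset.antisymm (Finset.filter_subset _ _)
    intro e he
    exact mem_Din.2 ⟨he, hDr e he⟩
  have hcut : Din p D full \ Din p D ρ = cutE p D ρ := by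
    rw [hDin]
    ext e
    rw [mem_sdiff, mem_Din, mem_cutE]
    tauto
  have hG := hGQQ V E p x D θ v h hx0 ρ hρ full hρle le_rfl (fe l f)
  rw [hcut, hDin] at hG
  set b : ℕ := (cutE p D ρ).card with hb
  set Q' : ℝ := q p x D (θ ⊔ jn v h) (fe l f) with hQ'
  set QR : ℝ := q p x D (θ ⊔ wire (Rv p D v h ρ) full) (fe l f) with hQR
  -- all the elements of `Rv` are related to `h`
  have hcutr : ∀ e ∈ cutE p D ρ, full (p e).1 h ∧ full (p e).2 h := by
    intro e he
    obtain ⟨h1, h2⟩ := mem_cutE.1 he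
    have h3 := hDr e h1
    have h4 : full (p e).1 v := by
      by_contra hcon
      exact h2 (hWh _ _ h3 hcon)
    have h5 : full (p e).1 h := full.trans h4 hvh
    exact ⟨h5, full.trans (full.symm h3) h5⟩
  have hRr : ∀ a ∈ Rv p D v h ρ, full a h := by
    rintro a (rfl | rfl | ⟨e, he, rfl | rfl⟩)
    · exact hvh
    · exact full.refl _
    · exact (hcutr e he).1
    · exact (hcutr e he).2
  have hvR : v ∈ Rv p D v h ρ := Or.inl rfl
  have hhR : h ∈ Rv p D v h ρ := Or.inr (Or.inl rfl)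
  -- the list
  set L : List V := (cutE p D ρ).toList.flatMap (fun e => [(p e).1, (p e).2]) with hLdef
  have hLmem : ∀ r, r ∈ L ↔ ∃ e ∈ cutE p D ρ, r = (p e).1 ∨ r = (p e).2 := by
    intro r
    rw [hLdef, List.mem_flatMap]
    constructor
    · rintro ⟨e, he, hr⟩
      refine ⟨e, Finset.mem_toList.1 he, ?_⟩
      simpa using hr
    · rintro ⟨e, he, hr⟩
      refine ⟨e, Finset.mem_toList.2 he, ?_⟩
      simpa using hr
  have hLlen : L.length = 2 * b := by
    rw [hLdef, List.length_flatMap]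
    simp [hb, mul_comm]
  have hLr : ∀ r ∈ L, full r h := by
    intro r hr
    obtain ⟨e, he, rfl | rfl⟩ := (hLmem r).1 hr
    · exact (hcutr e he).1
    · exact (hcutr e he).2
  have heq : θ ⊔ wire (Rv p D v h ρ) full = θ ⊔ jn v h ⊔ GRW_js h L := by
    apply le_antisymm
    · apply sup_le
      · exact le_sup_left.trans le_sup_left
      · rw [wire_le_iff]
        have key : ∀ a ∈ Rv p D v h ρ, (θ ⊔ jn v h ⊔ GRW_js h L) a h := by
          intro a ha
          by_cases hav : a = v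
          · rw [hav]
            exact ((le_sup_right : jn v h ≤ θ ⊔ jn v h).trans le_sup_left) (jn_rel v h)
          · by_cases hah : a = h
            · rw [hah]
            · have h1 : a ∈ L := by
                rw [hLmem]
                rcases ha with ha | ha | ha
                · exact absurd ha hav
                · exact absurd ha hah
                · exact ha
              exact (le_sup_right : GRW_js h L ≤ θ ⊔ jn v h ⊔ GRW_js h L)
                ((GRW_js_le h L (GRW_js h L)).1 le_rfl a h1)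
        intro a ha c hc _
        exact (θ ⊔ jn v h ⊔ GRW_js h L).trans (key a ha)
          ((θ ⊔ jn v h ⊔ GRW_js h L).symm (key c hc))
    · apply sup_le
      · apply sup_le le_sup_left
        rw [jn_le_iff]
        exact (le_sup_right : wire (Rv p D v h ρ) full ≤ _) (Or.inr ⟨hvR, hhR, hvh⟩)
      · rw [GRW_js_le]
        intro r hr
        refine (le_sup_right : wire (Rv p D v h ρ) full ≤ _) (Or.inr ⟨?_, hhR, hLr r hr⟩)
        exact Or.inr (Or.inr ((hLmem r).1 hr))
  have hcfo := hCFO V E p D U θ v h hCfg hv hh hvh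
  have hsub : U ⊆ insert v U := Finset.subset_insert _ _
  have hcard : (insert v U)ᶜ.card < Uᶜ.card := by
    apply Finset.card_lt_card
    rw [Finset.ssubset_iff_of_subset (Finset.compl_subset_compl.2 hsub)]
    exact ⟨v, by simp [hv], by simp⟩
  have hit := GRW_it hCFO V E p x D U h f l ε hε0 hε1 full hl hF hPos hRat L hLr
    (insert v U) (θ ⊔ jn v h) hsub hcard (Finset.mem_insert_of_mem hh) hcfo.1 hcfo.2
  rw [← heq, hLlen] at hit
  have hQ0 : 0 ≤ Q' := by
    refine (hPos D (insert v U) (θ ⊔ jn v h) l hcfo.1 hcard ?_ ?_).1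
    · exact fun e he => ⟨hsub (hl e he).1, hsub (hl e he).2⟩
    · rw [hcfo.2]
      exact hF
  -- the estimates
  have hε2 : (1 / 2 : ℝ) ^ b ≤ (1 - ε) ^ (2 * b) := by
    rw [pow_mul]
    apply pow_le_pow_left₀ (by norm_num)
    nlinarith
  have hx2 : (1 / 2 : ℝ) ^ b ≤ (1 - 1 / x) ^ b := by
    apply pow_le_pow_left₀ (by norm_num)
    have : 1 / x ≤ 1 / 2 := one_div_le_one_div_of_le (by norm_num) hx
    linarith
  have h22 : (1 / 2 : ℝ) ^ b * 2 ^ b = 1 := by
    rw [← mul_pow]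
    norm_num
  have hQR : QR ≤ 2 ^ b * Q' := by
    by_cases hneg : QR ≤ 0
    · exact hneg.trans (by positivity)
    · push Not at hneg
      have h1 : (1 / 2 : ℝ) ^ b * QR ≤ Q' :=
        (mul_le_mul_of_nonneg_right hε2 hneg.le).trans hit
      have h2 : (2 : ℝ) ^ b * ((1 / 2 : ℝ) ^ b * QR) ≤ 2 ^ b * Q' :=
        mul_le_mul_of_nonneg_left h1 (by positivity)
      have h3 : (2 : ℝ) ^ b * ((1 / 2 : ℝ) ^ b * QR) = QR := by
        rw [← mul_assoc, mul_comm ((2 : ℝ) ^ b), h22, one_mul]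
      linarith
  have hc0 : 0 < (1 - 1 / x) ^ b := lt_of_lt_of_le (by positivity) hx2
  apply le_of_mul_le_mul_left _ hc0
  rw [hG]
  have hxm : 0 ≤ x ^ (cs ρ - cs full) := by positivity
  have h4 : (4 : ℝ) ^ b = 2 ^ b * 2 ^ b := by
    rw [← mul_pow]
    norm_num
  calc x ^ (cs ρ - cs full) * QR ≤ x ^ (cs ρ - cs full) * (2 ^ b * Q') :=
        mul_le_mul_of_nonneg_left hQR hxm
    _ = (1 / 2 : ℝ) ^ b * (x ^ (cs ρ - cs full) * 4 ^ b * Q') := by
        rw [h4]
        calc x ^ (cs ρ - cs full) * (2 ^ b * Q')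
            = 1 * (x ^ (cs ρ - cs full) * (2 ^ b * Q')) := by ring
          _ = ((1 / 2 : ℝ) ^ b * 2 ^ b) * (x ^ (cs ρ - cs full) * (2 ^ b * Q')) := by rw [h22]
          _ = _ := by ring
    _ ≤ (1 - 1 / x) ^ b * (x ^ (cs ρ - cs full) * 4 ^ b * Q') :=
        mul_le_mul_of_nonneg_right hx2 (by positivity)

end Pool.Agent.Lib.MP_4a8162_co.FB
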