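import Pool.Agent.Lib.MP_4a8162_co.FB.StmB

set_option autoImplicit false

namespace Pool.Agent.Lib.MP_4a8162_co.FB

open Finset
open scoped Classical

private theorem inj_mem_cls {V : Type} [Fintype V] {π : Setoid V} {a b : V} :
    b ∈ cls π a ↔ π a b := by
  unfold cls
  rw [mem_filter]
  exact ⟨fun h => h.2, fun h => ⟨mem_univ _, h⟩⟩

private theorem inj_fwd {V E : Type} [Fintype V] [Fintype E] (p : E → V × V) (D : Finset E)
    (θ : Setoid V) (v h : V) (π : Setoid V) {a b : V} (hab : π a b) :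
    ∀ P ∈ inn p D θ v h π, a ∈ P ↔ b ∈ P := by
  intro P hP
  unfold inn at hP
  rw [mem_filter, mem_image] at hP
  obtain ⟨⟨c, _, rfl⟩, _, _⟩ := hP
  rw [inj_mem_cls, inj_mem_cls]
  exact ⟨fun hc => π.trans hc hab, fun hc => π.trans hc (π.symm hab)⟩

private theorem inj_bwd {V E : Type} [Fintype V] [Fintype E] (p : E → V × V) (D : Finset E)
    (θ : Setoid V) (v h : V) (π : Setoid V) (hπ : π ∈ FL p D θ v h) {a b : V}
    (hav : (gen p D ⊔ θ) a v) (hbv : (gen p D ⊔ θ) b v)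
    (hP : ∀ P ∈ inn p D θ v h π, a ∈ P ↔ b ∈ P) : π a b := by
  have hle : π ≤ gen p D ⊔ θ := (mem_FL.1 hπ).1.le_full
  have key : ∀ c, (gen p D ⊔ θ) c v → ¬ π c h → cls π c ∈ inn p D θ v h π := by
    intro c hc hch
    unfold inn
    rw [mem_filter, mem_image]
    refine ⟨⟨c, mem_univ _, rfl⟩, ?_, ?_⟩
    · intro x hx
      rw [inj_mem_cls] at hx ⊢
      exact (gen p D ⊔ θ).trans ((gen p D ⊔ θ).symm hc) (hle hx)
    · rw [inj_mem_cls]
      exact hch
  by_cases h1 : π a h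
  · by_cases h2 : π b h
    · exact π.trans h1 (π.symm h2)
    · have h3 := (hP _ (key b hbv h2)).2 (inj_mem_cls.2 (π.refl b))
      rw [inj_mem_cls] at h3
      exact π.symm h3
  · have h3 := (hP _ (key a hav h1)).1 (inj_mem_cls.2 (π.refl a))
    rw [inj_mem_cls] at h3
    exact h3

private theorem inj_half {V E : Type} [Fintype V] [Fintype E] (p : E → V × V) (D : Finset E)
    (θ : Setoid V) (v h : V) (π π' : Setoid V) (hπ : π ∈ FL p D θ v h)
    (hπ' : π' ∈ FL p D θ v h) (hw' : Wh p D θ v π')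
    (he : inn p D θ v h π = inn p D θ v h π') {a b : V} (hab : π a b) : π' a b := by
  have hle : π ≤ gen p D ⊔ θ := (mem_FL.1 hπ).1.le_full
  have hf := hle hab
  by_cases h1 : (gen p D ⊔ θ) a v
  · have h2 : (gen p D ⊔ θ) b v := (gen p D ⊔ θ).trans ((gen p D ⊔ θ).symm hf) h1
    apply inj_bwd p D θ v h π' hπ' h1 h2
    rw [← he]
    exact inj_fwd p D θ v h π hab
  · exact hw' a b hf h1

theorem p_INJ : S_INJ := by
  intro V E _ _ p D θ v h _ π hπ π' hπ' hw hw' he
  ext a b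
  exact ⟨fun hab => inj_half p D θ v h π π' hπ hπ' hw' he hab,
    fun hab => inj_half p D θ v h π' π hπ' hπ hw he.symm hab⟩

end Pool.Agent.Lib.MP_4a8162_co.FB
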