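import Pool.Agent.Lib.MP_4a8162_co.FB.StmA

set_option autoImplicit false

namespace Pool.Agent.Lib.MP_4a8162_co.FB

open Finset
open scoped Classical

namespace INTaux

variable {V E : Type} [Fintype V] [Fintype E]

private theorem mem_cls {π : Setoid V} {a b : V} : b ∈ cls π a ↔ π a b := by simp [cls]

private theorem mem_uc {p : E → V × V} {D : Finset E} {v h : V} {π : Setoid V} {X : Finset V} :
    X ∈ uc p D v h π ↔ (∃ a, cls π a = X) ∧ v ∉ X ∧ h ∉ X ∧
      ∃ e ∈ cutE p D π, (p e).1 ∈ X ∨ (p e).2 ∈ X := by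
  simp [uc]

private theorem mem_nbh {p : E → V × V} {D : Finset E} {π : Setoid V} {X : Finset V} {b : V} :
    b ∈ nbh p D π X ↔ b ∈ X ∨
      ∃ e ∈ D, ((p e).1 ∈ X ∧ π (p e).2 b) ∨ ((p e).2 ∈ X ∧ π (p e).1 b) := by
  simp [nbh]

/-- a member of `uc` is a class -/
private theorem uc_class {p : E → V × V} {D : Finset E} {v h : V} {π : Setoid V} {X : Finset V}
    (hX : X ∈ uc p D v h π) {a b : V} (hab : π a b) : a ∈ X ↔ b ∈ X := by
  obtain ⟨⟨c, rfl⟩, -⟩ := mem_uc.1 hX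
  rw [mem_cls, mem_cls]
  exact ⟨fun hc => π.trans hc hab, fun hc => π.trans hc (π.symm hab)⟩

private theorem uc_rel {p : E → V × V} {D : Finset E} {v h : V} {π : Setoid V} {X : Finset V}
    (hX : X ∈ uc p D v h π) {a b : V} (ha : a ∈ X) (hb : b ∈ X) : π a b := by
  obtain ⟨⟨c, rfl⟩, -⟩ := mem_uc.1 hX
  rw [mem_cls] at ha hb
  exact π.trans (π.symm ha) hb

/-- no vertex of an interior class is marked -/
private theorem int_not_Rv {p : E → V × V} {D : Finset E} {v h : V} {π ρ : Setoid V} {X : Finset V}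
    (hX : X ∈ uc p D v h π) (hS : Sat ρ (nbh p D π X : Set V)) {a : V} (ha : a ∈ X) :
    a ∉ Rv p D v h ρ := by
  have hX' := mem_uc.1 hX
  rintro (rfl | rfl | ⟨e, he, rfl | rfl⟩)
  · exact hX'.2.1 ha
  · exact hX'.2.2.1 ha
  · rw [mem_cutE] at he
    refine he.2 (hS _ ?_ _ ?_)
    · exact Finset.mem_coe.2 (mem_nbh.2 (Or.inl ha))
    · exact Finset.mem_coe.2 (mem_nbh.2 (Or.inr ⟨e, he.1, Or.inl ⟨ha, π.refl _⟩⟩))
  · rw [mem_cutE] at he
    refine he.2 (hS _ ?_ _ ?_)
    · exact Finset.mem_coe.2 (mem_nbh.2 (Or.inr ⟨e, he.1, Or.inr ⟨ha, π.refl _⟩⟩))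
    · exact Finset.mem_coe.2 (mem_nbh.2 (Or.inl ha))

/-- a class without marked vertices which is not isolated is interior -/
private theorem int_of_not_Rv {p : E → V × V} {D : Finset E} {v h : V} {π ρ : Setoid V} {c : V}
    (hle : π ≤ ρ) (hR : ∀ a, π c a → a ∉ Rv p D v h ρ)
    (hcut : ∃ e ∈ cutE p D π, (p e).1 ∈ cls π c ∨ (p e).2 ∈ cls π c) :
    cls π c ∈ uc p D v h π ∧ Sat ρ (nbh p D π (cls π c) : Set V) := by
  constructor
  · rw [mem_uc]
    refine ⟨⟨c, rfl⟩, ?_, ?_, hcut⟩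
    · intro hv
      exact hR v (mem_cls.1 hv) (Or.inl rfl)
    · intro hh
      exact hR h (mem_cls.1 hh) (Or.inr (Or.inl rfl))
  · have key : ∀ b, b ∈ nbh p D π (cls π c) → ρ c b := by
      intro b hb
      rcases mem_nbh.1 hb with hb | ⟨e, he, ⟨h1, h2⟩ | ⟨h1, h2⟩⟩
      · exact hle (mem_cls.1 hb)
      · rw [mem_cls] at h1
        have h3 := hR _ h1
        have h4 : ρ (p e).1 (p e).2 := by
          by_contra hc
          exact h3 (Or.inr (Or.inr ⟨e, mem_cutE.2 ⟨he, hc⟩, Or.inl rfl⟩))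
        exact ρ.trans (hle h1) (ρ.trans h4 (hle h2))
      · rw [mem_cls] at h1
        have h3 := hR _ h1
        have h4 : ρ (p e).1 (p e).2 := by
          by_contra hc
          exact h3 (Or.inr (Or.inr ⟨e, mem_cutE.2 ⟨he, hc⟩, Or.inr rfl⟩))
        exact ρ.trans (hle h1) (ρ.trans (ρ.symm h4) (hle h2))
    intro a ha b hb
    exact ρ.trans (ρ.symm (key a (Finset.mem_coe.1 ha))) (key b (Finset.mem_coe.1 hb))

/-- a class without edges to other classes is a class of the coarsest partition -/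
private theorem full_of_closed {p : E → V × V} {D : Finset E} {θ ρ : Setoid V} {c : V} (hθ : θ ≤ ρ)
    (hcl : ∀ e ∈ D, ((p e).1 ∈ cls ρ c ∨ (p e).2 ∈ cls ρ c) → ρ (p e).1 (p e).2) {b : V}
    (hb : (gen p D ⊔ θ) c b) : ρ c b := by
  let t : Setoid V :=
    { r := fun x y => (ρ c x ↔ ρ c y)
      iseqv := ⟨fun _ => Iff.rfl, fun h => h.symm, fun h1 h2 => h1.trans h2⟩ }
  have h1 : gen p D ⊔ θ ≤ t := by
    apply sup_le
    · rw [gen_le_iff]
      intro e he
      show ρ c (p e).1 ↔ ρ c (p e).2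
      constructor
      · intro h2
        exact ρ.trans h2 (hcl e he (Or.inl (mem_cls.2 h2)))
      · intro h2
        exact ρ.trans h2 (ρ.symm (hcl e he (Or.inr (mem_cls.2 h2))))
    · intro x y hxy
      show ρ c x ↔ ρ c y
      exact ⟨fun h2 => ρ.trans h2 (hθ hxy), fun h2 => ρ.trans h2 (ρ.symm (hθ hxy))⟩
  have h2 : ρ c c ↔ ρ c b := h1 hb
  exact h2.1 (ρ.refl c)

private theorem sp_cd {p : E → V × V} {D : Finset E} {π ρ σ : Setoid V} {K : Finset (Finset V)}
    {a b : V} :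
    sp ρ (cd p D π K) σ a b ↔
      σ a b ∧ ∀ X ∈ K, Sat ρ (nbh p D π X : Set V) → (a ∈ X ↔ b ∈ X) := by
  constructor
  · rintro ⟨h1, h2⟩
    refine ⟨h1, fun X hX hS => ?_⟩
    have h3 := h2 ⟨(nbh p D π X : Set V), some (X : Set V)⟩
      (List.mem_map.2 ⟨X, Finset.mem_toList.2 hX, rfl⟩) hS _ rfl
    simpa using h3
  · rintro ⟨h1, h2⟩
    refine ⟨h1, ?_⟩
    intro c hc hS X hX
    obtain ⟨Y, hY, rfl⟩ := List.mem_map.1 hc
    have h3 := h2 Y (Finset.mem_toList.1 hY) hS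
    simp only [Option.some.injEq] at hX
    subst hX
    simpa using h3

private theorem ns_cd (p : E → V × V) (D : Finset E) (π ρ : Setoid V) (K : Finset (Finset V)) :
    ns ρ (cd p D π K) = (K.filter (fun X => Sat ρ (nbh p D π X : Set V))).card := by
  unfold ns cd
  rw [List.filter_map, List.length_map, Finset.card_def, Finset.filter_val]
  conv_rhs => rw [← Finset.coe_toList K, Multiset.filter_coe, Multiset.coe_card]
  congr 1
  apply List.filter_congr
  intro X _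
  simp

private theorem part1 {p : E → V × V} {D : Finset E} {θ : Setoid V} {v h : V} {π ρ σ : Setoid V}
    (hπ : Fl p D θ π) (hle : π ≤ ρ) (h1 : ρ ≤ σ) (h2 : σ ≤ gen p D ⊔ θ) :
    wi p D v h π ρ σ = sp ρ (cd p D π (uc p D v h π)) σ := by
  have key : ∀ a b, (gen p D ⊔ θ) a b → ¬ π a b →
      (∀ X ∈ uc p D v h π, Sat ρ (nbh p D π X : Set V) → (a ∈ X ↔ b ∈ X)) →
      ∃ x ∈ Rv p D v h ρ, π a x := by
    intro a b hab hn hX
    by_contra hc
    push Not at hc
    have hR : ∀ x, π a x → x ∉ Rv p D v h ρ := fun x hx hr => hc x hr hx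
    by_cases hcut : ∃ e ∈ cutE p D π, (p e).1 ∈ cls π a ∨ (p e).2 ∈ cls π a
    · obtain ⟨h3, h4⟩ := int_of_not_Rv hle hR hcut
      have h5 := hX _ h3 h4
      rw [mem_cls, mem_cls] at h5
      exact hn (h5.1 (π.refl a))
    · apply hn
      refine full_of_closed hπ.le ?_ hab
      intro e he h3
      by_contra h4
      exact hcut ⟨e, mem_cutE.2 ⟨he, h4⟩, h3⟩
  have hπσ : π ≤ σ := le_trans hle h1
  apply Setoid.ext
  intro a b
  rw [sp_cd]
  unfold wi
  rw [sup_wire_rel hπσ]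
  constructor
  · rintro (h3 | ⟨x, hx, y, hy, h3, h4, h5⟩)
    · exact ⟨hπσ h3, fun X hX _ => uc_class hX h3⟩
    · refine ⟨σ.trans (hπσ h3) (σ.trans h4 (hπσ h5)), fun X hX hS => ?_⟩
      constructor
      · intro ha
        exact absurd hx (int_not_Rv hX hS ((uc_class hX h3).1 ha))
      · intro hb
        exact absurd hy (int_not_Rv hX hS ((uc_class hX h5).2 hb))
  · rintro ⟨h3, h4⟩
    by_cases hab : π a b
    · exact Or.inl hab
    · right
      obtain ⟨x, hx, hax⟩ := key a b (h2 h3) hab h4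
      obtain ⟨y, hy, hby⟩ := key b a ((gen p D ⊔ θ).symm (h2 h3)) (fun hc => hab (π.symm hc))
        (fun X hX hS => (h4 X hX hS).symm)
      exact ⟨x, hx, y, hy, hax, σ.trans (hπσ (π.symm hax)) (σ.trans h3 (hπσ hby)), π.symm hby⟩

private theorem exists_nonint {p : E → V × V} {D : Finset E} {θ : Setoid V} {v h : V}
    {π ρ : Setoid V} (hρ : Fl p D θ ρ) (hle : π ≤ ρ)
    (hW : Wh p D θ v π) (r : V) :
    ∃ a, ρ r a ∧ ∀ X ∈ uc p D v h π, Sat ρ (nbh p D π X : Set V) → a ∉ X := by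
  by_contra hc
  push Not at hc
  have hR : ∀ a, ρ r a → a ∉ Rv p D v h ρ := by
    intro a ha
    obtain ⟨X, hX, hS, haX⟩ := hc a ha
    exact int_not_Rv hX hS haX
  have hcl : ∀ b, (gen p D ⊔ θ) r b → ρ r b := by
    intro b hb
    refine full_of_closed hρ.le ?_ hb
    intro e he h3
    by_contra h4
    rcases h3 with h3 | h3
    · exact hR _ (mem_cls.1 h3) (Or.inr (Or.inr ⟨e, mem_cutE.2 ⟨he, h4⟩, Or.inl rfl⟩))
    · exact hR _ (mem_cls.1 h3) (Or.inr (Or.inr ⟨e, mem_cutE.2 ⟨he, h4⟩, Or.inr rfl⟩))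
  have hv : ¬ (gen p D ⊔ θ) r v := fun h3 => hR v (hcl v h3) (Or.inl rfl)
  obtain ⟨X, hX, hS, hrX⟩ := hc r (ρ.refl r)
  obtain ⟨-, -, -, e, he, h3⟩ := mem_uc.1 hX
  rw [mem_cutE] at he
  have hπf : ∀ a b, π a b → (gen p D ⊔ θ) a b := fun a b hab => hρ.le_full (hle hab)
  have hef : (gen p D ⊔ θ) (p e).1 (p e).2 :=
    (le_sup_left : gen p D ≤ gen p D ⊔ θ) (gen_rel he.1)
  rcases h3 with h3 | h3
  · have h4 : π r (p e).1 := uc_rel hX hrX h3
    have h5 : π r (p e).2 := hW _ _ ((gen p D ⊔ θ).trans (hπf _ _ h4) hef) hv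
    exact he.2 (π.trans (π.symm h4) h5)
  · have h4 : π r (p e).2 := uc_rel hX hrX h3
    have h5 : π r (p e).1 :=
      hW _ _ ((gen p D ⊔ θ).trans (hπf _ _ h4) ((gen p D ⊔ θ).symm hef)) hv
    exact he.2 (π.trans (π.symm h5) h4)

private theorem part2 {p : E → V × V} {D : Finset E} {θ : Setoid V} {v h : V} {π ρ : Setoid V}
    (hρ : Fl p D θ ρ) (hle : π ≤ ρ) (hW : Wh p D θ v π) :
    cs (sp ρ (cd p D π (uc p D v h π)) ρ) = cs ρ + ns ρ (cd p D π (uc p D v h π)) := by
  rw [ns_cd]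
  set I : Finset (Finset V) :=
    (uc p D v h π).filter (fun X => Sat ρ (nbh p D π X : Set V)) with hI
  set τ : Setoid V := sp ρ (cd p D π (uc p D v h π)) ρ with hτ
  have hτi : ∀ a b, τ a b ↔ ρ a b ∧ ∀ X ∈ I, (a ∈ X ↔ b ∈ X) := by
    intro a b
    rw [hτ, sp_cd]
    constructor
    · rintro ⟨h1, h2⟩
      exact ⟨h1, fun X hX => h2 X (mem_filter.1 hX).1 (mem_filter.1 hX).2⟩
    · rintro ⟨h1, h2⟩
      exact ⟨h1, fun X hX hS => h2 X (mem_filter.2 ⟨hX, hS⟩)⟩
  have hrep : ∀ q : Quotient ρ, ∃ a, Quotient.mk'' a = q ∧ ∀ X ∈ I, a ∉ X := by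
    intro q
    induction q using Quotient.inductionOn' with
    | h r =>
      obtain ⟨a, ha, hX⟩ := exists_nonint (v := v) (h := h) hρ hle hW r
      exact ⟨a, Quotient.sound' (ρ.symm ha), fun X hX' => hX X (mem_filter.1 hX').1
        (mem_filter.1 hX').2⟩
  choose rep hrep1 hrep2 using hrep
  have helt : ∀ X : {X // X ∈ I}, ∃ a, a ∈ X.1 := by
    rintro ⟨X, hX⟩
    obtain ⟨⟨c, rfl⟩, -⟩ := mem_uc.1 (mem_filter.1 hX).1
    exact ⟨c, mem_cls.2 (π.refl c)⟩
  choose elt helt using helt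
  let f : Quotient ρ ⊕ {X // X ∈ I} → Quotient τ := fun s =>
    match s with
    | Sum.inl q => Quotient.mk'' (rep q)
    | Sum.inr X => Quotient.mk'' (elt X)
  have hfI : ∀ q X, (Quotient.mk'' (rep q) : Quotient τ) ≠ Quotient.mk'' (elt X) := by
    intro q X hqX
    have h1 : τ (rep q) (elt X) := Quotient.exact' hqX
    exact hrep2 q X.1 X.2 ((((hτi _ _).1 h1).2 X.1 X.2).2 (helt X))
  have hf : Function.Bijective f := by
    constructor
    · rintro (q | X) (q' | X') hh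
      · have h1 : τ (rep q) (rep q') := Quotient.exact' hh
        have h2 : ρ (rep q) (rep q') := ((hτi _ _).1 h1).1
        have h3 : q = q' := by
          rw [← hrep1 q, ← hrep1 q']
          exact Quotient.sound' h2
        rw [h3]
      · exact absurd hh (hfI q X')
      · exact absurd hh.symm (hfI q' X)
      · have h1 : τ (elt X) (elt X') := Quotient.exact' hh
        have h2 : elt X' ∈ X.1 := (((hτi _ _).1 h1).2 X.1 X.2).1 (helt X)
        have h3 : elt X' ∈ X'.1 := helt X'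
        have h4 : X.1 = X'.1 := by
          have hu := (mem_filter.1 X.2).1
          have hu' := (mem_filter.1 X'.2).1
          ext b
          constructor
          · intro hb
            exact (uc_class hu' (uc_rel hu h2 hb)).1 h3
          · intro hb
            exact (uc_class hu (uc_rel hu' h3 hb)).1 h2
        rw [Subtype.ext h4]
    · intro c
      induction c using Quotient.inductionOn' with
      | h a =>
        by_cases hX : ∃ X ∈ I, a ∈ X
        · obtain ⟨X, hX, ha⟩ := hX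
          refine ⟨Sum.inr ⟨X, hX⟩, ?_⟩
          have hu := (mem_filter.1 hX).1
          have h1 : π (elt ⟨X, hX⟩) a := uc_rel hu (helt ⟨X, hX⟩) ha
          refine Quotient.sound' ?_
          show τ (elt ⟨X, hX⟩) a
          rw [hτi]
          exact ⟨hle h1, fun Y hY => uc_class (mem_filter.1 hY).1 h1⟩
        · refine ⟨Sum.inl (Quotient.mk'' a), ?_⟩
          refine Quotient.sound' ?_
          show τ (rep (Quotient.mk'' a)) a
          rw [hτi]
          refine ⟨Quotient.exact' (hrep1 (Quotient.mk'' a)), fun Y hY => ?_⟩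
          constructor
          · intro h1
            exact absurd h1 (hrep2 _ Y hY)
          · intro h1
            exact absurd ⟨Y, hY, h1⟩ hX
  have h1 := Nat.card_eq_of_bijective f hf
  unfold cs
  rw [← h1, Nat.card_sum]
  congr 1
  rw [Nat.card_eq_fintype_card, Fintype.card_coe]

end INTaux

theorem p_INT : S_INT := by
  intro V E _ _ p D θ v h _ π hπ hW ρ hρ hle
  have hπ' := (mem_FL.1 hπ).1
  have hρ' := (mem_FL.1 hρ).1
  refine ⟨fun σ h1 h2 => INTaux.part1 hπ' hle h1 h2, ?_⟩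
  rw [INTaux.part1 hπ' hle le_rfl hρ'.le_full]
  exact INTaux.part2 hρ' hle hW

end Pool.Agent.Lib.MP_4a8162_co.FB
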