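import Pool.Agent.Lib.MP_4a8162_co.FB.StmF

set_option autoImplicit false

namespace Pool.Agent.Lib.MP_4a8162_co.FB

open Finset
open scoped Classical

private def ISO_tau {V : Type} (P : Finset V) : Setoid V where
  r a b := (a ∈ P ↔ b ∈ P)
  iseqv := ⟨fun _ => Iff.rfl, fun h => h.symm, fun h h' => h.trans h'⟩

private theorem ISO_two {V E : Type} [Fintype V] [Fintype E] (p : E → V × V)
    (hgen : gen p univ = ⊤) (hbr : Brl p univ ⊥) (P : Finset V) (hP : P.Nonempty)
    (hP' : P ≠ univ) : 2 ≤ (bd p P).card := by
  by_contra hlt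
  have h1 : (bd p P).card = 0 ∨ (bd p P).card = 1 := by omega
  rcases h1 with h0 | h1
  · rw [Finset.card_eq_zero] at h0
    have hle : gen p univ ≤ ISO_tau P := by
      rw [gen_le_iff]
      intro e _
      have : e ∉ bd p P := by rw [h0]; simp
      rw [mem_bd, not_not] at this
      exact this
    obtain ⟨a, ha⟩ := hP
    apply hP'
    ext b
    simp only [mem_univ, iff_true]
    have hab : (⊤ : Setoid V) a b := trivial
    rw [← hgen] at hab
    exact (hle hab).1 ha
  · obtain ⟨e, he⟩ := Finset.card_eq_one.1 h1
    have hle : gen p (univ.erase e) ⊔ ⊥ ≤ ISO_tau P := by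
      rw [sup_bot_eq, gen_le_iff]
      intro f hf
      have : f ∉ bd p P := by
        rw [he, Finset.mem_singleton]
        exact Finset.ne_of_mem_erase hf
      rw [mem_bd, not_not] at this
      exact this
    have h2 := hbr e (mem_univ e)
    have h3 : e ∈ bd p P := by rw [he]; simp
    rw [mem_bd] at h3
    exact h3 (hle h2)

private theorem ISO_compl {V E : Type} [Fintype V] [Fintype E] (p : E → V × V) (P : Finset V) :
    bd p Pᶜ = bd p P := by
  ext e
  simp only [mem_bd, mem_compl]
  tauto

/-- it is enough to look at the sets with at most half of the vertices -/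
private theorem ISO_half {V E : Type} [Fintype V] [Fintype E] (p : E → V × V)
    (h : ∀ P : Finset V, P.Nonempty → 2 * P.card ≤ Fintype.card V →
      2 ≤ (bd p P).card ∧ psi P.card ≤ (bd p P).card ∧ ((bd p P).card = 2 → P.card ≤ 2)) :
    Iso p := by
  have key : ∀ P : Finset V, P.Nonempty → P ≠ univ →
      (2 * P.card ≤ Fintype.card V) ∨ (Pᶜ.Nonempty ∧ 2 * Pᶜ.card ≤ Fintype.card V) := by
    intro P hP hP'
    by_cases hc : 2 * P.card ≤ Fintype.card V
    · exact Or.inl hc
    · right
      constructor
      · rw [Finset.nonempty_iff_ne_empty]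
        intro h0
        apply hP'
        rw [Finset.compl_eq_empty_iff] at h0
        exact h0
      · have := Finset.card_add_card_compl P
        omega
  refine ⟨?_, fun P hP hc => (h P hP hc).2.1, ?_⟩
  · intro P hP hP'
    rcases key P hP hP' with hc | ⟨hn, hc⟩
    · exact (h P hP hc).1
    · have := (h _ hn hc).1
      rwa [ISO_compl] at this
  · intro P hP hP' h2
    rcases key P hP hP' with hc | ⟨hn, hc⟩
    · exact Or.inl ((h P hP hc).2.2 h2)
    · right
      apply (h _ hn hc).2.2
      rwa [ISO_compl]

theorem p_ISO : S_TRE → S_GAN → S_SBM → S_DGS → S_ISO := by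
  intro hTRE hGAN hSBM hDGS V E _ _ p x hx hV hgen hbr h3 hA
  obtain ⟨g1, g2, g3, g4, g5, g6⟩ := hGAN
  have hT := hTRE V E p x h3 hA
  have gg0 : ∀ n, 0 ≤ gg n := fun n => by unfold gg; positivity
  have ggpsi : ∀ n, psi n ≤ gg n := fun n => by
    unfold gg psi
    nlinarith [sq_nonneg (Real.log ((n : ℝ) + 8))]
  -- the family
  set F : Finset (Finset V) := univ.filter fun P =>
    P = univ ∨ (P.Nonempty ∧ 2 * P.card ≤ Fintype.card V ∧ ((bd p P).card : ℝ) < gg P.card) with hF
  have hFne : F.Nonempty := ⟨univ, by simp [hF]⟩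
  obtain ⟨S, hSF, hSmin⟩ := Finset.exists_min_image F Finset.card hFne
  have hSF' : S = univ ∨ (S.Nonempty ∧ 2 * S.card ≤ Fintype.card V ∧
      ((bd p S).card : ℝ) < gg S.card) := by
    have := hSF
    rw [hF, Finset.mem_filter] at this
    exact this.2
  have hSne : S.Nonempty := by
    rcases hSF' with h | h
    · rw [h]; exact Finset.univ_nonempty
    · exact h.1
  have hS1 : 1 ≤ S.card := hSne.card_pos
  have hbuniv : (bd p (univ : Finset V)).card = 0 := by
    rw [Finset.card_eq_zero]
    ext e
    simp [mem_bd]
  -- sets with fewer elements are not in the family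
  have hmin : ∀ P : Finset V, P.Nonempty → P.card < S.card → 2 * P.card ≤ Fintype.card V →
      gg P.card ≤ ((bd p P).card : ℝ) := by
    intro P hP hlt hc
    by_contra hcon
    have : P ∈ F := by
      rw [hF, Finset.mem_filter]
      exact ⟨mem_univ _, Or.inr ⟨hP, hc, not_le.1 hcon⟩⟩
    have := hSmin P this
    omega
  -- (a)
  have ha : x ≤ S.card := by
    by_contra hcon
    have h := hT S hSne (not_le.1 hcon)
    rcases hSF' with h' | ⟨-, -, h'⟩
    · rw [h'] at h
      omega
    · have h1 := g1 S.card hS1
      have h2 : ((S.card : ℝ) + 2) ≤ (bd p S).card := by exact_mod_cast h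
      linarith
  have hsR : (1000000 : ℝ) ≤ S.card := le_trans hx ha
  have hs : 1000000 ≤ S.card := by exact_mod_cast hsR
  -- (b)
  have hb : S.card ≤ (ES p S).card := by
    have h1 := hDGS V E p S
    have h2 : 3 * S.card ≤ ∑ v ∈ S, (bd p {v}).card := by
      calc 3 * S.card = ∑ v ∈ S, 3 := by simp [mul_comm]
        _ ≤ _ := Finset.sum_le_sum fun v _ => h3 v
    have h4 : (bd p S).card ≤ S.card := by
      rcases hSF' with h' | ⟨-, -, h'⟩
      · rw [h', hbuniv]; omega
      · have h5 := g2 S.card (by omega)
        have : ((bd p S).card : ℝ) ≤ S.card := by linarith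
        exact_mod_cast this
    omega
  refine ⟨S, hSne, hb, ?_⟩
  apply ISO_half
  intro P' hP' hc'
  have hcard : Fintype.card {a : V // a ∈ S} = S.card := by
    rw [← Nat.card_eq_fintype_card]
    simp
  rw [hcard] at hc'
  have hsbm := hSBM V E p S P'
  set P : Finset V := P'.map (Function.Embedding.subtype _) with hPdef
  set d := (bd (pS p S) P').card with hd
  have hPc : P.card = P'.card := Finset.card_map _
  have hPne : P.Nonempty := by rw [hPdef, Finset.map_nonempty]; exact hP'
  have hPS : P ⊆ S := by
    intro a ha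
    rw [hPdef, Finset.mem_map] at ha
    obtain ⟨b, -, hb⟩ := ha
    rw [← hb]
    exact b.2
  rw [← hPc] at hc' ⊢
  have hP1 : 1 ≤ P.card := hPne.card_pos
  have hScV : S.card ≤ Fintype.card V := Finset.card_le_univ S
  have hPlt : P.card < S.card := by omega
  have hggP := hmin P hPne hPlt (by omega)
  have hx400 : P.card ≤ 400 → P.card + 2 ≤ (bd p P).card := by
    intro h
    apply hT P hPne
    have : (P.card : ℝ) ≤ 400 := by exact_mod_cast h
    linarith
  have hPR : (P.card : ℝ) ≤ (S.card : ℝ) := by exact_mod_cast hPlt.le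
  have hmono : gg (S.card - P.card) ≤ gg S.card := by
    unfold gg
    rw [Nat.cast_sub hPlt.le]
    have hp0 : (0 : ℝ) ≤ P.card := Nat.cast_nonneg _
    have h1 : 0 ≤ Real.log ((S.card : ℝ) - P.card + 8) := Real.log_nonneg (by linarith)
    have h2 : Real.log ((S.card : ℝ) - P.card + 8) ≤ Real.log ((S.card : ℝ) + 8) :=
      Real.log_le_log (by linarith) (by linarith)
    nlinarith
  by_cases hSu : S = univ
  · -- the whole graph
    have hSd : S \ P = Pᶜ := by rw [hSu]; rfl
    rw [hSd, ISO_compl] at hsbm
    have hbS : (bd p S).card = 0 := by rw [hSu]; exact hbuniv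
    have hdP : d = (bd p P).card := by omega
    have h2 : 2 ≤ d := by
      rw [hdP]
      apply ISO_two p hgen hbr P hPne
      intro hcon
      rw [hcon, ← hSu] at hPlt
      omega
    refine ⟨h2, ?_, ?_⟩
    · rw [hdP]
      exact le_trans (ggpsi _) hggP
    · intro hd2
      by_contra hk
      by_cases h4 : P.card ≤ 400
      · have := hx400 h4
        omega
      · have h5 := (g4 P.card S.card (by omega) hc').1
        have h6 : ((bd p P).card : ℝ) = 2 := by
          rw [← hdP, hd2]; norm_num
        linarith
  · -- a proper subset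
    obtain ⟨-, hS2, hSb⟩ := hSF'.resolve_left hSu
    have hQc : (S \ P).card = S.card - P.card := Finset.card_sdiff_of_subset hPS
    have hQne : (S \ P).Nonempty := by
      rw [← Finset.card_pos, hQc]
      omega
    have hggQ := hmin (S \ P) hQne (by omega) (by omega)
    rw [hQc] at hggQ
    have hsbmR : 2 * (d : ℝ) + (bd p S).card = (bd p P).card + (bd p (S \ P)).card := by
      exact_mod_cast hsbm
    have h2d : ((bd p P).card : ℝ) + gg (S.card - P.card) - gg S.card < 2 * (d : ℝ) := by
      linarith
    have h2 : 2 ≤ d := by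
      have := g3 P.card S.card hP1 hc'
      have h4 : (1 : ℝ) < d := by linarith
      have : 1 < d := by exact_mod_cast h4
      omega
    refine ⟨h2, ?_, ?_⟩
    · by_cases h4 : P.card ≤ 400
      · have h5 := hx400 h4
        have h5' : (P.card : ℝ) + 2 ≤ (bd p P).card := by exact_mod_cast h5
        have h6 := g5 P.card S.card h4 hs
        have h7 := g6 P.card hP1
        linarith
      · have h5 := (g4 P.card S.card (by omega) hc').2
        linarith
    · intro hd2
      have hd2' : (d : ℝ) = 2 := by rw [hd2]; norm_num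
      by_cases h4 : P.card ≤ 400
      · have h5 := hx400 h4
        have h5' : (P.card : ℝ) + 2 ≤ (bd p P).card := by exact_mod_cast h5
        have h6 := g5 P.card S.card h4 hs
        have h7 : (P.card : ℝ) < 3 := by linarith
        have h8 : P.card < 3 := by exact_mod_cast h7
        omega
      · have h5 := (g4 P.card S.card (by omega) hc').1
        exfalso
        linarith

end Pool.Agent.Lib.MP_4a8162_co.FB
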