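import Pool.Agent.Lib.MP_4a8162_co.FB.StmB

set_option autoImplicit false

/-!
# MP_4a8162_co, REAL FLOW ROOTS ARE BOUNDED: piece MAP
-/

namespace Pool.Agent.Lib.MP_4a8162_co.FB

open Finset
open scoped Classical

private theorem map_mem_cls {V : Type} [Fintype V] {s : Setoid V} {a b : V} :
    b ∈ cls s a ↔ s a b := by
  simp [cls]

/-- a class of `gen p A ⊔ θ` is connected, relative to sets which are closed under `θ` -/
private theorem map_edge {V E : Type} [Fintype V] [Fintype E] (p : E → V × V) (A : Finset E)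
    (θ s : Setoid V) (hs : s = gen p A ⊔ θ) (a : V) (B : Finset V) (hB : B.Nonempty)
    (hBK : B ⊂ cls s a) (hθ : ∀ x y, θ x y → x ∈ B → y ∈ B) :
    ∃ e ∈ A, ((p e).1 ∈ B ∧ (p e).2 ∈ cls s a \ B) ∨ ((p e).1 ∈ cls s a \ B ∧ (p e).2 ∈ B) := by
  by_contra hc
  push Not at hc
  let t : Setoid V :=
    { r := fun x y => (x ∈ B ↔ y ∈ B)
      iseqv := ⟨fun _ => Iff.rfl, fun h => h.symm, fun h1 h2 => h1.trans h2⟩ }
  have hgen : gen p A ≤ t := by
    rw [gen_le_iff]
    intro e he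
    have hse : s (p e).1 (p e).2 := by
      rw [hs]
      exact (le_sup_left : gen p A ≤ _) (gen_rel he)
    show ((p e).1 ∈ B ↔ (p e).2 ∈ B)
    constructor
    · intro h1
      by_contra h2
      have h3 : s a (p e).1 := map_mem_cls.1 (hBK.1 h1)
      exact (hc e he).1 h1 (mem_sdiff.2 ⟨map_mem_cls.2 (s.trans h3 hse), h2⟩)
    · intro h1
      by_contra h2
      have h3 : s a (p e).2 := map_mem_cls.1 (hBK.1 h1)
      exact (hc e he).2 (mem_sdiff.2 ⟨map_mem_cls.2 (s.trans h3 (s.symm hse)), h2⟩) h1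
  have hth : θ ≤ t := by
    intro x y hxy
    exact ⟨hθ x y hxy, hθ y x (θ.symm hxy)⟩
  have hst : s ≤ t := by
    rw [hs]
    exact sup_le hgen hth
  obtain ⟨b, hb⟩ := hB
  obtain ⟨k, hk, hkB⟩ := Finset.exists_of_ssubset hBK
  have h1 : s a b := map_mem_cls.1 (hBK.1 hb)
  have h2 : s a k := map_mem_cls.1 hk
  have h3 : t b k := hst (s.trans (s.symm h1) h2)
  exact hkB (h3.1 hb)

theorem p_MAP : S_CLU → S_MAP := by
  intro hclu V E _ _ p D U θ v h hcfg hvU hhU hvh π hπ hWh hStr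
  obtain ⟨-, hbi, hdisj, hinn, -⟩ := hclu V E p D U θ v h hcfg hvU hhU hvh π hπ hWh
  obtain ⟨hfl, hnvh⟩ := mem_FL.1 hπ
  have hπfull : π ≤ gen p D ⊔ θ := hfl.le_full
  set full := gen p D ⊔ θ with hfull
  set Y := YY p D θ v h π with hY
  have hYmem : ∀ y, y ∈ Y ↔ full v y ∧ ¬ π h y := by
    intro y
    rw [hY]
    unfold YY
    rw [mem_sdiff, map_mem_cls, map_mem_cls]
  have hvY : v ∈ Y := (hYmem v).2 ⟨full.refl v, fun h1 => hnvh (π.symm h1)⟩
  have hhY : h ∉ Y := fun h1 => ((hYmem h).1 h1).2 (π.refl h)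
  -- sets disjoint from `U` are closed under `θ`
  have hclosed : ∀ B : Finset V, Disjoint B U → ∀ x y, θ x y → x ∈ B → y ∈ B := by
    intro B hB x y hxy hx
    rcases hcfg.wired x y hxy with rfl | ⟨h1, -⟩
    · exact hx
    · exact absurd h1 (Finset.disjoint_left.1 hB hx)
  -- the class of an element of `Y` is contained in `Y`
  have hclsY : ∀ y ∈ Y, cls π y ⊆ Y := by
    intro y hy z hz
    have h1 := (hYmem y).1 hy
    have h2 : π y z := map_mem_cls.1 hz
    exact (hYmem z).2 ⟨full.trans h1.1 (hπfull h2), fun h3 => h1.2 (π.trans h3 (π.symm h2))⟩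
  -- classes in `Y` are connected
  have hconn : ∀ y ∈ Y, ∀ A : Finset V, A.Nonempty → A ⊂ cls π y →
      Jo p A (cls π y \ A) := by
    intro y hy A hA hAP
    have hAU : Disjoint A U := hdisj.mono_left (hAP.1.trans (hclsY y hy))
    obtain ⟨e, -, he⟩ := map_edge p (Din p D π) θ π hfl y A hA hAP (hclosed A hAU)
    exact ⟨e, he⟩
  -- unions of classes
  have hsat : ∀ B : Finset V, B ⊆ Y → (¬ Satd π B → ∃ x ∈ B, ∃ e,
      ((p e).1 ∈ B ∧ (p e).2 ∈ cls π x \ B) ∨ ((p e).1 ∈ cls π x \ B ∧ (p e).2 ∈ B)) := by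
    intro B hBY hns
    unfold Satd at hns
    push Not at hns
    obtain ⟨x, y, hxy, hx, hy⟩ := hns
    have hxY := hBY hx
    have hsub : B ∩ cls π x ⊂ cls π x := by
      refine Finset.ssubset_iff_subset_ne.2 ⟨inter_subset_right, ?_⟩
      intro heq
      have : y ∈ B ∩ cls π x := by
        rw [heq]
        exact map_mem_cls.2 hxy
      exact hy (mem_inter.1 this).1
    obtain ⟨e, he⟩ := hconn x hxY (B ∩ cls π x)
      ⟨x, mem_inter.2 ⟨hx, map_mem_cls.2 (π.refl x)⟩⟩ hsub
    refine ⟨x, hx, e, ?_⟩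
    rcases he with ⟨h1, h2⟩ | ⟨h1, h2⟩
    · left
      rw [mem_inter] at h1
      rw [mem_sdiff, mem_inter] at h2
      exact ⟨h1.1, mem_sdiff.2 ⟨h2.1, fun h3 => h2.2 ⟨h3, h2.1⟩⟩⟩
    · right
      rw [mem_inter] at h2
      rw [mem_sdiff, mem_inter] at h1
      exact ⟨mem_sdiff.2 ⟨h1.1, fun h3 => h1.2 ⟨h3, h1.1⟩⟩, h2.1⟩
  -- connectedness of `Y`
  have hYconn : ∀ B : Finset V, B.Nonempty → B ⊆ Y → v ∉ B → Jo p B (Y \ B) := by
    intro B hB hBY hvB
    by_cases hs : Satd π B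
    · have hd : Disjoint (cls π h) B := by
        rw [Finset.disjoint_left]
        intro z hz hzB
        exact ((hYmem z).1 (hBY hzB)).2 (map_mem_cls.1 hz)
      obtain ⟨e, heD, he⟩ := hStr h B hB hs hvB (fun h1 => hhY (hBY h1)) hd
        (fun y hy => full.symm ((hYmem y).1 (hBY hy)).1)
      have hfe : full (p e).1 (p e).2 := by
        rw [hfull]
        exact (le_sup_left : gen p D ≤ _) (gen_rel heD)
      refine ⟨e, ?_⟩
      rcases he with ⟨h1, h2, h3⟩ | ⟨h1, h2, h3⟩
      · left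
        refine ⟨h1, mem_sdiff.2 ⟨(hYmem _).2 ⟨?_, fun h4 => h3 (map_mem_cls.2 h4)⟩, h2⟩⟩
        exact full.trans ((hYmem _).1 (hBY h1)).1 hfe
      · right
        refine ⟨mem_sdiff.2 ⟨(hYmem _).2 ⟨?_, fun h4 => h3 (map_mem_cls.2 h4)⟩, h2⟩, h1⟩
        exact full.trans ((hYmem _).1 (hBY h1)).1 (full.symm hfe)
    · obtain ⟨x, hx, e, he⟩ := hsat B hBY hs
      have hcx := hclsY x (hBY hx)
      refine ⟨e, ?_⟩
      rcases he with ⟨h1, h2⟩ | ⟨h1, h2⟩
      · left
        rw [mem_sdiff] at h2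
        exact ⟨h1, mem_sdiff.2 ⟨hcx h2.1, h2.2⟩⟩
      · right
        rw [mem_sdiff] at h1
        exact ⟨mem_sdiff.2 ⟨hcx h1.1, h1.2⟩, h2⟩
  refine ⟨⟨hvY, hdisj, ?_, ?_⟩, ?_⟩
  · -- `Y` is connected
    intro A hA hAY
    by_cases hvA : v ∈ A
    · have hne : (Y \ A).Nonempty := by
        obtain ⟨k, hk, hkA⟩ := Finset.exists_of_ssubset hAY
        exact ⟨k, mem_sdiff.2 ⟨hk, hkA⟩⟩
      obtain ⟨e, he⟩ := hYconn (Y \ A) hne sdiff_subset (fun h1 => (mem_sdiff.1 h1).2 hvA)
      rw [Finset.sdiff_sdiff_eq_self hAY.1] at he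
      exact ⟨e, he.symm⟩
    · exact hYconn A hA hAY.1 hvA
  · -- the complement
    intro A hA hAd
    rw [Finset.disjoint_union_right] at hAd
    obtain ⟨hAY, hAU⟩ := hAd
    obtain ⟨a, ha⟩ := hA
    by_cases hva : full v a
    · -- `B` is contained in the class of `h`
      have hBsub : A ∩ cls full a ⊂ cls π h := by
        refine Finset.ssubset_iff_subset_ne.2 ⟨?_, ?_⟩
        · intro b hb
          rw [mem_inter, map_mem_cls] at hb
          rw [map_mem_cls]
          by_contra hc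
          exact Finset.disjoint_left.1 hAY hb.1 ((hYmem b).2 ⟨full.trans hva hb.2, hc⟩)
        · intro heq
          have : h ∈ A ∩ cls full a := by
            rw [heq]
            exact map_mem_cls.2 (π.refl h)
          exact Finset.disjoint_left.1 hAU (mem_inter.1 this).1 hhU
      obtain ⟨e, -, he⟩ := map_edge p (Din p D π) θ π hfl h (A ∩ cls full a)
        ⟨a, mem_inter.2 ⟨ha, map_mem_cls.2 (full.refl a)⟩⟩ hBsub
        (hclosed _ (hAU.mono_left inter_subset_left))
      have hout : ∀ z, z ∈ cls π h \ (A ∩ cls full a) → z ∈ (A ∪ Y)ᶜ := by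
        intro z hz
        rw [mem_sdiff, map_mem_cls, mem_inter, map_mem_cls] at hz
        rw [mem_compl, mem_union]
        rintro (h1 | h1)
        · refine hz.2 ⟨h1, ?_⟩
          exact full.trans (full.symm hva) (full.trans hvh (hπfull hz.1))
        · exact ((hYmem z).1 h1).2 hz.1
      refine ⟨e, ?_⟩
      rcases he with ⟨h1, h2⟩ | ⟨h1, h2⟩
      · exact Or.inl ⟨(mem_inter.1 h1).1, hout _ h2⟩
      · exact Or.inr ⟨hout _ h1, (mem_inter.1 h2).1⟩
    · obtain ⟨u, huU, hau⟩ := hcfg.att a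
      have hBsub : A ∩ cls full a ⊂ cls full a := by
        refine Finset.ssubset_iff_subset_ne.2 ⟨inter_subset_right, ?_⟩
        intro heq
        have : u ∈ A ∩ cls full a := by
          rw [heq]
          exact map_mem_cls.2 hau
        exact Finset.disjoint_left.1 hAU (mem_inter.1 this).1 huU
      obtain ⟨e, -, he⟩ := map_edge p D θ full hfull a (A ∩ cls full a)
        ⟨a, mem_inter.2 ⟨ha, map_mem_cls.2 (full.refl a)⟩⟩ hBsub
        (hclosed _ (hAU.mono_left inter_subset_left))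
      have hout : ∀ z, z ∈ cls full a \ (A ∩ cls full a) → z ∈ (A ∪ Y)ᶜ := by
        intro z hz
        rw [mem_sdiff, map_mem_cls, mem_inter, map_mem_cls] at hz
        rw [mem_compl, mem_union]
        rintro (h1 | h1)
        · exact hz.2 ⟨h1, hz.1⟩
        · exact hva (full.trans ((hYmem z).1 h1).1 (full.symm hz.1))
      refine ⟨e, ?_⟩
      rcases he with ⟨h1, h2⟩ | ⟨h1, h2⟩
      · exact Or.inl ⟨(mem_inter.1 h1).1, hout _ h2⟩
      · exact Or.inr ⟨hout _ h1, (mem_inter.1 h2).1⟩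
  · -- the partition
    have hP : ∀ P ∈ inn p D θ v h π, ∃ a, P = cls π a ∧ a ∈ Y ∧ P ⊆ Y := by
      intro P hPi
      have hPY : P ⊆ Y := by
        rw [← hbi]
        exact fun z hz => mem_biUnion.2 ⟨P, hPi, hz⟩
      unfold inn at hPi
      rw [mem_filter, mem_image] at hPi
      obtain ⟨⟨a, -, ha⟩, -⟩ := hPi
      refine ⟨a, ha.symm, hPY ?_, hPY⟩
      rw [← ha]
      exact map_mem_cls.2 (π.refl a)
    unfold Pt
    rw [mem_filter]
    refine ⟨mem_univ _, fun P hPi => (hinn P hPi).1, ?_, hbi, ?_, ?_⟩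
    · intro P hPi P' hPi' hne
      obtain ⟨a, rfl, -, -⟩ := hP P hPi
      obtain ⟨b, rfl, -, -⟩ := hP P' hPi'
      rw [Finset.disjoint_left]
      intro z hz hz'
      rw [map_mem_cls] at hz hz'
      apply hne
      ext w
      rw [map_mem_cls, map_mem_cls]
      constructor
      · intro h1
        exact π.trans hz' (π.trans (π.symm hz) h1)
      · intro h1
        exact π.trans hz (π.trans (π.symm hz') h1)
    · intro P hPi A hA hAP
      obtain ⟨a, rfl, haY, -⟩ := hP P hPi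
      exact hconn a haY A hA hAP
    · intro P hPi A hA hvA hAP
      obtain ⟨a, rfl, haY, -⟩ := hP P hPi
      have hAY : A ⊆ Y := hAP.trans sdiff_subset
      have hAdis : Disjoint (cls π a) A := by
        rw [Finset.disjoint_left]
        intro z hz hzA
        exact (mem_sdiff.1 (hAP hzA)).2 hz
      by_cases hs : Satd π A
      · obtain ⟨e, heD, he⟩ := hStr a A hA hs hvA (fun h1 => hhY (hAY h1)) hAdis
          (fun y hy => full.symm ((hYmem y).1 (hAY hy)).1)
        refine ⟨e, ?_⟩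
        rcases he with ⟨h1, h2, h3⟩ | ⟨h1, h2, h3⟩
        · refine Or.inl ⟨h1, ?_⟩
          rw [mem_compl, mem_union]
          rintro (h4 | h4)
          · exact h2 h4
          · exact h3 h4
        · refine Or.inr ⟨?_, h1⟩
          rw [mem_compl, mem_union]
          rintro (h4 | h4)
          · exact h2 h4
          · exact h3 h4
      · obtain ⟨x, hx, e, he⟩ := hsat A hAY hs
        have hout : ∀ z, z ∈ cls π x \ A → z ∈ (A ∪ cls π a)ᶜ := by
          intro z hz
          rw [mem_sdiff, map_mem_cls] at hz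
          rw [mem_compl, mem_union, map_mem_cls]
          rintro (h4 | h4)
          · exact hz.2 h4
          · refine Finset.disjoint_left.1 hAdis ?_ hx
            exact map_mem_cls.2 (π.trans h4 (π.symm hz.1))
        refine ⟨e, ?_⟩
        rcases he with ⟨h1, h2⟩ | ⟨h1, h2⟩
        · exact Or.inl ⟨h1, hout _ h2⟩
        · exact Or.inr ⟨hout _ h1, h2⟩

end Pool.Agent.Lib.MP_4a8162_co.FB
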