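import Pool.Agent.Lib.MP_4a8162_co.FB.StmB

/-!
# MP_4a8162_co, FB, piece NZZ: a convergent sum
-/

set_option autoImplicit false

namespace Pool.Agent.Lib.MP_4a8162_co.FB

open Finset

private theorem nzz_psi (j : ℕ) (hj : 9 ≤ j) : (j : ℝ) / 4 ≤ psi (2 ^ j) := by
  have h9 : (9 : ℝ) ≤ (j : ℝ) := by exact_mod_cast hj
  have h2 : (0.69 : ℝ) ≤ Real.log 2 := by
    have := Real.log_two_gt_d9
    linarith
  have h1 : (j : ℝ) * Real.log 2 ≤ Real.log (((2 ^ j : ℕ) : ℝ) + 8) := by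
    rw [← Real.log_pow]
    refine Real.log_le_log (by positivity) ?_
    push_cast
    linarith
  have h3 : (j : ℝ) * 0.69 ≤ Real.log (((2 ^ j : ℕ) : ℝ) + 8) :=
    (mul_le_mul_of_nonneg_left h2 (by positivity)).trans h1
  have h4 : ((j : ℝ) * 0.69) ^ 2 ≤ Real.log (((2 ^ j : ℕ) : ℝ) + 8) ^ 2 :=
    pow_le_pow_left₀ (by positivity) h3 2
  have h5 : psi (2 ^ j) = Real.log (((2 ^ j : ℕ) : ℝ) + 8) ^ 2 / 6 := rfl
  rw [h5]
  nlinarith

theorem p_NZZ : S_NZZ := by
  refine ⟨1 / 256, by norm_num, by norm_num, fun N d hd => ?_⟩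
  have h1 : ∀ j ∈ range N, ((1 : ℝ) / 256) ^ d j ≤ 1 / 256 * (1 / 2) ^ j := by
    intro j hj
    obtain ⟨h2, h3⟩ := hd j (mem_range.1 hj)
    have h4 : 8 + j ≤ 8 * d j := by
      rcases Nat.lt_or_ge j 9 with hj9 | hj9
      · omega
      · have h5 := (nzz_psi j hj9).trans h3
        have h6 : (j : ℝ) ≤ 4 * d j := by linarith
        have h7 : j ≤ 4 * d j := by exact_mod_cast h6
        omega
    calc ((1 : ℝ) / 256) ^ d j = (1 / 2) ^ (8 * d j) := by
          rw [pow_mul]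
          norm_num
      _ ≤ (1 / 2) ^ (8 + j) := pow_le_pow_of_le_one (by norm_num) (by norm_num) h4
      _ = 1 / 256 * (1 / 2) ^ j := by
          rw [pow_add]
          norm_num
  have h2 : ∑ j ∈ range N, ((1 : ℝ) / 256) ^ d j ≤ 1 / 256 * 2 := by
    refine (Finset.sum_le_sum h1).trans ?_
    rw [← Finset.mul_sum]
    refine mul_le_mul_of_nonneg_left ?_ (by norm_num)
    have h3 : ∀ M : ℕ, ∑ j ∈ range M, ((1 : ℝ) / 2) ^ j = 2 - 2 * (1 / 2) ^ M := by
      intro M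
      induction M with
      | zero => norm_num
      | succ M ih =>
        rw [Finset.sum_range_succ, ih, pow_succ]
        ring
    rw [h3]
    have : (0 : ℝ) ≤ 2 * (1 / 2) ^ N := by positivity
    linarith
  have h3 : ((1 : ℝ) / 256) ^ 2 ≤ 1 / 2 := by norm_num
  linarith

end Pool.Agent.Lib.MP_4a8162_co.FB
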