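import Pool.Agent.Lib.MP_4a8162_co.FB.StmF

set_option autoImplicit false

/-!
# Piece PDI
-/

namespace Pool.Agent.Lib.MP_4a8162_co.FB

open Finset
open scoped Classical

theorem p_PDI : S_PDI := by
  intro V E _ _ p x D θ e he
  unfold PolD
  rw [Finset.sum_powerset_insert he, Finset.mul_sum]
  have h1 : ∑ B ∈ D.powerset, (-1 : ℝ) ^ (insert e D \ B).card * x ^ B.card *
      x ^ cs (gen p B ⊔ θ) = - ∑ B ∈ D.powerset, (-1 : ℝ) ^ (D \ B).card * x ^ B.card *
      x ^ cs (gen p B ⊔ θ) := by
    rw [← Finset.sum_neg_distrib]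
    refine Finset.sum_congr rfl fun B hB => ?_
    have hB' : e ∉ B := fun h => he (Finset.mem_powerset.1 hB h)
    have h2 : insert e D \ B = insert e (D \ B) := by
      ext a
      simp only [mem_sdiff, mem_insert]
      constructor
      · rintro ⟨rfl | h, h'⟩
        · exact Or.inl rfl
        · exact Or.inr ⟨h, h'⟩
      · rintro (rfl | ⟨h, h'⟩)
        · exact ⟨Or.inl rfl, hB'⟩
        · exact ⟨Or.inr h, h'⟩
    have h3 : e ∉ D \ B := fun h => he (mem_sdiff.1 h).1
    rw [h2, Finset.card_insert_of_notMem h3, pow_succ]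
    ring
  have h2 : ∑ B ∈ D.powerset, (-1 : ℝ) ^ (insert e D \ insert e B).card * x ^ (insert e B).card *
      x ^ cs (gen p (insert e B) ⊔ θ) = ∑ B ∈ D.powerset, x * ((-1 : ℝ) ^ (D \ B).card *
      x ^ B.card * x ^ cs (gen p B ⊔ (θ ⊔ jn (p e).1 (p e).2))) := by
    refine Finset.sum_congr rfl fun B hB => ?_
    have hB' : e ∉ B := fun h => he (Finset.mem_powerset.1 hB h)
    have h3 : insert e D \ insert e B = D \ B := by
      ext a
      simp only [mem_sdiff, mem_insert]
      constructor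
      · rintro ⟨rfl | h, h'⟩
        · exact absurd (Or.inl rfl) h'
        · exact ⟨h, fun h'' => h' (Or.inr h'')⟩
      · rintro ⟨h, h'⟩
        refine ⟨Or.inr h, ?_⟩
        rintro (rfl | h'')
        · exact he h
        · exact h' h''
    have h4 : gen p (insert e B) ⊔ θ = gen p B ⊔ (θ ⊔ jn (p e).1 (p e).2) := by
      rw [gen_insert, sup_assoc, sup_comm (jn (p e).1 (p e).2) θ]
    rw [h3, h4, Finset.card_insert_of_notMem hB', pow_succ]
    ring
  rw [h1, h2]
  ring

end Pool.Agent.Lib.MP_4a8162_co.FB
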