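import Pool.Agent.Lib.MP_4a8162_co.FB.StmB

set_option autoImplicit false

/-!
# MP_4a8162_co, REAL FLOW ROOTS ARE BOUNDED, piece PHI: the potential exists
-/

namespace Pool.Agent.Lib.MP_4a8162_co.FB

open Finset
open scoped Classical

private theorem PHI_nn (n : ℕ) : 0 ≤ Real.logb 2 (n : ℝ) := by
  rcases Nat.eq_zero_or_pos n with rfl | h
  · simp
  · exact Real.logb_nonneg (by norm_num) (by exact_mod_cast h)

private theorem PHI_mono {n m : ℕ} (h : n ≤ m) : Real.logb 2 (n : ℝ) ≤ Real.logb 2 (m : ℝ) := by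
  rcases Nat.eq_zero_or_pos n with rfl | h0
  · have := PHI_nn m
    simpa using this
  · exact Real.logb_le_logb_of_le (by norm_num) (by exact_mod_cast h0) (by exact_mod_cast h)

private theorem PHI_psi (n : ℕ) (hn : 1 ≤ n) :
    (2 + Real.logb 2 (n : ℝ)) ^ 2 ≤ 36 * psi n := by
  have hl2 : 0 < Real.log 2 := Real.log_pos (by norm_num)
  have hl3 : 0.6931471803 < Real.log 2 := Real.log_two_gt_d9
  have hL : 0 ≤ Real.logb 2 (n : ℝ) := PHI_nn n
  have hn0 : (0 : ℝ) < (n : ℝ) := by exact_mod_cast hn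
  have h1 : Real.logb 2 (n : ℝ) * Real.log 2 = Real.log n := by
    rw [Real.logb, div_mul_cancel₀ _ hl2.ne']
  have h2 : Real.log n ≤ Real.log (n + 8) := Real.log_le_log hn0 (by linarith)
  have h3 : 3 * Real.log 2 ≤ Real.log (n + 8) := by
    have h4 : (3 : ℝ) * Real.log 2 = Real.log 8 := by
      rw [show (8 : ℝ) = 2 ^ 3 by norm_num, Real.log_pow]
      norm_num
    rw [h4]
    exact Real.log_le_log (by norm_num) (by linarith)
  rw [← h1] at h2
  generalize Real.logb 2 (n : ℝ) = L at *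
  have h5 : 3 / 5 * (2 + L) * Real.log 2 ≤ Real.log (n + 8) := by
    rcases le_total L 3 with h | h
    · refine le_trans ?_ h3
      exact mul_le_mul_of_nonneg_right (by linarith) hl2.le
    · refine le_trans ?_ h2
      exact mul_le_mul_of_nonneg_right (by linarith) hl2.le
  have h6 : (3 / 5 * (2 + L) * Real.log 2) ^ 2 ≤ Real.log (n + 8) ^ 2 :=
    pow_le_pow_left₀ (by positivity) h5 2
  unfold psi
  have h7 : (1 : ℝ) ≤ 36 / 6 * ((3 / 5) ^ 2 * Real.log 2 ^ 2) := by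
    nlinarith
  calc (2 + L) ^ 2 = (2 + L) ^ 2 * 1 := (mul_one _).symm
    _ ≤ (2 + L) ^ 2 * (36 / 6 * ((3 / 5) ^ 2 * Real.log 2 ^ 2)) :=
        mul_le_mul_of_nonneg_left h7 (sq_nonneg _)
    _ = 36 / 6 * (3 / 5 * (2 + L) * Real.log 2) ^ 2 := by ring
    _ ≤ 36 / 6 * Real.log (n + 8) ^ 2 := mul_le_mul_of_nonneg_left h6 (by norm_num)
    _ = 36 * (Real.log (n + 8) ^ 2 / 6) := by ring

private theorem PHI_log (v d : ℝ) (hv : 0 < v) (hd : 2 ≤ d) (h : v ^ 4 ≤ 36 * d) :
    Real.log d * v ^ 3 ≤ 128 * (d - 1) := by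
  have hd0 : 0 < d := by linarith
  obtain ⟨w, hw, hwd⟩ : ∃ w : ℝ, 0 < w ∧ w ^ 4 = d := by
    refine ⟨√(√d), Real.sqrt_pos.2 (Real.sqrt_pos.2 hd0), ?_⟩
    rw [show (4 : ℕ) = 2 * 2 by norm_num, pow_mul, Real.sq_sqrt (Real.sqrt_nonneg _),
      Real.sq_sqrt hd0.le]
  have hlog : Real.log d ≤ 4 * w := by
    rw [← hwd, Real.log_pow]
    have := Real.log_le_sub_one_of_pos hw
    push_cast
    linarith
  have h6 : (√6) ^ 2 = 6 := Real.sq_sqrt (by norm_num)
  have hs6 : 0 < √6 := Real.sqrt_pos.2 (by norm_num)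
  have h1 : v ≤ √6 * w := by
    have h2 : v ^ 4 ≤ (√6 * w) ^ 4 := by
      have h3 : (√6 * w) ^ 4 = 36 * d := by
        rw [mul_pow, hwd, show (√6) ^ 4 = ((√6) ^ 2) ^ 2 by ring, h6]
        norm_num
      rw [h3]
      exact h
    exact le_of_pow_le_pow_left₀ (by norm_num) (by positivity) h2
  have h2 : v ^ 3 ≤ 16 * w ^ 3 := by
    have h3 : v ^ 3 ≤ (√6 * w) ^ 3 := pow_le_pow_left₀ hv.le h1 3
    have h4 : (√6) ^ 3 ≤ 16 := by
      have h5 : √6 ≤ 8 / 3 := by
        rw [Real.sqrt_le_left (by norm_num)]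
        norm_num
      calc (√6) ^ 3 = (√6) ^ 2 * √6 := by ring
        _ = 6 * √6 := by rw [h6]
        _ ≤ 16 := by linarith
    calc v ^ 3 ≤ (√6) ^ 3 * w ^ 3 := by rw [← mul_pow]; exact h3
      _ ≤ 16 * w ^ 3 := mul_le_mul_of_nonneg_right h4 (by positivity)
  calc Real.log d * v ^ 3 ≤ (4 * w) * v ^ 3 :=
        mul_le_mul_of_nonneg_right hlog (by positivity)
    _ ≤ (4 * w) * (16 * w ^ 3) := mul_le_mul_of_nonneg_left h2 (by positivity)
    _ = 64 * w ^ 4 := by ring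
    _ = 64 * d := by rw [hwd]
    _ ≤ 128 * (d - 1) := by linarith

theorem p_PHI : S_PHI := by
  refine ⟨fun n => 256 / √(1 + Real.logb 2 (n : ℝ)), ?_, ?_, ?_⟩
  · intro n m h
    have h1 := PHI_nn n
    have h2 := PHI_mono h
    exact div_le_div_of_nonneg_left (by norm_num) (Real.sqrt_pos.2 (by linarith))
      (Real.sqrt_le_sqrt (by linarith))
  · intro n
    positivity
  · intro n hn d hd hpsi
    have hn0 : (0 : ℝ) < (n : ℝ) := by exact_mod_cast hn
    have hL : 0 ≤ Real.logb 2 (n : ℝ) := PHI_nn n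
    have hL2 : Real.logb 2 ((2 * n : ℕ) : ℝ) = 1 + Real.logb 2 (n : ℝ) := by
      rw [Nat.cast_mul, Nat.cast_ofNat, Real.logb_mul (by norm_num) hn0.ne',
        Real.logb_self_eq_one (by norm_num)]
    have hps := PHI_psi n hn
    show Real.log d ≤ (d - 1) * (256 / √(1 + Real.logb 2 (n : ℝ)) -
      256 / √(1 + Real.logb 2 ((2 * n : ℕ) : ℝ)))
    rw [hL2]
    have hd' : (2 : ℝ) ≤ (d : ℝ) := by exact_mod_cast hd
    generalize Real.logb 2 (n : ℝ) = L at *
    obtain ⟨u, hu⟩ : ∃ u, u = √(1 + L) := ⟨_, rfl⟩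
    obtain ⟨v, hv⟩ : ∃ v, v = √(1 + (1 + L)) := ⟨_, rfl⟩
    have hu0 : 0 < u := by rw [hu]; exact Real.sqrt_pos.2 (by linarith)
    have hv0 : 0 < v := by rw [hv]; exact Real.sqrt_pos.2 (by linarith)
    have hu2 : u ^ 2 = 1 + L := by rw [hu]; exact Real.sq_sqrt (by linarith)
    have hv2 : v ^ 2 = 2 + L := by rw [hv, Real.sq_sqrt (by linarith)]; ring
    have huv : u ≤ v := by rw [hu, hv]; exact Real.sqrt_le_sqrt (by linarith)
    rw [← hu, ← hv]
    have hv4 : v ^ 4 ≤ 36 * d := by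
      calc v ^ 4 = (2 + L) ^ 2 := by rw [← hv2]; ring
        _ ≤ 36 * psi n := hps
        _ ≤ 36 * d := mul_le_mul_of_nonneg_left hpsi (by norm_num)
    have h1 := PHI_log v d hv0 hd' hv4
    have h2 : 128 / v ^ 3 ≤ 256 / u - 256 / v := by
      have h3 : 256 / u - 256 / v = 256 / (u * v * (u + v)) := by
        have h4 : (v - u) * (u + v) = 1 := by
          have : v ^ 2 - u ^ 2 = 1 := by rw [hv2, hu2]; ring
          linarith
        rw [div_sub_div _ _ hu0.ne' hv0.ne', div_eq_div_iff (by positivity) (by positivity)]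
        calc (256 * v - u * 256) * (u * v * (u + v)) = 256 * ((v - u) * (u + v)) * (u * v) := by
              ring
          _ = 256 * (u * v) := by rw [h4, mul_one]
      rw [h3, div_le_div_iff₀ (by positivity) (by positivity)]
      have h5 : u * v * (u + v) ≤ 2 * v ^ 3 := by
        calc u * v * (u + v) ≤ v * v * (v + v) := by gcongr
          _ = 2 * v ^ 3 := by ring
      linarith
    calc Real.log d ≤ 128 * (d - 1) / v ^ 3 := by
          rw [le_div_iff₀ (by positivity)]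
          exact h1
      _ = (d - 1) * (128 / v ^ 3) := by ring
      _ ≤ (d - 1) * (256 / u - 256 / v) :=
          mul_le_mul_of_nonneg_left h2 (by linarith)

end Pool.Agent.Lib.MP_4a8162_co.FB
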