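import Pool.Agent.Lib.MP_4a8162_co.FB.StmB

set_option autoImplicit false

namespace Pool.Agent.Lib.MP_4a8162_co.FB

open Finset
open scoped Classical

section PSS

variable {V E : Type} [Fintype V] [Fintype E]

private theorem pss_mem (p : E → V × V) (v : V) (Z : Finset V) (Q : Finset (Finset V)) :
    Q ∈ Pt p v Z ↔ (∀ P ∈ Q, P.Nonempty) ∧ (∀ P ∈ Q, ∀ P' ∈ Q, P ≠ P' → Disjoint P P') ∧
    Q.biUnion id = Z ∧ (∀ P ∈ Q, ∀ A : Finset V, A.Nonempty → A ⊂ P → Jo p A (P \ A)) ∧
    ∀ P ∈ Q, ∀ A : Finset V, A.Nonempty → v ∉ A → A ⊆ Z \ P → Jo p A (A ∪ P)ᶜ := by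
  unfold Pt
  rw [mem_filter]
  exact ⟨fun h => h.2, fun h => ⟨mem_univ _, h⟩⟩

/-- the member which contains `a` and the others -/
private noncomputable def pss_g (a : V) (Q : Finset (Finset V)) :
    (_ : Finset V) × Finset (Finset V) :=
  ⟨(Q.filter fun P => a ∈ P).biUnion id, Q.erase ((Q.filter fun P => a ∈ P).biUnion id)⟩

private theorem pss_g_eq (p : E → V × V) (v : V) (Z : Finset V) (a : V) (ha : a ∈ Z)
    (Q : Finset (Finset V)) (hQ : Q ∈ Pt p v Z) :
    ∃ P ∈ Q, a ∈ P ∧ pss_g a Q = ⟨P, Q.erase P⟩ := by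
  rw [pss_mem] at hQ
  obtain ⟨-, h2, h3, -, -⟩ := hQ
  rw [← h3, mem_biUnion] at ha
  obtain ⟨P, hP, haP⟩ := ha
  have haP' : a ∈ P := haP
  refine ⟨P, hP, haP', ?_⟩
  have h4 : (Q.filter fun P => a ∈ P) = {P} := by
    ext P'
    rw [mem_filter, mem_singleton]
    constructor
    · rintro ⟨h5, h6⟩
      by_contra hne
      exact disjoint_left.1 (h2 P' h5 P hP hne) h6 haP'
    · rintro rfl
      exact ⟨hP, haP'⟩
  have h5 : ({P} : Finset (Finset V)).biUnion id = P := by
    rw [singleton_biUnion]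
    rfl
  unfold pss_g
  rw [h4, h5]

private theorem pss_good (p : E → V × V) (v : V) (Z : Finset V) (a : V) (hv : v ∈ Z → a = v)
    (Q : Finset (Finset V)) (hQ : Q ∈ Pt p v Z) (P : Finset V) (hP : P ∈ Q) (haP : a ∈ P) :
    Good p Zᶜ a P ∧ Q.erase P ∈ Pt p v (Z \ P) := by
  rw [pss_mem] at hQ
  obtain ⟨h1, h2, h3, h4, h5⟩ := hQ
  have hPZ : P ⊆ Z := by
    rw [← h3]
    exact subset_biUnion_of_mem id hP
  constructor
  · refine ⟨haP, ?_, h4 P hP, ?_⟩
    · rw [disjoint_left]
      intro x hx hx'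
      exact (mem_compl.1 hx') (hPZ hx)
    · intro A hA hdis
      have hA1 : A ⊆ Z \ P := by
        intro x hx
        have hx1 := disjoint_left.1 hdis hx
        rw [mem_union, mem_compl] at hx1
        rw [mem_sdiff]
        tauto
      refine h5 P hP A hA ?_ hA1
      intro hvA
      have h6 := mem_sdiff.1 (hA1 hvA)
      exact h6.2 (hv h6.1 ▸ haP)
  · rw [pss_mem]
    refine ⟨fun P' hP' => h1 P' (mem_of_mem_erase hP'),
      fun P' hP' P'' hP'' => h2 P' (mem_of_mem_erase hP') P'' (mem_of_mem_erase hP''), ?_,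
      fun P' hP' => h4 P' (mem_of_mem_erase hP'), ?_⟩
    · ext x
      rw [mem_biUnion, mem_sdiff]
      constructor
      · rintro ⟨P', hP', hx⟩
        have hx' : x ∈ P' := hx
        rw [mem_erase] at hP'
        refine ⟨?_, fun hxP => disjoint_left.1 (h2 P' hP'.2 P hP hP'.1) hx' hxP⟩
        rw [← h3, mem_biUnion]
        exact ⟨P', hP'.2, hx⟩
      · rintro ⟨hxZ, hxP⟩
        rw [← h3, mem_biUnion] at hxZ
        obtain ⟨P', hP', hx⟩ := hxZ
        have hx' : x ∈ P' := hx
        refine ⟨P', mem_erase.2 ⟨?_, hP'⟩, hx⟩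
        rintro rfl
        exact hxP hx'
    · intro P' hP' A hA hvA hAs
      refine h5 P' (mem_of_mem_erase hP') A hA hvA ?_
      intro x hx
      have := hAs hx
      rw [mem_sdiff, mem_sdiff] at this
      rw [mem_sdiff]
      exact ⟨this.1.1, this.2⟩

end PSS

theorem p_PSS : S_PSS := by
  intro V E _ _ p y hy H v Z
  induction Z using Finset.strongInduction with
  | H Z ih =>
    intro hZ
    have hw : ∀ P : Finset V, 0 ≤ y ^ (bd p P).card := fun P => pow_nonneg hy _
    have hF : ∀ Q : Finset (Finset V), 0 ≤ ∏ P ∈ Q, y ^ (bd p P).card :=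
      fun Q => prod_nonneg fun P _ => hw P
    rcases Z.eq_empty_or_nonempty with rfl | hne
    · have h1 : Pt p v (∅ : Finset V) ⊆ {∅} := by
        intro Q hQ
        rw [pss_mem] at hQ
        rw [mem_singleton, eq_empty_iff_forall_notMem]
        intro P hP
        obtain ⟨x, hx⟩ := hQ.1 P hP
        have h2 : x ∈ Q.biUnion id := mem_biUnion.2 ⟨P, hP, hx⟩
        rw [hQ.2.2.1] at h2
        exact notMem_empty _ h2
      calc ∑ Q ∈ Pt p v (∅ : Finset V), ∏ P ∈ Q, y ^ (bd p P).card
          ≤ ∑ Q ∈ ({∅} : Finset (Finset (Finset V))), ∏ P ∈ Q, y ^ (bd p P).card :=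
            sum_le_sum_of_subset_of_nonneg h1 fun Q _ _ => hF Q
        _ = 1 := by rw [sum_singleton, prod_empty]
        _ ≤ 1 := le_refl _
    · obtain ⟨a, haZ, hv⟩ : ∃ a, a ∈ Z ∧ (v ∈ Z → a = v) := by
        by_cases hvZ : v ∈ Z
        · exact ⟨v, hvZ, fun _ => rfl⟩
        · obtain ⟨a, ha⟩ := hne
          exact ⟨a, ha, fun h => absurd h hvZ⟩
      have hinj : Set.InjOn (pss_g a) (Pt p v Z : Set (Finset (Finset V))) := by
        intro Q hQ Q' hQ' hQQ
        obtain ⟨P, hP, -, hg⟩ := pss_g_eq p v Z a haZ Q hQ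
        obtain ⟨P', hP', -, hg'⟩ := pss_g_eq p v Z a haZ Q' hQ'
        rw [hg, hg'] at hQQ
        rw [Sigma.mk.injEq] at hQQ
        obtain ⟨rfl, h1⟩ := hQQ
        have h2 : Q.erase P = Q'.erase P := eq_of_heq h1
        rw [← insert_erase hP, ← insert_erase hP', h2]
      calc ∑ Q ∈ Pt p v Z, ∏ P ∈ Q, y ^ (bd p P).card
          = ∑ Q ∈ Pt p v Z, (y ^ (bd p (pss_g a Q).1).card *
              ∏ P ∈ (pss_g a Q).2, y ^ (bd p P).card) := by
            apply sum_congr rfl
            intro Q hQ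
            obtain ⟨P, hP, -, hg⟩ := pss_g_eq p v Z a haZ Q hQ
            rw [hg]
            exact (mul_prod_erase Q (fun P => y ^ (bd p P).card) hP).symm
        _ = ∑ x ∈ (Pt p v Z).image (pss_g a), (y ^ (bd p x.1).card *
              ∏ P ∈ x.2, y ^ (bd p P).card) := by
            rw [sum_image hinj]
        _ ≤ ∑ x ∈ (univ.filter (fun J => Good p Zᶜ a J)).sigma (fun P => Pt p v (Z \ P)),
              (y ^ (bd p x.1).card * ∏ P ∈ x.2, y ^ (bd p P).card) := by
            apply sum_le_sum_of_subset_of_nonneg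
            · intro x hx
              rw [mem_image] at hx
              obtain ⟨Q, hQ, rfl⟩ := hx
              obtain ⟨P, hP, haP, hg⟩ := pss_g_eq p v Z a haZ Q hQ
              have h1 := pss_good p v Z a hv Q hQ P hP haP
              rw [hg, mem_sigma, mem_filter]
              exact ⟨⟨mem_univ _, h1.1⟩, h1.2⟩
            · intro x _ _
              exact mul_nonneg (hw _) (hF _)
        _ = ∑ P ∈ univ.filter (fun J => Good p Zᶜ a J), ∑ Q ∈ Pt p v (Z \ P),
              (y ^ (bd p P).card * ∏ P' ∈ Q, y ^ (bd p P').card) := by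
            rw [sum_sigma]
        _ ≤ ∑ P ∈ univ.filter (fun J => Good p Zᶜ a J), y ^ (bd p P).card := by
            apply sum_le_sum
            intro P hP
            rw [mem_filter] at hP
            rw [← mul_sum]
            have h1 : Z \ P ⊂ Z := by
              rw [Finset.ssubset_iff_subset_ne]
              refine ⟨sdiff_subset, fun h => ?_⟩
              rw [← h, mem_sdiff] at haZ
              exact haZ.2 hP.2.1
            have h2 : Z \ P ≠ univ := by
              intro h
              apply hZ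
              rw [eq_univ_iff_forall] at h ⊢
              intro x
              exact (mem_sdiff.1 (h x)).1
            have h3 := ih (Z \ P) h1 h2
            calc y ^ (bd p P).card * ∑ Q ∈ Pt p v (Z \ P), ∏ P' ∈ Q, y ^ (bd p P').card
                ≤ y ^ (bd p P).card * 1 := mul_le_mul_of_nonneg_left h3 (hw P)
              _ = y ^ (bd p P).card := mul_one _
        _ ≤ 1 := by
            refine H Zᶜ ?_ a
            rw [nonempty_iff_ne_empty]
            intro h
            exact hZ (compl_eq_empty_iff Z |>.1 h)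

end Pool.Agent.Lib.MP_4a8162_co.FB
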