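import Pool.Agent.Lib.MP_4a8162_co.FB.StmB

set_option autoImplicit false

/-!
# MP_4a8162_co, REAL FLOW ROOTS ARE BOUNDED: piece PXX (the sum over the good sets)
-/

namespace Pool.Agent.Lib.MP_4a8162_co.FB

open Finset
open scoped Classical

private theorem psi_mono {m n : ℕ} (h : m ≤ n) : psi m ≤ psi n := by
  unfold psi
  have h1 : (m : ℝ) ≤ n := by exact_mod_cast h
  have h2 : 0 ≤ Real.log ((m : ℝ) + 8) := Real.log_nonneg (by
    have : (0 : ℝ) ≤ m := Nat.cast_nonneg m
    linarith)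
  have h3 : Real.log ((m : ℝ) + 8) ≤ Real.log ((n : ℝ) + 8) :=
    Real.log_le_log (by positivity) (by linarith)
  gcongr

/-- the common step -/
private theorem pxx_core (hC : S_CLE) {V E : Type} [Fintype V] [Fintype E] (p : E → V × V) (s : ℕ)
    (φ : ℕ → ℝ) (I : Finset V) (a : V) (F : Finset (Finset V)) (z : ℝ) (d : ℕ)
    (h1 : Antitone φ) (h2 : ∀ n, 0 ≤ φ n)
    (h3 : ∀ n : ℕ, 1 ≤ n → ∀ d : ℕ, 2 ≤ d → psi n ≤ d →
      Real.log d ≤ (d - 1) * (φ n - φ (2 * n)))
    (hA : ∀ A : Finset V, A.Nonempty → A.card < s → 2 * A.card ≤ Fintype.card V)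
    (hI : Iso p) (hF : ∀ J ∈ F, s ≤ J.card ∧ J.card < 2 * s ∧ Good p I a J ∧ d ≤ (bd p J).card)
    (hz : 0 ≤ z) (hz1 : z ≤ 1) :
    ∑ J ∈ F, (Real.exp (-(2 * φ 1)) * z) ^ (bd p J).card ≤ z ^ d := by
  have key : ∑ J ∈ F, Real.exp (-(2 * φ 1)) ^ (bd p J).card ≤ 1 := by
    refine hC V E p s φ psi I a F 1 h1 h2 h3 ?_ ?_ ?_
    · intro A hAn hAs _
      have h4 := hA A hAn hAs
      refine ⟨hI.1 A hAn ?_, hI.2.1 A hAn h4⟩
      rintro rfl
      rw [card_univ] at h4
      have h5 := hAn.card_pos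
      rw [card_univ] at h5
      omega
    · intro J hJ
      exact ⟨(hF J hJ).1, (hF J hJ).2.2.1⟩
    · intro c hc
      have h5 : (F.filter (Satd c)).card ≤ 1 := by
        have h6 : ∀ J ∈ F.filter (Satd c), J = cls c a := by
          intro J hJ
          rw [mem_filter] at hJ
          obtain ⟨hJF, hJc⟩ := hJ
          obtain ⟨hJs, hJ2, hJg, -⟩ := hF J hJF
          obtain ⟨haJ, hJI, -, -⟩ := hJg
          have h7 : ∀ u ∈ J, cls c u ⊆ J := by
            intro u hu w hw
            simp only [cls, mem_filter, mem_univ, true_and] at hw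
            exact hJc u w hw hu
          apply Subset.antisymm _ (h7 a haJ)
          intro u hu
          by_contra hua
          have h8 : Disjoint (cls c a) (cls c u) := by
            rw [Finset.disjoint_left]
            intro w hw hw'
            simp only [cls, mem_filter, mem_univ, true_and] at hw hw'
            apply hua
            simp only [cls, mem_filter, mem_univ, true_and]
            exact c.trans hw (c.symm hw')
          have h9 : (cls c a ∪ cls c u).card ≤ J.card :=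
            card_le_card (union_subset (h7 a haJ) (h7 u hu))
          rw [card_union_of_disjoint h8] at h9
          have h10 := hc a (Disjoint.mono_left (h7 a haJ) hJI)
          have h11 := hc u (Disjoint.mono_left (h7 u hu) hJI)
          omega
        rw [card_le_one]
        intro J hJ J' hJ'
        rw [h6 J hJ, h6 J' hJ']
      exact_mod_cast h5
  have hexp : 0 ≤ Real.exp (-(2 * φ 1)) := (Real.exp_pos _).le
  calc ∑ J ∈ F, (Real.exp (-(2 * φ 1)) * z) ^ (bd p J).card
      ≤ ∑ J ∈ F, Real.exp (-(2 * φ 1)) ^ (bd p J).card * z ^ d := by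
        refine sum_le_sum fun J hJ => ?_
        rw [mul_pow]
        refine mul_le_mul_of_nonneg_left ?_ (pow_nonneg hexp _)
        exact pow_le_pow_of_le_one hz hz1 (hF J hJ).2.2.2
    _ = (∑ J ∈ F, Real.exp (-(2 * φ 1)) ^ (bd p J).card) * z ^ d := by rw [sum_mul]
    _ ≤ 1 * z ^ d := by
        refine mul_le_mul_of_nonneg_right key (pow_nonneg hz _)
    _ = z ^ d := one_mul _

theorem p_PXX (hC : S_CLE) (hP : S_PHI) (hN : S_NZZ) : S_PXX := by
  obtain ⟨φ, h1, h2, h3⟩ := hP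
  obtain ⟨z, hz0, hz1, hz⟩ := hN
  have hexp : 0 < Real.exp (-(2 * φ 1)) := Real.exp_pos _
  have hexp1 : Real.exp (-(2 * φ 1)) ≤ 1 := by
    rw [Real.exp_le_one_iff]
    have := h2 1
    linarith
  refine ⟨Real.exp (-(2 * φ 1)) * z, mul_pos hexp hz0, ?_, ?_⟩
  · calc Real.exp (-(2 * φ 1)) * z ≤ 1 * 1 := by gcongr
      _ = 1 := one_mul _
  intro V E _ _ p hI I hIn a
  set G := univ.filter (fun J : Finset V => Good p I a J) with hG
  have hGg : ∀ J ∈ G, Good p I a J := fun J hJ => (mem_filter.1 hJ).2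
  have hJn : ∀ J ∈ G, J.Nonempty := fun J hJ => ⟨a, (hGg J hJ).1⟩
  have hJu : ∀ J ∈ G, J ≠ univ := by
    rintro J hJ rfl
    have h4 := (hGg univ hJ).2.1
    rw [Finset.disjoint_left] at h4
    obtain ⟨i, hi⟩ := hIn
    exact h4 (mem_univ i) hi
  set N := Fintype.card V + 1 with hN
  set d : ℕ → ℕ := fun j => max 2 ⌈psi (2 ^ j)⌉₊ with hd
  have hsplit := sum_filter_add_sum_filter_not G (fun J : Finset V => 2 * J.card ≤ Fintype.card V)
    (fun J => (Real.exp (-(2 * φ 1)) * z) ^ (bd p J).card)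
  have hmaps : ∀ J ∈ G.filter (fun J : Finset V => 2 * J.card ≤ Fintype.card V),
      Nat.log 2 J.card ∈ range N := by
    intro J hJ
    rw [mem_range]
    have h4 := Nat.log_le_self 2 J.card
    have h5 := card_le_univ J
    omega
  have hfib := sum_fiberwise_of_maps_to hmaps
    (fun J => (Real.exp (-(2 * φ 1)) * z) ^ (bd p J).card)
  rw [← hsplit, ← hfib]
  have hs1 : ∑ j ∈ range N, ∑ J ∈ (G.filter (fun J : Finset V => 2 * J.card ≤ Fintype.card V)).filter
      (fun J => Nat.log 2 J.card = j), (Real.exp (-(2 * φ 1)) * z) ^ (bd p J).card ≤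
      ∑ j ∈ range N, z ^ d j := by
    refine sum_le_sum fun j _ => ?_
    set Fj := (G.filter (fun J : Finset V => 2 * J.card ≤ Fintype.card V)).filter
      (fun J => Nat.log 2 J.card = j) with hFj
    rcases Fj.eq_empty_or_nonempty with he | ⟨J0, hJ0⟩
    · rw [he, sum_empty]
      positivity
    · have hmem : ∀ J ∈ Fj, J ∈ G ∧ 2 * J.card ≤ Fintype.card V ∧ 2 ^ j ≤ J.card ∧
          J.card < 2 * 2 ^ j := by
        intro J hJ
        rw [hFj, mem_filter, mem_filter] at hJ
        obtain ⟨⟨hJ1, hJ2⟩, hJ3⟩ := hJ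
        have hJ0 : J.card ≠ 0 := (hJn J hJ1).card_pos.ne'
        refine ⟨hJ1, hJ2, ?_, ?_⟩
        · rw [← hJ3]
          exact Nat.pow_log_le_self 2 hJ0
        · rw [← hJ3]
          have := Nat.lt_pow_succ_log_self (b := 2) (by norm_num) J.card
          rw [pow_succ] at this
          linarith
      refine pxx_core hC p (2 ^ j) φ I a Fj z (d j) h1 h2 h3 ?_ hI ?_ hz0.le hz1
      · intro A _ hAs
        obtain ⟨-, h4, h5, -⟩ := hmem J0 hJ0
        omega
      · intro J hJ
        obtain ⟨hJ1, hJ2, hJ3, hJ4⟩ := hmem J hJ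
        refine ⟨hJ3, hJ4, hGg J hJ1, ?_⟩
        rw [hd]
        refine max_le (hI.1 J (hJn J hJ1) (hJu J hJ1)) ?_
        rw [Nat.ceil_le]
        exact (psi_mono hJ3).trans (hI.2.1 J (hJn J hJ1) hJ2)
  have hs2 : ∑ J ∈ G.filter (fun J : Finset V => ¬ 2 * J.card ≤ Fintype.card V),
      (Real.exp (-(2 * φ 1)) * z) ^ (bd p J).card ≤ z ^ 2 := by
    refine pxx_core hC p (Fintype.card V / 2 + 1) φ I a _ z 2 h1 h2 h3 ?_ hI ?_ hz0.le hz1
    · intro A _ hAs
      omega
    · intro J hJ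
      rw [mem_filter] at hJ
      obtain ⟨hJ1, hJ2⟩ := hJ
      have h5 := card_le_univ J
      refine ⟨by omega, by omega, hGg J hJ1, hI.1 J (hJn J hJ1) (hJu J hJ1)⟩
  have hs3 := hz N d (fun j _ => ⟨le_max_left _ _, by
    have h4 : psi (2 ^ j) ≤ (⌈psi (2 ^ j)⌉₊ : ℝ) := Nat.le_ceil _
    have h5 : ((⌈psi (2 ^ j)⌉₊ : ℕ) : ℝ) ≤ ((d j : ℕ) : ℝ) := by
      exact_mod_cast le_max_right _ _
    exact h4.trans h5⟩)
  linarith

end Pool.Agent.Lib.MP_4a8162_co.FB
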