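import Pool.Agent.Lib.MP_4a8162_co.FB.StmF

set_option autoImplicit false

/-! Piece `QUO`: the quotient graph. -/

namespace Pool.Agent.Lib.MP_4a8162_co.FB

open Finset
open scoped Classical

section quo

variable {V E : Type} [Fintype V] [Fintype E]

private theorem quo_cs {θ : Setoid V} [Fintype (Quotient θ)] {s : Setoid V}
    {s' : Setoid (Quotient θ)}
    (h : ∀ a b : V, s' (Quotient.mk'' a) (Quotient.mk'' b) ↔ s a b) : cs s' = cs s := by
  symm
  refine Nat.card_eq_of_bijective
    (Quotient.map' (fun a : V => (Quotient.mk'' a : Quotient θ)) (fun a b hab => (h a b).2 hab) :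
      Quotient s → Quotient s') ⟨?_, ?_⟩
  · intro x y hxy
    induction x using Quotient.inductionOn' with
    | h a =>
      induction y using Quotient.inductionOn' with
      | h b =>
        rw [Quotient.map'_mk'', Quotient.map'_mk''] at hxy
        exact Quotient.sound' ((h a b).1 (Quotient.exact' hxy))
  · intro x
    induction x using Quotient.inductionOn' with
    | h z =>
      induction z using Quotient.inductionOn' with
      | h a => exact ⟨Quotient.mk'' a, by rw [Quotient.map'_mk'']⟩

/-- the edges of the quotient graph -/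
private def quoP (p : E → V × V) (D : Finset E) (θ : Setoid V) :
    {e : E // e ∈ D} → Quotient θ × Quotient θ :=
  fun e => (Quotient.mk'' (p e.1).1, Quotient.mk'' (p e.1).2)

private theorem quo_gen (p : E → V × V) (D : Finset E) (θ : Setoid V) [Fintype (Quotient θ)]
    (B' : Finset {e : E // e ∈ D}) (B : Finset E)
    (hB : ∀ e : E, e ∈ B ↔ ∃ h : e ∈ D, (⟨e, h⟩ : {e : E // e ∈ D}) ∈ B') (a b : V) :
    gen (quoP p D θ) B' (Quotient.mk'' a) (Quotient.mk'' b) ↔ (gen p B ⊔ θ) a b := by
  have hθ : θ ≤ gen p B ⊔ θ := le_sup_right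
  constructor
  · intro h
    let t : Setoid (Quotient θ) :=
      { r := fun x y => ∃ a b : V, (Quotient.mk'' a : Quotient θ) = x ∧
          (Quotient.mk'' b : Quotient θ) = y ∧ (gen p B ⊔ θ) a b
        iseqv := by
          refine ⟨?_, ?_, ?_⟩
          · intro x
            induction x using Quotient.inductionOn' with
            | h a => exact ⟨a, a, rfl, rfl, (gen p B ⊔ θ).refl a⟩
          · rintro x y ⟨a, b, h1, h2, h3⟩
            exact ⟨b, a, h2, h1, (gen p B ⊔ θ).symm h3⟩
          · rintro x y z ⟨a, b, h1, h2, h3⟩ ⟨c, d, h4, h5, h6⟩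
            have h7 : θ b c := Quotient.exact' (h2.trans h4.symm)
            exact ⟨a, d, h1, h5, (gen p B ⊔ θ).trans h3 ((gen p B ⊔ θ).trans (hθ h7) h6)⟩ }
    have h1 : gen (quoP p D θ) B' ≤ t := by
      rw [gen_le_iff]
      rintro ⟨e, he⟩ heB
      refine ⟨(p e).1, (p e).2, rfl, rfl, ?_⟩
      exact (le_sup_left : gen p B ≤ gen p B ⊔ θ) (gen_rel ((hB e).2 ⟨he, heB⟩))
    obtain ⟨a', b', h2, h3, h4⟩ := h1 h
    exact (gen p B ⊔ θ).trans (hθ (Quotient.exact' h2.symm))
      ((gen p B ⊔ θ).trans h4 (hθ (Quotient.exact' h3)))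
  · intro h
    have h1 : gen p B ⊔ θ ≤ Setoid.comap (fun a : V => (Quotient.mk'' a : Quotient θ))
        (gen (quoP p D θ) B') := by
      apply sup_le
      · rw [gen_le_iff]
        intro e he
        obtain ⟨hD, he'⟩ := (hB e).1 he
        exact gen_rel (p := quoP p D θ) he'
      · intro c d hcd
        have h2 : (Quotient.mk'' c : Quotient θ) = Quotient.mk'' d := Quotient.sound' hcd
        show gen (quoP p D θ) B' (Quotient.mk'' c) (Quotient.mk'' d)
        rw [h2]
    exact h1 h

end quo

theorem p_QUO : S_QUO := by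
  intro V E _ _ p D θ
  let _ : Fintype (Quotient θ) := Fintype.ofFinite _
  have hfull : ∀ e : E, e ∈ D ↔ ∃ h : e ∈ D,
      (⟨e, h⟩ : {e : E // e ∈ D}) ∈ (univ : Finset {e : E // e ∈ D}) :=
    fun e => ⟨fun h => ⟨h, mem_univ _⟩, fun ⟨h, _⟩ => h⟩
  have hgen : ∀ (B' : Finset {e : E // e ∈ D}) (B : Finset E),
      (∀ e : E, e ∈ B ↔ ∃ h : e ∈ D, (⟨e, h⟩ : {e : E // e ∈ D}) ∈ B') →
      cs (gen (quoP p D θ) B' ⊔ ⊥) = cs (gen p B ⊔ θ) := by
    intro B' B hB
    rw [sup_bot_eq]
    exact quo_cs (quo_gen p D θ B' B hB)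
  have hbot : cs (⊥ : Setoid (Quotient θ)) = cs θ := by
    refine quo_cs fun a b => ?_
    rw [Setoid.bot_def]
    exact ⟨fun h => Quotient.exact' h, fun h => Quotient.sound' h⟩
  have hcard : (univ : Finset {e : E // e ∈ D}).card = D.card := by
    rw [Finset.card_univ, Fintype.card_coe]
  refine ⟨Quotient θ, {e : E // e ∈ D}, inferInstance, inferInstance, quoP p D θ, ?_, ?_, ?_, ?_⟩
  · unfold cs
    rw [Nat.card_eq_fintype_card]
  · intro x
    unfold PolD
    symm
    refine Finset.sum_nbij (fun B' => B'.map (Function.Embedding.subtype _)) ?_ ?_ ?_ ?_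
    · intro B' _
      rw [mem_powerset]
      intro e he
      obtain ⟨e', -, rfl⟩ := mem_map.1 he
      exact e'.2
    · intro B' _ B'' _ h
      exact Finset.map_injective _ h
    · intro B hB
      rw [mem_coe, mem_powerset] at hB
      refine ⟨B.subtype (fun e => e ∈ D), ?_, ?_⟩
      · rw [mem_coe, mem_powerset]
        exact subset_univ _
      · exact Finset.subtype_map_of_mem hB
    · intro B' _
      have h1 : B'.map (Function.Embedding.subtype (fun e => e ∈ D)) ⊆ D := by
        intro e he
        obtain ⟨e', -, rfl⟩ := mem_map.1 he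
        exact e'.2
      have h2 : (@sdiff _ (@Finset.instSDiff _ (fun a b => Classical.propDecidable (a = b)))
          univ B').card = (D \ B'.map (Function.Embedding.subtype (fun e => e ∈ D))).card := by
        rw [card_sdiff_of_subset h1, @card_sdiff_of_subset _ _ _
          (fun a b => Classical.propDecidable (a = b)) (subset_univ _), card_map, hcard]
      have h3 := hgen B' (B'.map (Function.Embedding.subtype (fun e => e ∈ D))) (by
        intro e
        rw [mem_map]
        constructor
        · rintro ⟨e', he', rfl⟩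
          exact ⟨e'.2, he'⟩
        · rintro ⟨h, he'⟩
          exact ⟨⟨e, h⟩, he', rfl⟩)
      rw [h2, h3, card_map]
  · intro r
    unfold NlLt
    rw [hcard, hgen univ D hfull, hbot]
  · unfold Brl
    constructor
    · rintro h ⟨e, he⟩ -
      rw [sup_bot_eq]
      refine (quo_gen p D θ _ (D.erase e) ?_ _ _).2 (h e he)
      intro f
      rw [mem_erase]
      constructor
      · rintro ⟨h1, h2⟩
        refine ⟨h2, ?_⟩
        exact (@mem_erase _ (fun a b => Classical.propDecidable (a = b)) _ _ _).2
          ⟨fun h3 => h1 (congrArg Subtype.val h3), mem_univ _⟩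
      · rintro ⟨h2, h3⟩
        have h5 := (@mem_erase _ (fun a b => Classical.propDecidable (a = b)) _ _ _).1 h3
        exact ⟨fun h4 => h5.1 (Subtype.ext h4), h2⟩
    · intro h e he
      have h1 := h ⟨e, he⟩ (mem_univ _)
      rw [sup_bot_eq] at h1
      refine (quo_gen p D θ _ (D.erase e) ?_ _ _).1 h1
      intro f
      rw [mem_erase]
      constructor
      · rintro ⟨h1, h2⟩
        refine ⟨h2, ?_⟩
        exact (@mem_erase _ (fun a b => Classical.propDecidable (a = b)) _ _ _).2
          ⟨fun h3 => h1 (congrArg Subtype.val h3), mem_univ _⟩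
      · rintro ⟨h2, h3⟩
        have h5 := (@mem_erase _ (fun a b => Classical.propDecidable (a = b)) _ _ _).1 h3
        exact ⟨fun h4 => h5.1 (Subtype.ext h4), h2⟩

end Pool.Agent.Lib.MP_4a8162_co.FB
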