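import Pool.Agent.Lib.MP_4a8162_co.FB.StmC

set_option autoImplicit false

/-!
# Piece QUU
-/

namespace Pool.Agent.Lib.MP_4a8162_co.FB

open Finset
open scoped Classical

theorem p_QUU : S_QUU := by
  intro V E _ _ p x D θ g hC
  have h1 : gen p D ⊔ θ = θ := by
    apply le_antisymm _ le_sup_right
    intro a b hab
    exact hC.hub a (mem_univ a) b (mem_univ b) hab
  refine ⟨h1, ?_⟩
  have h2 : ∀ B ∈ D.powerset, (-(1 / x)) ^ B.card * x ^ cs (gen p (D \ B) ⊔ θ) *
      g (gen p (D \ B) ⊔ θ) = ((-(1 / x)) ^ B.card * 1 ^ (D.card - B.card)) * (x ^ cs θ * g θ) := by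
    intro B _
    have h3 : gen p (D \ B) ⊔ θ = θ := by
      apply sup_eq_right.2
      calc gen p (D \ B) ≤ gen p D := gen_mono sdiff_subset
        _ ≤ gen p D ⊔ θ := le_sup_left
        _ = θ := h1
    rw [h3, one_pow, mul_one, mul_assoc]
  unfold q
  rw [Finset.sum_congr rfl h2, ← Finset.sum_mul, Finset.sum_pow_mul_eq_add_pow]
  have h4 : -(1 / x) + 1 = 1 - 1 / x := by ring
  rw [h4, mul_assoc]

end Pool.Agent.Lib.MP_4a8162_co.FB
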