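import Pool.Agent.Lib.MP_4a8162_co.FB.StmC

/-!
# MP_4a8162_co, FB, piece RCH: steps between the flat and the components
-/

set_option autoImplicit false

namespace Pool.Agent.Lib.MP_4a8162_co.FB

open Finset
open scoped Classical

private theorem rch_meet {V E : Type} [Fintype V] [Fintype E] {p : E → V × V} {D : Finset E}
    {θ : Setoid V} {v h : V} {ρ : Setoid V} (hθ : θ ≤ ρ) {c d : V}
    (hcd : (gen p D ⊔ θ) c d) (hn : ¬ ρ c d) : ∃ a ∈ Rv p D v h ρ, ρ c a := by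
  by_contra hc
  push Not at hc
  let t : Setoid V :=
    { r := fun x y => ρ c x ↔ ρ c y
      iseqv := ⟨fun _ => Iff.rfl, fun h => h.symm, fun h1 h2 => h1.trans h2⟩ }
  have h1 : gen p D ⊔ θ ≤ t := by
    refine sup_le (gen_le_iff.2 fun e he => ?_) fun x y hxy => ?_
    · show ρ c (p e).1 ↔ ρ c (p e).2
      by_cases h2 : ρ (p e).1 (p e).2
      · exact ⟨fun h3 => ρ.trans h3 h2, fun h3 => ρ.trans h3 (ρ.symm h2)⟩
      · have h3 : e ∈ cutE p D ρ := mem_cutE.2 ⟨he, h2⟩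
        have h4 := hc (p e).1 (Or.inr (Or.inr ⟨e, h3, Or.inl rfl⟩))
        have h5 := hc (p e).2 (Or.inr (Or.inr ⟨e, h3, Or.inr rfl⟩))
        exact ⟨fun h => absurd h h4, fun h => absurd h h5⟩
    · show ρ c x ↔ ρ c y
      exact ⟨fun h3 => ρ.trans h3 (hθ hxy), fun h3 => ρ.trans h3 (ρ.symm (hθ hxy))⟩
  have h2 : ρ c c ↔ ρ c d := h1 hcd
  exact hn (h2.1 (ρ.refl c))

theorem p_RCH : S_RCH := by
  intro V E _ _ p D θ v h ρ hρ σ τ hρσ hστ hτ hne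
  have hθ : θ ≤ ρ := (mem_FL.1 hρ).1.le
  have h1 : ∃ a' b', τ a' b' ∧ ¬ σ a' b' := by
    by_contra hc
    push Not at hc
    exact hne (le_antisymm hστ fun a b hab => hc a b hab)
  obtain ⟨a', b', h2, h3⟩ := h1
  have h4 : ¬ ρ a' b' := fun h => h3 (hρσ h)
  obtain ⟨a, ha, h5⟩ := rch_meet (v := v) (h := h) hθ (hτ h2) h4
  obtain ⟨b, hb, h6⟩ := rch_meet (v := v) (h := h) hθ ((gen p D ⊔ θ).symm (hτ h2))
    (fun h => h4 (ρ.symm h))
  refine ⟨a, ha, b, hb, ?_, fun h7 => h3 ?_⟩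
  · exact τ.trans (τ.symm (hστ (hρσ h5))) (τ.trans h2 (hστ (hρσ h6)))
  · exact σ.trans (hρσ h5) (σ.trans h7 (σ.symm (hρσ h6)))

end Pool.Agent.Lib.MP_4a8162_co.FB
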