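import Pool.Agent.Lib.MP_4a8162_co.FB.StmF

/-!
# MP_4a8162_co, FB, piece RED: reductions
-/

set_option autoImplicit false

namespace Pool.Agent.Lib.MP_4a8162_co.FB

open Finset
open scoped Classical

section

variable {V E : Type} [Fintype V] [Fintype E]

private theorem red_cs_bot : cs (⊥ : Setoid V) = Fintype.card V := by
  have h : Function.Bijective (Quotient.mk'' : V → Quotient (⊥ : Setoid V)) := by
    refine ⟨fun a b hab => ?_, fun q => ?_⟩
    · exact Quotient.exact' hab
    · induction q using Quotient.inductionOn' with
      | h a => exact ⟨a, rfl⟩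
  unfold cs
  rw [← Nat.card_eq_of_bijective _ h, Nat.card_eq_fintype_card]

/-- a connected set of vertices with `v` and another one has an edge at `v` -/
private theorem red_edge {p : E → V × V} {A : Finset E} {v w : V} (h : gen p A v w)
    (hw : w ≠ v) : ∃ e ∈ A, e ∈ bd p {v} := by
  by_contra hc
  push Not at hc
  let t : Setoid V :=
    { r := fun x y => x = v ↔ y = v
      iseqv := ⟨fun _ => Iff.rfl, fun h => h.symm, fun h1 h2 => h1.trans h2⟩ }
  have h1 : gen p A ≤ t := by
    refine gen_le_iff.2 fun e he => ?_
    show (p e).1 = v ↔ (p e).2 = v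
    by_contra h2
    refine hc e he (mem_bd.2 ?_)
    rw [mem_singleton, mem_singleton]
    exact h2
  have h2 : v = v ↔ w = v := h1 h
  exact hw (h2.1 rfl)

/-- an edge at `v` which is not a bridge gives another edge at `v` -/
private theorem red_edge2 {p : E → V × V} {A : Finset E} {v : V} {e : E}
    (h : gen p A (p e).1 (p e).2) (he : e ∈ bd p {v}) : ∃ f ∈ A, f ∈ bd p {v} := by
  rw [mem_bd, mem_singleton, mem_singleton] at he
  by_cases h1 : (p e).1 = v
  · have h2 : (p e).2 ≠ v := fun h2 => he ⟨fun _ => h2, fun _ => h1⟩
    rw [h1] at h
    exact red_edge h h2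
  · have h2 : (p e).2 = v := by
      by_contra h2
      exact he ⟨fun h3 => absurd h3 h1, fun h3 => absurd h3 h2⟩
    rw [h2] at h
    exact red_edge ((gen p A).symm h) h1

private theorem red_empty (p : E → V × V) (x : ℝ) (hx : 1 < x) (h : IsEmpty E) :
    0 < PolD p x univ ⊥ := by
  unfold PolD
  have h1 : (univ : Finset E) = ∅ := Finset.univ_eq_empty
  rw [h1, Finset.powerset_empty, Finset.sum_singleton]
  have : 0 < x := by linarith
  simp only [Finset.sdiff_self, Finset.card_empty, pow_zero, one_mul]
  positivity

private theorem red_disc {p : E → V × V} {x : ℝ} {u w : V} (h : ¬ gen p univ u w) :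
    PolD p x univ ⊥ = x * PolD p x univ (jn u w) := by
  unfold PolD
  rw [Finset.mul_sum]
  refine Finset.sum_congr rfl fun B _ => ?_
  have h1 : ¬ gen p B u w := fun h1 => h (gen_mono (subset_univ B) h1)
  have h2 := cs_jn h1
  rw [sup_bot_eq, ← h2, pow_succ]
  ring

end

theorem p_RED : S_CIR → S_PDI → S_BRZ → S_RED := by
  intro hCIR hPDI hBRZ x r n hx hPW hyp V E _ _ p hn hN hB
  have hx0 : 0 < x := by linarith
  by_cases hE : IsEmpty E
  · exact Or.inl (red_empty p x hx hE)
  rw [not_isEmpty_iff] at hE
  obtain ⟨e₀⟩ := hE
  by_cases hconn : ∀ u w, gen p univ u w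
  · by_cases hA : ∀ A : Finset E, (A.card : ℝ) < x → cs (gen p A) + A.card = Fintype.card V
    · -- no short circuit
      have hloop : ∀ e : E, (p e).1 ≠ (p e).2 := by
        intro e he
        have h1 := hA {e} (by rw [Finset.card_singleton]; exact_mod_cast hx)
        rw [Finset.card_singleton, ← red_cs_bot] at h1
        have h2 : gen p {e} = ⊥ := by
          apply le_antisymm _ bot_le
          rw [gen_le_iff]
          intro f hf
          rw [mem_singleton] at hf
          rw [hf, he]
        rw [h2] at h1
        omega
      by_cases h3 : ∀ v, 3 ≤ (bd p {v}).card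
      · refine Or.inr ⟨⟨(p e₀).1⟩, ?_, h3, hA⟩
        apply le_antisymm le_top
        intro a b _
        exact hconn a b
      · left
        push Not at h3
        obtain ⟨v, hv⟩ := h3
        -- an edge at `v`
        have h4 : ∃ w, w ≠ v := by
          by_cases h5 : (p e₀).1 = v
          · exact ⟨(p e₀).2, fun h6 => hloop e₀ (h5.trans h6.symm)⟩
          · exact ⟨(p e₀).1, h5⟩
        obtain ⟨w, hw⟩ := h4
        obtain ⟨e, -, he⟩ := red_edge (hconn v w) hw
        have h5 : gen p (univ.erase e) (p e).1 (p e).2 := by
          have := hB e (mem_univ e)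
          rwa [sup_bot_eq] at this
        obtain ⟨f, hf1, hf⟩ := red_edge2 h5 he
        have hfe : f ≠ e := (Finset.mem_erase.1 hf1).1
        -- there is no other edge
        have h6 : ∀ g ∈ bd p {v}, g = e ∨ g = f := by
          intro g hg
          by_contra hc
          push Not at hc
          have h7 : ({e, f, g} : Finset E) ⊆ bd p {v} := by
            intro a ha
            rw [mem_insert, mem_insert, mem_singleton] at ha
            rcases ha with rfl | rfl | rfl
            · exact he
            · exact hf
            · exact hg
          have h8 := Finset.card_le_card h7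
          rw [Finset.card_eq_three.2 ⟨e, f, g, hfe.symm, hc.1.symm, hc.2.symm, rfl⟩] at h8
          omega
        have h7 : insert e (univ.erase e) = (univ : Finset E) := Finset.insert_erase (mem_univ e)
        have h8 := hPDI V E p x (univ.erase e) ⊥ e (Finset.notMem_erase e univ)
        rw [h7] at h8
        -- the last term is zero
        have h9 : PolD p x (univ.erase e) ⊥ = 0 := by
          refine hBRZ V E p x (univ.erase e) ⊥ f hf1 fun h10 => ?_
          rw [sup_bot_eq] at h10
          obtain ⟨g, hg1, hg⟩ := red_edge2 h10 hf
          rw [Finset.mem_erase, Finset.mem_erase] at hg1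
          rcases h6 g hg with h11 | h11
          · exact hg1.2.1 h11
          · exact hg1.1 h11
        rw [h8, h9, sub_zero]
        -- the first one is positive
        have hbe : ¬ (⊥ : Setoid V) (p e).1 (p e).2 := fun h => hloop e h
        have h10 := cs_jn hbe
        have h11 : gen p univ = gen p (univ.erase e) ⊔ jn (p e).1 (p e).2 := by
          rw [← gen_insert, h7]
        refine mul_pos hx0 (hyp V E p (univ.erase e) (⊥ ⊔ jn (p e).1 (p e).2) ?_ ?_ ?_)
        · unfold NlLt at hN ⊢
          rw [sup_bot_eq, h11] at hN
          rw [← sup_assoc, sup_bot_eq]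
          have h12 : ((univ : Finset E).erase e).card + 1 = (univ : Finset E).card :=
            Finset.card_erase_add_one (mem_univ e)
          omega
        · rw [red_cs_bot] at h10
          omega
        · intro g hg
          have h12 := hB g (mem_univ g)
          rw [sup_bot_eq] at h12
          have h13 : univ.erase g = insert e ((univ.erase e).erase g) := by
            have hge : e ≠ g := fun h => (Finset.mem_erase.1 hg).1 h.symm
            ext a
            simp only [mem_erase, mem_insert, mem_univ, and_true]
            constructor
            · intro ha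
              by_cases hae : a = e
              · exact Or.inl hae
              · exact Or.inr ⟨ha, hae⟩
            · rintro (rfl | ⟨ha, -⟩)
              · exact hge
              · exact ha
          rw [h13, gen_insert] at h12
          rw [← sup_assoc, sup_bot_eq]
          exact h12
    · push Not at hA
      obtain ⟨A, hA1, hA2⟩ := hA
      exact Or.inl (hCIR x r hx hPW V E p hN hB A hA1 hA2)
  · -- two components
    push Not at hconn
    obtain ⟨u, w, huw⟩ := hconn
    left
    rw [red_disc huw]
    have huw' : u ≠ w := by
      rintro rfl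
      exact huw ((gen p univ).refl _)
    have h1 : ¬ (⊥ : Setoid V) u w := huw'
    have h2 := cs_jn h1
    rw [bot_sup_eq] at h2
    have h3 := cs_jn huw
    refine mul_pos hx0 (hyp V E p univ (jn u w) ?_ ?_ ?_)
    · unfold NlLt at hN ⊢
      rw [sup_bot_eq] at hN
      omega
    · rw [red_cs_bot] at h2
      omega
    · intro e he
      have h4 := hB e he
      rw [sup_bot_eq] at h4
      exact (le_sup_left : gen p (univ.erase e) ≤ _) h4

end Pool.Agent.Lib.MP_4a8162_co.FB
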