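import Pool.Agent.Lib.MP_4a8162_co.FB.StmF

set_option autoImplicit false

/-!
# MP_4a8162_co, REAL FLOW ROOTS ARE BOUNDED: the boundaries in an induced graph (`S_SBM`)
-/

namespace Pool.Agent.Lib.MP_4a8162_co.FB

open Finset
open scoped Classical

private theorem SBM_mem {V : Type} (S : Finset V) (P : Finset {a : V // a ∈ S}) (a : V)
    (ha : a ∈ S) : a ∈ P.map (Function.Embedding.subtype _) ↔ (⟨a, ha⟩ : {a : V // a ∈ S}) ∈ P := by
  rw [Finset.mem_map]
  constructor
  · rintro ⟨b, hb, h⟩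
    have h' : b.1 = a := h
    subst h'
    exact hb
  · intro h
    exact ⟨_, h, rfl⟩

private theorem SBM_sub {V : Type} (S : Finset V) (P : Finset {a : V // a ∈ S}) (a : V)
    (h : a ∈ P.map (Function.Embedding.subtype _)) : a ∈ S := by
  rw [Finset.mem_map] at h
  obtain ⟨b, -, h⟩ := h
  have h' : b.1 = a := h
  exact h' ▸ b.2

private theorem SBM_bd {V E : Type} [Fintype V] [Fintype E] (p : E → V × V) (P : Finset V)
    (e : E) : e ∈ bd p P ↔ ¬ ((p e).1 ∈ P ↔ (p e).2 ∈ P) := by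
  unfold bd
  rw [Finset.mem_filter]
  exact ⟨fun h => h.2, fun h => ⟨Finset.mem_univ _, h⟩⟩

/-- **[SBM]** the boundaries in an induced graph -/
theorem p_SBM : S_SBM := by
  intro V E _ _ p S P
  set Q : Finset V := P.map (Function.Embedding.subtype _) with hQ
  have hsub : ∀ a, a ∈ Q → a ∈ S := fun a h => SBM_sub S P a h
  have h1 : (bd (pS p S) P).card = (univ.filter fun e : E =>
      ((p e).1 ∈ S ∧ (p e).2 ∈ S) ∧ ¬ ((p e).1 ∈ Q ↔ (p e).2 ∈ Q)).card := by
    refine Finset.card_bij (fun e _ => e.1) ?_ ?_ ?_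
    · intro e he
      have he' := (SBM_bd (pS p S) P e).1 he
      refine Finset.mem_filter.2 ⟨Finset.mem_univ _, e.2, ?_⟩
      rw [SBM_mem S P _ e.2.1, SBM_mem S P _ e.2.2]
      exact he'
    · intro e _ f _ h
      exact Subtype.ext h
    · intro e he
      obtain ⟨-, he1, he2⟩ := Finset.mem_filter.1 he
      refine ⟨⟨e, he1⟩, ?_, rfl⟩
      refine (SBM_bd (pS p S) P ⟨e, he1⟩).2 ?_
      rw [SBM_mem S P _ he1.1, SBM_mem S P _ he1.2] at he2
      exact he2
  rw [h1]
  unfold bd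
  simp only [Finset.card_filter]
  rw [Finset.mul_sum, ← Finset.sum_add_distrib, ← Finset.sum_add_distrib]
  refine Finset.sum_congr rfl fun e _ => ?_
  simp only [Finset.mem_sdiff]
  have g1 := hsub (p e).1
  have g2 := hsub (p e).2
  by_cases a1 : (p e).1 ∈ Q <;> by_cases a2 : (p e).2 ∈ Q <;>
    by_cases b1 : (p e).1 ∈ S <;> by_cases b2 : (p e).2 ∈ S <;>
    simp_all

end Pool.Agent.Lib.MP_4a8162_co.FB
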