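import Pool.Agent.Lib.MP_4a8162_co.FB.StmC

set_option autoImplicit false

/-!
# MP_4a8162_co, FB, piece STP: the step for the quotient estimate
-/

namespace Pool.Agent.Lib.MP_4a8162_co.FB

open Finset
open scoped Classical

/-- the numerical estimate for one term -/
private theorem STP_num (x y W : ℝ) (hy : 0 < y) (hW : W = (256 / y) ^ 14) (hx : 8 * W ≤ x)
    (hy1 : y ≤ 1) (b m : ℕ) (h1 : m + 1 ≤ b) (h2 : 14 * m ≤ 13 * b) :
    (1 / x) ^ b * (64 ^ b * (x ^ m * 4 ^ b)) ≤ y ^ b * (W / x) := by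
  have hc : 1 ≤ 256 / y := by
    rw [le_div_iff₀ hy]
    linarith
  have hW1 : 1 ≤ W := by
    rw [hW]
    exact one_le_pow₀ hc
  have hx0 : 0 < x := by linarith
  obtain ⟨k, rfl⟩ := Nat.exists_eq_add_of_le h1
  have hk : m + 1 + k = m + (k + 1) := by ring
  have e1 : (1 / x) ^ (m + 1 + k) * x ^ m = (1 / x) ^ (k + 1) := by
    rw [hk, pow_add, mul_comm ((1 / x) ^ m), mul_assoc, ← mul_pow, one_div,
      inv_mul_cancel₀ hx0.ne', one_pow, mul_one]
  have e2 : (64 : ℝ) ^ (m + 1 + k) * 4 ^ (m + 1 + k) =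
      y ^ (m + 1 + k) * (256 / y) ^ (m + 1 + k) := by
    rw [← mul_pow, ← mul_pow]
    congr 1
    field_simp
    norm_num
  have e3 : (256 / y) ^ (m + 1 + k) ≤ W ^ (k + 1) := by
    rw [hW, ← pow_mul]
    exact pow_le_pow_right₀ hc (by omega)
  have hWx : W / x ≤ 1 := by
    rw [div_le_one hx0]
    linarith
  have hWx0 : 0 ≤ W / x := by positivity
  calc (1 / x) ^ (m + 1 + k) * (64 ^ (m + 1 + k) * (x ^ m * 4 ^ (m + 1 + k)))
      = ((1 / x) ^ (m + 1 + k) * x ^ m) * ((64 : ℝ) ^ (m + 1 + k) * 4 ^ (m + 1 + k)) := by ring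
    _ = (1 / x) ^ (k + 1) * (y ^ (m + 1 + k) * (256 / y) ^ (m + 1 + k)) := by rw [e1, e2]
    _ ≤ (1 / x) ^ (k + 1) * (y ^ (m + 1 + k) * W ^ (k + 1)) := by
        have : 0 ≤ (1 / x) ^ (k + 1) := by positivity
        have : 0 ≤ y ^ (m + 1 + k) := by positivity
        gcongr
    _ = y ^ (m + 1 + k) * (W / x) ^ (k + 1) := by
        rw [div_pow, div_pow, one_pow]
        ring
    _ ≤ y ^ (m + 1 + k) * (W / x) := by
        have h5 : (W / x) ^ (k + 1) ≤ W / x := by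
          calc (W / x) ^ (k + 1) = (W / x) ^ k * (W / x) := pow_succ _ _
            _ ≤ 1 * (W / x) := mul_le_mul_of_nonneg_right (pow_le_one₀ hWx0 hWx) hWx0
            _ = W / x := one_mul _
        exact mul_le_mul_of_nonneg_left h5 (by positivity)

theorem p_STP : S_AEX → S_STR → S_BND → S_EXN → S_DEL → S_EXP → S_GJN → S_CFO → S_CMP → S_GRW →
    S_STP := by
  intro hAEX hSTR hBND hEXN hDEL hEXP hGJN hCFO hCMP hGRW y hy hy1 hCNT V E _ _ p x D U θ v h f l
    hx hIso hCfg hvU hhU hfull hl hF hPos hRat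
  set W : ℝ := (256 / y) ^ 14 with hW
  have hc : 1 ≤ 256 / y := by
    rw [le_div_iff₀ hy]
    linarith
  have hW1 : 1 ≤ W := by
    rw [hW]
    exact one_le_pow₀ hc
  have hx8 : 8 ≤ x := by linarith
  have hx0 : 0 < x := by linarith
  have hε : 2 * W / x ≤ 1 / 4 := by
    rw [div_le_iff₀ hx0]
    linarith
  have hε0 : 0 ≤ 2 * W / x := by positivity
  obtain ⟨A, hA⟩ := hAEX V E p x D θ v h hx0
  obtain ⟨hCfg', hfull'⟩ := hCFO V E p D U θ v h hCfg hvU hhU hfull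
  set Q' : ℝ := q p x D (θ ⊔ jn v h) (fe l f) with hQ'
  have hQ0 : 0 ≤ Q' := by
    refine (hPos D (insert v U) (θ ⊔ jn v h) l hCfg' ?_ ?_ ?_).1
    · apply Finset.card_lt_card
      rw [Finset.ssubset_iff_of_subset]
      · exact ⟨v, by simpa using hvU, by simp⟩
      · intro a ha
        rw [Finset.mem_compl] at ha ⊢
        exact fun hc => ha (Finset.mem_insert_of_mem hc)
    · exact fun e he => ⟨Finset.mem_insert_of_mem (hl e he).1, Finset.mem_insert_of_mem (hl e he).2⟩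
    · rw [hfull']
      exact hF
  -- the main estimate
  have key : ∀ g' : Setoid V → ℝ, (∀ ρ ∈ FL p D θ v h, A ρ ≠ 0 → |A ρ (Gs p x D θ v h ρ g')| ≤
      64 ^ (cutE p D ρ).card * Gs p x D θ v h ρ (fe l f) (gen p D ⊔ θ)) →
      |EE p x D θ v h g'| ≤ W / x * Q' := by
    intro g' hg'
    rw [hEXP V E p x D θ v h A hx0 hA g']
    have h1 : ∑ ρ ∈ FL p D θ v h, (-(1 / x)) ^ (cutE p D ρ).card * A ρ (Gs p x D θ v h ρ g') =
        ∑ ρ ∈ (FL p D θ v h).filter (fun ρ => A ρ ≠ 0),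
          (-(1 / x)) ^ (cutE p D ρ).card * A ρ (Gs p x D θ v h ρ g') := by
      symm
      apply Finset.sum_filter_of_ne
      intro ρ _ hne hc
      apply hne
      rw [hc, LinearMap.zero_apply, mul_zero]
    rw [h1]
    refine (Finset.abs_sum_le_sum_abs _ _).trans ?_
    have h2 : ∀ ρ ∈ (FL p D θ v h).filter (fun ρ => A ρ ≠ 0),
        |(-(1 / x)) ^ (cutE p D ρ).card * A ρ (Gs p x D θ v h ρ g')| ≤
          y ^ (cutE p D ρ).card * (W / x * Q') := by
      intro ρ hρ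
      rw [Finset.mem_filter] at hρ
      obtain ⟨hWh, -⟩ := hSTR V E p x D θ v h A hx0 hA hfull ρ hρ.1 hρ.2
      have h3 := hg' ρ hρ.1 hρ.2
      have h4 := hGRW V E p x D U θ v h f l (2 * W / x) (by linarith) hε0 hε hCfg hvU hhU hfull hl
        hF hPos hRat ρ hρ.1 hWh
      obtain ⟨h5, h6⟩ := hEXN V E p D U θ v h hIso hCfg hvU hhU hfull ρ hρ.1 hWh
      have h7 : cs (gen p D ⊔ θ) ≤ cs ρ := cs_anti ((mem_FL.1 hρ.1).1.le_full)
      have h8 := STP_num x y W hy hW hx hy1 (cutE p D ρ).card (cs ρ - cs (gen p D ⊔ θ))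
        (by omega) (by omega)
      rw [abs_mul, abs_pow, abs_neg, abs_of_nonneg (by positivity : (0 : ℝ) ≤ 1 / x)]
      calc (1 / x) ^ (cutE p D ρ).card * |A ρ (Gs p x D θ v h ρ g')|
          ≤ (1 / x) ^ (cutE p D ρ).card * (64 ^ (cutE p D ρ).card *
            (x ^ (cs ρ - cs (gen p D ⊔ θ)) * 4 ^ (cutE p D ρ).card * Q')) := by
            apply mul_le_mul_of_nonneg_left _ (by positivity)
            exact h3.trans (mul_le_mul_of_nonneg_left h4 (by positivity))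
        _ = (1 / x) ^ (cutE p D ρ).card * (64 ^ (cutE p D ρ).card *
            (x ^ (cs ρ - cs (gen p D ⊔ θ)) * 4 ^ (cutE p D ρ).card)) * Q' := by ring
        _ ≤ y ^ (cutE p D ρ).card * (W / x) * Q' := mul_le_mul_of_nonneg_right h8 hQ0
        _ = y ^ (cutE p D ρ).card * (W / x * Q') := by ring
    refine (Finset.sum_le_sum h2).trans ?_
    rw [← Finset.sum_mul]
    have h9 := hCNT V E p x D U θ v h A hx0 hIso hCfg hvU hhU hfull hA
    calc _ ≤ 1 * (W / x * Q') := mul_le_mul_of_nonneg_right h9 (by positivity)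
      _ = W / x * Q' := one_mul _
  have hx1 : 1 ≤ x := by linarith
  have k1 : |EE p x D θ v h (fe l f)| ≤ W / x * Q' := by
    apply key
    intro ρ hρ hAρ
    obtain ⟨hWh, -⟩ := hSTR V E p x D θ v h A hx0 hA hfull ρ hρ hAρ
    refine hBND V E p x D θ v h A hx1 hA hfull ρ hρ hWh _ _ fun σ hσ hσ' => ?_
    obtain ⟨h1, h2⟩ := hCMP V E p x D U θ v h f l (by linarith) hCfg hvU hhU hfull hl hF hPos ρ hρ
      hWh σ hσ hσ'
    rw [abs_of_nonneg h1]
    exact h2
  have k2 : |EE p x D θ v h (fun σ => fe l f (σ ⊔ jn v h))| ≤ W / x * Q' := by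
    apply key
    intro ρ hρ hAρ
    obtain ⟨hWh, -⟩ := hSTR V E p x D θ v h A hx0 hA hfull ρ hρ hAρ
    refine hBND V E p x D θ v h A hx1 hA hfull ρ hρ hWh _ _ fun σ hσ hσ' => ?_
    rw [hGJN V E p x D θ v h ρ σ (fe l f)]
    obtain ⟨h1, h2⟩ := hCMP V E p x D U θ v h f l (by linarith) hCfg hvU hhU hfull hl hF hPos ρ hρ
      hWh (σ ⊔ jn v h) (hσ.trans le_sup_left) (sup_le hσ' (jn_le_iff.2 hfull))
    rw [abs_of_nonneg h1]
    exact h2
  rw [hDEL V E p x D θ v h (fe l f) hx0]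
  have h1 : |EE p x D θ v h (fe l f) - 1 / x * EE p x D θ v h (fun σ => fe l f (σ ⊔ jn v h))| ≤
      W / x * Q' + 1 / x * (W / x * Q') := by
    refine (abs_sub _ _).trans ?_
    rw [abs_mul, abs_of_nonneg (by positivity : (0 : ℝ) ≤ 1 / x)]
    exact add_le_add k1 (mul_le_mul_of_nonneg_left k2 (by positivity))
  refine h1.trans ?_
  have h2 : 1 / x ≤ 1 := by
    rw [div_le_one hx0]
    exact hx1
  have h3 : 0 ≤ W / x * Q' := by positivity
  calc W / x * Q' + 1 / x * (W / x * Q') ≤ W / x * Q' + 1 * (W / x * Q') := by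
        have := mul_le_mul_of_nonneg_right h2 h3
        linarith
    _ = 2 * W / x * Q' := by ring

end Pool.Agent.Lib.MP_4a8162_co.FB
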