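import Pool.Agent.Lib.MP_4a8162_co.FB.StmA

set_option autoImplicit false

/-!
# MP_4a8162_co, REAL FLOW ROOTS ARE BOUNDED, piece STR

Structure of the flats with nonvanishing functional.
-/

namespace Pool.Agent.Lib.MP_4a8162_co.FB

open Finset
open scoped Classical

section

variable {V E : Type} [Fintype V] [Fintype E]

private theorem mem_cls {π : Setoid V} {a b : V} : b ∈ cls π a ↔ π a b := by simp [cls]

/-- the component of `a` can be joined -/
private theorem fl_comp {p : E → V × V} {D : Finset E} {θ π : Setoid V} (hπ : Fl p D θ π) (a : V) :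
    Fl p D θ (π ⊔ wire {c | (gen p D ⊔ θ) a c} ⊤) := by
  have hπ' : π = gen p (Din p D π) ⊔ θ := hπ
  refine Fl.of_eq (A := Din p D π ∪ D.filter fun e => (gen p D ⊔ θ) a (p e).1)
    (union_subset (filter_subset _ _) (filter_subset _ _)) ?_
  set t : Setoid V :=
    gen p (Din p D π ∪ D.filter fun e => (gen p D ⊔ θ) a (p e).1) ⊔ θ with ht
  have hθ : θ ≤ t := le_sup_right
  have hπt : π ≤ t := by
    conv_lhs => rw [hπ']
    exact sup_le_sup_right (gen_mono subset_union_left) _
  apply le_antisymm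
  · refine sup_le hπt ?_
    rw [wire_le_iff]
    let s : Setoid V :=
      { r := fun x y => (gen p D ⊔ θ) x y ∧ ((gen p D ⊔ θ) a x → t x y)
        iseqv := by
          refine ⟨fun x => ⟨(gen p D ⊔ θ).refl x, fun _ => t.refl x⟩, ?_, ?_⟩
          · rintro x y ⟨h1, h2⟩
            exact ⟨(gen p D ⊔ θ).symm h1, fun h3 =>
              t.symm (h2 ((gen p D ⊔ θ).trans h3 ((gen p D ⊔ θ).symm h1)))⟩
          · rintro x y z ⟨h1, h2⟩ ⟨h3, h4⟩
            exact ⟨(gen p D ⊔ θ).trans h1 h3, fun h5 =>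
              t.trans (h2 h5) (h4 ((gen p D ⊔ θ).trans h5 h1))⟩ }
    have hs : gen p D ⊔ θ ≤ s := by
      apply sup_le
      · rw [gen_le_iff]
        intro e he
        refine ⟨(le_sup_left : gen p D ≤ _) (gen_rel he), fun h1 => ?_⟩
        refine (le_sup_left : gen p _ ≤ t) (gen_rel (mem_union_right _ ?_))
        rw [mem_filter]
        exact ⟨he, h1⟩
      · intro x y hxy
        exact ⟨(le_sup_right : θ ≤ _) hxy, fun _ => hθ hxy⟩
    intro c hc d hd _
    have h1 : t a c := (hs hc).2 ((gen p D ⊔ θ).refl a)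
    have h2 : t a d := (hs hd).2 ((gen p D ⊔ θ).refl a)
    exact t.trans (t.symm h1) h2
  · refine sup_le ?_ (hπ.le.trans le_sup_left)
    rw [gen_le_iff]
    intro e he
    rcases mem_union.1 he with he | he
    · exact (le_sup_left : π ≤ _) (mem_Din.1 he).2
    · rw [mem_filter] at he
      refine (le_sup_right : wire {c | (gen p D ⊔ θ) a c} ⊤ ≤ _) (Or.inr ⟨he.2, ?_, trivial⟩)
      exact (gen p D ⊔ θ).trans he.2 ((le_sup_left : gen p D ≤ _) (gen_rel he.1))

/-- the union of a class and of a part which is only adjacent to it can be joined -/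
private theorem fl_dangle {p : E → V × V} {D : Finset E} {θ π : Setoid V} {v a : V} {Y : Finset V}
    (hπ : Fl p D θ π) (hY : Satd π Y) (hv : v ∉ Y) (hc : ∀ y ∈ Y, (gen p D ⊔ θ) y v)
    (he : ∀ e ∈ D, ((p e).1 ∈ Y → (p e).2 ∈ cls π a ∪ Y) ∧ ((p e).2 ∈ Y → (p e).1 ∈ cls π a ∪ Y)) :
    Fl p D θ (π ⊔ wire ((cls π a ∪ Y : Finset V) : Set V) ⊤) := by
  have hπ' : π = gen p (Din p D π) ⊔ θ := hπ
  refine Fl.of_eq
    (A := Din p D π ∪ D.filter fun e => (p e).1 ∈ cls π a ∪ Y ∧ (p e).2 ∈ cls π a ∪ Y)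
    (union_subset (filter_subset _ _) (filter_subset _ _)) ?_
  set t : Setoid V :=
    gen p (Din p D π ∪ D.filter fun e => (p e).1 ∈ cls π a ∪ Y ∧ (p e).2 ∈ cls π a ∪ Y) ⊔ θ with ht
  have hθ : θ ≤ t := le_sup_right
  have hπt : π ≤ t := by
    conv_lhs => rw [hπ']
    exact sup_le_sup_right (gen_mono subset_union_left) _
  have het : ∀ e ∈ D, (p e).1 ∈ cls π a ∪ Y → (p e).2 ∈ cls π a ∪ Y → t (p e).1 (p e).2 := by
    intro e h1 h2 h3
    refine (le_sup_left : gen p _ ≤ t) (gen_rel (mem_union_right _ ?_))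
    rw [mem_filter]
    exact ⟨h1, h2, h3⟩
  apply le_antisymm
  · refine sup_le hπt ?_
    rw [wire_le_iff]
    have key : ∀ c ∈ cls π a ∪ Y, t a c := by
      intro c hcc
      rcases mem_union.1 hcc with hcc | hcc
      · exact hπt (mem_cls.1 hcc)
      · by_contra hn
        let s : Setoid V :=
          { r := fun x y => (x ∈ Y ∧ ¬ t a x) ↔ (y ∈ Y ∧ ¬ t a y)
            iseqv := ⟨fun _ => Iff.rfl, fun h => h.symm, fun h1 h2 => h1.trans h2⟩ }
        have hs : gen p D ⊔ θ ≤ s := by
          apply sup_le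
          · rw [gen_le_iff]
            intro e h0
            constructor
            · rintro ⟨h1, h2⟩
              have h3 := (he e h0).1 h1
              have h4 := het e h0 (mem_union_right _ h1) h3
              have h5 : ¬ t a (p e).2 := fun h5 => h2 (t.trans h5 (t.symm h4))
              rcases mem_union.1 h3 with h6 | h6
              · exact absurd (hπt (mem_cls.1 h6)) h5
              · exact ⟨h6, h5⟩
            · rintro ⟨h1, h2⟩
              have h3 := (he e h0).2 h1
              have h4 := het e h0 h3 (mem_union_right _ h1)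
              have h5 : ¬ t a (p e).1 := fun h5 => h2 (t.trans h5 h4)
              rcases mem_union.1 h3 with h6 | h6
              · exact absurd (hπt (mem_cls.1 h6)) h5
              · exact ⟨h6, h5⟩
          · intro x y hxy
            constructor
            · rintro ⟨h1, h2⟩
              exact ⟨hY x y (hπ.le hxy) h1, fun h3 => h2 (t.trans h3 (t.symm (hθ hxy)))⟩
            · rintro ⟨h1, h2⟩
              exact ⟨hY y x (π.symm (hπ.le hxy)) h1, fun h3 => h2 (t.trans h3 (hθ hxy))⟩
        have h1 : (c ∈ Y ∧ ¬ t a c) ↔ (v ∈ Y ∧ ¬ t a v) := hs (hc c hcc)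
        exact hv (h1.1 ⟨hcc, hn⟩).1
    intro c hcc d hd _
    exact t.trans (t.symm (key c (mem_coe.1 hcc))) (key d (mem_coe.1 hd))
  · refine sup_le ?_ (hπ.le.trans le_sup_left)
    rw [gen_le_iff]
    intro e h0
    rcases mem_union.1 h0 with h0 | h0
    · exact (le_sup_left : π ≤ _) (mem_Din.1 h0).2
    · rw [mem_filter] at h0
      exact (le_sup_right : wire ((cls π a ∪ Y : Finset V) : Set V) ⊤ ≤ _)
        (Or.inr ⟨mem_coe.2 h0.2.1, mem_coe.2 h0.2.2, trivial⟩)

end

theorem p_STR : S_VAN → S_STR := by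
  intro hVan V E _ _ p x D θ v h A hx hA hvh π hπ hne
  have hfl : Fl p D θ π := (mem_FL.1 hπ).1
  have hle : π ≤ gen p D ⊔ θ := hfl.le_full
  constructor
  · intro a b hab hav
    by_contra hn
    apply hne
    have hu : ((cls π a ∪ (cls (gen p D ⊔ θ) a \ cls π a) : Finset V) : Set V) =
        {c | (gen p D ⊔ θ) a c} := by
      ext c
      simp only [coe_union, coe_sdiff, Set.mem_union, Set.mem_diff, mem_coe, mem_cls,
        Set.mem_setOf_eq]
      constructor
      · rintro (h1 | h1)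
        · exact hle h1
        · exact h1.1
      · intro h1
        by_cases h2 : π a c
        · exact Or.inl h2
        · exact Or.inr ⟨h1, h2⟩
    refine hVan V E p x D θ v h A hx hA π hπ a (cls (gen p D ⊔ θ) a \ cls π a) ?_ ?_ ?_ ?_
      disjoint_sdiff ?_ ?_
    · exact ⟨b, mem_sdiff.2 ⟨mem_cls.2 hab, fun h1 => hn (mem_cls.1 h1)⟩⟩
    · intro c d hcd hc
      rw [mem_sdiff, mem_cls, mem_cls] at hc ⊢
      exact ⟨(gen p D ⊔ θ).trans hc.1 (hle hcd), fun h1 => hc.2 (π.trans h1 (π.symm hcd))⟩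
    · intro h1
      exact hav (mem_cls.1 (mem_sdiff.1 h1).1)
    · intro h1
      exact hav ((gen p D ⊔ θ).trans (mem_cls.1 (mem_sdiff.1 h1).1) ((gen p D ⊔ θ).symm hvh))
    · intro e he
      have h0 : (gen p D ⊔ θ) (p e).1 (p e).2 := (le_sup_left : gen p D ≤ _) (gen_rel he)
      have key : ∀ c, (gen p D ⊔ θ) a c → c ∈ cls π a ∪ (cls (gen p D ⊔ θ) a \ cls π a) := by
        intro c hc
        have : c ∈ ((cls π a ∪ (cls (gen p D ⊔ θ) a \ cls π a) : Finset V) : Set V) := by
          rw [hu]; exact hc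
        exact mem_coe.1 this
      constructor
      · intro h1
        exact key _ ((gen p D ⊔ θ).trans (mem_cls.1 (mem_sdiff.1 h1).1) h0)
      · intro h1
        exact key _ ((gen p D ⊔ θ).trans (mem_cls.1 (mem_sdiff.1 h1).1) ((gen p D ⊔ θ).symm h0))
    · rw [hu]
      exact fl_comp hfl a
  · intro a Y hYn hY hv hh hd hc
    by_contra hn
    apply hne
    have he : ∀ e ∈ D, ((p e).1 ∈ Y → (p e).2 ∈ cls π a ∪ Y) ∧
        ((p e).2 ∈ Y → (p e).1 ∈ cls π a ∪ Y) := by
      intro e he
      constructor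
      · intro h1
        by_contra h2
        rw [mem_union, not_or] at h2
        exact hn ⟨e, he, Or.inl ⟨h1, h2.2, h2.1⟩⟩
      · intro h1
        by_contra h2
        rw [mem_union, not_or] at h2
        exact hn ⟨e, he, Or.inr ⟨h1, h2.2, h2.1⟩⟩
    exact hVan V E p x D θ v h A hx hA π hπ a Y hYn hY hv hh hd he (fl_dangle hfl hY hv hc he)

end Pool.Agent.Lib.MP_4a8162_co.FB
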