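import Pool.Agent.Lib.MP_4a8162_co.FB.StmA

set_option autoImplicit false

namespace Pool.Agent.Lib.MP_4a8162_co.FB

open Finset
open scoped Classical

theorem p_TEQ : S_TEQ := by
  intro V E _ _ p x D θ v h A π π' K L g hK
  unfold TT
  refine sum_congr rfl fun ρ hρ => ?_
  have hle : π' ≤ ρ := (mem_filter.1 hρ).2
  have hw : wt x ρ (cd p D π K ++ L) = wt x ρ (cd p D π' K ++ L) := by
    unfold wt cd
    simp only [List.map_append, List.prod_append, List.map_map]
    congr 2
    apply List.map_congr_left
    intro X hX
    have := hK X (Finset.mem_toList.1 hX) ρ hle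
    simp only [Function.comp, this]
  have hs : ∀ σ, sp ρ (cd p D π K ++ L) σ = sp ρ (cd p D π' K ++ L) σ := by
    intro σ
    ext a b
    constructor
    · rintro ⟨h1, h2⟩
      refine ⟨h1, ?_⟩
      intro c hc hS X hX
      rw [List.mem_append] at hc
      rcases hc with hc | hc
      · unfold cd at hc
        rw [List.mem_map] at hc
        obtain ⟨Y, hY, rfl⟩ := hc
        refine h2 ⟨(nbh p D π Y : Set V), some (Y : Set V)⟩ ?_ ?_ X hX
        · rw [List.mem_append]
          left
          unfold cd
          rw [List.mem_map]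
          exact ⟨Y, hY, rfl⟩
        · exact (hK Y (Finset.mem_toList.1 hY) ρ hle).2 hS
      · exact h2 c (List.mem_append.2 (Or.inr hc)) hS X hX
    · rintro ⟨h1, h2⟩
      refine ⟨h1, ?_⟩
      intro c hc hS X hX
      rw [List.mem_append] at hc
      rcases hc with hc | hc
      · unfold cd at hc
        rw [List.mem_map] at hc
        obtain ⟨Y, hY, rfl⟩ := hc
        refine h2 ⟨(nbh p D π' Y : Set V), some (Y : Set V)⟩ ?_ ?_ X hX
        · rw [List.mem_append]
          left
          unfold cd
          rw [List.mem_map]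
          exact ⟨Y, hY, rfl⟩
        · exact (hK Y (Finset.mem_toList.1 hY) ρ hle).1 hS
      · exact h2 c (List.mem_append.2 (Or.inr hc)) hS X hX
  simp only [hw, hs]

end Pool.Agent.Lib.MP_4a8162_co.FB
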