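import Pool.Agent.Lib.MP_4a8162_co.FB.StmC

set_option autoImplicit false

/-!
# MP_4a8162_co, REAL FLOW ROOTS ARE BOUNDED: piece THS (Theorem S)
-/

namespace Pool.Agent.Lib.MP_4a8162_co.FB

open Finset
open scoped Classical

/-- the graph is connected -/
private theorem ths_conn {V E : Type} [Fintype V] [Fintype E] {p : E → V × V} (hI : Iso p)
    (a₀ v : V) : (gen p univ) a₀ v := by
  set P : Finset V := univ.filter fun w => (gen p univ) a₀ w with hP
  have ha : a₀ ∈ P := by
    rw [hP, Finset.mem_filter]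
    exact ⟨Finset.mem_univ _, (gen p univ).refl a₀⟩
  have hu : P = univ := by
    by_contra hne
    have h1 := hI.1 P ⟨a₀, ha⟩ hne
    have h2 : bd p P = ∅ := by
      rw [Finset.eq_empty_iff_forall_notMem]
      intro e he
      rw [mem_bd] at he
      apply he
      have h3 : gen p univ (p e).1 (p e).2 := gen_rel (Finset.mem_univ e)
      rw [hP, Finset.mem_filter, Finset.mem_filter]
      constructor
      · rintro ⟨-, h4⟩
        exact ⟨Finset.mem_univ _, (gen p univ).trans h4 h3⟩
      · rintro ⟨-, h4⟩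
        exact ⟨Finset.mem_univ _, (gen p univ).trans h4 ((gen p univ).symm h3)⟩
    rw [h2] at h1
    simp at h1
  have hv : v ∈ P := by rw [hu]; exact Finset.mem_univ v
  rw [hP, Finset.mem_filter] at hv
  exact hv.2

/-- **[THS]** -/
theorem p_THS : S_CNT → S_STP → S_CFO → S_QUU → S_THS := by
  intro hCNT hSTP hCFO hQUU
  obtain ⟨y, hy0, hy1, hy⟩ := hCNT
  have hW1 : (1 : ℝ) ≤ (256 / y) ^ 14 := by
    apply one_le_pow₀
    rw [le_div_iff₀ hy0]
    linarith
  refine ⟨8 * (256 / y) ^ 14, by linarith, ?_⟩
  intro V E _ _ p x f hx hV hI hCM hf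
  set W : ℝ := (256 / y) ^ 14 with hW
  have hx8 : (8 : ℝ) ≤ x := by linarith
  have hx0 : (0 : ℝ) < x := by linarith
  set ε : ℝ := 2 * W / x with hε
  have hε1 : ε ≤ 1 / 4 := by
    rw [hε, div_le_iff₀ hx0]
    linarith
  have h1x : (0 : ℝ) < 1 - 1 / x := by
    have : 1 / x < 1 := by
      rw [div_lt_iff₀ hx0]
      linarith
    linarith
  have key : ∀ n : ℕ, Pos p x f n ∧ Rat p x f ε n := by
    intro n
    induction n with
    | zero =>
      refine ⟨fun D U θ l _ h => absurd h (Nat.not_lt_zero _), fun D U θ l v h _ h1 =>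
        absurd h1 (Nat.not_lt_zero _)⟩
    | succ n ih =>
      obtain ⟨ihP, ihR⟩ := ih
      have hR : Rat p x f ε (n + 1) := by
        intro D U θ l v h hC hc hl hF hv hh hvh
        rcases Nat.lt_succ_iff_lt_or_eq.1 hc with hlt | heq
        · exact ihR D U θ l v h hC hlt hl hF hv hh hvh
        · refine hSTP y hy0 hy1 hy V E p x D U θ v h f l hx hI hC hv hh hvh hl hF ?_ ?_
          · rw [heq]; exact ihP
          · rw [heq]; exact ihR
      refine ⟨?_, hR⟩
      intro D U θ l hC hc hl hF
      by_cases hU : U = univ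
      · subst hU
        obtain ⟨h1, h2⟩ := hQUU V E p x D θ (fe l f) hC
        rw [h2, h1]
        rw [h1] at hF
        have h3 : 0 ≤ fe l f θ := hCM θ l hF
        have h4 : 0 < (1 - 1 / x) ^ D.card * x ^ cs θ := mul_pos (pow_pos h1x _) (pow_pos hx0 _)
        exact ⟨mul_nonneg h4.le h3, fun h5 => mul_pos h4 h5⟩
      · obtain ⟨v, hv⟩ : ∃ v, v ∉ U := by
          by_contra hcon
          apply hU
          rw [Finset.eq_univ_iff_forall]
          intro w
          by_contra hw
          exact hcon ⟨w, hw⟩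
        obtain ⟨h, hh, hvh⟩ := hC.att v
        obtain ⟨hC', hfull⟩ := hCFO V E p D U θ v h hC hv hh hvh
        have hcard : ((insert v U)ᶜ : Finset V).card < n := by
          have h5 : ((insert v U)ᶜ : Finset V).card + 1 = Uᶜ.card := by
            have h6 : (insert v U)ᶜ = Uᶜ.erase v := by
              ext w
              simp only [Finset.mem_compl, Finset.mem_insert, Finset.mem_erase, not_or]
            rw [h6]
            exact Finset.card_erase_add_one (Finset.mem_compl.2 hv)
          omega
        have hl' : ∀ e ∈ l, e.1 ∈ insert v U ∧ e.2 ∈ insert v U := fun e he =>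
          ⟨Finset.mem_insert_of_mem (hl e he).1, Finset.mem_insert_of_mem (hl e he).2⟩
        have hF' : Forest l (gen p D ⊔ (θ ⊔ jn v h)) := by rw [hfull]; exact hF
        obtain ⟨h7, h8⟩ := ihP D (insert v U) (θ ⊔ jn v h) l hC' hcard hl' hF'
        rw [hfull] at h8
        have h9 := hR D U θ l v h hC hc hl hF hv hh hvh
        have h10 := (abs_le.1 h9).1
        constructor
        · nlinarith
        · intro h11
          have h12 := h8 h11
          nlinarith
  obtain ⟨a₀⟩ := hV
  have htop : gen p univ ⊔ (⊥ : Setoid V) = ⊤ := by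
    rw [sup_bot_eq, eq_top_iff]
    intro a b _
    exact (gen p univ).trans ((gen p univ).symm (ths_conn hI a₀ a)) (ths_conn hI a₀ b)
  have hC : Cfg p (univ : Finset E) {a₀} (⊥ : Setoid V) := by
    refine ⟨?_, ?_, ?_, ?_⟩
    · intro a b hab
      exact Or.inl hab
    · intro e
      refine ⟨fun _ h1 h2 => ?_, fun _ => Finset.mem_univ e⟩
      rw [Finset.mem_singleton] at h1 h2
      rw [h1, h2]
    · intro a ha b hb _
      rw [Finset.mem_singleton] at ha hb
      rw [ha, hb]
    · intro v
      refine ⟨a₀, Finset.mem_singleton_self _, ?_⟩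
      rw [htop]
      trivial
  have hfin := (key (({a₀} : Finset V)ᶜ.card + 1)).1 univ {a₀} ⊥ [] hC (Nat.lt_succ_self _)
    (by simp) (by simp [Forest, gl])
  rw [htop] at hfin
  exact hfin.2 hf

end Pool.Agent.Lib.MP_4a8162_co.FB
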