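import Pool.Agent.Lib.MP_4a8162_co.FB.StmA

set_option autoImplicit false

/-!
# MP_4a8162_co, FB, piece TID: the sum with all conditions is the value
-/

namespace Pool.Agent.Lib.MP_4a8162_co.FB

open Finset
open scoped Classical

private theorem TID_wt {V : Type} [Fintype V] (x : ℝ) (ρ : Setoid V) (L : List (Cd V))
    (hL : ∀ c ∈ L, c.X.isSome = true) : wt x ρ L = x ^ ns ρ L := by
  induction L with
  | nil => simp [wt, ns]
  | cons c L ih =>
    have h1 := ih fun d hd => hL d (List.mem_cons_of_mem _ hd)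
    have h2 : c.X.isSome = true := hL c List.mem_cons_self
    unfold wt ns at h1 ⊢
    rw [List.map_cons, List.prod_cons, h1]
    by_cases hs : Sat ρ c.S
    · rw [if_pos hs, if_pos h2, List.filter_cons_of_pos (by simp [hs, h2]), List.length_cons,
        pow_succ, mul_comm]
    · rw [if_neg hs, List.filter_cons_of_neg (by simp [hs]), one_mul]

theorem p_TID : S_INT → S_TID := by
  intro hINT V E _ _ p x D θ v h A hx hA hfull π hπ hW g
  unfold TT
  conv_rhs => rw [hA.2 π hπ g]
  refine Finset.sum_congr rfl fun ρ hρ => ?_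
  rw [Finset.mem_filter] at hρ
  obtain ⟨h1, h2⟩ := hINT V E p D θ v h hfull π hπ hW ρ hρ.1 hρ.2
  have h3 : A ρ (fun σ => g (sp ρ (cd p D π (uc p D v h π)) σ)) =
      A ρ (fun σ => g (wi p D v h π ρ σ)) :=
    hA.1 ρ hρ.1 _ _ fun σ hσ hσ' => by rw [h1 σ hσ hσ']
  rw [h3]
  congr 1
  rw [TID_wt x ρ _ (by
    intro c hc
    unfold cd at hc
    rw [List.mem_map] at hc
    obtain ⟨X, -, rfl⟩ := hc
    rfl)]
  have h4 : cs (wi p D v h π ρ ρ) ≤ cs π := cs_anti (by
    unfold wi
    exact le_sup_left)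
  rw [h2] at h4 ⊢
  have h5 : cs π - cs ρ = (cs π - (cs ρ + ns ρ (cd p D π (uc p D v h π)))) +
      ns ρ (cd p D π (uc p D v h π)) := by omega
  rw [h5, pow_add, mul_assoc, ← mul_pow, one_div, inv_mul_cancel₀ hx.ne', one_pow, mul_one]

end Pool.Agent.Lib.MP_4a8162_co.FB
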