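import Pool.Agent.Lib.MP_4a8162_co.FB.StmA

set_option autoImplicit false

/-!
# MP_4a8162_co, piece [TPM]
-/

namespace Pool.Agent.Lib.MP_4a8162_co.FB

open Finset
open scoped Classical

theorem p_TPM : S_TPM := by
  intro V E _ _ p x D θ v h A π L L' g hL
  have hwt : ∀ ρ : Setoid V, wt x ρ L = wt x ρ L' := by
    intro ρ
    unfold wt
    exact (hL.map _).prod_eq
  have hsp : ∀ ρ σ : Setoid V, sp ρ L σ = sp ρ L' σ := by
    intro ρ σ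
    ext a b
    show (σ a b ∧ ∀ c ∈ L, Sat ρ c.S → ∀ X, c.X = some X → (a ∈ X ↔ b ∈ X)) ↔
      (σ a b ∧ ∀ c ∈ L', Sat ρ c.S → ∀ X, c.X = some X → (a ∈ X ↔ b ∈ X))
    constructor
    · rintro ⟨h1, h2⟩
      exact ⟨h1, fun c hc => h2 c (hL.mem_iff.2 hc)⟩
    · rintro ⟨h1, h2⟩
      exact ⟨h1, fun c hc => h2 c (hL.mem_iff.1 hc)⟩
  unfold TT
  apply Finset.sum_congr rfl
  intro ρ _
  rw [hwt ρ]
  congr 2
  funext σ
  rw [hsp ρ σ]

end Pool.Agent.Lib.MP_4a8162_co.FB
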