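import Pool.Agent.Lib.MP_4a8162_co.FB.StmF

set_option autoImplicit false

/-!
# MP_4a8162_co, REAL FLOW ROOTS ARE BOUNDED: piece TRE (small sets have large boundaries)
-/

namespace Pool.Agent.Lib.MP_4a8162_co.FB

open Finset
open scoped Classical

private theorem tre_bot {V : Type} [Fintype V] : cs (⊥ : Setoid V) = Fintype.card V := by
  unfold cs
  rw [← Nat.card_eq_fintype_card]
  refine Nat.card_congr ⟨Quotient.lift id (fun a b h => h), fun a => Quotient.mk _ a, ?_, ?_⟩
  · intro q
    induction q using Quotient.inductionOn with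
    | h a => rfl
  · intro a
    rfl

private theorem tre_ge {V E : Type} [Fintype V] [Fintype E] (p : E → V × V) (B : Finset E) :
    Fintype.card V ≤ cs (gen p B) + B.card := by
  induction B using Finset.induction_on with
  | empty => rw [gen_empty, tre_bot]; simp
  | insert e B he ih =>
    rw [gen_insert, card_insert_of_notMem he]
    have := cs_le_jn (p e).1 (p e).2 (gen p B)
    omega

private theorem tre_wire {V : Type} [Fintype V] (P : Finset V) (hP : P.Nonempty) :
    Fintype.card V + 1 ≤ cs (wire (P : Set V) (⊤ : Setoid V)) + P.card := by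
  obtain ⟨a0, ha0⟩ := hP
  let f : Option {a : V // a ∉ P} → Quotient (wire (P : Set V) (⊤ : Setoid V)) := fun o =>
    match o with
    | none => Quotient.mk _ a0
    | some a => Quotient.mk _ a.1
  have hf : Function.Injective f := by
    rintro (_ | ⟨a, ha⟩) (_ | ⟨b, hb⟩) hab
    · rfl
    · exfalso
      have h1 : wire (P : Set V) (⊤ : Setoid V) a0 b := Quotient.exact hab
      rcases h1 with h1 | ⟨-, h1, -⟩
      · exact hb (h1 ▸ ha0)
      · exact hb (by simpa using h1)
    · exfalso
      have h1 : wire (P : Set V) (⊤ : Setoid V) a a0 := Quotient.exact hab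
      rcases h1 with h1 | ⟨h1, -, -⟩
      · exact ha (h1 ▸ ha0)
      · exact ha (by simpa using h1)
    · have h1 : wire (P : Set V) (⊤ : Setoid V) a b := Quotient.exact hab
      rcases h1 with h1 | ⟨h1, -, -⟩
      · subst h1; rfl
      · exact absurd (by simpa using h1) ha
  have h1 := Nat.card_le_card_of_injective f hf
  have h2 : Nat.card (Option {a : V // a ∉ P}) = Fintype.card V - P.card + 1 := by
    rw [Nat.card_eq_fintype_card, Fintype.card_option, Fintype.card_subtype_compl,
      Fintype.card_coe]
  have h3 := card_le_univ P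
  unfold cs
  omega

theorem p_TRE (hD : S_DGS) : S_TRE := by
  intro V E _ _ p x h3 hx P hP hPx
  have hlow : ∀ C : Finset E, C ⊆ ES p P → Fintype.card V + 1 ≤ cs (gen p C) + P.card := by
    intro C hC
    have h1 : gen p C ≤ wire (P : Set V) ⊤ := by
      rw [gen_le_iff]
      intro e he
      have h2 := hC he
      simp only [ES, mem_filter, mem_univ, true_and] at h2
      exact Or.inr ⟨by simpa using h2.1, by simpa using h2.2, trivial⟩
    have h2 := cs_anti h1
    have h3 := tre_wire P hP
    omega
  have hF : cs (gen p (ES p P)) + (ES p P).card = Fintype.card V := by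
    by_contra hne
    have h1 := tre_ge p (ES p P)
    set T := (ES p P).powerset.filter
      (fun C : Finset E => Fintype.card V < cs (gen p C) + C.card) with hT
    have hTn : T.Nonempty := ⟨ES p P, by
      rw [hT, mem_filter, mem_powerset]
      exact ⟨Subset.rfl, by omega⟩⟩
    obtain ⟨C, hC, hmin⟩ := exists_min_image T Finset.card hTn
    rw [hT, mem_filter, mem_powerset] at hC
    obtain ⟨hCs, hCc⟩ := hC
    have hCn : C.Nonempty := by
      rw [nonempty_iff_ne_empty]
      rintro rfl
      rw [gen_empty, tre_bot] at hCc
      simp at hCc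
    obtain ⟨e, he⟩ := hCn
    have h2 : C.erase e ∉ T := by
      intro h
      have h4 := hmin _ h
      rw [card_erase_of_mem he] at h4
      have h5 := card_pos.2 ⟨e, he⟩
      omega
    rw [hT, mem_filter, mem_powerset, not_and] at h2
    have h4 := h2 ((erase_subset _ _).trans hCs)
    rw [card_erase_of_mem he] at h4
    have h5 := cs_anti (gen_mono (p := p) (erase_subset e C))
    have h6 := card_pos.2 ⟨e, he⟩
    have h7 := hlow C hCs
    have h8 : C.card ≤ P.card := by omega
    have h9 := hx C (lt_of_le_of_lt (by exact_mod_cast h8) hPx)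
    omega
  have h4 := hlow _ (Subset.refl (ES p P))
  have h5 := hD V E p P
  have h6 : 3 * P.card ≤ ∑ v ∈ P, (bd p {v}).card := by
    have := card_nsmul_le_sum P (fun v => (bd p {v}).card) 3 (fun v _ => h3 v)
    rw [smul_eq_mul] at this
    omega
  omega

end Pool.Agent.Lib.MP_4a8162_co.FB
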