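import Pool.Agent.Lib.MP_4a8162_co.FB.StmA

/-!
# MP_4a8162_co, REAL FLOW ROOTS ARE BOUNDED: toggling one condition (piece `TST`)
-/

set_option autoImplicit false

namespace Pool.Agent.Lib.MP_4a8162_co.FB

open Finset
open scoped Classical

private theorem tst_wt {V : Type} [Fintype V] (x : ℝ) (ρ : Setoid V) (c : Cd V) (L : List (Cd V)) :
    wt x ρ (c :: L) = (if Sat ρ c.S then (if c.X.isSome then x else 0) else 1) * wt x ρ L := by
  unfold wt
  rw [List.map_cons, List.prod_cons]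

private theorem tst_sp_not {V : Type} [Fintype V] (ρ : Setoid V) (c : Cd V) (L : List (Cd V))
    (σ : Setoid V) (h : ¬ Sat ρ c.S) : sp ρ (c :: L) σ = sp ρ L σ := by
  ext a b
  constructor
  · rintro ⟨h1, h2⟩
    exact ⟨h1, fun d hd => h2 d (List.mem_cons_of_mem _ hd)⟩
  · rintro ⟨h1, h2⟩
    refine ⟨h1, fun d hd => ?_⟩
    rcases List.mem_cons.1 hd with rfl | hd
    · exact fun hs => absurd hs h
    · exact h2 d hd

private theorem tst_sp_some {V : Type} [Fintype V] (ρ : Setoid V) (S X : Set V)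
    (L : List (Cd V)) (σ : Setoid V) (h : Sat ρ S) :
    sp ρ (⟨S, some X⟩ :: L) σ = se X (sp ρ L σ) := by
  ext a b
  constructor
  · rintro ⟨h1, h2⟩
    exact ⟨⟨h1, fun d hd => h2 d (List.mem_cons_of_mem _ hd)⟩,
      h2 ⟨S, some X⟩ List.mem_cons_self h X rfl⟩
  · rintro ⟨⟨h1, h2⟩, h3⟩
    refine ⟨h1, fun d hd => ?_⟩
    rcases List.mem_cons.1 hd with rfl | hd
    · intro _ Y hY
      rw [Option.some.inj hY] at h3
      exact h3
    · exact h2 d hd

private theorem tst_sat {V : Type} [Fintype V] (ρ : Setoid V) (S : Set V) :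
    Sat ρ S ↔ wire S ⊤ ≤ ρ := by
  rw [wire_le_iff]
  constructor
  · intro h a ha b hb _
    exact h a ha b hb
  · intro h a ha b hb
    exact h a ha b hb trivial

theorem p_TST : S_TST := by
  intro V E _ _ p x D θ v h A π c L g
  have hsat : ∀ ρ : Setoid V, (π ⊔ wire c.S ⊤ ≤ ρ ↔ π ≤ ρ ∧ Sat ρ c.S) := by
    intro ρ
    rw [sup_le_iff, tst_sat]
  have hf1 : (FL p D θ v h).filter (fun ρ => π ⊔ wire c.S ⊤ ≤ ρ) =
      ((FL p D θ v h).filter (fun ρ => π ≤ ρ)).filter (fun ρ => Sat ρ c.S) := by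
    ext ρ
    simp only [mem_filter, hsat ρ, and_assoc]
  set π' := π ⊔ wire c.S ⊤ with hπ'
  have hpi : π ≤ π' := le_sup_left
  -- splitting of both sums
  have hsplit : ∀ f : Setoid V → ℝ, ∑ ρ ∈ (FL p D θ v h).filter (fun ρ => π ≤ ρ), f ρ =
      ∑ ρ ∈ (FL p D θ v h).filter (fun ρ => π' ≤ ρ), f ρ +
      ∑ ρ ∈ ((FL p D θ v h).filter (fun ρ => π ≤ ρ)).filter (fun ρ => ¬ Sat ρ c.S), f ρ := by
    intro f
    rw [hf1]
    exact (Finset.sum_filter_add_sum_filter_not _ _ _).symm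
  have hpow : ∀ ρ ∈ (FL p D θ v h).filter (fun ρ => π' ≤ ρ),
      (1 / x) ^ (cs π - cs ρ) = (1 / x) ^ (cs π - cs π') * (1 / x) ^ (cs π' - cs ρ) := by
    intro ρ hρ
    have h1 := cs_anti hpi
    have h2 := cs_anti (mem_filter.1 hρ).2
    rw [← pow_add]
    congr 1
    omega
  have hnot : ∑ ρ ∈ ((FL p D θ v h).filter (fun ρ => π ≤ ρ)).filter (fun ρ => ¬ Sat ρ c.S),
      (1 / x) ^ (cs π - cs ρ) * wt x ρ (c :: L) * A ρ (fun σ => g (sp ρ (c :: L) σ)) =
      ∑ ρ ∈ ((FL p D θ v h).filter (fun ρ => π ≤ ρ)).filter (fun ρ => ¬ Sat ρ c.S),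
      (1 / x) ^ (cs π - cs ρ) * wt x ρ L * A ρ (fun σ => g (sp ρ L σ)) := by
    refine Finset.sum_congr rfl fun ρ hρ => ?_
    have hn : ¬ Sat ρ c.S := (mem_filter.1 hρ).2
    rw [tst_wt, if_neg hn, one_mul]
    simp only [tst_sp_not ρ c L _ hn]
  have hL : TT p x D θ v h A π L g = (1 / x) ^ (cs π - cs π') * TT p x D θ v h A π' L g +
      ∑ ρ ∈ ((FL p D θ v h).filter (fun ρ => π ≤ ρ)).filter (fun ρ => ¬ Sat ρ c.S),
      (1 / x) ^ (cs π - cs ρ) * wt x ρ L * A ρ (fun σ => g (sp ρ L σ)) := by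
    unfold TT
    rw [hsplit, Finset.mul_sum]
    congr 1
    refine Finset.sum_congr rfl fun ρ hρ => ?_
    rw [hpow ρ hρ]
    ring
  have hcL : TT p x D θ v h A π (c :: L) g = (1 / x) ^ (cs π - cs π') *
      (match c.X with
        | none => 0
        | some X => x * TT p x D θ v h A π' L (fun σ => g (se X σ))) +
      ∑ ρ ∈ ((FL p D θ v h).filter (fun ρ => π ≤ ρ)).filter (fun ρ => ¬ Sat ρ c.S),
      (1 / x) ^ (cs π - cs ρ) * wt x ρ L * A ρ (fun σ => g (sp ρ L σ)) := by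
    rw [← hnot]
    unfold TT
    rw [hsplit]
    congr 1
    have hin : ∀ ρ ∈ (FL p D θ v h).filter (fun ρ => π' ≤ ρ), Sat ρ c.S := fun ρ hρ =>
      ((hsat ρ).1 (mem_filter.1 hρ).2).2
    clear hsplit hnot hL hf1 hsat
    rcases c with ⟨S, _ | X⟩
    · simp only [mul_zero]
      refine Finset.sum_eq_zero fun ρ hρ => ?_
      rw [tst_wt, if_pos (hin ρ hρ)]
      simp
    · simp only
      rw [Finset.mul_sum, Finset.mul_sum]
      refine Finset.sum_congr rfl fun ρ hρ => ?_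
      rw [hpow ρ hρ, tst_wt, if_pos (hin ρ hρ)]
      simp only [tst_sp_some ρ S X L _ (hin ρ hρ), Option.isSome_some, if_true]
      ring
  rw [hcL, hL]
  clear_value π'
  clear hcL hL hnot hpow hsplit hf1 hsat
  rcases c with ⟨S, _ | X⟩
  · simp only
    ring
  · simp only
    ring

end Pool.Agent.Lib.MP_4a8162_co.FB
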