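import Pool.Agent.Lib.MP_4a8162_co.FB.StmA

set_option autoImplicit false

/-!
# MP_4a8162_co, REAL FLOW ROOTS ARE BOUNDED: how the classes change when a set is joined
-/

namespace Pool.Agent.Lib.MP_4a8162_co.FB

open Finset
open scoped Classical

section UCC

variable {V E : Type} [Fintype V] [Fintype E]

private theorem mem_cls' {π : Setoid V} {a b : V} : b ∈ cls π a ↔ π a b := by
  simp [cls]

private theorem cls_eq' {π : Setoid V} {a b : V} (h : π a b) : cls π a = cls π b := by
  ext c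
  rw [mem_cls', mem_cls']
  exact ⟨fun hc => π.trans (π.symm h) hc, fun hc => π.trans h hc⟩

private theorem card_cls (π : Setoid V) : (univ.image (cls π)).card = cs π := by
  have hl : ∀ a b : V, a ≈ b → cls π a = cls π b := fun a b h => cls_eq' h
  let f : Quotient π → Finset V := Quotient.lift (cls π) hl
  have hf : Function.Injective f := by
    intro x y
    induction x using Quotient.inductionOn' with
    | h a =>
      induction y using Quotient.inductionOn' with
      | h b =>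
        intro hab
        have h1 : cls π a = cls π b := hab
        have h2 : b ∈ cls π a := by rw [h1]; exact mem_cls'.2 (π.refl b)
        exact Quotient.sound' (mem_cls'.1 h2)
  have h1 : univ.image (cls π) = univ.image f := by
    ext X
    simp only [mem_image, mem_univ, true_and]
    constructor
    · rintro ⟨a, rfl⟩
      exact ⟨Quotient.mk'' a, rfl⟩
    · rintro ⟨x, rfl⟩
      induction x using Quotient.inductionOn' with
      | h a => exact ⟨a, rfl⟩
  rw [h1, Finset.card_image_of_injective _ hf, Finset.card_univ, cs, Nat.card_eq_fintype_card]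

private theorem sup_rel' {π : Setoid V} {S : Set V} {x y : V} :
    (π ⊔ wire S ⊤) x y ↔ π x y ∨ ((∃ a ∈ S, π x a) ∧ ∃ b ∈ S, π b y) := by
  rw [sup_wire_rel le_top]
  constructor
  · rintro (h | ⟨a, ha, b, hb, h1, -, h2⟩)
    · exact Or.inl h
    · exact Or.inr ⟨⟨a, ha, h1⟩, b, hb, h2⟩
  · rintro (h | ⟨⟨a, ha, h1⟩, b, hb, h2⟩)
    · exact Or.inl h
    · exact Or.inr ⟨a, ha, b, hb, h1, trivial, h2⟩

/-- classes outside the new class do not change -/
private theorem cls_out {π : Setoid V} {S : Set V} {a₀ a : V} (h0 : a₀ ∈ S)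
    (ha : a ∉ cls (π ⊔ wire S ⊤) a₀) : cls (π ⊔ wire S ⊤) a = cls π a := by
  ext y
  rw [mem_cls', mem_cls', sup_rel']
  constructor
  · rintro (h | ⟨⟨s, hs, h1⟩, -⟩)
    · exact h
    · exfalso
      apply ha
      rw [mem_cls', sup_rel']
      exact Or.inr ⟨⟨a₀, h0, π.refl a₀⟩, s, hs, π.symm h1⟩
  · exact Or.inl

private theorem disj_iff {π : Setoid V} {S : Set V} {a₀ a : V} :
    Disjoint (cls π a) (cls (π ⊔ wire S ⊤) a₀) ↔ a ∉ cls (π ⊔ wire S ⊤) a₀ := by
  constructor
  · intro h ha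
    exact Finset.disjoint_left.1 h (mem_cls'.2 (π.refl a)) ha
  · intro ha
    rw [Finset.disjoint_left]
    intro y hy hy'
    apply ha
    rw [mem_cls'] at hy hy' ⊢
    exact (π ⊔ wire S ⊤).trans hy' ((le_sup_left : π ≤ π ⊔ wire S ⊤) (π.symm hy))

theorem p_UCC : S_UCC := by
  intro V E _ _ p D v h π S a₀ h0
  have hle : π ≤ π ⊔ wire S ⊤ := le_sup_left
  refine ⟨?_, ?_, ?_, ?_⟩
  · rintro X ⟨a, rfl⟩ - ρ hρ
    have hsub : ∀ b, b ∈ nbh p D π (cls π a) → b ∈ nbh p D (π ⊔ wire S ⊤) (cls π a) := by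
      intro b hb
      unfold nbh at hb ⊢
      rw [mem_filter] at hb ⊢
      refine ⟨mem_univ _, ?_⟩
      rcases hb.2 with hb | ⟨e, he, hb | hb⟩
      · exact Or.inl hb
      · exact Or.inr ⟨e, he, Or.inl ⟨hb.1, hle hb.2⟩⟩
      · exact Or.inr ⟨e, he, Or.inr ⟨hb.1, hle hb.2⟩⟩
    constructor
    · intro hS
      have key : ∀ b, b ∈ nbh p D (π ⊔ wire S ⊤) (cls π a) →
          ∃ b', b' ∈ nbh p D π (cls π a) ∧ ρ b' b := by
        intro b hb
        unfold nbh at hb
        rw [mem_filter] at hb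
        rcases hb.2 with hb | ⟨e, he, hb | hb⟩
        · refine ⟨b, ?_, ρ.refl b⟩
          unfold nbh
          rw [mem_filter]
          exact ⟨mem_univ _, Or.inl hb⟩
        · refine ⟨(p e).2, ?_, hρ hb.2⟩
          unfold nbh
          rw [mem_filter]
          exact ⟨mem_univ _, Or.inr ⟨e, he, Or.inl ⟨hb.1, π.refl _⟩⟩⟩
        · refine ⟨(p e).1, ?_, hρ hb.2⟩
          unfold nbh
          rw [mem_filter]
          exact ⟨mem_univ _, Or.inr ⟨e, he, Or.inr ⟨hb.1, π.refl _⟩⟩⟩
      intro b hb c hc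
      rw [mem_coe] at hb hc
      obtain ⟨b', hb', h1⟩ := key b hb
      obtain ⟨c', hc', h2⟩ := key c hc
      exact ρ.trans (ρ.symm h1) (ρ.trans (hS b' (mem_coe.2 hb') c' (mem_coe.2 hc')) h2)
    · intro hS b hb c hc
      rw [mem_coe] at hb hc
      exact hS b (mem_coe.2 (hsub b hb)) c (mem_coe.2 (hsub c hc))
  · ext X
    rw [mem_erase, mem_filter]
    unfold uc
    rw [mem_filter, mem_filter, mem_image, mem_image]
    constructor
    · rintro ⟨hne, ⟨a, -, rfl⟩, hv, hh, e, he, hX⟩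
      have ha : a ∉ cls (π ⊔ wire S ⊤) a₀ := by
        intro ha
        exact hne (cls_eq' (mem_cls'.1 ha)).symm
      rw [cls_out h0 ha] at hv hh hX ⊢
      refine ⟨⟨⟨a, mem_univ _, rfl⟩, hv, hh, e, ?_, hX⟩, disj_iff.2 ha⟩
      rw [mem_cutE] at he ⊢
      exact ⟨he.1, fun h1 => he.2 (hle h1)⟩
    · rintro ⟨⟨⟨a, -, rfl⟩, hv, hh, e, he, hX⟩, hd⟩
      have ha : a ∉ cls (π ⊔ wire S ⊤) a₀ := disj_iff.1 hd
      have hc := cls_out h0 ha
      refine ⟨?_, ⟨a, mem_univ _, hc⟩, hv, hh, e, ?_, hX⟩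
      · intro hM
        apply ha
        rw [← hM]
        exact mem_cls'.2 (π.refl a)
      · rw [mem_cutE] at he ⊢
        refine ⟨he.1, fun h1 => he.2 ?_⟩
        rcases hX with hX | hX
        · rw [mem_cls'] at hX
          have h2 : (p e).2 ∈ cls (π ⊔ wire S ⊤) a :=
            mem_cls'.2 ((π ⊔ wire S ⊤).trans (hle hX) h1)
          rw [hc, mem_cls'] at h2
          exact π.trans (π.symm hX) h2
        · rw [mem_cls'] at hX
          have h2 : (p e).1 ∈ cls (π ⊔ wire S ⊤) a :=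
            mem_cls'.2 ((π ⊔ wire S ⊤).trans (hle hX) ((π ⊔ wire S ⊤).symm h1))
          rw [hc, mem_cls'] at h2
          exact π.trans (π.symm h2) hX
  · have h1 : univ.image (cls (π ⊔ wire S ⊤)) ⊆ insert (cls (π ⊔ wire S ⊤) a₀)
        ((univ.image (cls π)).filter (fun X => Disjoint X (cls (π ⊔ wire S ⊤) a₀))) := by
      intro X hX
      rw [mem_image] at hX
      obtain ⟨a, -, rfl⟩ := hX
      rw [mem_insert, mem_filter, mem_image]
      by_cases ha : a ∈ cls (π ⊔ wire S ⊤) a₀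
      · exact Or.inl (cls_eq' (mem_cls'.1 ha)).symm
      · refine Or.inr ?_
        rw [cls_out h0 ha]
        exact ⟨⟨a, mem_univ _, rfl⟩, disj_iff.2 ha⟩
    have h2 := (card_le_card h1).trans (card_insert_le _ _)
    rw [card_cls] at h2
    have h3 := card_filter_add_card_filter_not (s := univ.image (cls π))
      (fun X => Disjoint X (cls (π ⊔ wire S ⊤) a₀))
    rw [card_cls] at h3
    omega
  · rintro X ⟨a, rfl⟩ hX y hy
    rw [disj_iff, not_not, mem_cls'] at hX
    rw [mem_cls'] at hy ⊢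
    exact (π ⊔ wire S ⊤).trans hX (hle hy)

end UCC

end Pool.Agent.Lib.MP_4a8162_co.FB
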