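import Pool.Agent.Lib.MP_4a8162_co.FB.StmA

set_option autoImplicit false

/-!
# MP_4a8162_co, REAL FLOW ROOTS ARE BOUNDED, piece VAN: the coefficient functional vanishes at
partitions with a dangling part
-/

namespace Pool.Agent.Lib.MP_4a8162_co.FB

open Finset
open scoped Classical

section

variable {V E : Type} [Fintype V] [Fintype E]

/-- the partition cut along `Y` -/
private theorem VAN_cut_rel {π σ : Setoid V} {Y : Finset V} (h : π ≤ σ) (hY : Satd π Y)
    {b c : V} :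
    (π ⊔ wire {b | b ∉ Y} σ) b c ↔ π b c ∨ (b ∉ Y ∧ c ∉ Y ∧ σ b c) := by
  rw [sup_wire_rel h]
  constructor
  · rintro (h1 | ⟨b', hb', c', hc', h1, h2, h3⟩)
    · left; exact h1
    · right
      exact ⟨fun hb => hb' (hY _ _ h1 hb), fun hc => hc' (hY _ _ (π.symm h3) hc),
        σ.trans (h h1) (σ.trans h2 (h h3))⟩
  · rintro (h1 | ⟨h1, h2, h3⟩)
    · left; exact h1
    · right
      exact ⟨b, h1, c, h2, π.refl b, h3, π.refl c⟩

private theorem VAN_card_image {α β : Type} [DecidableEq α] [DecidableEq β] (Y : Finset V) (f : V → α) (g : V → β)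
    (h : ∀ y ∈ Y, ∀ y' ∈ Y, (f y = f y' ↔ g y = g y')) : (Y.image f).card = (Y.image g).card := by
  have h1 : ((Y.image fun y => (f y, g y)).image Prod.fst) = Y.image f := by
    rw [image_image]
    rfl
  have h2 : ((Y.image fun y => (f y, g y)).image Prod.snd) = Y.image g := by
    rw [image_image]
    rfl
  have h3 : Set.InjOn Prod.fst (↑(Y.image fun y => (f y, g y)) : Set (α × β)) := by
    intro u hu w hw huw
    obtain ⟨y, hy, rfl⟩ := mem_image.1 (mem_coe.1 hu)
    obtain ⟨y', hy', rfl⟩ := mem_image.1 (mem_coe.1 hw)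
    exact Prod.ext huw ((h y hy y' hy').1 huw)
  have h4 : Set.InjOn Prod.snd (↑(Y.image fun y => (f y, g y)) : Set (α × β)) := by
    intro u hu w hw huw
    obtain ⟨y, hy, rfl⟩ := mem_image.1 (mem_coe.1 hu)
    obtain ⟨y', hy', rfl⟩ := mem_image.1 (mem_coe.1 hw)
    exact Prod.ext ((h y hy y' hy').2 huw) huw
  rw [← h1, ← h2, card_image_of_injOn h3, card_image_of_injOn h4]

private theorem VAN_cs {π σ : Setoid V} {Y : Finset V} {a : V} (h : π ≤ σ) (hY : Satd π Y)
    (ha : a ∉ Y) (hYa : ∀ y ∈ Y, σ a y) :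
    cs (π ⊔ wire {b | b ∉ Y} σ) =
      cs σ + (Y.image (fun y => (Quotient.mk'' y : Quotient π))).card := by
  set τ : Setoid V := π ⊔ wire {b | b ∉ Y} σ with hτ
  have hrel : ∀ b c, τ b c ↔ π b c ∨ (b ∉ Y ∧ c ∉ Y ∧ σ b c) := fun b c => VAN_cut_rel h hY
  have h1 : (Y.image (fun y => (Quotient.mk'' y : Quotient τ))).card =
      (Y.image (fun y => (Quotient.mk'' y : Quotient π))).card := by
    apply VAN_card_image
    intro y hy y' hy'
    rw [Quotient.eq'', Quotient.eq'']
    rw [hrel]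
    constructor
    · rintro (h2 | ⟨h2, -⟩)
      · exact h2
      · exact absurd hy h2
    · exact Or.inl
  have h2 : (Yᶜ.image (fun y => (Quotient.mk'' y : Quotient τ))).card =
      (Yᶜ.image (fun y => (Quotient.mk'' y : Quotient σ))).card := by
    apply VAN_card_image
    intro y hy y' hy'
    rw [Quotient.eq'', Quotient.eq'']
    rw [hrel]
    constructor
    · rintro (h3 | ⟨-, -, h3⟩)
      · exact h h3
      · exact h3
    · intro h3
      exact Or.inr ⟨mem_compl.1 hy, mem_compl.1 hy', h3⟩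
  have h3 : Yᶜ.image (fun y => (Quotient.mk'' y : Quotient σ)) = univ := by
    rw [eq_univ_iff_forall]
    intro c
    induction c using Quotient.inductionOn' with
    | h b =>
      rw [mem_image]
      by_cases hb : b ∈ Y
      · exact ⟨a, mem_compl.2 ha, Quotient.sound' (hYa b hb)⟩
      · exact ⟨b, mem_compl.2 hb, rfl⟩
  have h4 : (univ : Finset (Quotient τ)) = Y.image (fun y => (Quotient.mk'' y : Quotient τ)) ∪
      Yᶜ.image (fun y => (Quotient.mk'' y : Quotient τ)) := by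
    symm
    rw [eq_univ_iff_forall]
    intro c
    induction c using Quotient.inductionOn' with
    | h b =>
      rw [mem_union, mem_image, mem_image]
      by_cases hb : b ∈ Y
      · exact Or.inl ⟨b, hb, rfl⟩
      · exact Or.inr ⟨b, mem_compl.2 hb, rfl⟩
  have h5 : Disjoint (Y.image (fun y => (Quotient.mk'' y : Quotient τ)))
      (Yᶜ.image (fun y => (Quotient.mk'' y : Quotient τ))) := by
    rw [disjoint_left]
    intro c hc hc'
    obtain ⟨y, hy, rfl⟩ := mem_image.1 hc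
    obtain ⟨b, hb, hyb⟩ := mem_image.1 hc'
    have h6 : τ b y := Quotient.exact' hyb
    rw [hrel] at h6
    rcases h6 with h6 | ⟨-, h6, -⟩
    · exact mem_compl.1 hb (hY _ _ (π.symm h6) hy)
    · exact h6 hy
  unfold cs
  rw [Nat.card_eq_fintype_card, Nat.card_eq_fintype_card, ← card_univ, ← card_univ, h4,
    card_union_of_disjoint h5, h1, h2, h3]
  ring

/-- a set which is closed under the edges and the wires is closed -/
private theorem VAN_closed {p : E → V × V} {A : Finset E} {θ : Setoid V} (P : V → Prop)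
    (h1 : ∀ e ∈ A, (P (p e).1 ↔ P (p e).2)) (h2 : ∀ b c, θ b c → P b → P c) {b c : V}
    (h : (gen p A ⊔ θ) b c) (hb : P b) : P c := by
  let τ : Setoid V :=
    { r := fun b c => P b ↔ P c
      iseqv := ⟨fun _ => Iff.rfl, fun h => h.symm, fun h h' => h.trans h'⟩ }
  have h3 : gen p A ⊔ θ ≤ τ := by
    refine sup_le (gen_le_iff.2 h1) ?_
    intro b c hbc
    exact ⟨h2 b c hbc, h2 c b (θ.symm hbc)⟩
  exact (h3 h).1 hb

/-- wiring the boundary of a flat does not change the partitions above it -/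
private theorem VAN_wi_self {p : E → V × V} {D : Finset E} {θ : Setoid V} {v h : V}
    {π σ : Setoid V} (hπ : Fl p D θ π) (h1 : π ≤ σ) (h2 : σ ≤ gen p D ⊔ θ) :
    wi p D v h π π σ = σ := by
  unfold wi
  apply le_antisymm
  · refine sup_le h1 ?_
    rw [wire_le_iff]
    intro _ _ _ _ h3
    exact h3
  · intro b c hbc
    rw [sup_wire_rel h1]
    by_cases hπbc : π b c
    · exact Or.inl hπbc
    right
    have key : ∀ b c, σ b c → ¬ π b c → ∃ b' ∈ Rv p D v h π, π b b' := by
      intro b c hbc hπbc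
      by_contra hcon
      push Not at hcon
      apply hπbc
      refine VAN_closed (p := p) (A := D) (θ := θ) (fun c => π b c) ?_ ?_ (h2 hbc) (π.refl b)
      · intro e he
        constructor
        · intro h3
          by_contra h4
          refine hcon (p e).1 (Or.inr (Or.inr ⟨e, ?_, Or.inl rfl⟩)) h3
          rw [mem_cutE]
          exact ⟨he, fun h5 => h4 (π.trans h3 h5)⟩
        · intro h3
          by_contra h4
          refine hcon (p e).2 (Or.inr (Or.inr ⟨e, ?_, Or.inr rfl⟩)) h3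
          rw [mem_cutE]
          exact ⟨he, fun h5 => h4 (π.trans h3 (π.symm h5))⟩
      · intro c d hcd hc
        exact π.trans hc (hπ.le hcd)
    obtain ⟨b', hb', hbb'⟩ := key b c hbc hπbc
    obtain ⟨c', hc', hcc'⟩ := key c b (σ.symm hbc) fun hc => hπbc (π.symm hc)
    exact ⟨b', hb', c', hc', hbb', σ.trans (σ.symm (h1 hbb')) (σ.trans hbc (h1 hcc')), π.symm hcc'⟩

private theorem VAN_main (p : E → V × V) (x : ℝ) (D : Finset E)
    (θ : Setoid V) (v h : V) (A : Setoid V → (Setoid V → ℝ) →ₗ[ℝ] ℝ) (hx : 0 < x)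
    (hA : IsA p x D θ v h A) (a : V) (n : ℕ) : ∀ π ∈ FL p D θ v h, cs π = n → ∀ Y : Finset V,
      Y.Nonempty → Satd π Y → v ∉ Y → h ∉ Y → Disjoint (cls π a) Y →
      (∀ e ∈ D, ((p e).1 ∈ Y → (p e).2 ∈ cls π a ∪ Y) ∧
        ((p e).2 ∈ Y → (p e).1 ∈ cls π a ∪ Y)) →
      Fl p D θ (π ⊔ wire ((cls π a ∪ Y : Finset V) : Set V) ⊤) → A π = 0 := by
  induction n using Nat.strong_induction_on with
  | _ n ih =>
  intro π hπ hn Y hYne hYs hvY hhY hdis hedge hfl
  have hπF : Fl p D θ π := (mem_FL.1 hπ).1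
  have hπvh : ¬ π v h := (mem_FL.1 hπ).2
  have mcls : ∀ (ρ : Setoid V) (b : V), b ∈ cls ρ a ↔ ρ a b := by
    intro ρ b
    simp [cls]
  have haY : a ∉ Y := fun ha => (disjoint_left.1 hdis) ((mcls π a).2 (π.refl a)) ha
  set W : Set V := ((cls π a ∪ Y : Finset V) : Set V) with hW
  have hmW : ∀ b, b ∈ W ↔ π a b ∨ b ∈ Y := by
    intro b
    rw [hW, mem_coe, mem_union, mcls]
  set π' : Setoid V := π ⊔ wire W ⊤ with hπ'
  -- the relation π'
  have hππ' : π ≤ π' := le_sup_left
  have hrelW : ∀ b ∈ W, π' a b := by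
    intro b hb
    exact (le_sup_right : wire W ⊤ ≤ π') (Or.inr ⟨(hmW a).2 (Or.inl (π.refl a)), hb, trivial⟩)
  have hout : ∀ b c, b ∉ Y → c ∉ Y → π' b c → π b c := by
    intro b c hb hc hbc
    rcases (sup_wire_rel (R := W) (σ := (⊤ : Setoid V)) (s := π) le_top).1 hbc with hbc | ⟨b', hb', c', hc', h1, -, h2⟩
    · exact hbc
    · have h3 : π a b' := ((hmW b').1 hb').resolve_right fun h4 => hb (hYs _ _ (π.symm h1) h4)
      have h4 : π a c' := ((hmW c').1 hc').resolve_right fun h4 => hc (hYs _ _ h2 h4)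
      exact π.trans h1 (π.trans (π.symm h3) (π.trans h4 h2))
  have hπ'FL : π' ∈ FL p D θ v h := by
    rw [mem_FL]
    exact ⟨hfl, fun h1 => hπvh (hout v h hvY hhY h1)⟩
  -- satisfied
  have hsat : ∀ ρ : Setoid V, π ≤ ρ → (Sat ρ W ↔ π' ≤ ρ) := by
    intro ρ hρ
    constructor
    · intro h1
      refine sup_le hρ ?_
      rw [wire_le_iff]
      intro b hb c hc _
      exact h1 b hb c hc
    · intro h1 b hb c hc
      exact h1 (π'.trans (π'.symm (hrelW b hb)) (hrelW c hc))
  have hπsat : ¬ π' ≤ π := by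
    intro h1
    obtain ⟨y, hy⟩ := hYne
    exact (disjoint_left.1 hdis) ((mcls π y).2 (h1 (hrelW y ((hmW y).2 (Or.inr hy))))) hy
  -- part (a)
  have hpa : ∀ ρ ∈ FL p D θ v h, π ≤ ρ → ρ ≠ π → ¬ π' ≤ ρ → A ρ = 0 := by
    intro ρ hρ hle hne hns
    have hρF : Fl p D θ ρ := (mem_FL.1 hρ).1
    have hcs : cs ρ < n := by
      rw [← hn]
      refine lt_of_le_of_ne (cs_anti hle) fun hc => hne ?_
      exact (eq_of_cs_le hle hc.ge).symm
    have hPP : ∀ b c, ρ b c → (b ∈ Y ∧ ¬ ρ a b) → (c ∈ Y ∧ ¬ ρ a c) := by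
      intro b c hbc hb
      have hbc' : (gen p (Din p D ρ) ⊔ θ) b c := by
        have h0 : ρ = gen p (Din p D ρ) ⊔ θ := hρF
        rw [← h0]
        exact hbc
      refine VAN_closed (p := p) (A := Din p D ρ) (θ := θ) (fun c => c ∈ Y ∧ ¬ ρ a c) ?_ ?_
        hbc' hb
      · intro e he
        obtain ⟨heD, heρ⟩ := mem_Din.1 he
        obtain ⟨he1, he2⟩ := hedge e heD
        constructor
        · rintro ⟨h1, h2⟩
          have h3 := he1 h1
          rw [mem_union, mcls] at h3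
          refine ⟨h3.resolve_left fun h4 => h2 (ρ.trans (hle h4) (ρ.symm heρ)), fun h4 => h2 ?_⟩
          exact ρ.trans h4 (ρ.symm heρ)
        · rintro ⟨h1, h2⟩
          have h3 := he2 h1
          rw [mem_union, mcls] at h3
          refine ⟨h3.resolve_left fun h4 => h2 (ρ.trans (hle h4) heρ), fun h4 => h2 ?_⟩
          exact ρ.trans h4 heρ
      · rintro b c hbc ⟨h1, h2⟩
        exact ⟨hYs _ _ (hπF.le hbc) h1, fun h3 => h2 (ρ.trans h3 (ρ.symm (hρF.le hbc)))⟩
    have hmY' : ∀ b, b ∈ Y \ cls ρ a ↔ b ∈ Y ∧ ¬ ρ a b := by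
      intro b
      rw [mem_sdiff, mcls]
    refine ih (cs ρ) hcs ρ hρ rfl (Y \ cls ρ a) ?_ ?_ ?_ ?_ ?_ ?_ ?_
    · rw [nonempty_iff_ne_empty]
      intro h0
      apply hns
      rw [← hsat ρ hle]
      have h1 : ∀ b ∈ W, ρ a b := by
        intro b hb
        rcases (hmW b).1 hb with h1 | h1
        · exact hle h1
        · by_contra h2
          have h3 := (hmY' b).2 ⟨h1, h2⟩
          rw [h0] at h3
          exact absurd h3 (notMem_empty b)
      intro b hb c hc
      exact ρ.trans (ρ.symm (h1 b hb)) (h1 c hc)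
    · intro b c hbc hb
      rw [hmY'] at hb ⊢
      exact hPP b c hbc hb
    · intro hv
      exact hvY ((hmY' v).1 hv).1
    · intro hh
      exact hhY ((hmY' h).1 hh).1
    · rw [disjoint_left]
      intro b hb hb'
      exact ((hmY' b).1 hb').2 ((mcls ρ b).1 hb)
    · intro e he
      obtain ⟨he1, he2⟩ := hedge e he
      constructor
      · intro h1
        have h2 := he1 ((hmY' _).1 h1).1
        rw [mem_union, mcls] at h2
        rw [mem_union, mcls, hmY']
        by_cases h3 : ρ a (p e).2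
        · exact Or.inl h3
        · exact Or.inr ⟨h2.resolve_left fun h4 => h3 (hle h4), h3⟩
      · intro h1
        have h2 := he2 ((hmY' _).1 h1).1
        rw [mem_union, mcls] at h2
        rw [mem_union, mcls, hmY']
        by_cases h3 : ρ a (p e).1
        · exact Or.inl h3
        · exact Or.inr ⟨h2.resolve_left fun h4 => h3 (hle h4), h3⟩
    · have heq : ρ ⊔ wire ((cls ρ a ∪ Y \ cls ρ a : Finset V) : Set V) ⊤ = ρ ⊔ π' := by
        apply le_antisymm
        · refine sup_le le_sup_left ?_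
          rw [wire_le_iff]
          have h1 : ∀ b ∈ ((cls ρ a ∪ Y \ cls ρ a : Finset V) : Set V), (ρ ⊔ π') a b := by
            intro b hb
            rw [mem_coe, mem_union, mcls, hmY'] at hb
            rcases hb with hb | ⟨hb, -⟩
            · exact (le_sup_left : ρ ≤ ρ ⊔ π') hb
            · exact (le_sup_right : π' ≤ ρ ⊔ π') (hrelW b ((hmW b).2 (Or.inr hb)))
          intro b hb c hc _
          exact (ρ ⊔ π').trans ((ρ ⊔ π').symm (h1 b hb)) (h1 c hc)
        · refine sup_le le_sup_left (sup_le (hle.trans le_sup_left) ?_)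
          rw [wire_le_iff]
          set τ := ρ ⊔ wire ((cls ρ a ∪ Y \ cls ρ a : Finset V) : Set V) ⊤ with hτ
          have h1 : ∀ b ∈ W, τ a b := by
            intro b hb
            by_cases h2 : ρ a b
            · exact (le_sup_left : ρ ≤ τ) h2
            · have h3 : b ∈ Y := ((hmW b).1 hb).resolve_left fun h4 => h2 (hle h4)
              refine (le_sup_right : wire ((cls ρ a ∪ Y \ cls ρ a : Finset V) : Set V) ⊤ ≤ τ)
                (Or.inr ⟨?_, ?_, trivial⟩)
              · rw [mem_coe, mem_union, mcls]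
                exact Or.inl (ρ.refl a)
              · rw [mem_coe, mem_union, hmY']
                exact Or.inr ⟨h3, h2⟩
          intro b hb c hc _
          exact τ.trans (τ.symm (h1 b hb)) (h1 c hc)
      rw [heq]
      exact hρF.sup hfl
  -- part (b)
  have hRv : ∀ ρ : Setoid V, π' ≤ ρ → ∀ b ∈ Rv p D v h ρ, b ∉ Y := by
    intro ρ hρ b hb hbY
    rcases hb with rfl | rfl | ⟨e, he, hbe⟩
    · exact hvY hbY
    · exact hhY hbY
    · obtain ⟨heD, hne⟩ := mem_cutE.1 he
      obtain ⟨he1, he2⟩ := hedge e heD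
      have hWW : ∀ c ∈ cls π a ∪ Y, ρ a c := fun c hc => hρ (hrelW c hc)
      rcases hbe with rfl | rfl
      · exact hne (ρ.trans (ρ.symm (hWW _ (mem_union_right _ hbY))) (hWW _ (he1 hbY)))
      · exact hne (ρ.trans (ρ.symm (hWW _ (he2 hbY))) (hWW _ (mem_union_right _ hbY)))
  have hcut : ∀ ρ σ : Setoid V, π' ≤ ρ → ρ ≤ σ →
      π ⊔ wire {b | b ∉ Y} (wi p D v h π' ρ σ) = wi p D v h π ρ σ := by
    intro ρ σ hρ hσ
    unfold wi
    apply le_antisymm
    · refine sup_le le_sup_left ?_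
      rw [wire_le_iff]
      intro b hb c hc hbc
      rw [sup_wire_rel (hρ.trans hσ)] at hbc
      rcases hbc with hbc | ⟨b', hb', c', hc', h1, h2, h3⟩
      · exact (le_sup_left : π ≤ π ⊔ wire (Rv p D v h ρ) σ) (hout b c hb hc hbc)
      · rw [sup_wire_rel ((hππ'.trans hρ).trans hσ)]
        right
        exact ⟨b', hb', c', hc', hout b b' hb (hRv ρ hρ b' hb') h1, h2,
          hout c' c (hRv ρ hρ c' hc') hc h3⟩
    · refine sup_le le_sup_left ?_
      rw [wire_le_iff]
      intro b hb c hc hbc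
      refine (le_sup_right : wire {b | b ∉ Y} (π' ⊔ wire (Rv p D v h ρ) σ) ≤ _)
        (Or.inr ⟨hRv ρ hρ b hb, hRv ρ hρ c hc, ?_⟩)
      exact (le_sup_right : wire (Rv p D v h ρ) σ ≤ _) (Or.inr ⟨hb, hc, hbc⟩)
  have hcut' : π ⊔ wire {b | b ∉ Y} π' = π := by
    apply le_antisymm _ le_sup_left
    refine sup_le le_rfl ?_
    rw [wire_le_iff]
    intro b hb c hc hbc
    exact hout b c hb hc hbc
  have hcs' : ∀ ρ : Setoid V, π' ≤ ρ →
      cs π - cs (wi p D v h π ρ ρ) = cs π' - cs (wi p D v h π' ρ ρ) := by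
    intro ρ hρ
    have h1 := VAN_cs (a := a) hππ' hYs haY (fun y hy => hrelW y ((hmW y).2 (Or.inr hy)))
    rw [hcut'] at h1
    have h2 : π' ≤ wi p D v h π' ρ ρ := le_sup_left
    have h3 := VAN_cs (a := a) (hππ'.trans h2) hYs haY
      (fun y hy => h2 (hrelW y ((hmW y).2 (Or.inr hy))))
    rw [hcut ρ ρ hρ le_rfl] at h3
    omega
  -- the value at π'
  obtain ⟨hA1, hA2⟩ := hA
  have hb : ∀ g : Setoid V → ℝ, g π = ∑ ρ ∈ (FL p D θ v h).filter (fun ρ => π' ≤ ρ),
      (1 / x) ^ (cs π - cs (wi p D v h π ρ ρ)) * A ρ (fun σ => g (wi p D v h π ρ σ)) := by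
    intro g
    have h1 := hA2 π' hπ'FL (fun σ => g (π ⊔ wire {b | b ∉ Y} σ))
    simp only [hcut'] at h1
    rw [h1]
    refine sum_congr rfl fun ρ hρ => ?_
    obtain ⟨hρ1, hρ2⟩ := mem_filter.1 hρ
    rw [hcs' ρ hρ2]
    congr 1
    refine hA1 ρ hρ1 _ _ fun σ hσ1 _ => ?_
    simp only [hcut ρ σ hρ2 hσ1]
  -- conclusion
  refine LinearMap.ext fun g => ?_
  have h1 := hA2 π hπ g
  have h2 : (FL p D θ v h).filter (fun ρ => π ≤ ρ) =
      insert π ((FL p D θ v h).filter (fun ρ => π' ≤ ρ) ∪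
        (FL p D θ v h).filter (fun ρ => π ≤ ρ ∧ ρ ≠ π ∧ ¬ π' ≤ ρ)) := by
    ext ρ
    simp only [mem_filter, mem_insert, mem_union]
    constructor
    · rintro ⟨h3, h4⟩
      by_cases h5 : ρ = π
      · exact Or.inl h5
      · by_cases h6 : π' ≤ ρ
        · exact Or.inr (Or.inl ⟨h3, h6⟩)
        · exact Or.inr (Or.inr ⟨h3, h4, h5, h6⟩)
    · rintro (rfl | ⟨h3, h4⟩ | ⟨h3, h4, -, -⟩)
      · exact ⟨hπ, le_rfl⟩
      · exact ⟨h3, hππ'.trans h4⟩
      · exact ⟨h3, h4⟩
  rw [h2, sum_insert, sum_union, ← hb g] at h1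
  · have h3 : ∑ ρ ∈ (FL p D θ v h).filter (fun ρ => π ≤ ρ ∧ ρ ≠ π ∧ ¬ π' ≤ ρ),
        (1 / x) ^ (cs π - cs (wi p D v h π ρ ρ)) * A ρ (fun σ => g (wi p D v h π ρ σ)) = 0 := by
      refine sum_eq_zero fun ρ hρ => ?_
      obtain ⟨h4, h5, h6, h7⟩ := mem_filter.1 hρ
      rw [hpa ρ h4 h5 h6 h7]
      simp
    rw [h3] at h1
    have h4 : A π (fun σ => g (wi p D v h π π σ)) = A π g :=
      hA1 π hπ _ _ fun σ hσ1 hσ2 => by
        simp only [VAN_wi_self hπF hσ1 hσ2]
    rw [h4] at h1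
    have h5 : (1 / x) ^ (cs π - cs (wi p D v h π π π)) * A π g = 0 := by linarith
    have h6 : (1 / x) ^ (cs π - cs (wi p D v h π π π)) ≠ 0 :=
      pow_ne_zero _ (one_div_ne_zero hx.ne')
    rw [LinearMap.zero_apply]
    exact (mul_eq_zero.1 h5).resolve_left h6
  · rw [disjoint_left]
    intro ρ h3 h4
    exact (mem_filter.1 h4).2.2.2 (mem_filter.1 h3).2
  · rw [mem_union, mem_filter, mem_filter]
    rintro (⟨-, h3⟩ | ⟨-, -, h3, -⟩)
    · exact hπsat h3
    · exact h3 rfl

end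

theorem p_VAN : S_VAN := by
  intro V E _ _ p x D θ v h A hx hA π hπ a Y hY1 hY2 hv hh hd he hf
  exact VAN_main p x D θ v h A hx hA a (cs π) π hπ rfl Y hY1 hY2 hv hh hd he hf

end Pool.Agent.Lib.MP_4a8162_co.FB
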