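import Pool.Agent.Lib.MP_4a8162_co.FB.StmC

set_option autoImplicit false

/-!
# MP_4a8162_co, REAL FLOW ROOTS ARE BOUNDED: piece `CFR`
-/

namespace Pool.Agent.Lib.MP_4a8162_co.FB

open Finset
open scoped Classical

/-- a class of the flat without boundary vertices is a class of the partition into components -/
private theorem cfr_closed {V E : Type} [Fintype V] [Fintype E] {p : E → V × V} {D : Finset E}
    {θ ρ : Setoid V} {v h w : V} (hθ : θ ≤ ρ) (hw : ∀ r ∈ Rv p D v h ρ, ¬ ρ w r) {x : V}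
    (hx : (gen p D ⊔ θ) w x) : ρ w x := by
  let t : Setoid V :=
    { r := fun a b => ρ w a ↔ ρ w b
      iseqv := ⟨fun _ => Iff.rfl, fun h => h.symm, fun h1 h2 => h1.trans h2⟩ }
  have h1 : gen p D ⊔ θ ≤ t := by
    apply sup_le
    · rw [gen_le_iff]
      intro e he
      show ρ w (p e).1 ↔ ρ w (p e).2
      by_cases hr : ρ (p e).1 (p e).2
      · exact ⟨fun h2 => ρ.trans h2 hr, fun h2 => ρ.trans h2 (ρ.symm hr)⟩
      · have hc : e ∈ cutE p D ρ := mem_cutE.2 ⟨he, hr⟩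
        have h3 := hw _ (show (p e).1 ∈ Rv p D v h ρ from Or.inr (Or.inr ⟨e, hc, Or.inl rfl⟩))
        have h4 := hw _ (show (p e).2 ∈ Rv p D v h ρ from Or.inr (Or.inr ⟨e, hc, Or.inr rfl⟩))
        exact ⟨fun h5 => absurd h5 h3, fun h5 => absurd h5 h4⟩
    · intro a b hab
      show ρ w a ↔ ρ w b
      have hr : ρ a b := hθ hab
      exact ⟨fun h2 => ρ.trans h2 hr, fun h2 => ρ.trans h2 (ρ.symm hr)⟩
  have h2 : ρ w w ↔ ρ w x := h1 hx
  exact h2.1 (ρ.refl w)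

theorem p_CFR : S_CFR := by
  intro V E _ _ p D U θ v h c hvU hhU hvh ρ hρ hWh σ hρσ hσf
  rw [mem_FL] at hρ
  obtain ⟨hFl, hnvh⟩ := hρ
  have hθρ : θ ≤ ρ := hFl.le
  have hρeq : ρ = gen p (Din p D ρ) ⊔ θ := hFl
  obtain ⟨F, hF⟩ : ∃ F, F = gen p D ⊔ θ := ⟨_, rfl⟩
  obtain ⟨R, hR⟩ : ∃ R, R = Rv p D v h ρ := ⟨_, rfl⟩
  have hDF : gen p D ≤ F := by rw [hF]; exact le_sup_left
  have hclosed : ∀ w, (∀ r ∈ R, ¬ ρ w r) → ∀ x, F w x → ρ w x := by
    intro w hw x hx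
    rw [hR] at hw
    rw [hF] at hx
    exact cfr_closed hθρ hw hx
  have hWh' : ∀ a b, F a b → ¬ F a v → ρ a b := by
    rw [hF]
    exact hWh
  have hatt : ∀ w, ∃ u ∈ U, F w u := by
    rw [hF]
    exact c.att
  have hhub : ∀ a ∈ U, ∀ b ∈ U, F a b → θ a b := by
    rw [hF]
    exact c.hub
  have hvR : v ∈ R := by rw [hR]; exact Or.inl rfl
  have hhR : h ∈ R := by rw [hR]; exact Or.inr (Or.inl rfl)
  have heR : ∀ e ∈ cutE p D ρ, (p e).1 ∈ R ∧ (p e).2 ∈ R := by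
    intro e he
    rw [hR]
    exact ⟨Or.inr (Or.inr ⟨e, he, Or.inl rfl⟩), Or.inr (Or.inr ⟨e, he, Or.inr rfl⟩)⟩
  rw [← hF] at hvh hσf
  -- the elements of `R` are in the class of `v`
  have hRv : ∀ a ∈ R, F a v := by
    intro a ha
    rw [hR] at ha
    rcases ha with rfl | rfl | ⟨e, he, hae⟩
    · exact F.refl _
    · exact F.symm hvh
    · rw [mem_cutE] at he
      have h1 : F (p e).1 (p e).2 := hDF (gen_rel he.1)
      have h2 : F (p e).1 v := by
        by_contra hc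
        exact he.2 (hWh' _ _ h1 hc)
      rcases hae with rfl | rfl
      · exact h2
      · exact F.trans (F.symm h1) h2
  have hUR : ∀ a, a ∈ UR p D U v h ρ ↔ a ∈ U ∨ a ∈ R := by
    intro a
    rw [hR]
    simp [UR]
  rw [← hR]
  obtain ⟨θ', hθ'⟩ : ∃ θ', θ' = θ ⊔ wire R σ := ⟨_, rfl⟩
  have hwσ : wire R σ ≤ σ := by
    rw [wire_le_iff]
    exact fun _ _ _ _ hab => hab
  have hθ'σ : θ' ≤ σ := by
    rw [hθ']
    exact sup_le (hθρ.trans hρσ) hwσ
  have hDσ : gen p (Din p D σ) ≤ σ := by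
    rw [gen_le_iff]
    exact fun e he => (mem_Din.1 he).2
  have hθθ' : θ ≤ θ' := by rw [hθ']; exact le_sup_left
  have hwθ' : wire R σ ≤ θ' := by rw [hθ']; exact le_sup_right
  rw [← hθ']
  obtain ⟨F', hF'⟩ : ∃ F', F' = gen p (Din p D σ) ⊔ θ' := ⟨_, rfl⟩
  have hF'σ : F' ≤ σ := by rw [hF']; exact sup_le hDσ hθ'σ
  have hρF' : ρ ≤ F' := by
    rw [hρeq, hF']
    refine sup_le_sup (gen_mono ?_) hθθ'
    intro e he
    rw [mem_Din] at he ⊢
    exact ⟨he.1, hρσ he.2⟩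
  have hθ'F' : θ' ≤ F' := by rw [hF']; exact le_sup_right
  -- the main claim
  have hclaim : ∀ a, (a ∈ U ∨ a ∈ R) → ∀ b, (b ∈ U ∨ b ∈ R) → σ a b → θ' a b := by
    have hr : ∀ a, (a ∈ U ∨ a ∈ R) → F a v → ∃ r ∈ R, θ a r := by
      rintro a (ha | ha) hav
      · exact ⟨h, hhR, hhub _ ha _ hhU (F.trans hav hvh)⟩
      · exact ⟨a, ha, θ.refl a⟩
    intro a ha b hb hab
    have hFab : F a b := hσf hab
    by_cases hav : F a v
    · obtain ⟨r, hrR, har⟩ := hr a ha hav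
      obtain ⟨s, hsR, hbs⟩ := hr b hb (F.trans (F.symm hFab) hav)
      have hσθ : θ ≤ σ := hθρ.trans hρσ
      have h1 : σ r s := σ.trans (σ.symm (hσθ har)) (σ.trans hab (hσθ hbs))
      have h2 : wire R σ r s := Or.inr ⟨hrR, hsR, h1⟩
      exact θ'.trans (hθθ' har) (θ'.trans (hwθ' h2) (θ'.symm (hθθ' hbs)))
    · have haU : a ∈ U := ha.resolve_right fun hc => hav (hRv a hc)
      have hbU : b ∈ U := hb.resolve_right fun hc => hav (F.trans hFab (hRv b hc))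
      exact hθθ' (hhub _ haU _ hbU hFab)
  have hex : ∀ a, F a v → ∃ r ∈ R, ρ a r := by
    intro a hav
    by_contra hc
    push Not at hc
    exact hc v hvR (hclosed a hc v hav)
  rw [← hF']
  refine ⟨⟨?_, ?_, ?_, ?_⟩, ?_⟩
  · intro a b hab
    have h1 : θ' ≤ wire {x | x ∈ UR p D U v h ρ} ⊤ := by
      rw [hθ']
      apply sup_le
      · intro x y hxy
        rcases c.wired _ _ hxy with h2 | ⟨h2, h3⟩
        · exact Or.inl h2
        · exact Or.inr ⟨(hUR _).2 (Or.inl h2), (hUR _).2 (Or.inl h3), trivial⟩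
      · rw [wire_le_iff]
        intro x hx y hy _
        exact Or.inr ⟨(hUR _).2 (Or.inr hx), (hUR _).2 (Or.inr hy), trivial⟩
    rcases h1 hab with h2 | ⟨h2, h3, -⟩
    · exact Or.inl h2
    · exact Or.inr ⟨h2, h3⟩
  · intro e
    constructor
    · intro he h1 h2
      exact hclaim _ ((hUR _).1 h1) _ ((hUR _).1 h2) (mem_Din.1 he).2
    · intro himp
      by_cases hb : (p e).1 ∈ UR p D U v h ρ ∧ (p e).2 ∈ UR p D U v h ρ
      · have h1 : σ (p e).1 (p e).2 := hθ'σ (himp hb.1 hb.2)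
        rw [mem_Din]
        refine ⟨(c.edges e).2 fun h2 h3 => hhub _ h2 _ h3 (hσf h1), h1⟩
      · have he : e ∈ D := by
          rw [c.edges e]
          intro h2 h3
          exact absurd ⟨(hUR _).2 (Or.inl h2), (hUR _).2 (Or.inl h3)⟩ hb
        rw [mem_Din]
        refine ⟨he, hρσ ?_⟩
        by_contra hc
        obtain ⟨h2, h3⟩ := heR e (mem_cutE.2 ⟨he, hc⟩)
        exact hb ⟨(hUR _).2 (Or.inr h2), (hUR _).2 (Or.inr h3)⟩
  · intro a ha b hb hab
    rw [← hF'] at hab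
    exact hclaim a ((hUR _).1 ha) b ((hUR _).1 hb) (hF'σ hab)
  · intro w
    rw [← hF']
    by_cases hw : ∃ r ∈ R, ρ w r
    · obtain ⟨r, hr, hwr⟩ := hw
      exact ⟨r, (hUR _).2 (Or.inr hr), hρF' hwr⟩
    · push Not at hw
      obtain ⟨u, hu, hwu⟩ := hatt w
      exact ⟨u, (hUR _).2 (Or.inl hu), hρF' (hclosed w hw u hwu)⟩
  · apply le_antisymm hF'σ
    intro a b hab
    have hFab : F a b := hσf hab
    by_cases hav : F a v
    · obtain ⟨r, hrR, har⟩ := hex a hav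
      obtain ⟨s, hsR, hbs⟩ := hex b (F.trans (F.symm hFab) hav)
      have h1 : σ r s := σ.trans (σ.symm (hρσ har)) (σ.trans hab (hρσ hbs))
      have h2 : wire R σ r s := Or.inr ⟨hrR, hsR, h1⟩
      exact F'.trans (hρF' har) (F'.trans (hθ'F' (hwθ' h2)) (F'.symm (hρF' hbs)))
    · exact hρF' (hWh' a b hFab hav)

end Pool.Agent.Lib.MP_4a8162_co.FB
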