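import Pool.Agent.Lib.MP_4a8162_co.FB.StmF

set_option autoImplicit false

namespace Pool.Agent.Lib.MP_4a8162_co.FB

open Finset
open scoped Classical

private theorem CIR_cs_bot {V : Type} [Fintype V] : cs (⊥ : Setoid V) = Fintype.card V := by
  unfold cs
  rw [← Nat.card_eq_fintype_card]
  symm
  apply Nat.card_eq_of_bijective (Quotient.mk'' : V → Quotient (⊥ : Setoid V))
  constructor
  · intro a b hab
    exact (Quotient.exact' hab : (⊥ : Setoid V) a b)
  · intro q
    induction q using Quotient.inductionOn' with
    | h a => exact ⟨a, rfl⟩

private theorem CIR_le {V E : Type} [Fintype V] [Fintype E] (p : E → V × V) (B : Finset E) :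
    Fintype.card V ≤ cs (gen p B) + B.card := by
  induction B using Finset.induction_on with
  | empty => rw [gen_empty, CIR_cs_bot]; omega
  | insert e B he ih =>
    rw [gen_insert, Finset.card_insert_of_notMem he]
    have := cs_le_jn (p e).1 (p e).2 (gen p B)
    omega

private noncomputable def CIR_N {V E : Type} [Fintype V] [Fintype E] (p : E → V × V) (x : ℝ)
    (C K B : Finset E) : ℝ := PolD p x (Cᶜ ∪ K) (gen p B) / x ^ cs (gen p B)

private theorem CIR_step1 {V E : Type} [Fintype V] [Fintype E] (hPDI : S_PDI) (p : E → V × V)
    (x : ℝ) (hx : 0 < x) (C K B : Finset E) (e : E) (he : e ∈ K) (hK : K ⊆ C)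
    (hr : ¬ gen p B (p e).1 (p e).2) :
    CIR_N p x C K B = CIR_N p x C (K.erase e) (insert e B) - CIR_N p x C (K.erase e) B := by
  have h1 : Cᶜ ∪ K = insert e (Cᶜ ∪ K.erase e) := by
    ext f
    simp only [mem_union, mem_compl, mem_insert, mem_erase]
    by_cases hf : f = e
    · subst hf; simp [he]
    · simp [hf]
  have h2 : e ∉ Cᶜ ∪ K.erase e := by
    simp only [mem_union, mem_compl, mem_erase, not_or, not_not]
    exact ⟨hK he, fun h => h.1 rfl⟩
  have h3 := hPDI V E p x (Cᶜ ∪ K.erase e) (gen p B) e h2
  have h4 := cs_jn hr
  unfold CIR_N
  rw [h1, h3, gen_insert, ← h4, pow_succ]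
  have hx1 : x ^ cs (gen p B ⊔ jn (p e).1 (p e).2) ≠ 0 := by positivity
  field_simp

private theorem CIR_step2 {V E : Type} [Fintype V] [Fintype E] (hPDI : S_PDI) (p : E → V × V)
    (x : ℝ) (C K B : Finset E) (e : E) (he : e ∈ K) (hK : K ⊆ C)
    (hr : gen p B (p e).1 (p e).2) :
    CIR_N p x C K B = (x - 1) * CIR_N p x C (K.erase e) B := by
  have h1 : Cᶜ ∪ K = insert e (Cᶜ ∪ K.erase e) := by
    ext f
    simp only [mem_union, mem_compl, mem_insert, mem_erase]
    by_cases hf : f = e
    · subst hf; simp [he]
    · simp [hf]
  have h2 : e ∉ Cᶜ ∪ K.erase e := by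
    simp only [mem_union, mem_compl, mem_erase, not_or, not_not]
    exact ⟨hK he, fun h => h.1 rfl⟩
  have h3 := hPDI V E p x (Cᶜ ∪ K.erase e) (gen p B) e h2
  rw [sup_jn_of_rel hr] at h3
  unfold CIR_N
  rw [h1, h3]
  ring

theorem p_CIR : S_PDI → S_CIR := by
  intro hPDI x r hx hPW V E _ _ p hnl hbr A hAx hA
  have hx0 : 0 < x := by linarith
  have hnl' : (univ : Finset E).card + cs (gen p univ) < r + 1 + Fintype.card V := by
    have := hnl
    unfold NlLt at this
    rwa [sup_bot_eq, CIR_cs_bot] at this
  have hbr' : ∀ e, gen p (univ.erase e) (p e).1 (p e).2 := by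
    intro e
    have := hbr e (mem_univ e)
    rwa [sup_bot_eq] at this
  have hAlt : Fintype.card V < cs (gen p A) + A.card :=
    lt_of_le_of_ne (CIR_le p A) (Ne.symm hA)
  -- the minimal dependent set
  obtain ⟨C, hC, hCmin⟩ := Finset.exists_min_image
    (A.powerset.filter fun C => Fintype.card V < cs (gen p C) + C.card) Finset.card
    ⟨A, by rw [mem_filter, mem_powerset]; exact ⟨Subset.refl A, hAlt⟩⟩
  rw [mem_filter, mem_powerset] at hC
  obtain ⟨hCA, hCd⟩ := hC
  have hind : ∀ B : Finset E, B ⊂ C → cs (gen p B) + B.card = Fintype.card V := by
    intro B hB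
    by_contra hne
    have h1 : Fintype.card V < cs (gen p B) + B.card :=
      lt_of_le_of_ne (CIR_le p B) (Ne.symm hne)
    have h2 := hCmin B (by
      rw [mem_filter, mem_powerset]
      exact ⟨hB.1.trans hCA, h1⟩)
    have h3 := Finset.card_lt_card hB
    omega
  have hCne : C.Nonempty := by
    rw [Finset.nonempty_iff_ne_empty]
    rintro rfl
    rw [gen_empty, CIR_cs_bot] at hCd
    simp at hCd
  have hgenC : ∀ e ∈ C, gen p (C.erase e) = gen p C := by
    intro e he
    apply eq_of_cs_le (gen_mono (erase_subset _ _))
    have h1 := hind (C.erase e) (Finset.erase_ssubset he)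
    rw [Finset.card_erase_of_mem he] at h1
    have h2 := Finset.card_pos.2 hCne
    omega
  have hkx : (C.card : ℝ) < x := by
    have : (C.card : ℝ) ≤ A.card := by exact_mod_cast Finset.card_le_card hCA
    linarith
  set N0 := CIR_N p x C ∅ C with hN0
  -- positivity of N0
  have hN0pos : 0 < N0 := by
    have h1 : NlLt p Cᶜ (gen p C) r := by
      unfold NlLt
      rw [← gen_union]
      have h2 : Cᶜ ∪ C = univ := by
        ext f; simp only [mem_union, mem_compl, mem_univ, iff_true]; tauto
      rw [h2]
      have h3 := Finset.card_add_card_compl C
      rw [← Finset.card_univ] at h3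
      omega
    have h2 : Brl p Cᶜ (gen p C) := by
      intro e he
      rw [← gen_union]
      have h3 : Cᶜ.erase e ∪ C = univ.erase e := by
        ext f
        simp only [mem_union, mem_erase, mem_compl, mem_univ, and_true]
        rw [mem_compl] at he
        by_cases hf : f = e
        · subst hf; simp [he]
        · simp [hf]; tauto
      rw [h3]
      exact hbr' e
    have h3 := (hPW V E p Cᶜ (gen p C) h1).2 h2
    rw [hN0]
    unfold CIR_N
    rw [union_empty]
    positivity
  -- (1)
  have key1 : ∀ m : ℕ, ∀ K B : Finset E, K.card = m → ∀ e ∈ C, Disjoint K B → K ∪ B = C.erase e →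
      CIR_N p x C K B ≤ N0 := by
    intro m
    induction m with
    | zero =>
      intro K B hK e he _ hKB
      rw [Finset.card_eq_zero] at hK
      subst hK
      rw [empty_union] at hKB
      rw [hKB, hN0]
      unfold CIR_N
      rw [hgenC e he]
    | succ m ih =>
      intro K B hK e he hdis hKB
      have hKne : K.Nonempty := by
        rw [← Finset.card_pos]; omega
      obtain ⟨e', he'⟩ := hKne
      have hKC : K ⊆ C := by
        intro f hf
        have : f ∈ C.erase e := by rw [← hKB]; exact mem_union_left _ hf
        exact mem_of_mem_erase this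
      have he'B : e' ∉ B := Finset.disjoint_left.1 hdis he'
      have he'C : e' ∈ C := hKC he'
      have he'e : e' ≠ e := by
        have : e' ∈ C.erase e := by rw [← hKB]; exact mem_union_left _ he'
        exact ne_of_mem_erase this
      have hBC : B ⊂ C := by
        refine ⟨?_, ?_⟩
        · intro f hf
          have : f ∈ C.erase e := by rw [← hKB]; exact mem_union_right _ hf
          exact mem_of_mem_erase this
        · intro hcon
          exact he'B (hcon he'C)
      have hiBC : insert e' B ⊂ C := by
        refine ⟨?_, ?_⟩
        · intro f hf
          rcases mem_insert.1 hf with rfl | hf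
          · exact he'C
          · exact hBC.1 hf
        · intro hcon
          have h1 := hcon he
          rcases mem_insert.1 h1 with h1 | h1
          · exact he'e h1.symm
          · have : e ∈ C.erase e := by rw [← hKB]; exact mem_union_right _ h1
            exact (ne_of_mem_erase this) rfl
      have hr : ¬ gen p B (p e').1 (p e').2 := by
        intro hcon
        have h1 := hind _ hiBC
        have h2 := hind _ hBC
        rw [gen_insert, sup_jn_of_rel hcon, Finset.card_insert_of_notMem he'B] at h1
        omega
      have hstep := CIR_step1 hPDI p x hx0 C K B e' he' hKC hr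
      have hih := ih (K.erase e') (insert e' B) (by rw [Finset.card_erase_of_mem he']; omega) e he
        (by
          rw [Finset.disjoint_left]
          intro f hf hf'
          rcases mem_insert.1 hf' with rfl | hf'
          · exact (ne_of_mem_erase hf) rfl
          · exact Finset.disjoint_left.1 hdis (mem_of_mem_erase hf) hf')
        (by
          rw [← hKB]
          ext f
          simp only [mem_union, mem_erase, mem_insert]
          by_cases hf : f = e'
          · subst hf; simp [he']
          · simp [hf])
      have hpos : 0 ≤ CIR_N p x C (K.erase e') B := by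
        unfold CIR_N
        have hU : Cᶜ ∪ K.erase e' ∪ B = (univ.erase e).erase e' := by
          ext f
          have hf0 : f ∈ K ∪ B ↔ f ∈ C.erase e := by rw [hKB]
          simp only [mem_union, mem_erase] at hf0
          simp only [mem_union, mem_compl, mem_erase, mem_univ, and_true]
          by_cases hf : f = e'
          · subst hf
            simp [he'C, he'B]
          · simp only [ne_eq, hf, not_false_eq_true, true_and]
            by_cases hfe : f = e
            · subst hfe
              simp [he] at hf0
              simp [he, hf0]
            · simp only [ne_eq, hfe, not_false_eq_true, true_and] at hf0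
              simp only [hfe, not_false_eq_true, iff_true]
              tauto
        have hdisj : Disjoint (Cᶜ ∪ K.erase e') B := by
          rw [Finset.disjoint_left]
          intro f hf hf'
          rcases mem_union.1 hf with hf | hf
          · exact (mem_compl.1 hf) (hBC.1 hf')
          · exact Finset.disjoint_left.1 hdis (mem_of_mem_erase hf) hf'
        have hcardU : (Cᶜ ∪ K.erase e').card + B.card + 2 = (univ : Finset E).card := by
          rw [← Finset.card_union_of_disjoint hdisj, hU, Finset.card_erase_of_mem (by
            rw [mem_erase]; exact ⟨he'e, mem_univ _⟩), Finset.card_erase_of_mem (mem_univ _)]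
          have h1 : ({e, e'} : Finset E).card = 2 := Finset.card_pair he'e.symm
          have h2 := Finset.card_le_univ ({e, e'} : Finset E)
          rw [← Finset.card_univ] at h2
          omega
        have hgu : gen p (univ.erase e) = gen p univ := by
          have h1 : (univ : Finset E) = insert e (univ.erase e) :=
            (Finset.insert_erase (mem_univ e)).symm
          conv_rhs => rw [h1]
          rw [gen_insert, sup_jn_of_rel (hbr' e)]
        have hge : cs (gen p ((univ.erase e).erase e')) ≤ cs (gen p univ) + 1 := by
          rw [← hgu]
          have h1 : univ.erase e = insert e' ((univ.erase e).erase e') :=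
            (Finset.insert_erase (mem_erase.2 ⟨he'e, mem_univ _⟩)).symm
          conv_rhs => rw [h1]
          rw [gen_insert]
          exact cs_le_jn _ _ _
        have hnlB : NlLt p (Cᶜ ∪ K.erase e') (gen p B) r := by
          unfold NlLt
          rw [← gen_union, hU]
          have h1 := hind _ hBC
          omega
        have h1 := (hPW V E p _ _ hnlB).1
        positivity
      linarith
  -- (2)
  have key2 : ∀ m : ℕ, ∀ K : Finset E, K.card = m → K.Nonempty → K ⊆ C →
      (x - K.card) * N0 ≤ CIR_N p x C K (C \ K) := by
    intro m
    induction m with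
    | zero =>
      intro K hK hKne
      rw [Finset.card_eq_zero] at hK
      subst hK
      exact absurd hKne (by simp)
    | succ m ih =>
      intro K hK hKne hKC
      obtain ⟨e, he⟩ := hKne
      have heC : e ∈ C := hKC he
      by_cases hK1 : K = {e}
      · subst hK1
        have h1 : C \ {e} = C.erase e := by
          rw [Finset.sdiff_singleton_eq_erase]
        have h2 : gen p (C \ {e}) = gen p C := by rw [h1, hgenC e heC]
        have h3 : gen p (C \ {e}) (p e).1 (p e).2 := by
          rw [h2]; exact gen_rel heC
        have h4 := CIR_step2 hPDI p x C {e} (C \ {e}) e (by simp) hKC h3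
        rw [h4, hN0]
        unfold CIR_N
        rw [h2]
        simp
      · have hKe : (K.erase e).Nonempty := by
          rw [Finset.nonempty_iff_ne_empty]
          intro hcon
          apply hK1
          rw [Finset.erase_eq_empty_iff] at hcon
          rcases hcon with h | h
          · rw [h] at he; simp at he
          · exact h
        have hins : insert e (C \ K) = C \ K.erase e := by
          ext f
          simp only [mem_insert, mem_sdiff, mem_erase]
          by_cases hf : f = e
          · subst hf; simp [heC]
          · simp [hf]
        have hssub : insert e (C \ K) ⊂ C := by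
          rw [hins]
          refine ⟨sdiff_subset, ?_⟩
          intro hcon
          obtain ⟨f, hf⟩ := hKe
          have h1 := hcon (hKC (mem_of_mem_erase hf))
          exact (mem_sdiff.1 h1).2 hf
        have hssub' : C \ K ⊂ C := by
          refine ⟨sdiff_subset, ?_⟩
          intro hcon
          exact (mem_sdiff.1 (hcon heC)).2 he
        have heB : e ∉ C \ K := fun h => (mem_sdiff.1 h).2 he
        have hr : ¬ gen p (C \ K) (p e).1 (p e).2 := by
          intro hcon
          have h1 := hind _ hssub
          have h2 := hind _ hssub'
          rw [gen_insert, sup_jn_of_rel hcon, Finset.card_insert_of_notMem heB] at h1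
          omega
        have hstep := CIR_step1 hPDI p x hx0 C K (C \ K) e he hKC hr
        have hcK : (K.erase e).card = m := by rw [Finset.card_erase_of_mem he]; omega
        have h1 := ih (K.erase e) hcK hKe ((erase_subset _ _).trans hKC)
        rw [← hins] at h1
        have h2 := key1 (K.erase e).card (K.erase e) (C \ K) rfl e heC
          (by
            rw [Finset.disjoint_left]
            intro f hf hf'
            exact (mem_sdiff.1 hf').2 (mem_of_mem_erase hf))
          (by
            ext f
            simp only [mem_union, mem_erase, mem_sdiff]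
            constructor
            · rintro (⟨h3, h4⟩ | ⟨h3, h4⟩)
              · exact ⟨h3, hKC h4⟩
              · exact ⟨fun h5 => h4 (h5 ▸ he), h3⟩
            · rintro ⟨h3, h4⟩
              by_cases h5 : f ∈ K
              · exact Or.inl ⟨h3, h5⟩
              · exact Or.inr ⟨h4, h5⟩)
        rw [hstep]
        rw [hcK] at h1
        rw [hK]
        push_cast
        nlinarith [h1, h2]
  have hfin := key2 C.card C rfl hCne (Subset.refl C)
  have h1 : 0 < CIR_N p x C C (C \ C) := by
    have : 0 < (x - C.card) * N0 := mul_pos (by linarith) hN0pos
    linarith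
  unfold CIR_N at h1
  have h2 : Cᶜ ∪ C = univ := by
    ext f; simp only [mem_union, mem_compl, mem_univ, iff_true]; tauto
  rw [h2, Finset.sdiff_self, gen_empty] at h1
  have h3 : 0 < x ^ cs (⊥ : Setoid V) := by positivity
  have h4 := mul_pos h1 h3
  rwa [div_mul_cancel₀ _ h3.ne'] at h4

end Pool.Agent.Lib.MP_4a8162_co.FB
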