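import Pool.Agent.Lib.MP_4a8162_co.FB.StmB

set_option autoImplicit false

namespace Pool.Agent.Lib.MP_4a8162_co.FB

open Finset
open scoped Classical

private theorem clu_mem_cls {V : Type} [Fintype V] {π : Setoid V} {a b : V} :
    b ∈ cls π a ↔ π a b := by
  unfold cls
  rw [mem_filter]
  exact ⟨fun h => h.2, fun h => ⟨mem_univ _, h⟩⟩

private theorem clu_cls_eq {V : Type} [Fintype V] {π : Setoid V} {a b : V} (h : π a b) :
    cls π a = cls π b := by
  ext x
  rw [clu_mem_cls, clu_mem_cls]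
  exact ⟨fun hx => π.trans (π.symm h) hx, fun hx => π.trans h hx⟩

private theorem clu_cls_eq_iff {V : Type} [Fintype V] {π : Setoid V} {a b : V} :
    cls π a = cls π b ↔ π a b := by
  constructor
  · intro h
    have h1 : b ∈ cls π b := clu_mem_cls.2 (π.refl b)
    rw [← h] at h1
    exact clu_mem_cls.1 h1
  · exact clu_cls_eq

private theorem clu_cs {V : Type} [Fintype V] (π : Setoid V) :
    cs π = (univ.image (cls π)).card := by
  have h1 : Function.Bijective
      (fun q : Quotient π => (⟨Quotient.liftOn' q (cls π) (fun a b h => clu_cls_eq h), by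
        induction q using Quotient.inductionOn' with
        | h a => exact mem_image.2 ⟨a, mem_univ _, rfl⟩⟩ :
        {P : Finset V // P ∈ univ.image (cls π)})) := by
    constructor
    · intro q q' hqq
      induction q using Quotient.inductionOn' with
      | h a =>
        induction q' using Quotient.inductionOn' with
        | h b =>
          have h2 := congrArg Subtype.val hqq
          exact Quotient.sound' (clu_cls_eq_iff.1 h2)
    · rintro ⟨P, hP⟩
      obtain ⟨a, _, ha⟩ := mem_image.1 hP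
      exact ⟨Quotient.mk'' a, Subtype.ext ha⟩
  unfold cs
  rw [Nat.card_eq_of_bijective _ h1, Nat.card_eq_fintype_card, Fintype.card_coe]

private theorem clu_mem_inn {V E : Type} [Fintype V] [Fintype E] {p : E → V × V} {D : Finset E}
    {θ : Setoid V} {v h : V} {π : Setoid V} (hle : π ≤ gen p D ⊔ θ) {P : Finset V} :
    P ∈ inn p D θ v h π ↔ ∃ c, P = cls π c ∧ (gen p D ⊔ θ) v c ∧ ¬ π c h := by
  unfold inn
  rw [mem_filter, mem_image]
  constructor
  · rintro ⟨⟨c, _, rfl⟩, h1, h2⟩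
    refine ⟨c, rfl, ?_, ?_⟩
    · exact clu_mem_cls.1 (h1 (clu_mem_cls.2 (π.refl c)))
    · rwa [clu_mem_cls] at h2
  · rintro ⟨c, rfl, h1, h2⟩
    refine ⟨⟨c, mem_univ _, rfl⟩, ?_, ?_⟩
    · intro x hx
      rw [clu_mem_cls] at hx ⊢
      exact (gen p D ⊔ θ).trans h1 (hle hx)
    · rwa [clu_mem_cls]

private theorem clu_one {V E : Type} [Fintype V] [Fintype E] {p : E → V × V} {D : Finset E}
    {θ : Setoid V} {v h : V} {π : Setoid V} (hle : π ≤ gen p D ⊔ θ)
    (hvh : (gen p D ⊔ θ) v h) (hw : Wh p D θ v π) :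
    (inn p D θ v h π).card + cs (gen p D ⊔ θ) = cs π := by
  rw [clu_cs, clu_cs]
  set full := gen p D ⊔ θ with hfull
  have hC : cls full v ∈ univ.image (cls full) := mem_image.2 ⟨v, mem_univ _, rfl⟩
  have hn1 : cls π h ∉ (univ.image (cls full)).erase (cls full v) := by
    intro h1
    rw [mem_erase, mem_image] at h1
    obtain ⟨h2, b, _, hb⟩ := h1
    apply h2
    rw [← hb]
    have h3 : h ∈ cls full b := by
      rw [hb]
      exact clu_mem_cls.2 (π.refl h)
    rw [clu_mem_cls] at h3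
    exact clu_cls_eq (full.trans h3 (full.symm hvh))
  have hd : Disjoint (inn p D θ v h π)
      (insert (cls π h) ((univ.image (cls full)).erase (cls full v))) := by
    rw [Finset.disjoint_left]
    intro P hP hP'
    rw [clu_mem_inn hle] at hP
    obtain ⟨c, rfl, h1, h2⟩ := hP
    rw [mem_insert] at hP'
    rcases hP' with h3 | h3
    · exact h2 (clu_cls_eq_iff.1 h3)
    · rw [mem_erase, mem_image] at h3
      obtain ⟨h4, b, _, hb⟩ := h3
      apply h4
      rw [← hb]
      have h5 : c ∈ cls full b := by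
        rw [hb]
        exact clu_mem_cls.2 (π.refl c)
      rw [clu_mem_cls] at h5
      exact clu_cls_eq (full.trans h5 (full.symm h1))
  have hu : univ.image (cls π) = inn p D θ v h π ∪
      insert (cls π h) ((univ.image (cls full)).erase (cls full v)) := by
    ext P
    rw [mem_union, mem_insert, mem_erase, mem_image, mem_image, clu_mem_inn hle]
    constructor
    · rintro ⟨a, _, rfl⟩
      by_cases h1 : full v a
      · by_cases h2 : π a h
        · exact Or.inr (Or.inl (clu_cls_eq h2))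
        · exact Or.inl ⟨a, rfl, h1, h2⟩
      · right
        right
        have h2 : cls π a = cls full a := by
          ext x
          rw [clu_mem_cls, clu_mem_cls]
          exact ⟨fun hx => hle hx, fun hx => hw a x hx (fun h3 => h1 (full.symm h3))⟩
        refine ⟨?_, a, mem_univ _, h2.symm⟩
        rw [h2]
        intro h3
        exact h1 (full.symm (clu_cls_eq_iff.1 h3))
    · rintro (⟨c, rfl, _, _⟩ | rfl | ⟨h1, a, _, rfl⟩)
      · exact ⟨c, mem_univ _, rfl⟩
      · exact ⟨h, mem_univ _, rfl⟩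
      · refine ⟨a, mem_univ _, ?_⟩
        have h3 : ¬ full a v := fun h3 => h1 (clu_cls_eq h3)
        ext x
        rw [clu_mem_cls, clu_mem_cls]
        exact ⟨fun hx => hle hx, fun hx => hw a x hx h3⟩
  rw [hu, card_union_of_disjoint hd, card_insert_of_notMem hn1, card_erase_of_mem hC]
  have h4 : 0 < (univ.image (cls full)).card := card_pos.2 ⟨_, hC⟩
  omega

private theorem clu_mem_YY {V E : Type} [Fintype V] [Fintype E] {p : E → V × V} {D : Finset E}
    {θ : Setoid V} {v h : V} {π : Setoid V} {x : V} :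
    x ∈ YY p D θ v h π ↔ (gen p D ⊔ θ) v x ∧ ¬ π x h := by
  unfold YY
  rw [mem_sdiff, clu_mem_cls, clu_mem_cls]
  exact ⟨fun h1 => ⟨h1.1, fun h2 => h1.2 (π.symm h2)⟩, fun h1 => ⟨h1.1, fun h2 => h1.2 (π.symm h2)⟩⟩

private theorem clu_count {V E : Type} [Fintype V] [Fintype E] {p : E → V × V} {D : Finset E}
    {θ : Setoid V} {v h : V} {π : Setoid V} (hle : π ≤ gen p D ⊔ θ) (hw : Wh p D θ v π)
    {e : E} (he : e ∈ cutE p D π) :
    ((inn p D θ v h π).filter (fun P => e ∈ bd p P)).card +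
      (if e ∈ bd p (YY p D θ v h π) then 1 else 0) = 2 := by
  set full := gen p D ⊔ θ with hfull
  rw [mem_cutE] at he
  obtain ⟨heD, hπe⟩ := he
  have hfe : full (p e).1 (p e).2 := (le_sup_left : gen p D ≤ _) (gen_rel heD)
  have hv1 : full v (p e).1 := by
    by_contra h1
    exact hπe (hw _ _ hfe (fun h2 => h1 (full.symm h2)))
  have hv2 : full v (p e).2 := full.trans hv1 hfe
  have key : ∀ c, e ∈ bd p (cls π c) ↔ (π c (p e).1 ∨ π c (p e).2) := by
    intro c
    rw [mem_bd, clu_mem_cls, clu_mem_cls]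
    constructor
    · intro h1
      by_contra h2
      push Not at h2
      exact h1 ⟨fun h3 => absurd h3 h2.1, fun h3 => absurd h3 h2.2⟩
    · rintro (h1 | h1) h2
      · exact hπe (π.trans (π.symm h1) (h2.1 h1))
      · exact hπe (π.trans (π.symm (h2.2 h1)) h1)
  have hne : cls π (p e).1 ≠ cls π (p e).2 := fun h1 => hπe (clu_cls_eq_iff.1 h1)
  by_cases h1 : π (p e).1 h
  · have h2 : ¬ π (p e).2 h := fun h2 => hπe (π.trans h1 (π.symm h2))
    have h3 : e ∈ bd p (YY p D θ v h π) := by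
      rw [mem_bd, clu_mem_YY, clu_mem_YY]
      intro h3
      exact (h3.2 ⟨hv2, h2⟩).2 h1
    have h4 : (inn p D θ v h π).filter (fun P => e ∈ bd p P) = {cls π (p e).2} := by
      ext P
      rw [mem_filter, mem_singleton, clu_mem_inn hle]
      constructor
      · rintro ⟨⟨c, rfl, h5, h6⟩, h7⟩
        rw [key] at h7
        rcases h7 with h7 | h7
        · exact absurd (π.trans h7 h1) h6
        · exact clu_cls_eq h7
      · rintro rfl
        exact ⟨⟨_, rfl, hv2, h2⟩, (key _).2 (Or.inr (π.refl _))⟩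
    rw [h4, if_pos h3, card_singleton]
  · by_cases h2 : π (p e).2 h
    · have h3 : e ∈ bd p (YY p D θ v h π) := by
        rw [mem_bd, clu_mem_YY, clu_mem_YY]
        intro h3
        exact (h3.1 ⟨hv1, h1⟩).2 h2
      have h4 : (inn p D θ v h π).filter (fun P => e ∈ bd p P) = {cls π (p e).1} := by
        ext P
        rw [mem_filter, mem_singleton, clu_mem_inn hle]
        constructor
        · rintro ⟨⟨c, rfl, h5, h6⟩, h7⟩
          rw [key] at h7
          rcases h7 with h7 | h7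
          · exact clu_cls_eq h7
          · exact absurd (π.trans h7 h2) h6
        · rintro rfl
          exact ⟨⟨_, rfl, hv1, h1⟩, (key _).2 (Or.inl (π.refl _))⟩
      rw [h4, if_pos h3, card_singleton]
    · have h3 : e ∉ bd p (YY p D θ v h π) := by
        rw [mem_bd, clu_mem_YY, clu_mem_YY, not_not]
        exact ⟨fun _ => ⟨hv2, h2⟩, fun _ => ⟨hv1, h1⟩⟩
      have h4 : (inn p D θ v h π).filter (fun P => e ∈ bd p P) =
          {cls π (p e).1, cls π (p e).2} := by
        ext P
        rw [mem_filter, mem_insert, mem_singleton, clu_mem_inn hle]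
        constructor
        · rintro ⟨⟨c, rfl, h5, h6⟩, h7⟩
          rw [key] at h7
          rcases h7 with h7 | h7
          · exact Or.inl (clu_cls_eq h7)
          · exact Or.inr (clu_cls_eq h7)
        · rintro (rfl | rfl)
          · exact ⟨⟨_, rfl, hv1, h1⟩, (key _).2 (Or.inl (π.refl _))⟩
          · exact ⟨⟨_, rfl, hv2, h2⟩, (key _).2 (Or.inr (π.refl _))⟩
      rw [h4, if_neg h3, card_pair hne]

theorem p_CLU : S_CLU := by
  intro V E _ _ p D U θ v h hcfg hvU hhU hvh π hπ hw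
  have hFl := (mem_FL.1 hπ).1
  have hle : π ≤ gen p D ⊔ θ := hFl.le_full
  have hθπ : θ ≤ π := hFl.le
  have hU : ∀ x, (gen p D ⊔ θ) v x → ¬ π x h → x ∉ U := by
    intro x h1 h2 h3
    exact h2 (hθπ (hcfg.hub x h3 h hhU
      ((gen p D ⊔ θ).trans ((gen p D ⊔ θ).symm h1) hvh)))
  have hD1 : ∀ e, (p e).1 ∉ U → e ∈ D := fun e h1 =>
    (hcfg.edges e).2 (fun h2 => absurd h2 h1)
  have hD2 : ∀ e, (p e).2 ∉ U → e ∈ D := fun e h1 =>
    (hcfg.edges e).2 (fun _ h2 => absurd h2 h1)
  have h4 : ∀ P ∈ inn p D θ v h π, P.Nonempty ∧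
      ∀ e, e ∈ bd p P ↔ e ∈ cutE p D π ∧ ((p e).1 ∈ P ∨ (p e).2 ∈ P) := by
    intro P hP
    rw [clu_mem_inn hle] at hP
    obtain ⟨c, rfl, h1, h2⟩ := hP
    refine ⟨⟨c, clu_mem_cls.2 (π.refl c)⟩, fun e => ?_⟩
    rw [mem_bd, mem_cutE, clu_mem_cls, clu_mem_cls]
    have hx : ∀ x, π c x → x ∉ U := by
      intro x h3
      exact hU x ((gen p D ⊔ θ).trans h1 (hle h3)) (fun h4 => h2 (π.trans h3 h4))
    constructor
    · intro h3
      by_cases h5 : π c (p e).1
      · refine ⟨⟨hD1 e (hx _ h5), fun h6 => h3 ⟨fun _ => π.trans h5 h6, fun _ => h5⟩⟩, Or.inl h5⟩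
      · by_cases h6 : π c (p e).2
        · refine ⟨⟨hD2 e (hx _ h6), fun h7 => h5 (π.trans h6 (π.symm h7))⟩, Or.inr h6⟩
        · exact absurd ⟨fun h7 => absurd h7 h5, fun h7 => absurd h7 h6⟩ h3
    · rintro ⟨⟨_, h3⟩, h5 | h5⟩ h6
      · exact h3 (π.trans (π.symm h5) (h6.1 h5))
      · exact h3 (π.trans (π.symm (h6.2 h5)) h5)
  have hbY : bd p (YY p D θ v h π) ⊆ cutE p D π := by
    intro e he
    rw [mem_bd, clu_mem_YY, clu_mem_YY] at he
    rw [mem_cutE]
    by_cases h5 : (gen p D ⊔ θ) v (p e).1 ∧ ¬ π (p e).1 h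
    · have h6 : e ∈ D := hD1 e (hU _ h5.1 h5.2)
      refine ⟨h6, fun h7 => he ⟨fun _ => ?_, fun _ => h5⟩⟩
      exact ⟨(gen p D ⊔ θ).trans h5.1 (hle h7), fun h8 => h5.2 (π.trans h7 h8)⟩
    · by_cases h5' : (gen p D ⊔ θ) v (p e).2 ∧ ¬ π (p e).2 h
      · have h6 : e ∈ D := hD2 e (hU _ h5'.1 h5'.2)
        refine ⟨h6, fun h7 => h5 ?_⟩
        exact ⟨(gen p D ⊔ θ).trans h5'.1 (hle (π.symm h7)), fun h8 => h5'.2 (π.trans (π.symm h7) h8)⟩
      · exact absurd ⟨fun h7 => absurd h7 h5, fun h7 => absurd h7 h5'⟩ he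
  refine ⟨clu_one hle hvh hw, ?_, ?_, h4, ?_⟩
  · ext x
    rw [mem_biUnion, clu_mem_YY]
    constructor
    · rintro ⟨P, hP, hx⟩
      rw [clu_mem_inn hle] at hP
      obtain ⟨c, rfl, h1, h2⟩ := hP
      simp only [id] at hx
      rw [clu_mem_cls] at hx
      exact ⟨(gen p D ⊔ θ).trans h1 (hle hx), fun h5 => h2 (π.trans hx h5)⟩
    · rintro ⟨h1, h2⟩
      exact ⟨cls π x, (clu_mem_inn hle).2 ⟨x, rfl, h1, h2⟩, clu_mem_cls.2 (π.refl x)⟩
  · rw [Finset.disjoint_left]
    intro x hx
    rw [clu_mem_YY] at hx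
    exact hU x hx.1 hx.2
  · have h5 : ∀ P ∈ inn p D θ v h π, (bd p P).card =
        ∑ e ∈ cutE p D π, if e ∈ bd p P then 1 else 0 := by
      intro P hP
      rw [← card_filter]
      congr 1
      ext e
      rw [mem_filter]
      exact ⟨fun h6 => ⟨(((h4 P hP).2 e).1 h6).1, h6⟩, fun h6 => h6.2⟩
    have h6 : (bd p (YY p D θ v h π)).card =
        ∑ e ∈ cutE p D π, if e ∈ bd p (YY p D θ v h π) then 1 else 0 := by
      rw [← card_filter]
      congr 1
      ext e
      rw [mem_filter]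
      exact ⟨fun h6 => ⟨hbY h6, h6⟩, fun h6 => h6.2⟩
    rw [sum_congr rfl h5, sum_comm, h6, ← sum_add_distrib]
    have h7 : ∀ e ∈ cutE p D π, (∑ P ∈ inn p D θ v h π, if e ∈ bd p P then 1 else 0) +
        (if e ∈ bd p (YY p D θ v h π) then 1 else 0) = 2 := by
      intro e he
      rw [← card_filter]
      exact clu_count hle hw he
    rw [sum_congr rfl h7, sum_const, smul_eq_mul, mul_comm]

end Pool.Agent.Lib.MP_4a8162_co.FB
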