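import Pool.Agent.Lib.MP_4a8162_co.FB.StmA

set_option autoImplicit false

/-!
# MP_4a8162_co, piece [FLN]
-/

namespace Pool.Agent.Lib.MP_4a8162_co.FB

open Finset
open scoped Classical

theorem p_FLN : S_FLN := by
  intro V E _ _ p D θ v h π hπ X hX
  unfold uc at hX
  rw [mem_filter, mem_image] at hX
  obtain ⟨⟨a, -, ha⟩, -, -, e₀, he₀, hend⟩ := hX
  have hXa : ∀ b, b ∈ X ↔ π a b := by
    intro b
    rw [← ha]
    simp [cls]
  have hn : ∀ b, b ∈ (nbh p D π X : Set V) ↔ (b ∈ X ∨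
      ∃ e ∈ D, ((p e).1 ∈ X ∧ π (p e).2 b) ∨ ((p e).2 ∈ X ∧ π (p e).1 b)) := by
    intro b
    simp [nbh]
  -- the ends of an edge at `X` are joined
  have hj : ∀ e ∈ D, ((p e).1 ∈ X ∨ (p e).2 ∈ X) →
      (π ⊔ wire (nbh p D π X : Set V) ⊤) (p e).1 (p e).2 := by
    intro e he h1
    refine (le_sup_right : wire (nbh p D π X : Set V) ⊤ ≤ _) (Or.inr ⟨?_, ?_, trivial⟩)
    · rw [hn]
      rcases h1 with h1 | h1
      · exact Or.inl h1
      · exact Or.inr ⟨e, he, Or.inr ⟨h1, π.refl _⟩⟩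
    · rw [hn]
      rcases h1 with h1 | h1
      · exact Or.inr ⟨e, he, Or.inl ⟨h1, π.refl _⟩⟩
      · exact Or.inl h1
  refine ⟨?_, ?_⟩
  · refine Fl.of_eq (A := Din p D π ∪ D.filter fun e => (p e).1 ∈ X ∨ (p e).2 ∈ X)
      (union_subset (filter_subset _ _) (filter_subset _ _)) (le_antisymm ?_ ?_)
    · have h1 : π ≤ gen p (Din p D π ∪ D.filter fun e => (p e).1 ∈ X ∨ (p e).2 ∈ X) ⊔ θ := by
        have h2 : π = gen p (Din p D π) ⊔ θ := hπ
        conv_lhs => rw [h2]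
        exact sup_le_sup_right (gen_mono subset_union_left) _
      refine sup_le h1 ?_
      rw [wire_le_iff]
      have h2 : ∀ e ∈ D, ((p e).1 ∈ X ∨ (p e).2 ∈ X) →
          (gen p (Din p D π ∪ D.filter fun e => (p e).1 ∈ X ∨ (p e).2 ∈ X) ⊔ θ)
            (p e).1 (p e).2 := by
        intro e he h3
        exact (le_sup_left : gen p _ ≤ _) (gen_rel (mem_union_right _ (mem_filter.2 ⟨he, h3⟩)))
      have h3 : ∀ x ∈ (nbh p D π X : Set V),
          (gen p (Din p D π ∪ D.filter fun e => (p e).1 ∈ X ∨ (p e).2 ∈ X) ⊔ θ) a x := by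
        intro x hx
        rw [hn] at hx
        rcases hx with hx | ⟨e, he, ⟨h4, h5⟩ | ⟨h4, h5⟩⟩
        · exact h1 ((hXa x).1 hx)
        · exact Setoid.trans' _ (h1 ((hXa _).1 h4))
            (Setoid.trans' _ (h2 e he (Or.inl h4)) (h1 h5))
        · exact Setoid.trans' _ (h1 ((hXa _).1 h4))
            (Setoid.trans' _ (Setoid.symm' _ (h2 e he (Or.inr h4))) (h1 h5))
      intro x hx y hy _
      exact Setoid.trans' _ (Setoid.symm' _ (h3 x hx)) (h3 y hy)
    · refine sup_le ?_ (hπ.le.trans le_sup_left)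
      rw [gen_le_iff]
      intro e he
      rcases mem_union.1 he with he | he
      · exact (le_sup_left : π ≤ _) (mem_Din.1 he).2
      · exact hj e (mem_filter.1 he).1 (mem_filter.1 he).2
  · by_contra hc
    push Not at hc
    have h1 : π = π ⊔ wire (nbh p D π X : Set V) ⊤ := eq_of_cs_le le_sup_left hc
    have h2 := hj e₀ (mem_cutE.1 he₀).1 hend
    rw [← h1] at h2
    exact (mem_cutE.1 he₀).2 h2

end Pool.Agent.Lib.MP_4a8162_co.FB
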