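import Pool.Agent.Lib.MP_4a8162_co.FB.StmF

set_option autoImplicit false

/-!
# MP_4a8162_co, piece [MNF]
-/

namespace Pool.Agent.Lib.MP_4a8162_co.FB

open Finset
open scoped Classical

private theorem cs_le_gen_sup {V E : Type} [Fintype V] [Fintype E] (p : E → V × V) (θ : Setoid V)
    (D : Finset E) : cs θ ≤ cs (gen p D ⊔ θ) + D.card := by
  induction D using Finset.induction_on with
  | empty => rw [gen_empty, bot_sup_eq]; simp
  | insert e D he ih =>
    rw [gen_insert, card_insert_of_notMem he, sup_right_comm]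
    have h1 := cs_le_jn (p e).1 (p e).2 (gen p D ⊔ θ)
    omega

theorem p_MNF : S_THS → S_QUO → S_RED → S_ISO → S_CMS → S_CON → S_BRZ → S_MNF := by
  intro hTHS hQUO hRED hISO hCMS hCON hBRZ
  obtain ⟨T, hT, hTHS⟩ := hTHS
  refine ⟨max T 1000000, fun x hx => ?_⟩
  have hxT : T ≤ x := le_trans (le_max_left _ _) hx
  have hxM : 1000000 ≤ x := le_trans (le_max_right _ _) hx
  have hx1 : 1 < x := by linarith
  have hx0 : 0 < x := by linarith
  intro r
  induction r with
  | zero =>
    intro V E _ _ p D θ h
    unfold NlLt at h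
    have h1 := cs_le_gen_sup p θ D
    omega
  | succ r ih =>
    have key : ∀ n : ℕ, ∀ (V E : Type) [Fintype V] [Fintype E] (p : E → V × V) (D : Finset E)
        (θ : Setoid V), NlLt p D θ (r + 1) → cs θ < n → Brl p D θ → 0 < PolD p x D θ := by
      intro n
      induction n with
      | zero =>
        intro V E _ _ p D θ _ h
        omega
      | succ n ihn =>
        intro V E _ _ p D θ h1 h2 h3
        rcases Nat.lt_or_ge (cs θ) n with h4 | h4
        · exact ihn V E p D θ h1 h4 h3
        · have h5 : cs θ = n := by omega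
          obtain ⟨V', E', _, _, p', hcard, hPol, hNl, hBr⟩ := hQUO V E p D θ
          rw [hPol x]
          have hN : NlLt p' univ ⊥ (r + 1) := (hNl _).1 h1
          have hB : Brl p' univ ⊥ := hBr.1 h3
          rcases hRED x r n hx1 ih ihn V' E' p' (hcard.trans h5) hN hB with h6 | ⟨hne, htop, hdeg, hA⟩
          · exact h6
          · obtain ⟨S, hS, hSc, hIso⟩ := hISO V' E' p' x hxM hne htop hB hdeg hA
            obtain ⟨hCM, hpos⟩ := hCMS x r hx1 ih V' E' p' S hS htop hN hB hSc
            rw [hCON V' E' p' x hx0 S]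
            have h7 := hTHS _ _ (pS p' S) x (fS p' x S) hxT
              (by obtain ⟨a, ha⟩ := hS; exact ⟨⟨a, ha⟩⟩) hIso hCM hpos
            exact mul_pos (pow_pos hx0 _) h7
    intro V E _ _ p D θ h1
    by_cases h2 : Brl p D θ
    · have h3 := key (cs θ + 1) V E p D θ h1 (Nat.lt_succ_self _) h2
      exact ⟨h3.le, fun _ => h3⟩
    · refine ⟨?_, fun h => absurd h h2⟩
      unfold Brl at h2
      push Not at h2
      obtain ⟨e, he, h3⟩ := h2
      rw [hBRZ V E p x D θ e he h3]

end Pool.Agent.Lib.MP_4a8162_co.FB
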